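import Pool.Agent.NH88.SR.Stm2

/-!
# The permanent of the extended matrix
-/

namespace Pool.Agent.NH88.SR

open Finset Pool.Agent.H549R2.Convex Pool.Agent.H549R2.PM

namespace Abs

open MvPolynomial

variable (A : LLB)

/-- the ones of the matrix -/
def Ef : Finset (ℕ × ℕ) :=
  (Finset.range A.length ×ˢ Finset.range A.length).filter (fun e => ent A e.1 e.2 = true)

theorem mem_Ef (e : ℕ × ℕ) : e ∈ Ef A ↔ e.1 < A.length ∧ e.2 < A.length ∧ ent A e.1 e.2 = true := by
  rw [Ef, mem_filter, mem_product, Finset.mem_range, Finset.mem_range, and_assoc]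

theorem edg_nodup : (edg A).Nodup := by
  rw [edg, List.nodup_flatMap]
  refine ⟨fun i _ => ?_, ?_⟩
  · exact List.Nodup.map (fun a b h => (Prod.ext_iff.1 h).2) (List.Nodup.filter _ List.nodup_range)
  · refine List.Nodup.pairwise_of_forall_ne List.nodup_range fun i _ j _ hij => ?_
    rw [Function.onFun, List.disjoint_left]
    intro e he he'
    rw [List.mem_map] at he he'
    obtain ⟨a, _, rfl⟩ := he
    obtain ⟨b, _, h⟩ := he'
    exact hij (Prod.ext_iff.1 h).1.symm

theorem edg_toFinset : (edg A).toFinset = Ef A := by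
  ext e
  rw [List.mem_toFinset, mem_edg, mem_Ef]

theorem rdeg_eq (i : ℕ) (hi : i < A.length) : rdeg A i = ((Ef A).filter (fun e => e.1 = i)).card := by
  rw [rdeg, ← List.toFinset_card_of_nodup (List.Nodup.filter _ List.nodup_range)]
  refine Finset.card_bij (fun j _ => (i, j)) ?_ ?_ ?_
  · intro j hj
    rw [List.mem_toFinset, List.mem_filter, List.mem_range] at hj
    rw [mem_filter, mem_Ef]
    exact ⟨⟨hi, hj.1, hj.2⟩, rfl⟩
  · intro j _ j' _ h
    exact (Prod.ext_iff.1 h).2
  · rintro ⟨a, b⟩ he
    rw [mem_filter, mem_Ef] at he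
    obtain ⟨⟨h1, h2, h3⟩, h4⟩ := he
    simp only at h4
    subst h4
    exact ⟨b, by rw [List.mem_toFinset, List.mem_filter, List.mem_range]; exact ⟨h2, h3⟩, rfl⟩

/-- the key of a column -/
def key (y : ℕ × ℕ) : ℕ := if y.1 = 0 then y.2 else A.length + y.2

theorem mem_cols (y : ℕ × ℕ) (hy : y ∈ cols A) : y.2 < A.length ∧ (y.1 = 0 ∨ y.1 = 1) := by
  rw [cols, List.mem_append, List.mem_map, List.mem_flatMap] at hy
  rcases hy with ⟨j, hj, rfl⟩ | ⟨i, hi, hy⟩
  · exact ⟨List.mem_range.1 hj, Or.inl rfl⟩
  · rw [List.mem_map] at hy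
    obtain ⟨_, _, rfl⟩ := hy
    exact ⟨List.mem_range.1 hi, Or.inr rfl⟩

theorem inc_iff (e y : ℕ × ℕ) (he : e ∈ edg A) (hy : y ∈ cols A) :
    inc e y = true ↔ key A y ∈ ({e.2, A.length + e.1} : Finset ℕ) := by
  rw [mem_edg] at he
  have h1 := mem_cols A y hy
  rw [mem_insert, mem_singleton, inc, key]
  rcases h1.2 with h | h
  · rw [if_pos h, if_pos h, decide_eq_true_eq]
    omega
  · rw [if_neg (by omega), if_neg (by omega), decide_eq_true_eq]
    omega

theorem keys_eq : (cols A).map (key A) = List.range A.length ++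
    (List.range A.length).flatMap (fun i => (List.range (rdeg A i - 1)).map (fun _ => A.length + i)) := by
  rw [cols, List.map_append, List.map_map, List.map_flatMap]
  congr 1
  · conv_rhs => rw [← List.map_id (List.range A.length)]
    refine List.map_congr_left fun j _ => ?_
    simp [key]
  · simp [key]

theorem sum_lr (f : ℕ → ℕ) (m : ℕ) : ((List.range m).map f).sum = ∑ i ∈ Finset.range m, f i := by
  induction m with
  | zero => simp
  | succ m ih => rw [List.range_succ, List.map_append, List.sum_append, ih, Finset.sum_range_succ]; simp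

theorem prod_lr (f : ℕ → ℕ) (m : ℕ) : ((List.range m).map f).prod = ∏ i ∈ Finset.range m, f i := by
  induction m with
  | zero => simp
  | succ m ih => rw [List.range_succ, List.map_append, List.prod_append, ih, Finset.prod_range_succ]; simp

theorem count_flat (f : ℕ → ℕ) (c m k : ℕ) :
    ((List.range m).flatMap (fun i => (List.range (f i)).map (fun _ => c + i))).count (c + k) =
      if k < m then f k else 0 := by
  rw [List.count_flatMap]
  have h1 : ∀ i, ((List.range (f i)).map (fun _ => c + i)).count (c + k) = if i = k then f k else 0 := by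
    intro i
    rw [List.map_const', List.count_replicate, List.length_range]
    by_cases h : i = k
    · subst h; simp
    · rw [if_neg h, if_neg]
      simp only [beq_iff_eq]
      omega
  have h2 : (List.count (c + k) ∘ fun i => (List.range (f i)).map (fun _ => c + i)) =
      fun i => if i = k then f k else 0 := funext h1
  rw [h2, sum_lr, Finset.sum_ite_eq']
  simp only [Finset.mem_range]

theorem count_key_lt (j : ℕ) (hj : j < A.length) : ((cols A).map (key A)).count j = 1 := by
  rw [keys_eq, List.count_append, List.count_eq_one_of_mem List.nodup_range (List.mem_range.2 hj),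
    List.count_eq_zero_of_not_mem]
  intro h
  rw [List.mem_flatMap] at h
  obtain ⟨i, _, h⟩ := h
  rw [List.mem_map] at h
  obtain ⟨_, _, h⟩ := h
  omega

theorem count_key_ge (i : ℕ) (hi : i < A.length) :
    ((cols A).map (key A)).count (A.length + i) = rdeg A i - 1 := by
  rw [keys_eq, List.count_append, count_flat, if_pos hi, List.count_eq_zero_of_not_mem, zero_add]
  rw [List.mem_range]
  omega

theorem count_key_big (k : ℕ) (hk : 2 * A.length ≤ k) : ((cols A).map (key A)).count k = 0 := by
  rw [List.count_eq_zero]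
  intro h
  rw [List.mem_map] at h
  obtain ⟨y, hy, h⟩ := h
  have h1 := mem_cols A y hy
  rw [key] at h
  split_ifs at h <;> omega

/-- the exponent -/
noncomputable def tgt : ℕ →₀ ℕ := (((cols A).map (key A)).map (fun κ => Finsupp.single κ 1)).sum

theorem tgt_apply (k : ℕ) : tgt A k = ((cols A).map (key A)).count k := by
  rw [tgt]
  induction (cols A).map (key A) with
  | nil => simp
  | cons a l ih =>
    rw [List.map_cons, List.sum_cons, Finsupp.add_apply, ih, List.count_cons, Finsupp.single_apply]
    simp only [beq_iff_eq]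
    ring

/-- the exponent of a set of ones -/
noncomputable def expo (S : Finset (ℕ × ℕ)) : ℕ →₀ ℕ :=
  ∑ e ∈ S, Finsupp.single e.2 1 + ∑ e ∈ Ef A \ S, Finsupp.single (A.length + e.1) 1

theorem expo_lt (S : Finset (ℕ × ℕ)) (j : ℕ) (hj : j < A.length) :
    expo A S j = (S.filter (fun e => e.2 = j)).card := by
  rw [expo, Finsupp.add_apply, Finsupp.finsetSum_apply, Finsupp.finsetSum_apply,
    Finset.sum_eq_zero (s := Ef A \ S), add_zero, Finset.card_filter]
  · exact Finset.sum_congr rfl fun e _ => by rw [Finsupp.single_apply]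
  · intro e _
    rw [Finsupp.single_apply, if_neg (by omega)]

theorem expo_ge (S : Finset (ℕ × ℕ)) (hS : S ⊆ Ef A) (i : ℕ) (hi : i < A.length) :
    expo A S (A.length + i) + (S.filter (fun e => e.1 = i)).card = rdeg A i := by
  have h1 : ((Ef A \ S).filter (fun e => e.1 = i)).card + (S.filter (fun e => e.1 = i)).card =
      ((Ef A).filter (fun e => e.1 = i)).card := by
    rw [← Finset.card_union_of_disjoint, ← Finset.filter_union, Finset.sdiff_union_of_subset hS]
    exact Finset.disjoint_filter_filter sdiff_disjoint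
  rw [rdeg_eq A i hi, ← h1]
  congr 1
  rw [expo, Finsupp.add_apply, Finsupp.finsetSum_apply, Finsupp.finsetSum_apply,
    Finset.sum_eq_zero (s := S), zero_add, Finset.card_filter]
  · refine Finset.sum_congr rfl fun e _ => ?_
    rw [Finsupp.single_apply]
    simp only [Nat.add_left_cancel_iff]
  · intro e he
    have := (mem_Ef A e).1 (hS he)
    rw [Finsupp.single_apply, if_neg (by omega)]

theorem expo_big (S : Finset (ℕ × ℕ)) (hS : S ⊆ Ef A) (k : ℕ) (hk : 2 * A.length ≤ k) :
    expo A S k = 0 := by
  have h1 : ∑ e ∈ S, (Finsupp.single e.2 1 : ℕ →₀ ℕ) k = 0 := by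
    refine Finset.sum_eq_zero fun e he => ?_
    have := (mem_Ef A e).1 (hS he)
    rw [Finsupp.single_apply, if_neg (by omega)]
  have h2 : ∑ e ∈ Ef A \ S, (Finsupp.single (A.length + e.1) 1 : ℕ →₀ ℕ) k = 0 := by
    refine Finset.sum_eq_zero fun e he => ?_
    have := (mem_Ef A e).1 (mem_sdiff.1 he).1
    rw [Finsupp.single_apply, if_neg (by omega)]
  rw [expo, Finsupp.add_apply, Finsupp.finsetSum_apply, Finsupp.finsetSum_apply, h1, h2]

theorem expo_iff (hd : ∀ i < A.length, 1 ≤ rdeg A i) (S : Finset (ℕ × ℕ)) (hS : S ⊆ Ef A) :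
    expo A S = tgt A ↔ (∀ j < A.length, (S.filter (fun e => e.2 = j)).card = 1) ∧
      ∀ i < A.length, (S.filter (fun e => e.1 = i)).card = 1 := by
  constructor
  · intro h
    constructor
    · intro j hj
      rw [← expo_lt A S j hj, h, tgt_apply, count_key_lt A j hj]
    · intro i hi
      have h1 := expo_ge A S hS i hi
      rw [h, tgt_apply, count_key_ge A i hi] at h1
      have := hd i hi
      omega
  · rintro ⟨h1, h2⟩
    ext k
    rw [tgt_apply]
    rcases lt_or_ge k A.length with hk | hk
    · rw [expo_lt A S k hk, count_key_lt A k hk, h1 k hk]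
    · rcases lt_or_ge k (2 * A.length) with hk2 | hk2
      · obtain ⟨i, rfl⟩ := Nat.exists_eq_add_of_le hk
        have hi : i < A.length := by omega
        have h3 := expo_ge A S hS i hi
        rw [count_key_ge A i hi]
        rw [h2 i hi] at h3
        omega
      · rw [expo_big A S hS k hk2, count_key_big A k hk2]

theorem card_S (hsq : ∀ r ∈ A, r.length = A.length) :
    ((Ef A).powerset.filter (fun S => (∀ j < A.length, (S.filter (fun e => e.2 = j)).card = 1) ∧
      ∀ i < A.length, (S.filter (fun e => e.1 = i)).card = 1)).card = F A := by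
  rw [F_eq_card' A hsq A.length rfl]
  symm
  refine Finset.card_bij (fun σ _ => univ.image (fun i : Fin A.length => (i.val, (σ i).val))) ?_ ?_ ?_
  · intro σ hσ
    rw [mem_filter] at hσ
    rw [mem_filter, mem_powerset]
    refine ⟨?_, ?_, ?_⟩
    · intro e he
      rw [mem_image] at he
      obtain ⟨i, _, rfl⟩ := he
      rw [mem_Ef]
      exact ⟨i.2, (σ i).2, hσ.2 i⟩
    · intro j hj
      rw [Finset.card_eq_one]
      refine ⟨((σ.symm ⟨j, hj⟩).val, j), ?_⟩
      ext e
      rw [mem_filter, mem_image, mem_singleton]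
      constructor
      · rintro ⟨⟨i, _, rfl⟩, h⟩
        simp only at h
        have : σ i = ⟨j, hj⟩ := Fin.ext h
        rw [← this, Equiv.symm_apply_apply]
        simp [h]
      · rintro rfl
        exact ⟨⟨σ.symm ⟨j, hj⟩, mem_univ _, by rw [Equiv.apply_symm_apply]⟩, rfl⟩
    · intro i hi
      rw [Finset.card_eq_one]
      refine ⟨(i, (σ ⟨i, hi⟩).val), ?_⟩
      ext e
      rw [mem_filter, mem_image, mem_singleton]
      constructor
      · rintro ⟨⟨i', _, rfl⟩, h⟩
        simp only at h
        subst h
        rfl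
      · rintro rfl
        exact ⟨⟨⟨i, hi⟩, mem_univ _, rfl⟩, rfl⟩
  · intro σ _ σ' _ h
    ext i
    have h1 : (i.val, (σ i).val) ∈ univ.image (fun i : Fin A.length => (i.val, (σ' i).val)) := by
      rw [← h]
      exact mem_image_of_mem _ (mem_univ _)
    rw [mem_image] at h1
    obtain ⟨i', _, h1⟩ := h1
    rw [Prod.mk.injEq] at h1
    have h2 : i' = i := Fin.ext h1.1
    rw [← h1.2, h2]
  · intro S hS
    rw [mem_filter, mem_powerset] at hS
    obtain ⟨hS, h1, h2⟩ := hS
    have h3 : ∀ i : Fin A.length, ∃ j : Fin A.length, S.filter (fun e => e.1 = i.val) = {(i.val, j.val)} := by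
      intro i
      obtain ⟨e, he⟩ := Finset.card_eq_one.1 (h2 i.val i.2)
      have h4 : e ∈ S.filter (fun e => e.1 = i.val) := by rw [he]; exact mem_singleton_self _
      rw [mem_filter] at h4
      have h5 := (mem_Ef A e).1 (hS h4.1)
      refine ⟨⟨e.2, h5.2.1⟩, ?_⟩
      rw [he]
      congr 1
      exact Prod.ext h4.2 rfl
    choose σ hσ using h3
    have hm : ∀ i : Fin A.length, (i.val, (σ i).val) ∈ S := by
      intro i
      have h4 : (i.val, (σ i).val) ∈ S.filter (fun e => e.1 = i.val) := by
        rw [hσ i]; exact mem_singleton_self _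
      exact (mem_filter.1 h4).1
    have hinj : Function.Injective σ := by
      intro i i' h
      obtain ⟨e, he⟩ := Finset.card_eq_one.1 (h1 (σ i).val (σ i).2)
      have h4 : (i.val, (σ i).val) ∈ S.filter (fun e => e.2 = (σ i).val) :=
        mem_filter.2 ⟨hm i, rfl⟩
      have h5 : (i'.val, (σ i').val) ∈ S.filter (fun e => e.2 = (σ i).val) :=
        mem_filter.2 ⟨hm i', by rw [h]⟩
      rw [he, mem_singleton] at h4 h5
      have h6 := h4.trans h5.symm
      exact Fin.ext (Prod.ext_iff.1 h6).1
    refine ⟨Equiv.ofBijective σ (Finite.injective_iff_bijective.1 hinj), ?_, ?_⟩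
    · rw [mem_filter]
      refine ⟨mem_univ _, fun i => ?_⟩
      exact ((mem_Ef A _).1 (hS (hm i))).2.2
    · ext e
      rw [mem_image]
      constructor
      · rintro ⟨i, _, rfl⟩
        exact hm i
      · intro he
        have h5 := (mem_Ef A e).1 (hS he)
        refine ⟨⟨e.1, h5.1⟩, mem_univ _, ?_⟩
        have h6 : e ∈ S.filter (fun e' => e'.1 = (⟨e.1, h5.1⟩ : Fin A.length).val) :=
          mem_filter.2 ⟨he, rfl⟩
        rw [hσ, mem_singleton] at h6
        exact h6.symm

theorem coeff_eq (hsq : ∀ r ∈ A, r.length = A.length) (hd : ∀ i < A.length, 1 ≤ rdeg A i) :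
    coeff (tgt A) (∏ e ∈ Ef A, (X e.2 + X (A.length + e.1) : MvPolynomial ℕ ℤ)) = (F A : ℤ) := by
  have h1 : ∀ S : Finset (ℕ × ℕ), (∏ e ∈ S, X e.2) * ∏ e ∈ Ef A \ S, X (A.length + e.1) =
      (monomial (expo A S) 1 : MvPolynomial ℕ ℤ) := by
    intro S
    rw [expo, ← mul_one (1 : ℤ), ← monomial_mul, monomial_sum_one, monomial_sum_one]
    rfl
  rw [Finset.prod_add, coeff_sum, ← card_S A hsq, Finset.card_filter]
  push_cast
  refine Finset.sum_congr rfl fun S hS => ?_
  rw [h1, coeff_monomial]
  simp only [expo_iff A hd S (mem_powerset.1 hS)]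

end Abs

open Abs MvPolynomial in
/-- C5 -/
theorem s_abs : S_abs := by
  rintro A ⟨-, hsq, hd⟩
  have hlen : (cols A).length = (edg A).length := by
    rw [cols, edg, List.length_append, List.length_flatMap, List.length_flatMap, List.length_map,
      List.length_range]
    simp only [List.length_map, List.length_range]
    have h1 : ∀ i ∈ List.range A.length,
        ((List.range A.length).filter (fun j => ent A i j)).length = (rdeg A i - 1) + 1 := by
      intro i hi
      have := hd i (List.mem_range.1 hi)
      rw [Nat.sub_add_cancel this]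
      rfl
    rw [List.map_congr_left h1, sum_lr, sum_lr, Finset.sum_add_distrib, Finset.sum_const,
      Finset.card_range]
    simp
    ring
  refine ⟨hlen, ?_⟩
  set n := (edg A).length with hn
  have hkl : ((cols A).map (key A)).length = n := by rw [List.length_map, hlen]
  -- the permanent as a number of permutations
  have h1 := card_perm_eq_coeff (C := Fin n)
    (fun c => {((edg A).getD c.val (0, 0)).2, A.length + ((edg A).getD c.val (0, 0)).1})
    (fun c => ((cols A).map (key A)).getD c.val 0)
  have h2 : (Matrix.of fun i j : Fin n => if inc ((edg A).getD i (0, 0)) ((cols A).getD j (0, 0))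
      then (1 : ℕ) else 0).permanent = (univ.filter (fun e : Equiv.Perm (Fin n) => ∀ c : Fin n,
        ((cols A).map (key A)).getD (e c).val 0 ∈ ({((edg A).getD c.val (0, 0)).2,
          A.length + ((edg A).getD c.val (0, 0)).1} : Finset ℕ))).card := by
    rw [← Matrix.permanent_transpose, Matrix.permanent, Finset.card_filter]
    refine Finset.sum_congr rfl fun σ _ => ?_
    simp only [Matrix.transpose_apply, Matrix.of_apply]
    rw [Finset.prod_boole]
    congr 1
    simp only [mem_univ, true_implies]
    refine propext (forall_congr' fun c => ?_)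
    have hc : (c : ℕ) < (edg A).length := c.2
    have hc2 : (σ c : ℕ) < (cols A).length := by rw [hlen]; exact (σ c).2
    have hc3 : (σ c : ℕ) < ((cols A).map (key A)).length := by rw [hkl]; exact (σ c).2
    rw [List.getD_eq_getElem _ _ hc, List.getD_eq_getElem _ _ hc2, List.getD_eq_getElem _ _ hc3,
      List.getElem_map]
    exact inc_iff A _ _ (List.getElem_mem _) (List.getElem_mem _)
  -- the product of the factorials
  have h3 : (∏ k ∈ univ.image (fun c : Fin n => ((cols A).map (key A)).getD c.val 0),
      ((Fintype.card {c : Fin n // ((cols A).map (key A)).getD c.val 0 = k}).factorial : ℤ)) =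
      (rfac A : ℤ) := by
    have e1 : (∏ k ∈ univ.image (fun c : Fin n => ((cols A).map (key A)).getD c.val 0),
      ((Fintype.card {c : Fin n // ((cols A).map (key A)).getD c.val 0 = k}).factorial : ℤ)) =
        ∏ k ∈ Finset.range (A.length + A.length), ((((cols A).map (key A)).count k).factorial : ℤ) := by
      rw [image_getD _ n hkl]
      rw [Finset.prod_subset (s₂ := Finset.range (A.length + A.length))]
      · exact Finset.prod_congr rfl fun k _ => by rw [card_getD _ n hkl]
      · intro k hk
        rw [Finset.mem_range]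
        by_contra hcon
        have := count_key_big A k (by omega)
        rw [List.count_eq_zero] at this
        exact this (List.mem_toFinset.1 hk)
      · intro k _ hk
        rw [card_getD _ n hkl, List.count_eq_zero_of_not_mem]
        · simp
        · exact fun h => hk (List.mem_toFinset.2 h)
    rw [e1, Finset.prod_range_add, Finset.prod_eq_one, one_mul, rfac, prod_lr]
    · push_cast
      exact Finset.prod_congr rfl fun i hi => by rw [count_key_ge A i (Finset.mem_range.1 hi)]
    · intro j hj
      rw [count_key_lt A j (Finset.mem_range.1 hj)]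
      simp
  have h4 : (∑ c : Fin n, (Finsupp.single (((cols A).map (key A)).getD c.val 0) 1 : ℕ →₀ ℕ)) =
      tgt A := sum_getD _ n hkl (fun κ => (Finsupp.single κ 1 : ℕ →₀ ℕ)) 0
  have h5 : ∏ c : Fin n, ∑ k ∈ ({((edg A).getD c.val (0, 0)).2,
      A.length + ((edg A).getD c.val (0, 0)).1} : Finset ℕ), (X k : MvPolynomial ℕ ℤ) =
      ∏ e ∈ Ef A, (X e.2 + X (A.length + e.1)) := by
    rw [← edg_toFinset, List.prod_toFinset _ (edg_nodup A), ← prod_getD (edg A) n rfl
      (fun e => (X e.2 + X (A.length + e.1) : MvPolynomial ℕ ℤ)) (0, 0)]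
    refine Finset.prod_congr rfl fun c _ => ?_
    rw [Finset.sum_insert, Finset.sum_singleton]
    rw [mem_singleton]
    have hc : (c : ℕ) < (edg A).length := c.2
    rw [List.getD_eq_getElem _ _ hc]
    have := (mem_edg A _).1 (List.getElem_mem hc)
    omega
  rw [h3, h4, h5, coeff_eq A hsq hd] at h1
  have h6 : ((Matrix.of fun i j : Fin n => if inc ((edg A).getD i (0, 0)) ((cols A).getD j (0, 0))
      then (1 : ℕ) else 0).permanent : ℤ) = (rfac A : ℤ) * (F A : ℤ) := by
    rw [h2, ← h1]
    congr!
  rw [mul_comm]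
  exact_mod_cast h6

end Pool.Agent.NH88.SR
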