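import Pool.Agent.NH88.SR.AsmA

/-!
# The permutations of the reduction: cycle structure
-/

namespace Pool.Agent.NH88.SR

open Finset Pool.Agent.TH700

theorem s_core (h1 : S_perm) (h2 : S_cross) (h3 : S_word) (h4 : S_ns) (h6 : S_cu)
    (h7 : S_pos) (cs : List (ℕ × ℕ)) (m : ℕ) (hcs : cs ≠ []) (hev : Even cs.length)
    (hm : Even m) : ∃ (n : ℕ) (C : Cyc n), (perm cs m).length = n ∧
      Cyc.Inv C C.V (ext (perm cs m)) ∧ 0 < chn C.D.M C.V.card C.V := by
  obtain ⟨hlet, hd, -⟩ := h3 cs m
  have h0 := word_ne (m := m) hcs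
  set w := word cs m with hw
  set C := cycW w hd h0 with hC
  set f : ℕ → Option (ℕ × ℕ) := fun e => vx (w.getD e (0, 0)) with hf
  obtain ⟨c1, c2⟩ := h2 w hd h0
  have hVlt : ∀ e ∈ C.V, e < w.length := by
    intro e he
    have := (Cyc.mem_V.1 he).1
    have := List.length_pos_iff.2 h0
    omega
  have hVmem : ∀ e ∈ C.V, w.getD e (0, 0) ∈ w := by
    intro e he
    rw [List.getD_eq_getElem _ _ (hVlt e he)]
    exact List.getElem_mem _
  have hinj : ∀ u ∈ C.V, ∀ v ∈ C.V, w.getD u (0, 0) = w.getD v (0, 0) → u = v := by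
    intro u hu v hv huv
    by_contra hne
    exact (c1 u hu v hv hne).1 huv
  have hns := h4 cs m hd h0
  -- the image
  have hS : sS f C.V = Ws cs := by
    ext x
    rw [mem_sS, mem_Ws]
    constructor
    · rintro ⟨e, he, hx⟩
      have hx' := vx_some.1 hx
      have := (hlet _).1 (hVmem e he)
      rw [hx'] at this
      rcases this with ⟨h, _⟩ | ⟨c, hc, h, h'⟩
      · simp at h
      · simp only at h h'
        have : c = x.1 := by omega
        subst this
        exact ⟨hc, h'⟩
    · rintro ⟨h, h'⟩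
      have hx : ((x.1 + 1, x.2) : Lt) ∈ w := (hlet _).2 (Or.inr ⟨x.1, h, rfl, h'⟩)
      obtain ⟨u, hu, hu'⟩ := c2 _ hx
      exact ⟨u, hu, by rw [hf]; simp only; rw [hu']; exact vx_some.2 rfl⟩
  have hJ : jj f C.V = m := by
    unfold jj
    have : (C.V.filter (fun e => f e = none)).card = (range m).card := by
      refine Finset.card_bij (fun e _ => (w.getD e (0, 0)).2) ?_ ?_ ?_
      · intro e he
        obtain ⟨he, he'⟩ := Finset.mem_filter.1 he
        have h0' := vx_none.1 he'
        rcases (hlet _).1 (hVmem e he) with ⟨_, h⟩ | ⟨c, _, h, _⟩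
        · exact Finset.mem_range.2 h
        · rw [h0'] at h; omega
      · intro e he e' he' heq
        obtain ⟨he, ha⟩ := Finset.mem_filter.1 he
        obtain ⟨he', ha'⟩ := Finset.mem_filter.1 he'
        exact hinj e he e' he' (Prod.ext ((vx_none.1 ha).trans (vx_none.1 ha').symm) heq)
      · intro i hi
        have hx : ((0, i) : Lt) ∈ w := (hlet _).2 (Or.inl ⟨rfl, Finset.mem_range.1 hi⟩)
        obtain ⟨u, hu, hu'⟩ := c2 _ hx
        refine ⟨u, Finset.mem_filter.2 ⟨hu, ?_⟩, ?_⟩
        · exact vx_none.2 (by rw [hu'])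
        · rw [hu']
    rw [this, card_range]
  have hinj' : ∀ u ∈ C.V, ∀ v ∈ C.V, f u = f v → f u ≠ none → u = v := by
    intro u hu v hv huv hne
    obtain ⟨x, hx⟩ := Option.ne_none_iff_exists'.1 hne
    have e1 := vx_some.1 hx
    have e2 := vx_some.1 (huv ▸ hx : f v = some x)
    exact hinj u hu v hv (e1.trans e2.symm)
  have hcard : C.V.card = (Ws cs).card + m := by
    rw [← Finset.card_filter_add_card_filter_not (s := C.V) (fun e => f e = none)]
    have e1 : (C.V.filter (fun e => f e = none)).card = m := hJ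
    have e2 : (C.V.filter (fun e => ¬ f e = none)).card = (Ws cs).card := by
      rw [← hS]
      refine Finset.card_bij (fun e _ => (f e).getD (0, 0)) ?_ ?_ ?_
      · intro e he
        obtain ⟨he, he'⟩ := Finset.mem_filter.1 he
        obtain ⟨x, hx⟩ := Option.ne_none_iff_exists'.1 he'
        rw [mem_sS]
        exact ⟨e, he, by rw [hx]; rfl⟩
      · intro e he e' he' heq
        obtain ⟨he, ha⟩ := Finset.mem_filter.1 he
        obtain ⟨he', ha'⟩ := Finset.mem_filter.1 he'
        refine hinj' e he e' he' ?_ ha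
        obtain ⟨x, hx⟩ := Option.ne_none_iff_exists'.1 ha
        obtain ⟨x', hx'⟩ := Option.ne_none_iff_exists'.1 ha'
        rw [hx, hx'] at heq ⊢
        simpa using heq
      · intro x hx
        obtain ⟨e, he, hex⟩ := mem_sS.1 hx
        exact ⟨e, Finset.mem_filter.2 ⟨he, by rw [hex]; simp⟩, by rw [hex]; rfl⟩
    omega
  obtain ⟨p1, p2⟩ := h7 cs m hev hm
  have hpar : par m = false := by
    unfold par
    have := Nat.even_iff.1 hm
    simp [this]
  have hNSV : NS C.D.M C.V := by
    have := (hns C.V (Finset.Subset.refl _)).2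
    rw [hS, hJ, hpar] at this
    exact this p1
  obtain ⟨q1, q2⟩ := h1 w hd h0 hNSV
  have hcu := h6 C.D.M C.V f (okA cs) hinj' hns C.V (Finset.Subset.refl _)
  rw [hS, hJ, hcard] at hcu
  have hpos : 0 < chn C.D.M C.V.card C.V := by
    rw [hcard, hcu]
    exact Nat.mul_pos (Nat.factorial_pos _) p2
  have hlen : (permW w).length = w.length - 1 := by simp [permW]
  exact ⟨_, C, hlen, q2, hpos⟩

end Pool.Agent.NH88.SR
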