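import Pool.Agent.NH88.SR.Stm1

/-!
# Assembly of side B
-/

namespace Pool.Agent.NH88.SR

open Finset Pool.Agent.TH700

theorem card_Ws (cs : List (ℕ × ℕ)) : (Ws cs).card = ∑ c ∈ range cs.length, Kc cs c := by
  unfold Ws
  rw [Finset.card_biUnion]
  · refine Finset.sum_congr rfl fun c _ => ?_
    rw [Finset.card_image_of_injective, Finset.card_range]
    intro i j h
    simpa using h
  · intro c _ d _ hcd
    rw [Function.onFun, Finset.disjoint_left]
    intro x hx hx'
    simp only [mem_image] at hx hx'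
    obtain ⟨i, _, rfl⟩ := hx
    obtain ⟨j, _, h⟩ := hx'
    exact hcd (congrArg Prod.fst h).symm

theorem s_B (h1 : S_lead) (h2 : S_vec) (h3 : S_haf) : Stm_B := by
  intro cs hev
  rw [h1 cs hev, h2 cs hev]
  have := h3 cs hev
  rw [card_Ws]
  push_cast
  exact this

end Pool.Agent.NH88.SR
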