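import Pool.Agent.NH88.SR.Stm2
import Pool.Agent.NH88.SR.AsmB

/-!
# Assembly of side C
-/

namespace Pool.Agent.NH88.SR

open Finset Pool.Agent.TH700 Pool.Agent.H549R2.Convex Pool.Agent.H549R2.PM Pool.Agent.NPC
  Pool.Agent.NPC.Cnt Pool.Agent.NPC.H549PM

theorem sum_map_range {M : Type*} [AddCommMonoid M] (cs : List (ℕ × ℕ)) (g : ℕ × ℕ → M) :
    (cs.map g).sum = ∑ c ∈ range cs.length, g (cs.getD c (0, 0)) := by
  induction cs with
  | nil => simp
  | cons x l ih =>
    rw [List.map_cons, List.sum_cons, List.length_cons, Finset.sum_range_succ', ih, add_comm]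
    simp

theorem prod_map_range {M : Type*} [CommMonoid M] (cs : List (ℕ × ℕ)) (g : ℕ × ℕ → M) :
    (cs.map g).prod = ∏ c ∈ range cs.length, g (cs.getD c (0, 0)) := by
  induction cs with
  | nil => simp
  | cons x l ih =>
    rw [List.map_cons, List.prod_cons, List.length_cons, Finset.prod_range_succ', ih, mul_comm]
    simp

theorem DD_eq (cs : List (ℕ × ℕ)) : DD cs = (Ws cs).card - cs.length / 2 := by
  rw [card_Ws, DD, sum_map_range]
  rfl

theorem facs_eq (cs : List (ℕ × ℕ)) : ((facs cs : ℕ) : ℚ) =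
    ∏ c ∈ range cs.length, ((aa cs c).factorial * (bb cs c).factorial : ℚ) := by
  rw [facs, prod_map_range]
  push_cast
  rfl

theorem haf_nonneg (w : ℕ → ℕ → ℚ) (hw : ∀ c d, 0 ≤ w c d) : ∀ (r : ℕ) (E : Finset ℕ),
    0 ≤ haf w r E := by
  intro r
  induction r with
  | zero => intro E; simp [haf]
  | succ r ih =>
    intro E
    rw [haf]
    split_ifs with h
    · exact Finset.sum_nonneg fun j _ => mul_nonneg (hw _ _) (ih _)
    · exact le_refl _

theorem s_C (h1 : Stm_B) (h2 : S_wt) (h3 : S_hp) (h4 : S_hs) (h5 : S_dig) (h6 : S_abs) :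
    Stm_C := by
  intro A p hA hp hpA
  have : Fact p.Prime := ⟨hp⟩
  obtain ⟨hcl, hperm⟩ := h6 A hA
  set ne := (edg A).length with hne
  set cs := cmps p A with hcs
  have hlen : cs.length = 2 * ne := by
    rw [hcs, cmps, List.length_append, List.length_map, List.length_map, hcl]
    omega
  have hN : 1 ≤ A.length := List.length_pos_iff.2 hA.1
  obtain ⟨d1, d2, d3, d4⟩ := h5 p A.length hp hpA hN
  obtain ⟨-, w, hw⟩ := h2 p 4 hp (by norm_num)
  have hq : 1 ≤ p ^ 4 := Nat.one_le_pow _ _ hp.pos
  -- edges and columns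
  have hedg : ∀ i < ne, ((edg A).getD i (0, 0)).1 < A.length ∧
      ((edg A).getD i (0, 0)).2 < A.length := by
    intro i hi
    have : (edg A).getD i (0, 0) ∈ edg A := by
      rw [List.getD_eq_getElem _ _ hi]
      exact List.getElem_mem _
    have := (mem_edg A _).1 this
    exact ⟨this.1, this.2.1⟩
  have hcol : ∀ j < ne, ((cols A).getD j (0, 0)).2 < A.length := by
    intro j hj
    have : (cols A).getD j (0, 0) ∈ cols A := by
      rw [List.getD_eq_getElem _ _ (by omega)]
      exact List.getElem_mem _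
    generalize (cols A).getD j (0, 0) = y at this ⊢
    rw [cols, List.mem_append, List.mem_map, List.mem_flatMap] at this
    rcases this with ⟨x, hx, h⟩ | ⟨x, hx, h⟩
    · rw [← h]; exact List.mem_range.1 hx
    · rw [List.mem_map] at h
      obtain ⟨_, _, h⟩ := h
      rw [← h]; exact List.mem_range.1 hx
  have hrow : ∀ i < ne, cs.getD i (0, 0) = (p ^ 4 - 1 - rowN p ((edg A).getD i (0, 0)), 0) := by
    intro i hi
    rw [hcs, cmps, List.getD_append _ _ _ _ (by rw [List.length_map]; exact hi),
      List.getD_eq_getElem _ _ (by rw [List.length_map]; exact hi), List.getElem_map,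
      List.getD_eq_getElem _ _ hi]
  have hco : ∀ j < ne, cs.getD (ne + j) (0, 0) = (0, colN p ((cols A).getD j (0, 0))) := by
    intro j hj
    rw [hcs, cmps, List.getD_append_right _ _ _ _ (by rw [List.length_map]; omega),
      List.length_map, Nat.add_sub_cancel_left,
      List.getD_eq_getElem _ _ (by rw [List.length_map, hcl]; exact hj), List.getElem_map,
      List.getD_eq_getElem _ _ (by rw [hcl]; exact hj)]
  have hbd : ∀ c < 2 * ne, aa cs c + bb cs c ≤ p ^ 4 - 1 := by
    intro c hc
    unfold aa bb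
    by_cases h : c < ne
    · rw [hrow c h]; simp only; omega
    · have e : c = ne + (c - ne) := by omega
      rw [e, hco (c - ne) (by omega)]
      have := d3 _ (hcol (c - ne) (by omega))
      simp only; omega
  set wz : ℕ → ℕ → ℤ := fun c d => w (aa cs c + aa cs d) (bb cs c + bb cs d) with hwz
  set T : ℕ := th p (p ^ 4) with hT
  have hlt : ∀ c < 2 * ne, ∀ d < 2 * ne,
      (aa cs c + aa cs d) + (bb cs c + bb cs d) + 1 < 2 * p ^ 4 := by
    intro c hc d hd
    have := hbd c hc
    have := hbd d hd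
    omega
  -- the hafnian over the rationals
  have hQ : haf (wt cs) ne (range (2 * ne)) * ((T : ℚ) * (p : ℚ) ^ 4) ^ ne =
      ((haf wz ne (range (2 * ne)) : ℤ) : ℚ) := by
    have e1 := (h4 ℚ ℚ (RingHom.id ℚ) (wt cs) (wt cs) ((T : ℚ) * (p : ℚ) ^ 4) ne
      (range (2 * ne))).2.1
    have e2 := (h4 ℤ ℚ (Int.castRingHom ℚ) wz wz 0 ne (range (2 * ne))).1
    rw [mul_comm, ← e1]
    refine Eq.trans ?_ e2
    refine (h4 ℚ ℚ (RingHom.id ℚ) _ _ 0 ne (range (2 * ne))).2.2 ?_
    intro c hc d hd _
    have := (hw _ _ (hlt c (Finset.mem_range.1 hc) d (Finset.mem_range.1 hd))).1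
    simp only [wt, hwz, eq_intCast]
    rw [this]
  have hnn : 0 ≤ haf wz ne (range (2 * ne)) := by
    have h0 : (0 : ℚ) ≤ ((haf wz ne (range (2 * ne)) : ℤ) : ℚ) := by
      rw [← hQ]
      refine mul_nonneg (haf_nonneg _ (fun c d => ?_) _ _) (by positivity)
      unfold wt beta
      positivity
    exact_mod_cast h0
  refine ⟨(haf wz ne (range (2 * ne))).toNat, ?_, ?_⟩
  · have hB := h1 cs (by rw [hlen]; exact ⟨ne, by ring⟩)
    have hf := facs_eq cs
    rw [hlen] at hf
    rw [← DD_eq, hlen, ← hf] at hB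
    have e3 : 2 * ne / 2 = ne := by omega
    rw [e3] at hB
    have : ((fdiff (DD cs) (fun r => U cs (2 * r)) *
        ((facs cs * (T * p ^ 4) ^ ne : ℕ) : ℤ) : ℤ) : ℚ) =
        ((((2 ^ DD cs * (DD cs).factorial * (haf wz ne (range (2 * ne))).toNat : ℕ)) : ℤ) : ℚ) := by
      push_cast
      have e4 : (((haf wz ne (range (2 * ne))).toNat : ℕ) : ℚ) =
          ((haf wz ne (range (2 * ne)) : ℤ) : ℚ) := by
        have := Int.toNat_of_nonneg hnn
        exact_mod_cast this
      rw [e4, ← hQ, ← mul_assoc, hB]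
      ring
    exact_mod_cast this
  · have e5 : (((haf wz ne (range (2 * ne))).toNat : ℕ) : ZMod p) =
        ((haf wz ne (range (2 * ne)) : ℤ) : ZMod p) := by
      conv_rhs => rw [← Int.toNat_of_nonneg hnn]
      exact (Int.cast_natCast _).symm
    rw [e5]
    have e6 := (h4 ℤ (ZMod p) (Int.castRingHom (ZMod p)) wz wz 0 ne (range (2 * ne))).1
    simp only [eq_intCast] at e6
    rw [← e6, h3 (ZMod p) _ ne]
    · have e7 : (Matrix.of fun i j : Fin ne => ((wz i (ne + j) : ℤ) : ZMod p)) =
          (T : ZMod p) • (Matrix.of fun i j : Fin ne =>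
            (((if inc ((edg A).getD i (0, 0)) ((cols A).getD j (0, 0)) then (1 : ℕ) else 0 : ℕ)) :
              ZMod p)) := by
        ext i j
        rw [Matrix.smul_apply, Matrix.of_apply, Matrix.of_apply, smul_eq_mul]
        have hi := i.2
        have hj := j.2
        have e8 : aa cs i + aa cs (ne + j) = p ^ 4 - 1 - rowN p ((edg A).getD i (0, 0)) := by
          unfold aa; rw [hrow _ hi, hco _ hj]; simp
        have e9 : bb cs i + bb cs (ne + j) = colN p ((cols A).getD j (0, 0)) := by
          unfold bb; rw [hrow _ hi, hco _ hj]; simp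
        have hr := d2 _ (hedg i hi).1 (hedg i hi).2
        have e10 := (hw _ _ (hlt i (by omega) (ne + j) (by omega))).2
        simp only [hwz]
        rw [e10, e8, e9, if_pos (by omega)]
        have e11 : p ^ 4 - 1 - (p ^ 4 - 1 - rowN p ((edg A).getD i (0, 0))) =
            rowN p ((edg A).getD i (0, 0)) := by omega
        rw [e11, hr.2.neg_one_pow, one_mul, d1 _ _ (hedg i hi).1 (hedg i hi).2 (hcol j hj)]
        split_ifs <;> simp
      rw [e7, Matrix.permanent_smul, Fintype.card_fin]
      push_cast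
      congr 1
      rw [← Nat.cast_mul, ← hperm]
      simp only [Matrix.permanent, Matrix.of_apply]
      push_cast
      rfl
    · intro i hi j hj hij
      have e10 := (hw _ _ (hlt i (by omega) j (by omega))).2
      simp only [hwz]
      rw [e10]
      have e8 : aa cs i + aa cs j = (p ^ 4 - 1 - rowN p ((edg A).getD i (0, 0))) +
          (p ^ 4 - 1 - rowN p ((edg A).getD j (0, 0))) := by
        unfold aa; rw [hrow _ hi, hrow _ hj]
      have e9 : bb cs i + bb cs j = 0 := by
        unfold bb; rw [hrow _ hi, hrow _ hj]; rfl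
      rw [e8, e9]
      have hr := (d2 _ (hedg i hi).1 (hedg i hi).2).1
      have hr' := (d2 _ (hedg j hj).1 (hedg j hj).2).1
      have hs := d4 _ _ (hedg i hi).1 (hedg i hi).2 (hedg j hj).1 (hedg j hj).2
      split_ifs with hlt'
      · rw [Nat.choose_eq_zero_of_lt (by omega)]
        simp
      · simp

end Pool.Agent.NH88.SR
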