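import Pool.Agent.NH88.SR.Stm2

/-!
# Assembly of side D
-/

namespace Pool.Agent.NH88.SR

open Finset Pool.Agent.TH700 Pool.Agent.H549R2.Convex Pool.Agent.H549R2.PM Pool.Agent.NPC
  Pool.Agent.NPC.Cnt Pool.Agent.NPC.H549PM

theorem size_pow_le' (b n : ℕ) : (b ^ n).size ≤ n * b.size + 1 := by
  rw [Nat.size_le]
  have h1 : b < 2 ^ b.size := Nat.lt_size_self b
  have h2 : b ^ n ≤ (2 ^ b.size) ^ n := Nat.pow_le_pow_left h1.le n
  rw [← pow_mul] at h2
  have h3 : 2 ^ (b.size * n) < 2 ^ (n * b.size + 1) :=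
    Nat.pow_lt_pow_right (by norm_num) (by rw [mul_comm]; omega)
  omega

theorem numOpt_size (h : S_ub) (l : List ℤ) :
    (numOpt l).size ≤ (Polynomial.C 4 * Polynomial.X * (Polynomial.X + Polynomial.C 1) +
      Polynomial.C 1 : Polynomial ℕ).eval (sz l) := by
  have h1 := Nat.size_le_size (h l)
  have h2 := size_pow_le' (l.length + 1) (4 * l.length)
  have h3 : (l.length + 1).size ≤ l.length + 1 := Nat.size_le.2 Nat.lt_two_pow_self
  have h4 := length_lt_sz l
  simp only [Polynomial.eval_add, Polynomial.eval_mul, Polynomial.eval_X, Polynomial.eval_C]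
  have h5 : 4 * l.length * (l.length + 1).size ≤ 4 * sz l * (sz l + 1) :=
    Nat.mul_le_mul (by omega) (by omega)
  omega

theorem s_main (h1 : S_val) (h2 : S_qpoly) (h3 : S_vpoly) (h4 : S_red) (h5 : S_ub) : S_main := by
  obtain ⟨c, hc⟩ := h1
  exact h4 numOpt (qsA c) (valA c) (h2 c) (h3 c) hc ⟨_, numOpt_size h5⟩

end Pool.Agent.NH88.SR
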