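import Pool.Agent.NH88.SR.Stm1

/-!
# The number of optimal sorting sequences is the number of chains
-/

namespace Pool.Agent.NH88.SR

open Finset Pool.Agent.TH700

theorem cnt_chn {n : ℕ} (M : ℕ → ℕ → ZMod 2) (V : Finset ℕ) (cls : ℕ → Fin (n + 1))
    (ok : (Fin (n + 1) → ℕ) → Prop)
    (hok : ∀ Q ⊆ V, ok (kv cls Q) ↔ NS M Q) :
    ∀ (r : ℕ) (Q : Finset ℕ), Q ⊆ V → cnt ok r (kv cls Q) = chn M r Q := by
  intro r
  induction r with
  | zero => intro Q _; simp [cnt, chn]
  | succ r ih =>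
    intro Q hQ
    rw [cnt_kv, chn]
    refine Finset.sum_congr rfl fun v _ => ?_
    have hQ' : Q.erase v ⊆ V := (Finset.erase_subset _ _).trans hQ
    have h := hok _ hQ'
    by_cases h1 : NS M (Q.erase v)
    · rw [if_pos (h.2 h1), if_pos h1, ih _ hQ']
    · rw [if_neg (fun h2 => h1 (h.1 h2)), if_neg h1]

theorem s_chn : S_chn := by
  classical
  intro n C l hlen hI hpos
  let cls : ℕ → Fin (n + 1) := fun v => Fin.ofNat (n + 1) v
  have hVle : ∀ v ∈ C.V, v ≤ n := fun v hv => (Cyc.mem_V.1 hv).1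
  have hcls : ∀ v ≤ n, (cls v).val = v := by
    intro v hv
    simp only [cls, Fin.ofNat]
    exact Nat.mod_eq_of_lt (by omega)
  have hclsinj : ∀ u ≤ n, ∀ v ≤ n, cls u = cls v → u = v := by
    intro u hu v hv h
    rw [← hcls u hu, ← hcls v hv, h]
  let ok : (Fin (n + 1) → ℕ) → Prop := fun k =>
    NS C.D.M (C.V.filter (fun v => k (cls v) = 1))
  have hfil : ∀ Q ⊆ C.V, C.V.filter (fun v => kv cls Q (cls v) = 1) = Q := by
    intro Q hQ
    ext v
    rw [Finset.mem_filter]
    have hk : ∀ v ∈ C.V, Q.filter (fun u => cls u = cls v) = if v ∈ Q then {v} else ∅ := by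
      intro v hv
      ext u
      rw [Finset.mem_filter]
      by_cases hvQ : v ∈ Q
      · rw [if_pos hvQ, Finset.mem_singleton]
        constructor
        · rintro ⟨h1, h2⟩
          exact hclsinj u (hVle u (hQ h1)) v (hVle v hv) h2
        · rintro rfl
          exact ⟨hvQ, rfl⟩
      · rw [if_neg hvQ]
        constructor
        · rintro ⟨h1, h2⟩
          have := hclsinj u (hVle u (hQ h1)) v (hVle v hv) h2
          rw [this] at h1
          exact absurd h1 hvQ
        · intro h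
          simp at h
    constructor
    · rintro ⟨h1, h2⟩
      unfold kv at h2
      rw [hk v h1] at h2
      by_contra hvQ
      rw [if_neg hvQ] at h2
      simp at h2
    · intro h
      refine ⟨hQ h, ?_⟩
      unfold kv
      rw [hk v (hQ h), if_pos h, Finset.card_singleton]
  have hok : ∀ Q ⊆ C.V, ok (kv cls Q) ↔ NS C.D.M Q := by
    intro Q hQ
    simp only [ok]
    rw [hfil Q hQ]
  have hcount := card_seqs C cls ok (fun _ => False)
    (fun Q hQ h => (hok Q hQ).1 h)
    (fun Q hQ l' _ hI' => ⟨fun _ => not_false, fun _ => (hok Q hQ).2 (hI'.ns hQ)⟩)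
    C.V.card C.V l (Finset.Subset.refl _) rfl hlen hI
  rw [cnt_chn C.D.M C.V cls ok hok _ _ (Finset.Subset.refl _)] at hcount
  set T := C.V.card with hT
  have hge : ∀ rs, Sorts l rs → T ≤ rs.length := fun rs hrs =>
    length_ge (Finset.Subset.refl _) hlen hI hrs
  have hne : (seqs (fun _ => False) n T l).Nonempty := by
    rw [← Finset.card_pos, hcount]; exact hpos
  obtain ⟨rs0, hrs0⟩ := hne
  have hrs0' := (mem_seqs _ _ _ _ hlen _).1 hrs0
  have hdist : revDist l = T := by
    unfold revDist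
    apply le_antisymm
    · exact Nat.sInf_le ⟨rs0, hrs0'.1, hrs0'.2.1⟩
    · obtain ⟨rs, h1, h2⟩ := Nat.sInf_mem (s := {k | ∃ rs, Sorts l rs ∧ rs.length = k})
        ⟨T, rs0, hrs0'.1, hrs0'.2.1⟩
      rw [← h2]; exact hge rs h1
  have hOpt : Opt l = ↑(seqs (fun _ => False) n T l) := by
    ext rs
    rw [Finset.mem_coe, mem_seqs _ _ _ _ hlen]
    unfold Opt
    rw [Set.mem_setOf_eq, hdist]
    exact ⟨fun h => ⟨h.1, h.2, fun _ _ _ => not_false⟩, fun h => ⟨h.1, h.2.1⟩⟩
  unfold numOpt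
  rw [hOpt, Set.ncard_coe_finset, hcount]

end Pool.Agent.NH88.SR
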