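import Pool.Agent.NH88.SR.Stm1

/-!
# The overlap matrix of a word (helper60, job of helper88)
-/

set_option autoImplicit false

namespace Pool.Agent.NH88.SR

open Finset Pool.Agent.TH700

namespace CX

theorem filt (w : List Lt) (P : Lt → Bool) (L : List ℕ) (hL : L.Pairwise (· < ·))
    (hmem : ∀ j, j ∈ L ↔ j < w.length ∧ P (w.getD j (0, 0)) = true) :
    w.filter P = L.map (fun j => w.getD j (0, 0)) := by
  have h1 : w.filter P = ((List.range w.length).filter (fun j => P (w.getD j (0, 0)))).map
      (fun j => w.getD j (0, 0)) := by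
    conv_lhs => rw [← map_getD_range w]
    rw [List.filter_map]
    rfl
  have h2 : (List.range w.length).filter (fun j => P (w.getD j (0, 0))) = L := by
    have h3 : ((List.range w.length).filter (fun j => P (w.getD j (0, 0)))).Pairwise (· < ·) :=
      List.pairwise_lt_range.filter _
    refine List.Perm.eq_of_pairwise (le := (· < ·)) ?_ h3 hL ?_
    · intro a b _ _ hab hba
      exact absurd hab (lt_asymm hba)
    · rw [List.perm_ext_iff_of_nodup (h3.imp (fun h => ne_of_lt h)) (hL.imp (fun h => ne_of_lt h))]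
      intro j
      rw [List.mem_filter, List.mem_range, hmem]
  rw [h1, h2]

theorem main (w : List Lt) (h : Dbl w) (u v : ℕ) (hu : u < w.length) (hv : v < w.length)
    (huo : u < opp w u) (hvo : v < opp w v) (huv : u ≠ v) :
    w.getD u (0, 0) ≠ w.getD v (0, 0) ∧
      ((if v < u ∧ u ≤ opp w v then (1 : ZMod 2) else 0) +
        (if v < opp w u ∧ opp w u ≤ opp w v then 1 else 0)) =
      if crs w (w.getD u (0, 0)) (w.getD v (0, 0)) then 1 else 0 := by
  obtain ⟨a1, a2, a3, a4⟩ := opp_spec h hu
  obtain ⟨b1, b2, b3, b4⟩ := opp_spec h hv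
  generalize opp w u = u' at *
  generalize opp w v = v' at *
  have hne : w.getD u (0, 0) ≠ w.getD v (0, 0) := by
    intro hc
    have h1 := a4 v hv (Ne.symm huv) hc.symm
    have h2 := b4 u hu huv hc
    omega
  refine ⟨hne, ?_⟩
  generalize hA : w.getD u (0, 0) = A at *
  generalize hB : w.getD v (0, 0) = B at *
  have hu'v : u' ≠ v := by
    rintro rfl
    exact hne (a3.symm.trans hB)
  have hv'u : v' ≠ u := by
    rintro rfl
    exact hne (hA.symm.trans b3)
  have hu'v' : u' ≠ v' := by
    rintro rfl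
    exact hne (a3.symm.trans b3)
  have hmem : ∀ j, (j < w.length ∧
      (decide (w.getD j (0, 0) = A) || decide (w.getD j (0, 0) = B)) = true) ↔
      j = u ∨ j = u' ∨ j = v ∨ j = v' := by
    intro j
    rw [Bool.or_eq_true, decide_eq_true_iff, decide_eq_true_iff]
    constructor
    · rintro ⟨h1, h2 | h2⟩
      · by_cases h3 : j = u
        · exact Or.inl h3
        · exact Or.inr (Or.inl (a4 j h1 h3 h2))
      · by_cases h3 : j = v
        · exact Or.inr (Or.inr (Or.inl h3))
        · exact Or.inr (Or.inr (Or.inr (b4 j h1 h3 h2)))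
    · rintro (rfl | rfl | rfl | rfl)
      · exact ⟨hu, Or.inl hA⟩
      · exact ⟨a1, Or.inl a3⟩
      · exact ⟨hv, Or.inr hB⟩
      · exact ⟨b1, Or.inr b3⟩
  have key : ∀ i j k l : ℕ, i < j → j < k → k < l →
      (∀ x, (x = i ∨ x = j ∨ x = k ∨ x = l) ↔ (x = u ∨ x = u' ∨ x = v ∨ x = v')) →
      w.filter (fun x => decide (x = A) || decide (x = B)) =
        [w.getD i (0, 0), w.getD j (0, 0), w.getD k (0, 0), w.getD l (0, 0)] := by
    intro i j k l h1 h2 h3 h4
    rw [filt w _ [i, j, k, l] ?_ ?_]
    · rfl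
    · simp only [List.pairwise_cons, List.mem_cons, List.not_mem_nil, or_false, forall_eq_or_imp,
        forall_eq, IsEmpty.forall_iff, implies_true, List.Pairwise.nil, and_true]
      omega
    · intro x
      rw [hmem, ← h4]
      simp only [List.mem_cons, List.not_mem_nil, or_false]
  have hne' : B ≠ A := Ne.symm hne
  unfold crs
  rcases lt_or_gt_of_ne huv with h1 | h1
  · -- u < v
    rcases lt_or_gt_of_ne hu'v with h2 | h2
    · rw [key u u' v v' huo h2 hvo (by intro x; tauto), hA, a3, hB, b3]
      rw [if_neg (by omega), if_neg (by omega)]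
      simp [hne, hne']
    · rcases lt_or_gt_of_ne hu'v' with h3 | h3
      · rw [key u v u' v' h1 h2 h3 (by intro x; tauto), hA, a3, hB, b3]
        rw [if_neg (by omega), if_pos (by omega)]
        simp
      · rw [key u v v' u' h1 hvo h3 (by intro x; tauto), hA, a3, hB, b3]
        rw [if_neg (by omega), if_neg (by omega)]
        simp [hne, hne']
  · rcases lt_or_gt_of_ne hv'u with h2 | h2
    · rw [key v v' u u' hvo h2 huo (by intro x; tauto), hA, a3, hB, b3]
      rw [if_neg (by omega), if_neg (by omega)]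
      simp [hne, hne']
    · rcases lt_or_gt_of_ne hu'v' with h3 | h3
      · rw [key v u u' v' h1 huo h3 (by intro x; tauto), hA, a3, hB, b3]
        rw [if_pos (by omega), if_pos (by omega)]
        have h11 : (1 : ZMod 2) + 1 = 0 := by decide
        simp [hne, hne', h11]
      · rw [key v u v' u' h1 h2 h3 (by intro x; tauto), hA, a3, hB, b3]
        rw [if_pos (by omega), if_neg (by omega)]
        simp

end CX

theorem s_cross : S_cross := by
  intro w h h0
  have hl : 0 < w.length := List.length_pos_iff.2 h0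
  refine ⟨fun u hu v hv huv => ?_, fun x hx => ?_⟩
  · obtain ⟨hu1, hu2⟩ := Cyc.mem_V.1 hu
    obtain ⟨hv1, hv2⟩ := Cyc.mem_V.1 hv
    have h1 := CX.main w h u v (by omega) (by omega) hu2 hv2 huv
    refine ⟨h1.1, ?_⟩
    rw [← h1.2]
    unfold CD.M
    rw [if_neg huv]
    rfl
  · obtain ⟨e, he, hx⟩ := List.getElem_of_mem hx
    have hx' : w.getD e (0, 0) = x := by rw [List.getD_eq_getElem _ _ he, hx]
    obtain ⟨a1, a2, a3, a4⟩ := opp_spec h he
    rcases lt_or_gt_of_ne a2 with h1 | h1
    · refine ⟨opp w e, Cyc.mem_V.2 ⟨by omega, ?_⟩, a3.trans hx'⟩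
      have h2 := (cycW w h h0).inv e (by omega)
      change opp w (opp w e) = e at h2
      change opp w e < opp w (opp w e)
      rw [h2]
      exact h1
    · exact ⟨e, Cyc.mem_V.2 ⟨by omega, h1⟩, hx'⟩

end Pool.Agent.NH88.SR
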