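import Pool.Agent.NH88.SR.AsmA

/-!
# Labelled and unlabelled words
-/

namespace Pool.Agent.NH88.SR

open Finset Pool.Agent.TH700

section

variable {f : ℕ → Option (ℕ × ℕ)} {V : Finset ℕ}

theorem sS_erase_none {Q : Finset ℕ} {v : ℕ} (hv : f v = none) :
    sS f (Q.erase v) = sS f Q := by
  ext x
  rw [mem_sS, mem_sS]
  constructor
  · rintro ⟨e, he, hx⟩
    exact ⟨e, Finset.mem_of_mem_erase he, hx⟩
  · rintro ⟨e, he, hx⟩
    refine ⟨e, Finset.mem_erase.2 ⟨?_, he⟩, hx⟩
    rintro rfl
    rw [hv] at hx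
    cases hx

theorem jj_erase_none {Q : Finset ℕ} {v : ℕ} (hvQ : v ∈ Q) (hv : f v = none) :
    jj f (Q.erase v) = jj f Q - 1 := by
  unfold jj
  rw [Finset.filter_erase, Finset.card_erase_of_mem]
  exact Finset.mem_filter.2 ⟨hvQ, hv⟩

theorem sS_erase_some (hinj : ∀ u ∈ V, ∀ v ∈ V, f u = f v → f u ≠ none → u = v)
    {Q : Finset ℕ} (hQ : Q ⊆ V) {v : ℕ} {x : ℕ × ℕ} (hvQ : v ∈ Q) (hv : f v = some x) :
    sS f (Q.erase v) = (sS f Q).erase x := by
  ext y
  rw [mem_sS, Finset.mem_erase, mem_sS]
  constructor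
  · rintro ⟨e, he, hy⟩
    obtain ⟨h1, h2⟩ := Finset.mem_erase.1 he
    refine ⟨?_, e, h2, hy⟩
    rintro rfl
    exact h1 (hinj e (hQ h2) v (hQ hvQ) (by rw [hy, hv]) (by rw [hy]; simp))
  · rintro ⟨h1, e, he, hy⟩
    refine ⟨e, Finset.mem_erase.2 ⟨?_, he⟩, hy⟩
    rintro rfl
    rw [hv] at hy
    exact h1 (Option.some.inj hy).symm

theorem jj_erase_some {Q : Finset ℕ} {v : ℕ} {x : ℕ × ℕ} (hv : f v = some x) :
    jj f (Q.erase v) = jj f Q := by
  unfold jj
  rw [Finset.filter_erase, Finset.erase_eq_of_notMem]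
  intro h
  have := (Finset.mem_filter.1 h).2
  rw [hv] at this
  cases this

end

theorem s_cu : S_cu := by
  classical
  intro M V f ok hinj hns
  have key : ∀ (n : ℕ) (Q : Finset ℕ), Q ⊆ V → Q.card = n →
      chn M n Q = (jj f Q).factorial * u ok n (sS f Q) (jj f Q) := by
    intro n
    induction n with
    | zero =>
      intro Q _ hQ0
      rw [Finset.card_eq_zero] at hQ0
      subst hQ0
      simp [chn, u, jj]
    | succ n ih =>
      intro Q hQ hcard
      have hterm : ∀ v ∈ Q, (if NS M (Q.erase v) then chn M n (Q.erase v) else 0) =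
          if ok (sS f (Q.erase v)) (par (jj f (Q.erase v))) then
            (jj f (Q.erase v)).factorial * u ok n (sS f (Q.erase v)) (jj f (Q.erase v)) else 0 := by
        intro v hv
        have hQ' : Q.erase v ⊆ V := (Finset.erase_subset _ _).trans hQ
        have h1 := hns _ hQ'
        have h2 := ih _ hQ' (by rw [Finset.card_erase_of_mem hv, hcard]; rfl)
        by_cases h3 : NS M (Q.erase v)
        · rw [if_pos h3, if_pos (h1.1 h3), h2]
        · rw [if_neg h3, if_neg (fun h => h3 (h1.2 h))]
      rw [chn, u, Finset.sum_congr rfl hterm,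
        ← Finset.sum_filter_add_sum_filter_not Q (fun v => f v = none)]
      have e1 : ∑ v ∈ Q.filter (fun v => f v = none),
          (if ok (sS f (Q.erase v)) (par (jj f (Q.erase v))) then
            (jj f (Q.erase v)).factorial * u ok n (sS f (Q.erase v)) (jj f (Q.erase v)) else 0) =
          (jj f Q).factorial * (if 1 ≤ jj f Q ∧ ok (sS f Q) (par (jj f Q - 1)) then
            u ok n (sS f Q) (jj f Q - 1) else 0) := by
        have e2 : ∀ v ∈ Q.filter (fun v => f v = none),
            (if ok (sS f (Q.erase v)) (par (jj f (Q.erase v))) then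
              (jj f (Q.erase v)).factorial * u ok n (sS f (Q.erase v)) (jj f (Q.erase v)) else 0) =
            if ok (sS f Q) (par (jj f Q - 1)) then
              (jj f Q - 1).factorial * u ok n (sS f Q) (jj f Q - 1) else 0 := by
          intro v hv
          obtain ⟨hv1, hv2⟩ := Finset.mem_filter.1 hv
          rw [sS_erase_none hv2, jj_erase_none hv1 hv2]
        rw [Finset.sum_congr rfl e2, Finset.sum_const, smul_eq_mul]
        change jj f Q * _ = _
        by_cases h0 : jj f Q = 0
        · rw [h0]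
          simp
        · obtain ⟨j, hj⟩ := Nat.exists_eq_succ_of_ne_zero h0
          rw [hj]
          have e3 : j.succ - 1 = j := rfl
          rw [e3]
          by_cases h1 : ok (sS f Q) (par j)
          · rw [if_pos h1, if_pos ⟨by omega, h1⟩, Nat.factorial_succ, ← mul_assoc]
          · rw [if_neg h1, if_neg (fun h => h1 h.2)]
            simp
      have e4 : ∑ v ∈ Q.filter (fun v => ¬ f v = none),
          (if ok (sS f (Q.erase v)) (par (jj f (Q.erase v))) then
            (jj f (Q.erase v)).factorial * u ok n (sS f (Q.erase v)) (jj f (Q.erase v)) else 0) =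
          ∑ x ∈ sS f Q, (jj f Q).factorial * (if ok ((sS f Q).erase x) (par (jj f Q)) then
            u ok n ((sS f Q).erase x) (jj f Q) else 0) := by
        refine Finset.sum_bij (fun v _ => (f v).getD (0, 0)) ?_ ?_ ?_ ?_
        · intro v hv
          obtain ⟨hv1, hv2⟩ := Finset.mem_filter.1 hv
          obtain ⟨x, hx⟩ := Option.ne_none_iff_exists'.1 hv2
          rw [mem_sS]
          exact ⟨v, hv1, by rw [hx]; rfl⟩
        · intro v hv v' hv' heq
          obtain ⟨hv1, hv2⟩ := Finset.mem_filter.1 hv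
          obtain ⟨hv1', hv2'⟩ := Finset.mem_filter.1 hv'
          obtain ⟨x, hx⟩ := Option.ne_none_iff_exists'.1 hv2
          obtain ⟨x', hx'⟩ := Option.ne_none_iff_exists'.1 hv2'
          refine hinj v (hQ hv1) v' (hQ hv1') ?_ hv2
          rw [hx, hx'] at heq ⊢
          simpa using heq
        · intro x hx
          obtain ⟨e, he, hex⟩ := mem_sS.1 hx
          exact ⟨e, Finset.mem_filter.2 ⟨he, by rw [hex]; simp⟩, by rw [hex]; rfl⟩
        · intro v hv
          obtain ⟨hv1, hv2⟩ := Finset.mem_filter.1 hv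
          obtain ⟨x, hx⟩ := Option.ne_none_iff_exists'.1 hv2
          rw [sS_erase_some hinj hQ hv1 hx, jj_erase_some hx, hx]
          simp only [Option.getD_some]
          split_ifs <;> simp
      rw [e1, e4, ← Finset.mul_sum, Nat.mul_add, add_comm]
  intro Q hQ
  exact key _ Q hQ rfl

end Pool.Agent.NH88.SR
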