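import Pool.Agent.TH700.Rev

/-!
# Counting optimal reversal sorting sequences is `#P`-hard: definitions

For a list `cs` of pairs `(a, b)` and an even number `m` we consider the following chord diagram.
For every entry `(a, b)` of `cs` there is a path of `a + b + 1` chords, the first of which is
oriented; the chords of different paths do not cross.  There are `m` parallel oriented chords `X`,
which cross the chords number `a` and `a + 1` of every path (numbered from `0`).
-/

namespace Pool.Agent.NH88.SR

open Finset Pool.Agent.TH700

/-- The number of optimal sorting sequences. -/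
noncomputable def numOpt (l : List ℤ) : ℕ := (Opt l).ncard

open Classical in
/-- The number of ways to remove `r` elements of `Q` one after the other such that all sets after a
removal are nonsingular. -/
noncomputable def chn {ι : Type*} [DecidableEq ι] (M : ι → ι → ZMod 2) : ℕ → Finset ι → ℕ
  | 0, _ => 1
  | r + 1, Q => ∑ v ∈ Q, if NS M (Q.erase v) then chn M r (Q.erase v) else 0

/-! ### Words in which every letter occurs twice -/

/-- The letters: `(0, i)` for the chord number `i` of the class `X`, and `(c + 1, i)` for the chord
number `i` of the path number `c`. -/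
abbrev Lt := ℕ × ℕ

/-- The other position of the letter in the position `e`. -/
def opp (w : List Lt) (e : ℕ) : ℕ :=
  ((List.range w.length).filter (fun j => decide (j ≠ e) &&
    decide (w.getD j (0, 0) = w.getD e (0, 0)))).headD e

/-- The oriented letters. -/
def ori (x : Lt) : Bool := decide (x.1 = 0) || decide (x.2 = 0)

/-- Every letter of the word occurs exactly twice. -/
def Dbl (w : List Lt) : Prop := ∀ x ∈ w, w.count x = 2

/-- The partner of a right end. -/
def bRw (w : List Lt) (e : ℕ) : ℤ :=
  if ori (w.getD e (0, 0)) then (opp w e : ℤ) else -1 - (opp w e : ℤ)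

/-- One step along the permutation. -/
def nxw (w : List Lt) (x : ℤ) : ℤ :=
  if 0 ≤ x then -bRw w x.toNat else 1 + bRw w (-1 - x).toNat

/-- The signed permutation of a word. -/
def permW (w : List Lt) : List ℤ :=
  (List.range (w.length - 1)).map (fun p => (List.range (p + 1)).foldl (fun x _ => nxw w x) 0)

/-- The letters `a`, `b` alternate in the word `w`. -/
def crs (w : List Lt) (a b : Lt) : Bool :=
  decide (w.filter (fun x => decide (x = a) || decide (x = b)) = [a, b, a, b]) ||
    decide (w.filter (fun x => decide (x = a) || decide (x = b)) = [b, a, b, a])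

/-! ### The word of a list of pairs -/

/-- The part of the word of a path before the ends of the class `X`. -/
def lw (a b : ℕ) : List ℕ :=
  0 :: ((List.range a).flatMap (fun i => [i + 1, i]) ++ if b = 0 then [] else [a + 1])

/-- The part of the word of a path after the ends of the class `X`. -/
def rw' (a b : ℕ) : List ℕ :=
  a :: (if b = 0 then [] else (List.range (b - 1)).flatMap (fun i => [a + i + 2, a + i + 1]) ++
    [a + b])

/-- the first entry of the pair number `c` -/
def aa (cs : List (ℕ × ℕ)) (c : ℕ) : ℕ := (cs.getD c (0, 0)).1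

/-- the second entry of the pair number `c` -/
def bb (cs : List (ℕ × ℕ)) (c : ℕ) : ℕ := (cs.getD c (0, 0)).2

/-- The word: the left parts of the paths, the left ends of the class `X`, the right parts of the
paths in the reversed order, the right ends of the class `X`. -/
def word (cs : List (ℕ × ℕ)) (m : ℕ) : List Lt :=
  (List.range cs.length).flatMap (fun c => (lw (aa cs c) (bb cs c)).map (fun i => (c + 1, i))) ++
  ((List.range m).map (fun i => (0, i)) ++
  ((List.range cs.length).reverse.flatMap (fun c => (rw' (aa cs c) (bb cs c)).map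
    (fun i => (c + 1, i))) ++
  (List.range m).reverse.map (fun i => (0, i))))

/-- The signed permutation of `cs` and `m`. -/
def perm (cs : List (ℕ × ℕ)) (m : ℕ) : List ℤ := permW (word cs m)

/-! ### The abstract counting problem -/

/-- The number of vertices of the path number `c`. -/
def Kc (cs : List (ℕ × ℕ)) (c : ℕ) : ℕ := aa cs c + bb cs c + 1

/-- The vertices of the paths: `(c, i)` is the vertex number `i` of the path number `c`. -/
def Ws (cs : List (ℕ × ℕ)) : Finset (ℕ × ℕ) :=
  (range cs.length).biUnion (fun c => (range (Kc cs c)).image (fun i => (c, i)))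

theorem mem_Ws {cs : List (ℕ × ℕ)} {v : ℕ × ℕ} :
    v ∈ Ws cs ↔ v.1 < cs.length ∧ v.2 < Kc cs v.1 := by
  simp only [Ws, mem_biUnion, mem_range, mem_image]
  constructor
  · rintro ⟨c, hc, i, hi, rfl⟩
    exact ⟨hc, hi⟩
  · rintro ⟨h1, h2⟩
    exact ⟨v.1, h1, v.2, h2, rfl⟩

/-- The adjacency matrix; `none` is the class `X`. -/
def M0 (cs : List (ℕ × ℕ)) : Option (ℕ × ℕ) → Option (ℕ × ℕ) → ZMod 2
  | none, none => 1
  | none, some v => if v.2 = aa cs v.1 ∨ v.2 = aa cs v.1 + 1 then 1 else 0
  | some v, none => if v.2 = aa cs v.1 ∨ v.2 = aa cs v.1 + 1 then 1 else 0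
  | some v, some u => if v.1 = u.1 ∧ (v.2 = u.2 + 1 ∨ u.2 = v.2 + 1 ∨ (v.2 = 0 ∧ u.2 = 0)) then 1
      else 0

/-- The set of vertices with or without `X`. -/
def st (S : Finset (ℕ × ℕ)) (x : Bool) : Finset (Option (ℕ × ℕ)) :=
  if x then insert none (S.image some) else S.image some

/-- Admissible states. -/
def okA (cs : List (ℕ × ℕ)) (S : Finset (ℕ × ℕ)) (x : Bool) : Prop := NS (M0 cs) (st S x)

/-- The parity of a number. -/
def par (j : ℕ) : Bool := decide (j % 2 = 1)

open Classical in
/-- The number of ways to remove the elements of `S` and `j` equal further items one after the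
other, `r` removals in total, passing only through admissible states. -/
noncomputable def u {α : Type*} [DecidableEq α] (ok : Finset α → Bool → Prop) :
    ℕ → Finset α → ℕ → ℕ
  | 0, _, _ => 1
  | r + 1, S, j => (∑ v ∈ S, if ok (S.erase v) (par j) then u ok r (S.erase v) j else 0) +
      (if 1 ≤ j ∧ ok S (par (j - 1)) then u ok r S (j - 1) else 0)

/-- The number of words with `m` items `X`. -/
noncomputable def U (cs : List (ℕ × ℕ)) (m : ℕ) : ℕ := u (okA cs) ((Ws cs).card + m) (Ws cs) m

/-! ### Leading coefficients -/

open Classical in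
/-- The leading coefficients: `B` is the bound for the orders of the poles. -/
noncomputable def Lf {α : Type*} [DecidableEq α] (ok : Finset α → Bool → Prop)
    (B : Finset α → ℕ) : ℕ → Finset α → Bool → ℕ
  | 0, _, _ => 1
  | r + 1, S, x =>
    if ok S false ∧ ok S true then
      ∑ v ∈ S, ((if ok (S.erase v) false ∧ B (S.erase v) + 1 = B S then
          Lf ok B r (S.erase v) false else 0) +
        (if ok (S.erase v) true ∧ B (S.erase v) + 1 = B S then
          Lf ok B r (S.erase v) true else 0))
    else ∑ v ∈ S, if ok (S.erase v) x ∧ B (S.erase v) = B S then Lf ok B r (S.erase v) x else 0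

/-- Finite differences. -/
def fdiff (D : ℕ) (f : ℕ → ℕ) : ℤ :=
  ∑ t ∈ range (D + 1), (-1 : ℤ) ^ t * (D.choose t) * ((f (D - t) : ℕ) : ℤ)

/-! ### Hafnians -/

/-- The hafnian over the first `2 r` ... elements of `E`, expanded along the least element. -/
def haf {R : Type*} [CommRing R] (w : ℕ → ℕ → R) : ℕ → Finset ℕ → R
  | 0, _ => 1
  | r + 1, E => if h : E.Nonempty then
      ∑ j ∈ E.erase (E.min' h), w (E.min' h) j * haf w r ((E.erase (E.min' h)).erase j)
    else 0

/-- The values of the beta function. -/
def beta (A B : ℕ) : ℚ := (A.factorial * B.factorial : ℚ) / ((A + B + 1).factorial : ℚ)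

/-- The weight of a pair of paths. -/
def wt (cs : List (ℕ × ℕ)) (c d : ℕ) : ℚ := beta (aa cs c + aa cs d) (bb cs c + bb cs d)

end Pool.Agent.NH88.SR
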