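import Pool.Agent.NH88.SR.Stm1

/-!
# Side C: Dig
-/

set_option autoImplicit false

namespace Pool.Agent.NH88.SR

open Finset

namespace DG

theorem luc {p : ℕ} (hp : p.Prime) (a A x B : ℕ) (ha : a < p) (hx : x < p) :
    (((a + p * A).choose (x + p * B) : ℕ) : ZMod p) =
      ((a.choose x : ℕ) : ZMod p) * ((A.choose B : ℕ) : ZMod p) := by
  have : Fact p.Prime := ⟨hp⟩
  have h := (ZMod.natCast_eq_natCast_iff _ _ p).mpr
    (Choose.choose_modEq_choose_mod_mul_choose_div_nat (p := p) (n := a + p * A)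
      (k := x + p * B))
  rw [h, Nat.add_mul_mod_self_left, Nat.add_mul_mod_self_left, Nat.mod_eq_of_lt ha,
    Nat.mod_eq_of_lt hx, Nat.add_mul_div_left _ _ hp.pos, Nat.add_mul_div_left _ _ hp.pos,
    Nat.div_eq_of_lt ha, Nat.div_eq_of_lt hx, zero_add, zero_add, Nat.cast_mul]

theorem cp1 {p : ℕ} (hp : p.Prime) (x : ℕ) (hx : x < p) :
    (((p - 1).choose x : ℕ) : ZMod p) = (-1) ^ x := by
  induction x with
  | zero => simp
  | succ x ih =>
    have h1 := ih (by omega)
    have h2 : (p - 1 + 1).choose (x + 1) = (p - 1).choose x + (p - 1).choose (x + 1) :=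
      Nat.choose_succ_succ _ _
    rw [Nat.sub_add_cancel hp.one_le] at h2
    have h3 : ((p.choose (x + 1) : ℕ) : ZMod p) = 0 :=
      (ZMod.natCast_eq_zero_iff _ _).mpr (hp.dvd_choose_self (by omega) hx)
    rw [h2, Nat.cast_add, h1] at h3
    rw [pow_succ]
    linear_combination h3

theorem cpp {p : ℕ} (hp : p.Prime) (h3 : 3 ≤ p) (x : ℕ) (hx : x < p) :
    (((p - 1).choose x : ℕ) : ZMod p) * (((p - 1).choose (p - 1 - x) : ℕ) : ZMod p) = 1 := by
  rw [cp1 hp x hx, cp1 hp (p - 1 - x) (by omega), ← pow_add]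
  have h : x + (p - 1 - x) = p - 1 := by omega
  rw [h]
  exact Even.neg_one_pow (hp.even_sub_one (by omega))

theorem cyx {p : ℕ} (x y : ℕ) (hx : x < p) (hy : y < p) :
    ((y.choose x : ℕ) : ZMod p) * (((p - 1 - y).choose (p - 1 - x) : ℕ) : ZMod p) =
      if x = y then 1 else 0 := by
  split_ifs with h
  · subst h
    simp
  · rcases lt_or_gt_of_ne h with h1 | h1
    · rw [Nat.choose_eq_zero_of_lt (show p - 1 - y < p - 1 - x by omega)]
      simp
    · rw [Nat.choose_eq_zero_of_lt h1]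
      simp

theorem luc4 {p : ℕ} (hp : p.Prime) (a b c d x y z t : ℕ) (ha : a < p) (hb : b < p)
    (hc : c < p) (_hd : d < p) (hx : x < p) (hy : y < p) (hz : z < p) :
    (((a + b * p + c * p ^ 2 + d * p ^ 3).choose (x + y * p + z * p ^ 2 + t * p ^ 3) : ℕ) :
      ZMod p) = (((a.choose x : ℕ) : ZMod p) * ((b.choose y : ℕ) : ZMod p)) *
        (((c.choose z : ℕ) : ZMod p) * ((d.choose t : ℕ) : ZMod p)) := by
  have h1 : a + b * p + c * p ^ 2 + d * p ^ 3 = a + p * (b + p * (c + p * d)) := by ring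
  have h2 : x + y * p + z * p ^ 2 + t * p ^ 3 = x + p * (y + p * (z + p * t)) := by ring
  rw [h1, h2, luc hp _ _ _ _ ha hx, luc hp _ _ _ _ hb hy, luc hp _ _ _ _ hc hz]
  ring

theorem lt4 {p : ℕ} (a b c d : ℕ) (ha : a < p) (hb : b < p) (hc : c < p) (hd : d < p) :
    a + b * p + c * p ^ 2 + d * p ^ 3 < p ^ 4 := by
  have h1 : c + d * p < p ^ 2 := by nlinarith
  have h2 : b + (c + d * p) * p < p ^ 3 := by nlinarith
  have h3 : a + (b + (c + d * p) * p) * p < p ^ 4 := by nlinarith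
  nlinarith

end DG

theorem s_dig : S_dig := by
  intro p N hp hN hN1
  have hp3 : 3 ≤ p := by omega
  have hodd : Even (p - 1) := hp.even_sub_one (by omega)
  refine ⟨?_, ?_, ?_, ?_⟩
  · intro e y he1 he2 hy
    unfold colN rowN inc
    split_ifs with h1 h2 h2
    · rw [DG.luc4 hp _ _ _ _ _ _ _ _ (by omega) (by omega) (by omega) (by omega) (by omega)
        (by omega) (by omega), DG.cpp hp hp3 _ (by omega), DG.cyx _ _ (by omega) (by omega)]
      have h3 : e.2 = y.2 := by simpa using h2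
      simp [h3]
    · rw [DG.luc4 hp _ _ _ _ _ _ _ _ (by omega) (by omega) (by omega) (by omega) (by omega)
        (by omega) (by omega), DG.cpp hp hp3 _ (by omega), DG.cyx _ _ (by omega) (by omega)]
      have h3 : ¬ e.2 = y.2 := by simpa using h2
      simp [h3]
    · rw [DG.luc4 hp _ _ _ _ _ _ _ _ (by omega) (by omega) (by omega) (by omega) (by omega)
        (by omega) (by omega), DG.cpp hp hp3 _ (by omega), DG.cyx _ _ (by omega) (by omega)]
      have h3 : e.1 = y.2 := by simpa using h2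
      simp [h3]
    · rw [DG.luc4 hp _ _ _ _ _ _ _ _ (by omega) (by omega) (by omega) (by omega) (by omega)
        (by omega) (by omega), DG.cpp hp hp3 _ (by omega), DG.cyx _ _ (by omega) (by omega)]
      have h3 : ¬ e.1 = y.2 := by simpa using h2
      simp [h3]
  · intro e he1 he2
    refine ⟨DG.lt4 _ _ _ _ (by omega) (by omega) (by omega) (by omega), ?_⟩
    obtain ⟨k, hk⟩ := hodd
    have hp' : p = 2 * k + 1 := by omega
    have he1' : p - 1 - e.1 + e.1 = 2 * k := by omega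
    have he2' : p - 1 - e.2 + e.2 = 2 * k := by omega
    unfold rowN
    generalize p - 1 - e.1 = u at *
    generalize p - 1 - e.2 = v at *
    have h1 : (e.1 + u * p + e.2 * p ^ 2 + v * p ^ 3) % 2 = 0 := by
      have hpm : p ≡ 1 [MOD 2] := by rw [hp']; simp [Nat.ModEq]
      have h2 : e.1 + u * p + e.2 * p ^ 2 + v * p ^ 3 ≡
          e.1 + u * 1 + e.2 * 1 ^ 2 + v * 1 ^ 3 [MOD 2] := by gcongr
      have h3 : e.1 + u * 1 + e.2 * 1 ^ 2 + v * 1 ^ 3 = 2 * (2 * k) := by omega
      rw [h3] at h2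
      have h4 : (e.1 + u * p + e.2 * p ^ 2 + v * p ^ 3) % 2 = (2 * (2 * k)) % 2 := h2
      rw [h4]
      omega
    exact Nat.even_iff.mpr h1
  · intro y hy
    unfold colN
    split_ifs
    · exact DG.lt4 _ _ _ _ (by omega) (by omega) (by omega) (by omega)
    · exact DG.lt4 _ _ _ _ (by omega) (by omega) (by omega) (by omega)
  · intro e e' h1 h2 h3 h4 h
    have h5 : (rowN p e + rowN p e') % p = (e.1 + e'.1) % p := by
      unfold rowN
      have h6 : e.1 + (p - 1 - e.1) * p + e.2 * p ^ 2 + (p - 1 - e.2) * p ^ 3 +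
          (e'.1 + (p - 1 - e'.1) * p + e'.2 * p ^ 2 + (p - 1 - e'.2) * p ^ 3) =
          (e.1 + e'.1) + p * ((p - 1 - e.1) + e.2 * p + (p - 1 - e.2) * p ^ 2 +
            ((p - 1 - e'.1) + e'.2 * p + (p - 1 - e'.2) * p ^ 2)) := by ring
      rw [h6, Nat.add_mul_mod_self_left]
    have h7 : p ^ 4 - 1 = (p - 1) + p * (p ^ 3 - 1) := by
      have : 1 ≤ p ^ 3 := Nat.one_le_pow _ _ (by omega)
      have h8 : p * (p ^ 3 - 1) = p ^ 4 - p := by
        rw [Nat.mul_sub, mul_one]
        congr 1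
        ring
      have h9 : p ≤ p ^ 4 := Nat.le_self_pow (by omega) _
      rw [h8]
      omega
    rw [h, h7, Nat.add_mul_mod_self_left, Nat.mod_eq_of_lt (by omega),
      Nat.mod_eq_of_lt (by omega)] at h5
    omega

end Pool.Agent.NH88.SR
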