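import Pool.Agent.NH88.SR.Stm1

/-!
# The closed formula with the hafnian (`s_haf`)
-/

set_option autoImplicit false

namespace Pool.Agent.NH88.SR

open Finset Pool.Agent.TH700

namespace HafP

/-! ### the hafnian -/

theorem haf_succ {R : Type*} [CommRing R] (w : ℕ → ℕ → R) (r : ℕ) {E : Finset ℕ} {c : ℕ}
    (hc : c ∈ E) (hmin : ∀ d ∈ E, c ≤ d) :
    haf w (r + 1) E = ∑ j ∈ E.erase c, w c j * haf w r ((E.erase c).erase j) := by
  have h : E.Nonempty := ⟨c, hc⟩
  have e : E.min' h = c := le_antisymm (E.min'_le c hc) (hmin _ (E.min'_mem h))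
  rw [haf, dif_pos h]
  rw [e]

theorem haf_congr {R : Type*} [CommRing R] {w w' : ℕ → ℕ → R} (r : ℕ) : ∀ {E : Finset ℕ},
    (∀ c ∈ E, ∀ d ∈ E, c ≠ d → w c d = w' c d) → haf w r E = haf w' r E := by
  induction r with
  | zero => intros; rfl
  | succ r ih =>
    intro E h
    by_cases hE : E.Nonempty
    · rw [haf_succ w r (E.min'_mem hE) (fun d hd => E.min'_le d hd),
        haf_succ w' r (E.min'_mem hE) (fun d hd => E.min'_le d hd)]
      refine sum_congr rfl fun j hj => ?_
      rw [mem_erase] at hj
      rw [h _ (E.min'_mem hE) j hj.2 hj.1.symm, ih]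
      intro c hc d hd hcd
      exact h c (mem_of_mem_erase (mem_of_mem_erase hc)) d
        (mem_of_mem_erase (mem_of_mem_erase hd)) hcd
    · rw [haf, dif_neg hE, haf, dif_neg hE]

/-! ### the beta function -/

theorem beta_zero (A : ℕ) : ((A : ℚ) + 1) * beta A 0 = 1 := by
  unfold beta
  have h1 : (A.factorial : ℚ) ≠ 0 := by exact_mod_cast A.factorial_ne_zero
  have h2 : ((A : ℚ) + 1) ≠ 0 := by positivity
  rw [add_zero, Nat.factorial_succ, Nat.factorial_zero]
  push_cast
  field_simp

theorem beta_succ (A B : ℕ) : ((A : ℚ) + ((B : ℚ) + 1) + 1) * beta A (B + 1) =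
    ((B : ℚ) + 1) * beta A B := by
  unfold beta
  have h1 : ((A + B + 1).factorial : ℚ) ≠ 0 := by exact_mod_cast Nat.factorial_ne_zero _
  have h2 : ((A : ℚ) + ((B : ℚ) + 1) + 1) ≠ 0 := by positivity
  have e : (A + (B + 1) + 1).factorial = (A + B + 2) * (A + B + 1).factorial := by
    rw [show A + (B + 1) + 1 = (A + B + 1) + 1 by ring, Nat.factorial_succ]
  rw [e, Nat.factorial_succ B]
  push_cast
  have h3 : ((A : ℚ) + B + 2) ≠ 0 := by positivity
  field_simp
  ring

theorem beta_step (A B : ℕ) : ((A : ℚ) + B + 1) * beta A B =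
    (if B = 0 then 1 else 0) + B * beta A (B - 1) := by
  cases B with
  | zero =>
    rw [if_pos rfl]
    have := beta_zero A
    push_cast
    linarith
  | succ B =>
    rw [if_neg (Nat.succ_ne_zero B), Nat.add_sub_cancel]
    have := beta_succ A B
    push_cast
    linarith

/-- the weights -/
def W (a b : ℕ → ℕ) (c d : ℕ) : ℚ := beta (a c + a d) (b c + b d)

/-! ### sums over distinct elements -/

theorem sum3 {E : Finset ℕ} (F : ℕ → ℕ → ℕ → ℚ) :
    ∑ j ∈ E, ∑ c ∈ E.erase j, ∑ d ∈ (E.erase j).erase c, F j c d =
      ∑ c ∈ E, ∑ d ∈ E.erase c, ∑ j ∈ (E.erase c).erase d, F j c d := by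
  rw [Finset.sum_comm' (s' := fun c => E.erase c) (t' := E)]
  · refine sum_congr rfl fun c _ => ?_
    rw [Finset.sum_comm' (s' := fun d => (E.erase c).erase d) (t' := E.erase c)]
    intro j d
    simp only [mem_erase]
    tauto
  · intro j c
    simp only [mem_erase]
    tauto

/-- the recursion for the hafnian of the weights -/
theorem hafH (a b : ℕ → ℕ) (r : ℕ) : ∀ E : Finset ℕ, E.card = 2 * r →
    2 * ((∑ c ∈ E, ((a c : ℚ) + b c)) + r) * haf (W a b) r E =
      2 * ∑ c ∈ E, (b c : ℚ) * haf (W a (dec b c)) r E +
        ∑ c ∈ E, ∑ d ∈ E.erase c, (if b c = 0 ∧ b d = 0 then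
          haf (W a b) (r - 1) ((E.erase c).erase d) else 0) := by
  induction r with
  | zero =>
    intro E hE
    have : E = ∅ := by
      rw [← Finset.card_eq_zero]
      omega
    subst this
    simp
  | succ r ih =>
    intro E hE
    have hne : E.Nonempty := by
      rw [← Finset.card_pos]
      omega
    obtain ⟨c0, hc0, hmin⟩ : ∃ c0 ∈ E, ∀ d ∈ E, c0 ≤ d :=
      ⟨E.min' hne, E.min'_mem hne, fun d hd => E.min'_le d hd⟩
    obtain ⟨E', hE'⟩ : ∃ E', E' = E.erase c0 := ⟨_, rfl⟩
    have hsub : ∀ j ∈ E', j ∈ E ∧ j ≠ c0 := by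
      intro j hj
      rw [hE', mem_erase] at hj
      exact ⟨hj.2, hj.1⟩
    have hc0' : c0 ∉ E' := by
      rw [hE']
      exact notMem_erase _ _
    have hcard' : E'.card = 2 * r + 1 := by
      rw [hE', card_erase_of_mem hc0]
      omega
    have hcardj : ∀ j ∈ E', (E'.erase j).card = 2 * r := by
      intro j hj
      rw [card_erase_of_mem hj]
      omega
    -- the expansion
    have hexp : ∀ w : ℕ → ℕ → ℚ, haf w (r + 1) E =
        ∑ j ∈ E', w c0 j * haf w r (E'.erase j) := by
      intro w
      rw [haf_succ w r hc0 hmin, hE']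
    -- sums over E
    have hsum : ∀ (g : ℕ → ℚ) (j : ℕ), j ∈ E' →
        ∑ c ∈ E, g c = g c0 + (g j + ∑ c ∈ E'.erase j, g c) := by
      intro g j hj
      rw [← add_sum_erase E g hc0, ← hE', ← add_sum_erase E' g hj]
    -- left side
    have hL : 2 * ((∑ c ∈ E, ((a c : ℚ) + b c)) + (r + 1 : ℕ)) * haf (W a b) (r + 1) E =
        ∑ j ∈ E', (2 * ((if b c0 + b j = 0 then 1 else 0) + ((b c0 + b j : ℕ) : ℚ) *
          beta (a c0 + a j) (b c0 + b j - 1)) * haf (W a b) r (E'.erase j) +
          W a b c0 j * (2 * ∑ c ∈ E'.erase j, (b c : ℚ) * haf (W a (dec b c)) r (E'.erase j) +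
            ∑ c ∈ E'.erase j, ∑ d ∈ (E'.erase j).erase c, (if b c = 0 ∧ b d = 0 then
              haf (W a b) (r - 1) (((E'.erase j).erase c).erase d) else 0))) := by
      rw [hexp, mul_sum]
      refine sum_congr rfl fun j hj => ?_
      rw [← ih _ (hcardj j hj), hsum _ j hj, ← beta_step]
      unfold W
      push_cast
      ring
    -- right side, first part
    have hR1 : ∑ c ∈ E, (b c : ℚ) * haf (W a (dec b c)) (r + 1) E =
        ∑ j ∈ E', (((b c0 + b j : ℕ) : ℚ) * beta (a c0 + a j) (b c0 + b j - 1) *
          haf (W a b) r (E'.erase j) +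
          W a b c0 j * ∑ c ∈ E'.erase j, (b c : ℚ) * haf (W a (dec b c)) r (E'.erase j)) := by
      have h1 : ∑ c ∈ E, (b c : ℚ) * haf (W a (dec b c)) (r + 1) E =
          ∑ j ∈ E', ∑ c ∈ E, (b c : ℚ) * (W a (dec b c) c0 j *
            haf (W a (dec b c)) r (E'.erase j)) := by
        rw [sum_comm]
        refine sum_congr rfl fun c _ => ?_
        rw [hexp, mul_sum]
      rw [h1]
      refine sum_congr rfl fun j hj => ?_
      obtain ⟨hjE, hjc⟩ := hsub j hj
      rw [hsum _ j hj]
      have g1 : (b c0 : ℚ) * (W a (dec b c0) c0 j * haf (W a (dec b c0)) r (E'.erase j)) =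
          (b c0 : ℚ) * beta (a c0 + a j) (b c0 + b j - 1) * haf (W a b) r (E'.erase j) := by
        rw [haf_congr (w := W a (dec b c0)) (w' := W a b) r]
        · unfold W
          rw [dec_self, dec_of_ne b hjc]
          rcases Nat.eq_zero_or_pos (b c0) with h0 | h0
          · rw [h0]
            simp
          · rw [show b c0 - 1 + b j = b c0 + b j - 1 by omega]
            ring
        · intro c hc d hd _
          have hc' : c ≠ c0 := fun h => hc0' (h ▸ mem_of_mem_erase hc)
          have hd' : d ≠ c0 := fun h => hc0' (h ▸ mem_of_mem_erase hd)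
          unfold W
          rw [dec_of_ne b hc', dec_of_ne b hd']
      have g2 : (b j : ℚ) * (W a (dec b j) c0 j * haf (W a (dec b j)) r (E'.erase j)) =
          (b j : ℚ) * beta (a c0 + a j) (b c0 + b j - 1) * haf (W a b) r (E'.erase j) := by
        rw [haf_congr (w := W a (dec b j)) (w' := W a b) r]
        · unfold W
          rw [dec_self, dec_of_ne b hjc.symm]
          rcases Nat.eq_zero_or_pos (b j) with h0 | h0
          · rw [h0]
            simp
          · rw [show b c0 + (b j - 1) = b c0 + b j - 1 by omega]
            ring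
        · intro c hc d hd _
          have hc' : c ≠ j := ne_of_mem_erase hc
          have hd' : d ≠ j := ne_of_mem_erase hd
          unfold W
          rw [dec_of_ne b hc', dec_of_ne b hd']
      have g3 : ∑ c ∈ E'.erase j, (b c : ℚ) * (W a (dec b c) c0 j *
          haf (W a (dec b c)) r (E'.erase j)) =
          W a b c0 j * ∑ c ∈ E'.erase j, (b c : ℚ) * haf (W a (dec b c)) r (E'.erase j) := by
        rw [mul_sum]
        refine sum_congr rfl fun c hc => ?_
        have hc1 : c ≠ j := ne_of_mem_erase hc
        have hc2 : c ≠ c0 := fun h => hc0' (h ▸ mem_of_mem_erase hc)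
        have : W a (dec b c) c0 j = W a b c0 j := by
          unfold W
          rw [dec_of_ne b hc2.symm, dec_of_ne b hc1.symm]
        rw [this]
        ring
      rw [g1, g2, g3]
      push_cast
      ring
    -- right side, second part
    obtain ⟨f, hf⟩ : ∃ f : ℕ → ℕ → ℚ, ∀ c d, f c d = (if b c = 0 ∧ b d = 0 then
          haf (W a b) r ((E.erase c).erase d) else 0) := ⟨_, fun _ _ => rfl⟩
    have hR2 : ∑ c ∈ E, ∑ d ∈ E.erase c, f c d =
        2 * ∑ j ∈ E', (if b c0 + b j = 0 then 1 else 0) * haf (W a b) r (E'.erase j) +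
          ∑ c ∈ E', ∑ d ∈ E'.erase c, f c d := by
      have h1 : ∀ j ∈ E', f c0 j =
          (if b c0 + b j = 0 then 1 else 0) * haf (W a b) r (E'.erase j) := by
        intro j _
        rw [hf, ← hE']
        by_cases h : b c0 + b j = 0
        · rw [if_pos h, if_pos (by omega), one_mul]
        · rw [if_neg h, if_neg (by omega), zero_mul]
      have h2 : ∀ j ∈ E', f j c0 = f c0 j := by
        intro j _
        rw [hf, hf, erase_right_comm]
        by_cases h : b c0 = 0 ∧ b j = 0
        · rw [if_pos h, if_pos h.symm]
        · rw [if_neg h, if_neg fun h' => h h'.symm]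
      rw [← add_sum_erase E _ hc0, ← hE']
      have h3 : ∑ c ∈ E', ∑ d ∈ E.erase c, f c d =
          ∑ c ∈ E', (f c0 c + ∑ d ∈ E'.erase c, f c d) := by
        refine sum_congr rfl fun c hc => ?_
        have h4 : c0 ∈ E.erase c := mem_erase.2 ⟨(hsub c hc).2.symm, hc0⟩
        rw [← add_sum_erase _ _ h4, h2 c hc, erase_right_comm, ← hE']
      rw [h3, sum_add_distrib, sum_congr rfl h1]
      ring
    -- pairs of elements different from the least one
    have hR3 : ∑ c ∈ E', ∑ d ∈ E'.erase c, f c d =
        ∑ j ∈ E', W a b c0 j * ∑ c ∈ E'.erase j, ∑ d ∈ (E'.erase j).erase c,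
          (if b c = 0 ∧ b d = 0 then
            haf (W a b) (r - 1) (((E'.erase j).erase c).erase d) else 0) := by
      cases r with
      | zero =>
        have e1 : ∀ c ∈ E', E'.erase c = ∅ := by
          intro c hc
          rw [← Finset.card_eq_zero, hcardj c hc]
        rw [sum_congr rfl fun c hc => by rw [e1 c hc, sum_empty], sum_const_zero]
        symm
        rw [sum_congr rfl fun c hc => by rw [e1 c hc, sum_empty, mul_zero], sum_const_zero]
      | succ r =>
        rw [Nat.add_sub_cancel]
        have h1 : ∀ c ∈ E', ∀ d ∈ E'.erase c, f c d = ∑ j ∈ (E'.erase c).erase d,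
            W a b c0 j * (if b c = 0 ∧ b d = 0 then
              haf (W a b) r (((E'.erase j).erase c).erase d) else 0) := by
          intro c hc d hd
          rw [hf]
          by_cases h : b c = 0 ∧ b d = 0
          · simp only [if_pos h]
            have hd' := mem_of_mem_erase hd
            have h2 : c0 ∈ (E.erase c).erase d :=
              mem_erase.2 ⟨(hsub d hd').2.symm, mem_erase.2 ⟨(hsub c hc).2.symm, hc0⟩⟩
            rw [haf_succ _ r h2 (fun x hx => hmin x (mem_of_mem_erase (mem_of_mem_erase hx)))]
            have e1 : ((E.erase c).erase d).erase c0 = (E'.erase c).erase d := by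
              rw [hE', erase_right_comm, erase_right_comm (s := E) (a := c)]
            rw [e1]
            refine sum_congr rfl fun j _ => ?_
            congr 2
            rw [erase_right_comm (s := E'.erase c), erase_right_comm (s := E')]
          · simp only [if_neg h, mul_zero, sum_const_zero]
        rw [sum_congr rfl fun c hc => sum_congr rfl fun d hd => h1 c hc d hd, ← sum3]
        refine sum_congr rfl fun j _ => ?_
        rw [mul_sum]
        refine sum_congr rfl fun c _ => ?_
        rw [mul_sum]
    rw [hL, hR1, Nat.add_sub_cancel]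
    simp only [← hf]
    rw [hR2, hR3, mul_sum, mul_sum, ← sum_add_distrib, ← sum_add_distrib]
    refine sum_congr rfl fun j _ => ?_
    ring

/-! ### the paths -/

/-- the set of the long paths -/
def Ef (cs : List (ℕ × ℕ)) (k : ℕ → ℕ) : Finset ℕ :=
  (range cs.length).filter (fun c => aa cs c < k c)

/-- the number of the further vertices -/
def bk (cs : List (ℕ × ℕ)) (k : ℕ → ℕ) (c : ℕ) : ℕ := k c - aa cs c - 1

/-- the factors -/
noncomputable def ph (cs : List (ℕ × ℕ)) (k : ℕ → ℕ) (c : ℕ) : ℚ :=
  if aa cs c < k c then ((aa cs c).factorial * (bk cs k c).factorial : ℚ)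
  else ((k c).factorial : ℚ)

theorem mem_Ef {cs : List (ℕ × ℕ)} {k : ℕ → ℕ} {c : ℕ} :
    c ∈ Ef cs k ↔ c < cs.length ∧ aa cs c < k c := by
  unfold Ef
  rw [mem_filter, mem_range]

theorem Ek_eq (cs : List (ℕ × ℕ)) (k : ℕ → ℕ) : Ek cs k = (Ef cs k).card := rfl

theorem bk_dec (cs : List (ℕ × ℕ)) (k : ℕ → ℕ) (c : ℕ) : bk cs (dec k c) = dec (bk cs k) c := by
  funext d
  by_cases h : d = c
  · subst h
    rw [dec_self]
    unfold bk
    rw [dec_self]
    omega
  · rw [dec_of_ne _ h]
    unfold bk
    rw [dec_of_ne _ h]

theorem Ef_dec_ne {cs : List (ℕ × ℕ)} {k : ℕ → ℕ} {c : ℕ} (h : k c ≠ aa cs c + 1) :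
    Ef cs (dec k c) = Ef cs k := by
  ext d
  rw [mem_Ef, mem_Ef]
  by_cases hd : d = c
  · subst hd
    rw [dec_self]
    omega
  · rw [dec_of_ne _ hd]

theorem Ef_dec_eq {cs : List (ℕ × ℕ)} {k : ℕ → ℕ} {c : ℕ} (h : k c = aa cs c + 1) :
    Ef cs (dec k c) = (Ef cs k).erase c := by
  ext d
  rw [mem_erase, mem_Ef, mem_Ef]
  by_cases hd : d = c
  · subst hd
    rw [dec_self]
    omega
  · rw [dec_of_ne _ hd]
    tauto

theorem sum_dec {n : ℕ} {k : ℕ → ℕ} {c : ℕ} (hc : c < n) (h : 0 < k c) :
    ∑ d ∈ range n, dec k c d + 1 = ∑ d ∈ range n, k d := by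
  rw [← add_sum_erase (range n) (dec k c) (mem_range.2 hc),
    ← add_sum_erase (range n) k (mem_range.2 hc), dec_self]
  have : ∑ d ∈ (range n).erase c, dec k c d = ∑ d ∈ (range n).erase c, k d :=
    sum_congr rfl fun d hd => dec_of_ne _ (ne_of_mem_erase hd)
  rw [this]
  omega

theorem prod_dec {cs : List (ℕ × ℕ)} {k : ℕ → ℕ} {c : ℕ} (hc : c < cs.length) {x : ℚ}
    (h : ph cs k c = x * ph cs (dec k c) c) :
    ∏ d ∈ range cs.length, ph cs k d = x * ∏ d ∈ range cs.length, ph cs (dec k c) d := by
  rw [← mul_prod_erase (range cs.length) (ph cs k) (mem_range.2 hc),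
    ← mul_prod_erase (range cs.length) (ph cs (dec k c)) (mem_range.2 hc), h, mul_assoc]
  congr 2
  refine prod_congr rfl fun d hd => ?_
  have hd' := ne_of_mem_erase hd
  unfold ph
  rw [bk_dec, dec_of_ne _ hd', dec_of_ne _ hd']

theorem card_le_sum (cs : List (ℕ × ℕ)) (k : ℕ → ℕ) :
    (Ef cs k).card ≤ ∑ c ∈ range cs.length, k c := by
  calc (Ef cs k).card = ∑ c ∈ Ef cs k, 1 := by simp
    _ ≤ ∑ c ∈ Ef cs k, k c := sum_le_sum fun c hc => by
        have := (mem_Ef.1 hc).2
        omega
    _ ≤ _ := sum_le_sum_of_subset (filter_subset _ _)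

theorem fact_pos_step {m : ℕ} (h : 0 < m) : (m.factorial : ℚ) = m * ((m - 1).factorial : ℚ) := by
  obtain ⟨m, rfl⟩ : ∃ m', m = m' + 1 := ⟨m - 1, by omega⟩
  rw [Nat.add_sub_cancel, Nat.factorial_succ]
  push_cast
  ring

/-- the closed formula for all prefixes -/
theorem main (cs : List (ℕ × ℕ)) (s : ℕ) : ∀ k : ℕ → ℕ, ∑ c ∈ range cs.length, k c = s →
    ∀ r, (Ef cs k).card = 2 * r →
      (Lv cs s k : ℚ) * ∏ c ∈ range cs.length, ph cs k c =
        2 ^ (s - r) * ((s - r).factorial : ℚ) * haf (W (aa cs) (bk cs k)) r (Ef cs k) := by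
  induction s using Nat.strong_induction_on with
  | _ s ih =>
    intro k hk r hr
    rcases Nat.eq_zero_or_pos s with hs0 | hs0
    · -- no vertices
      subst hs0
      have h0 : ∀ c ∈ range cs.length, k c = 0 := fun c hc => (sum_eq_zero_iff.1 hk) c hc
      have hE := card_le_sum cs k
      have hr0 : r = 0 := by omega
      subst hr0
      have h1 : ∏ c ∈ range cs.length, ph cs k c = 1 := by
        refine prod_eq_one fun c hc => ?_
        unfold ph
        rw [h0 c hc, if_neg (by omega)]
        simp
      rw [h1]
      simp [Lv, haf]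
    obtain ⟨s', rfl⟩ : ∃ s', s = s' + 1 := ⟨s - 1, by omega⟩
    have hcard := card_le_sum cs k
    rw [hk, hr] at hcard
    have hrs : r ≤ s' := by omega
    obtain ⟨Q, hQ⟩ : ∃ Q : ℚ, Q = 2 ^ (s' - r) * ((s' - r).factorial : ℚ) := ⟨_, rfl⟩
    obtain ⟨E, hE⟩ : ∃ E, E = Ef cs k := ⟨_, rfl⟩
    obtain ⟨a, ha⟩ : ∃ a, a = aa cs := ⟨_, rfl⟩
    obtain ⟨b, hb⟩ : ∃ b, b = bk cs k := ⟨_, rfl⟩
    obtain ⟨Pi0, hPi⟩ : ∃ Pi0, Pi0 = ∏ c ∈ range cs.length, ph cs k c := ⟨_, rfl⟩
    have hEk : Ek cs k % 2 = 0 := by
      rw [Ek_eq, hr]
      omega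
    rw [← hE] at hr
    -- the terms
    obtain ⟨X, hX⟩ : ∃ X : ℕ → ℚ, ∀ c, X c = if a c < k c then
        2 * ((b c : ℚ) * haf (W a (dec b c)) r E) + ∑ d ∈ E.erase c,
          (if b c = 0 ∧ b d = 0 then haf (W a b) (r - 1) ((E.erase c).erase d) else 0)
        else 2 * ((k c : ℚ) * haf (W a b) r E) := ⟨_, fun _ => rfl⟩
    have hterm : ∀ c ∈ range cs.length, ((if k c = 0 then 0 else
        if k c = aa cs c + 1 then Lv cs s' (dec k c) else
        if Ek cs k % 2 = 0 then 2 * Lv cs s' (dec k c) else 0 : ℕ) : ℚ) * Pi0 = Q * X c := by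
      intro c hc
      have hc' := mem_range.1 hc
      rw [hX]
      by_cases hlt : a c < k c
      · rw [if_pos hlt, if_neg (show k c ≠ 0 by omega)]
        rw [ha] at hlt
        by_cases h1 : k c = aa cs c + 1
        · -- a critical vertex
          rw [if_pos h1]
          have hbc : b c = 0 := by
            rw [hb]
            unfold bk
            omega
          have hcE : c ∈ E := by
            rw [hE, mem_Ef]
            exact ⟨hc', hlt⟩
          have hr1 : 1 ≤ r := by
            have := card_pos.2 ⟨c, hcE⟩
            omega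
          have hsum1 := sum_dec hc' (show 0 < k c by omega)
          have hEf1 := Ef_dec_eq h1
          rw [← hE] at hEf1
          have hcard1 : (Ef cs (dec k c)).card = 2 * r - 1 := by
            rw [hEf1, card_erase_of_mem hcE, hr]
          have hle1 := card_le_sum cs (dec k c)
          obtain ⟨s2, rfl⟩ : ∃ s2, s' = s2 + 1 := ⟨s' - 1, by omega⟩
          have hprod1 : Pi0 = 1 * ∏ d ∈ range cs.length, ph cs (dec k c) d := by
            rw [hPi]
            refine prod_dec hc' ?_
            unfold ph
            rw [dec_self, if_pos hlt, if_neg (by omega)]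
            unfold bk
            rw [h1]
            simp
          have hLv : Lv cs (s2 + 1) (dec k c) = ∑ d ∈ E.erase c,
              if b d = 0 then Lv cs s2 (dec (dec k c) d) else 0 := by
            rw [Lv]
            symm
            have hsub : E.erase c ⊆ range cs.length := by
              intro d hd
              have := mem_of_mem_erase hd
              rw [hE, mem_Ef] at this
              exact mem_range.2 this.1
            rw [← sum_subset hsub]
            · refine sum_congr rfl fun d hd => ?_
              have hd1 := ne_of_mem_erase hd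
              have hd2 := mem_of_mem_erase hd
              rw [hE, mem_Ef] at hd2
              rw [dec_of_ne _ hd1, if_neg (show k d ≠ 0 by omega)]
              by_cases h2 : b d = 0
              · have h3 : k d = aa cs d + 1 := by
                  rw [hb] at h2
                  unfold bk at h2
                  omega
                rw [if_pos h2, if_pos h3]
              · have h3 : k d ≠ aa cs d + 1 := by
                  rw [hb] at h2
                  unfold bk at h2
                  omega
                rw [if_neg h2, if_neg h3, if_neg]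
                rw [Ek_eq, hcard1]
                omega
            · intro d hd hd2
              by_cases h0 : dec k c d = 0
              · rw [if_pos h0]
              · rw [if_neg h0, if_neg, if_neg]
                · rw [Ek_eq, hcard1]
                  omega
                · intro h3
                  by_cases hdc : d = c
                  · subst hdc
                    rw [dec_self] at h3
                    omega
                  · rw [dec_of_ne _ hdc] at h3
                    apply hd2
                    rw [mem_erase, hE, mem_Ef]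
                    exact ⟨hdc, mem_range.1 hd, by omega⟩
          rw [hLv, hbc, Nat.cast_zero, zero_mul, mul_zero, zero_add, Nat.cast_sum, sum_mul, mul_sum]
          refine sum_congr rfl fun d hd => ?_
          by_cases h2 : b d = 0
          · rw [if_pos h2, if_pos ⟨rfl, h2⟩]
            have hd1 := ne_of_mem_erase hd
            have hd2 := mem_of_mem_erase hd
            rw [hE, mem_Ef] at hd2
            have h3 : dec k c d = aa cs d + 1 := by
              rw [dec_of_ne _ hd1]
              rw [hb] at h2
              unfold bk at h2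
              omega
            have hsum2 := sum_dec hd2.1 (show 0 < dec k c d by omega)
            have hprod2 : ∏ d ∈ range cs.length, ph cs (dec k c) d =
                1 * ∏ e ∈ range cs.length, ph cs (dec (dec k c) d) e := by
              refine prod_dec hd2.1 ?_
              unfold ph
              rw [dec_self, if_pos (by omega), if_neg (by omega)]
              unfold bk
              rw [h3]
              simp
            have hEf2 := Ef_dec_eq h3
            rw [hEf1] at hEf2
            have hcard2 : (Ef cs (dec (dec k c) d)).card = 2 * (r - 1) := by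
              rw [hEf2, card_erase_of_mem hd, card_erase_of_mem hcE, hr]
              omega
            have h4 := ih s2 (by omega) (dec (dec k c) d) (by omega) (r - 1) hcard2
            rw [hprod1, hprod2, one_mul, one_mul, h4, hQ, hEf2,
              show s2 - (r - 1) = s2 + 1 - r by omega]
            congr 1
            refine haf_congr _ fun x hx y hy _ => ?_
            have hx1 := ne_of_mem_erase hx
            have hx2 := ne_of_mem_erase (mem_of_mem_erase hx)
            have hy1 := ne_of_mem_erase hy
            have hy2 := ne_of_mem_erase (mem_of_mem_erase hy)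
            unfold W
            rw [bk_dec, bk_dec, dec_of_ne _ hx1, dec_of_ne _ hx2, dec_of_ne _ hy1,
              dec_of_ne _ hy2, ha, hb]
          · rw [if_neg h2, if_neg fun h => h2 h.2]
            simp
        · -- a vertex after the critical ones
          rw [if_neg h1, if_pos hEk]
          have hbc : 0 < b c := by
            rw [hb]
            unfold bk
            omega
          have hsum1 := sum_dec hc' (show 0 < k c by omega)
          have hEf1 := Ef_dec_ne h1
          rw [← hE] at hEf1
          have hprod1 : Pi0 = (b c : ℚ) * ∏ d ∈ range cs.length, ph cs (dec k c) d := by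
            rw [hPi]
            refine prod_dec hc' ?_
            unfold ph
            rw [bk_dec, dec_self, dec_self, if_pos hlt, if_pos (by omega), ← hb,
              fact_pos_step hbc]
            ring
          have h4 := ih s' (by omega) (dec k c) (by omega) r (by rw [hEf1, hr])
          have h5 : ∑ d ∈ E.erase c, (if b c = 0 ∧ b d = 0 then
              haf (W a b) (r - 1) ((E.erase c).erase d) else 0) = 0 := by
            refine sum_eq_zero fun d _ => ?_
            rw [if_neg (by omega)]
          rw [h5, add_zero, hprod1, hQ]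
          rw [hEf1, bk_dec, ← ha, ← hb] at h4
          push_cast
          linear_combination 2 * (b c : ℚ) * h4
      · -- a vertex before the critical ones
        rw [if_neg hlt]
        rw [ha] at hlt
        rcases Nat.eq_zero_or_pos (k c) with h0 | h0
        · rw [if_pos h0, h0]
          simp
        · rw [if_neg (show k c ≠ 0 by omega), if_neg (by omega), if_pos hEk]
          have hsum1 := sum_dec hc' h0
          have hEf1 : Ef cs (dec k c) = Ef cs k := Ef_dec_ne (by omega)
          rw [← hE] at hEf1
          have hprod1 : Pi0 = (k c : ℚ) * ∏ d ∈ range cs.length, ph cs (dec k c) d := by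
            rw [hPi]
            refine prod_dec hc' ?_
            unfold ph
            rw [dec_self, if_neg hlt, if_neg (by omega), fact_pos_step h0]
          have h4 := ih s' (by omega) (dec k c) (by omega) r (by rw [hEf1, hr])
          have h5 : haf (W (aa cs) (bk cs (dec k c))) r E = haf (W a b) r E := by
            refine haf_congr _ fun x hx y hy _ => ?_
            have hx1 : x ≠ c := by
              rintro rfl
              rw [hE, mem_Ef] at hx
              omega
            have hy1 : y ≠ c := by
              rintro rfl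
              rw [hE, mem_Ef] at hy
              omega
            unfold W
            rw [bk_dec, dec_of_ne _ hx1, dec_of_ne _ hy1, ha, hb]
          rw [hprod1, hQ]
          rw [hEf1, h5] at h4
          push_cast
          linear_combination 2 * (k c : ℚ) * h4
    -- the sum
    have hsumX : ∑ c ∈ range cs.length, X c =
        2 * ((s' + 1 : ℕ) - (r : ℚ)) * haf (W a b) r E := by
      have hH := hafH a b r E hr
      rw [← sum_filter_add_sum_filter_not (range cs.length) (fun c => a c < k c) X]
      have e1 : (range cs.length).filter (fun c => a c < k c) = E := by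
        rw [hE, ha]
        rfl
      rw [e1]
      have e2 : ∑ c ∈ E, X c = 2 * ((∑ c ∈ E, ((a c : ℚ) + b c)) + r) * haf (W a b) r E := by
        rw [hH, mul_sum, ← sum_add_distrib]
        refine sum_congr rfl fun c hc => ?_
        rw [hE, mem_Ef, ← ha] at hc
        rw [hX, if_pos hc.2]
      have e3 : ∑ c ∈ (range cs.length).filter (fun c => ¬ a c < k c), X c =
          2 * (∑ c ∈ (range cs.length).filter (fun c => ¬ a c < k c), (k c : ℚ)) *
            haf (W a b) r E := by
        rw [mul_assoc, sum_mul, mul_sum]
        refine sum_congr rfl fun c hc => ?_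
        rw [hX, if_neg (mem_filter.1 hc).2]
      have e4 : ((s' + 1 : ℕ) : ℚ) = (∑ c ∈ E, ((a c : ℚ) + b c)) + 2 * r +
          ∑ c ∈ (range cs.length).filter (fun c => ¬ a c < k c), (k c : ℚ) := by
        rw [← hk, ← sum_filter_add_sum_filter_not (range cs.length) (fun c => a c < k c) k, e1]
        push_cast
        congr 1
        have e5 : ∑ c ∈ E, (k c : ℚ) = ∑ c ∈ E, (((a c : ℚ) + b c) + 1) := by
          refine sum_congr rfl fun c hc => ?_
          rw [hE, mem_Ef, ← ha] at hc
          have : k c = a c + b c + 1 := by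
            rw [hb]
            unfold bk
            rw [← ha]
            omega
          rw [this]
          push_cast
          ring
        rw [e5, sum_add_distrib]
        congr 1
        rw [sum_const, hr]
        simp
      rw [e2, e3, e4]
      ring
    rw [Lv, ← hPi, Nat.cast_sum, sum_mul, sum_congr rfl hterm, ← mul_sum, hsumX, hQ, ← ha, ← hb,
      ← hE]
    have e6 : s' + 1 - r = (s' - r) + 1 := by omega
    rw [e6, pow_succ, Nat.factorial_succ]
    push_cast [Nat.cast_sub hrs]
    ring

end HafP

open HafP

/-- **B6** -/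
theorem s_haf : S_haf := by
  intro cs hcs
  obtain ⟨r, hr⟩ := hcs
  have hE : Ef cs (Kc cs) = range cs.length := by
    unfold Ef
    refine filter_true_of_mem fun c _ => ?_
    unfold Kc
    omega
  have hb : ∀ c, bk cs (Kc cs) c = bb cs c := by
    intro c
    unfold bk Kc
    omega
  have h := main cs _ (Kc cs) rfl r (by rw [hE, card_range, hr]; ring)
  rw [hE] at h
  have e1 : ∏ c ∈ range cs.length, ph cs (Kc cs) c =
      ∏ c ∈ range cs.length, ((aa cs c).factorial * (bb cs c).factorial : ℚ) := by
    refine prod_congr rfl fun c _ => ?_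
    unfold ph
    rw [hb, if_pos]
    unfold Kc
    omega
  have e2 : W (aa cs) (bk cs (Kc cs)) = wt cs := by
    funext c d
    unfold W wt
    rw [hb, hb]
  have e3 : cs.length / 2 = r := by omega
  rw [e1, e2] at h
  rw [e3]
  exact h

end Pool.Agent.NH88.SR
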