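import Pool.Agent.NH88.SR.Stm1

/-!
# C2, C3: hafnians and permanents
-/

set_option autoImplicit false

namespace Pool.Agent.NH88.SR

open Finset

namespace HP

theorem haf_succ {R : Type*} [CommRing R] (w : ℕ → ℕ → R) (r : ℕ) (E : Finset ℕ)
    (h : E.Nonempty) (m : ℕ) (hm : m ∈ E) (hmin : ∀ x ∈ E, m ≤ x) :
    haf w (r + 1) E = ∑ j ∈ E.erase m, w m j * haf w r ((E.erase m).erase j) := by
  have h1 : E.min' h = m := le_antisymm (min'_le _ _ hm) (le_min' _ _ _ hmin)
  rw [haf, dif_pos h, h1]

/-- the permanent by rows -/
def Pr {R : Type*} [CommRing R] (w : ℕ → ℕ → R) : ℕ → ℕ → Finset ℕ → R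
  | 0, _, _ => 1
  | s + 1, i, T => ∑ j ∈ T, w i j * Pr w s (i + 1) (T.erase j)

theorem Pr_eq {R : Type*} [CommRing R] (w : ℕ → ℕ → R) (s : ℕ) : ∀ (i : ℕ) (T : Finset ℕ)
    (e : Fin s → ℕ), Function.Injective e → univ.image e = T →
    Pr w s i T = ∑ σ : Equiv.Perm (Fin s), ∏ k : Fin s, w (i + k) (e (σ k)) := by
  induction s with
  | zero =>
    intro i T e _ _
    simp [Pr]
  | succ s ih =>
    intro i T e he hT
    rw [← Equiv.sum_comp Equiv.Perm.decomposeFin.symm, Fintype.sum_prod_type, Pr, ← hT,
      sum_image (fun a _ b _ h => he h)]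
    refine sum_congr rfl fun p _ => ?_
    have h1 : Pr w s (i + 1) ((univ.image e).erase (e p)) =
        ∑ σ : Equiv.Perm (Fin s), ∏ k : Fin s, w (i + 1 + k) (e (Equiv.swap 0 p (σ k).succ)) := by
      refine ih (i + 1) _ (fun x => e (Equiv.swap 0 p x.succ)) ?_ ?_
      · intro x y hxy
        exact Fin.succ_injective _ ((Equiv.swap 0 p).injective (he hxy))
      · ext x
        simp only [mem_image, mem_univ, true_and, mem_erase]
        constructor
        · rintro ⟨a, rfl⟩
          refine ⟨fun h => ?_, _, rfl⟩
          have h2 := he h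
          have h3 : Equiv.swap 0 p a.succ = Equiv.swap 0 p 0 := by
            rw [h2, Equiv.swap_apply_left]
          exact Fin.succ_ne_zero a ((Equiv.swap 0 p).injective h3)
        · rintro ⟨h, a, rfl⟩
          have h2 : Equiv.swap 0 p a ≠ 0 := by
            intro h3
            apply h
            have h4 : a = Equiv.swap 0 p 0 := by
              rw [← Equiv.swap_apply_self 0 p a, h3]
            rw [h4, Equiv.swap_apply_left]
          obtain ⟨b, hb⟩ := Fin.exists_succ_eq.mpr h2
          refine ⟨b, ?_⟩
          rw [hb, Equiv.swap_apply_self]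
    rw [h1, mul_sum]
    refine sum_congr rfl fun σ _ => ?_
    rw [Fin.prod_univ_succ, Equiv.Perm.decomposeFin_symm_apply_zero]
    congr 1
    refine prod_congr rfl fun k _ => ?_
    rw [Equiv.Perm.decomposeFin_symm_apply_succ, Fin.val_succ]
    congr 1
    omega

theorem haf_Pr {R : Type*} [CommRing R] (w : ℕ → ℕ → R) (N : ℕ)
    (hw : ∀ i < N, ∀ j < N, i ≠ j → w i j = 0) (s : ℕ) : ∀ (i : ℕ) (T : Finset ℕ), i + s = N →
    (∀ x ∈ T, N ≤ x) → haf w s (Ico i N ∪ T) = Pr w s i T := by
  induction s with
  | zero =>
    intro i T _ _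
    rw [haf, Pr]
  | succ s ih =>
    intro i T hi hT
    have hm : i ∈ Ico i N ∪ T := mem_union_left _ (mem_Ico.mpr ⟨le_rfl, by omega⟩)
    rw [haf_succ w s _ ⟨i, hm⟩ i hm]
    · have hE : (Ico i N ∪ T).erase i = Ico (i + 1) N ∪ T := by
        ext x
        simp only [mem_erase, mem_union, mem_Ico]
        constructor
        · rintro ⟨h1, h2 | h2⟩
          · left; omega
          · right; exact h2
        · rintro (h | h)
          · exact ⟨by omega, Or.inl (by omega)⟩
          · have := hT x h
            exact ⟨by omega, Or.inr h⟩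
      have hd : Disjoint (Ico (i + 1) N) T := by
        rw [disjoint_left]
        intro x hx hxT
        have := hT x hxT
        rw [mem_Ico] at hx
        omega
      rw [hE, sum_union hd, sum_eq_zero, zero_add, Pr]
      · refine sum_congr rfl fun j hj => ?_
        have hj' := hT j hj
        have hE2 : (Ico (i + 1) N ∪ T).erase j = Ico (i + 1) N ∪ T.erase j := by
          ext x
          simp only [mem_erase, mem_union, mem_Ico]
          constructor
          · rintro ⟨h1, h2 | h2⟩
            · left; omega
            · right; exact ⟨h1, h2⟩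
          · rintro (h | h)
            · exact ⟨by omega, Or.inl (by omega)⟩
            · exact ⟨h.1, Or.inr h.2⟩
        rw [hE2, ih (i + 1) (T.erase j) (by omega) (fun x hx => hT x (mem_of_mem_erase hx))]
      · intro x hx
        rw [mem_Ico] at hx
        rw [hw i (by omega) x (by omega) (by omega), zero_mul]
    · intro x hx
      rcases mem_union.mp hx with h | h
      · exact (mem_Ico.mp h).1
      · have := hT x h
        omega

end HP

theorem s_hp : S_hp := by
  intro R _ w N hw
  have h1 : range (2 * N) = Ico 0 N ∪ Ico N (2 * N) := by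
    ext x
    simp only [mem_union, mem_Ico, mem_range]
    omega
  rw [h1, HP.haf_Pr w N hw N 0 _ (by omega) (fun x hx => (mem_Ico.mp hx).1),
    HP.Pr_eq w N 0 (Ico N (2 * N)) (fun j : Fin N => N + (j : ℕ)) _ _,
    ← Matrix.permanent_transpose, Matrix.permanent]
  · refine sum_congr rfl fun σ _ => prod_congr rfl fun k _ => ?_
    rw [Matrix.transpose_apply, Matrix.of_apply, zero_add]
  · intro a b h
    exact Fin.ext (by simpa using h)
  · ext x
    simp only [mem_image, mem_univ, true_and, mem_Ico]
    constructor
    · rintro ⟨a, rfl⟩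
      have := a.isLt
      omega
    · intro h
      exact ⟨⟨x - N, by omega⟩, by simp; omega⟩

theorem s_hs : S_hs := by
  intro R S _ _ f w w' t r
  refine fun E => ⟨?_, ?_, ?_⟩
  · induction r generalizing E with
    | zero => simp [haf]
    | succ r ih =>
      by_cases h : E.Nonempty
      · rw [haf, dif_pos h, haf, dif_pos h, map_sum]
        refine sum_congr rfl fun j _ => ?_
        rw [ih, map_mul]
      · rw [haf, dif_neg h, haf, dif_neg h, map_zero]
  · induction r generalizing E with
    | zero => simp [haf]
    | succ r ih =>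
      by_cases h : E.Nonempty
      · rw [haf, dif_pos h, haf, dif_pos h, mul_sum]
        refine sum_congr rfl fun j _ => ?_
        rw [ih, pow_succ]
        ring
      · rw [haf, dif_neg h, haf, dif_neg h, mul_zero]
  · induction r generalizing E with
    | zero => simp [haf]
    | succ r ih =>
      intro hE
      by_cases h : E.Nonempty
      · rw [haf, dif_pos h, haf, dif_pos h]
        refine sum_congr rfl fun j hj => ?_
        rw [ih, hE _ (E.min'_mem h) j (mem_of_mem_erase hj) (ne_of_mem_erase hj).symm]
        intro c hc d hd hcd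
        exact hE c (mem_of_mem_erase (mem_of_mem_erase hc)) d
          (mem_of_mem_erase (mem_of_mem_erase hd)) hcd
      · rw [haf, dif_neg h, haf, dif_neg h]

end Pool.Agent.NH88.SR
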