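import Pool.Agent.NH88.SR.PotAux

/-!
# Finite differences of `U` and leading coefficients
-/

namespace Pool.Agent.NH88.SR

open Finset Pool.Agent.TH700

namespace Lead

open PotAux

theorem u_congr (cs : List (ℕ × ℕ)) : ∀ (r : ℕ) (S : Finset (ℕ × ℕ)) (j : ℕ), S ⊆ Ws cs →
    u (fun S x => S ⊆ Ws cs ∧ okA cs S x) r S j = u (okA cs) r S j := by
  classical
  intro r
  induction r with
  | zero => intro S j _; rfl
  | succ r ih =>
    intro S j hS
    simp only [u]
    congr 1
    · refine sum_congr rfl fun v hv => ?_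
      have h1 : S.erase v ⊆ Ws cs := (erase_subset _ _).trans hS
      simp only [h1, true_and]
      rw [ih _ _ h1]
    · simp only [hS, true_and]
      rw [ih _ _ hS]

theorem Bp_empty (cs : List (ℕ × ℕ)) : Bp cs ∅ = 1 := by
  have h := EE_le cs ∅
  rw [card_empty] at h
  unfold Bp
  rw [if_pos (okA_empty_false cs), card_empty]
  omega

end Lead

open PotAux Lead in
theorem s_lead : S_type → S_lin → S_pre → S_lead := by
  intro ht hl hp cs hcs
  classical
  have hW0 : okA cs (Ws cs) false := by
    rw [Ws_eq_pre]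
    exact okA_pre hl hp fun c _ => le_rfl
  have hWE : EE cs (Ws cs) = cs.length := by
    rw [Ws_eq_pre, EE_pre hp fun c _ => le_rfl, Ek_Kc]
  have hWle := EE_le cs (Ws cs)
  rw [hWE] at hWle
  have key := ht (fun S x => S ⊆ Ws cs ∧ okA cs S x) (Bp cs)
    ⟨empty_subset _, okA_empty_false cs⟩ ⟨empty_subset _, okA_empty_true cs⟩ (Bp_empty cs)
    ?_ ?_ (Ws cs) ((Ws cs).card - cs.length / 2) ⟨Subset.refl _, hW0⟩ ?_
  · rw [← key]
    congr 1
    funext r
    unfold U
    rw [u_congr cs _ _ _ (Subset.refl _)]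
  · rintro S hS ⟨hSW, h0⟩ ⟨_, h1⟩ v hv x ⟨hSW', hx⟩
    have he := ((hl cs S hSW).2 h0).1 h1
    have e1 := EE_erase cs S v
    have e2 := EE_le cs S
    have e3 := EE_le cs (S.erase v)
    have e4 := card_erase_of_mem hv
    have e5 := card_pos.2 hS
    rw [Nat.even_iff] at he
    unfold Bp
    rw [if_pos h0]
    split_ifs with h2
    · omega
    · have e6 := EE_lt' hl hSW' h2
      omega
  · rintro S x ⟨hSW, hx⟩ hnx v hv ⟨hSW', hx'⟩
    have hnx' : ¬ okA cs S (!x) := fun h => hnx ⟨hSW, h⟩
    have e1 := EE_erase cs S v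
    have e2 := EE_le cs S
    have e3 := EE_le cs (S.erase v)
    have e4 := card_erase_of_mem hv
    have e5 := card_pos.2 ⟨v, hv⟩
    cases x with
    | false =>
      have ho : ¬ Even (EE cs S) := fun h => hnx' (((hl cs S hSW).2 hx).2 h)
      rw [Nat.even_iff] at ho
      unfold Bp
      rw [if_pos hx, if_pos hx']
      omega
    | true =>
      have h0 : ¬ okA cs S false := hnx'
      have e6 := EE_lt' hl hSW h0
      unfold Bp
      rw [if_neg h0]
      split_ifs with h2
      · have e7 : EE cs S ≤ EE cs (S.erase v) := by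
          apply EE_erase'
          obtain ⟨c, hc, h3⟩ := exists_sing hl hSW h0
          by_cases e : c = v.1
          · rwa [← e]
          · exfalso
            have h4 := (hl cs _ hSW').1.1 h2 c hc
            rw [pt_erase_ne e] at h4
            exact h3 h4
        omega
      · have e6 := EE_lt' hl hSW' h2
        omega
  · unfold Bp
    rw [if_pos hW0, hWE]
    rw [Nat.even_iff] at hcs
    omega

end Pool.Agent.NH88.SR
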