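import Pool.Agent.NH88.SR.Stm1

/-!
# Bordered block matrices over the field with two elements
-/

set_option autoImplicit false

namespace Pool.Agent.NH88.SR

open Finset Pool.Agent.TH700

namespace LinAux

variable (cs : List (ℕ × ℕ))

/-- the matrix on the proper vertices -/
def Nm (v u : ℕ × ℕ) : ZMod 2 := M0 cs (some v) (some u)

/-- the border -/
def bd (v : ℕ × ℕ) : ZMod 2 := M0 cs none (some v)

theorem Nm_zero {v u : ℕ × ℕ} (h : v.1 ≠ u.1) : Nm cs v u = 0 := by
  unfold Nm M0
  simp only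
  rw [if_neg (fun h1 => h h1.1)]

theorem sum_some {Q : Finset (ℕ × ℕ)} (f : Option (ℕ × ℕ) → ZMod 2) :
    ∑ u ∈ Q.image some, f u = ∑ u ∈ Q, f (some u) :=
  Finset.sum_image (fun _ _ _ _ h => Option.some_injective _ h)

theorem ok_false (Q : Finset (ℕ × ℕ)) : okA cs Q false ↔ NS (Nm cs) Q := by
  unfold okA st
  rw [if_neg (by decide)]
  constructor
  · intro h x hx v hv
    refine h (fun o => match o with
      | none => 0
      | some u => x u) ?_ (some v) (mem_image_of_mem _ hv)
    intro w hw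
    rw [mem_image] at hw
    obtain ⟨w', hw', rfl⟩ := hw
    rw [sum_some]
    exact hx w' hw'
  · intro h x hx v hv
    rw [mem_image] at hv
    obtain ⟨v', hv', rfl⟩ := hv
    refine h (fun u => x (some u)) ?_ v' hv'
    intro w hw
    have := hx (some w) (mem_image_of_mem _ hw)
    rw [sum_some] at this
    exact this

theorem none_notMem (Q : Finset (ℕ × ℕ)) : (none : Option (ℕ × ℕ)) ∉ Q.image some := by
  simp

theorem ok_true (Q : Finset (ℕ × ℕ)) : okA cs Q true ↔ ∀ (x : ℕ × ℕ → ZMod 2) (t : ZMod 2),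
    (∀ v ∈ Q, bd cs v * t + ∑ u ∈ Q, Nm cs v u * x u = 0) → t + ∑ u ∈ Q, bd cs u * x u = 0 →
    t = 0 ∧ ∀ v ∈ Q, x v = 0 := by
  unfold okA st
  rw [if_pos rfl]
  have hb : ∀ v, M0 cs (some v) none = bd cs v := fun v => rfl
  constructor
  · intro h x t h1 h2
    have key := h (fun o => match o with
      | none => t
      | some u => x u) ?_
    · exact ⟨key none (mem_insert_self _ _),
        fun v hv => key (some v) (mem_insert_of_mem (mem_image_of_mem _ hv))⟩
    · intro w hw
      rw [sum_insert (none_notMem Q), sum_some]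
      rw [mem_insert, mem_image] at hw
      rcases hw with rfl | ⟨w', hw', rfl⟩
      · simp only
        have : M0 cs none none = 1 := rfl
        rw [this, one_mul]
        exact h2
      · exact h1 w' hw'
  · intro h x hx
    have h1 := h (fun u => x (some u)) (x none) ?_ ?_
    · intro v hv
      rw [mem_insert, mem_image] at hv
      rcases hv with rfl | ⟨v', hv', rfl⟩
      · exact h1.1
      · exact h1.2 v' hv'
    · intro v hv
      have := hx (some v) (mem_insert_of_mem (mem_image_of_mem _ hv))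
      rw [sum_insert (none_notMem Q), sum_some] at this
      exact this
    · have := hx none (mem_insert_self _ _)
      rw [sum_insert (none_notMem Q), sum_some] at this
      have h2 : M0 cs none none = 1 := rfl
      rw [h2, one_mul] at this
      exact this

theorem exists_dual' {Q : Finset (ℕ × ℕ)} (hNS : NS (Nm cs) Q) :
    ∃ y : ℕ × ℕ → ZMod 2, ∀ v ∈ Q, ∑ u ∈ Q, Nm cs v u * y u = bd cs v := by
  let Φ : (Q → ZMod 2) → (Q → ZMod 2) := fun x v => ∑ u : Q, Nm cs v.1 u.1 * x u
  have hinj : Function.Injective Φ := by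
    intro x x' hxx
    funext v
    have h1 := hNS (fun u => if h : u ∈ Q then x ⟨u, h⟩ + x' ⟨u, h⟩ else 0) (by
      intro w hw
      rw [← Finset.sum_coe_sort]
      have h2 : ∀ u : Q, Nm cs w u.1 * (if h : u.1 ∈ Q then x ⟨u.1, h⟩ + x' ⟨u.1, h⟩ else 0) =
          Nm cs w u.1 * x u + Nm cs w u.1 * x' u := by
        intro u
        rw [dif_pos u.2, mul_add]
      rw [Finset.sum_congr rfl (fun u _ => h2 u), Finset.sum_add_distrib]
      have h3 := congrFun hxx ⟨w, hw⟩
      have h3' : ∑ u : Q, Nm cs w u.1 * x u = ∑ u : Q, Nm cs w u.1 * x' u := h3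
      rw [h3']
      exact f2_add_self _) v.1 v.2
    have h1' : (if h : v.1 ∈ Q then x ⟨v.1, h⟩ + x' ⟨v.1, h⟩ else 0) = 0 := h1
    rw [dif_pos v.2] at h1'
    exact f2_add_eq_zero.1 h1'
  obtain ⟨y, hy⟩ := (Finite.injective_iff_surjective.1 hinj) (fun v => bd cs v.1)
  refine ⟨fun u => if h : u ∈ Q then y ⟨u, h⟩ else 0, ?_⟩
  intro v hv
  rw [← Finset.sum_coe_sort]
  have h2 : ∀ u : Q, Nm cs v u.1 * (if h : u.1 ∈ Q then y ⟨u.1, h⟩ else 0) =
      Nm cs v u.1 * y u := by
    intro u
    rw [dif_pos u.2]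
  rw [Finset.sum_congr rfl (fun u _ => h2 u)]
  exact congrFun hy ⟨v, hv⟩

theorem ok_true_iff {Q : Finset (ℕ × ℕ)} (hNS : NS (Nm cs) Q) {y : ℕ × ℕ → ZMod 2}
    (hy : ∀ v ∈ Q, ∑ u ∈ Q, Nm cs v u * y u = bd cs v) :
    okA cs Q true ↔ ∑ u ∈ Q, bd cs u * y u = 0 := by
  rw [ok_true]
  constructor
  · intro h
    by_contra hq
    rw [← ne_eq, f2_ne_zero] at hq
    have := (h y 1 (fun v hv => by
      rw [hy v hv, mul_one]
      exact f2_add_self _) (by rw [hq]; exact f2_add_self _)).1
    exact one_ne_zero this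
  · intro hq x t h1 h2
    rcases f2_cases t with rfl | rfl
    · refine ⟨rfl, hNS x ?_⟩
      intro v hv
      have := h1 v hv
      rwa [mul_zero, zero_add] at this
    · exfalso
      have h3 := hNS (fun u => x u + y u) (by
        intro v hv
        have h4 := h1 v hv
        rw [mul_one, f2_add_eq_zero] at h4
        simp only [mul_add, Finset.sum_add_distrib]
        rw [← h4, hy v hv]
        exact f2_add_self _)
      have h5 : ∑ u ∈ Q, bd cs u * x u = ∑ u ∈ Q, bd cs u * y u := by
        apply Finset.sum_congr rfl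
        intro u hu
        rw [f2_add_eq_zero.1 (h3 u hu)]
      rw [h5, hq, add_zero] at h2
      exact one_ne_zero h2

theorem sum_pt {S : Finset (ℕ × ℕ)} {c : ℕ} {v : ℕ × ℕ} (hv : v.1 = c) (x : ℕ × ℕ → ZMod 2) :
    ∑ u ∈ pt S c, Nm cs v u * x u = ∑ u ∈ S, Nm cs v u * x u := by
  unfold pt
  refine Finset.sum_subset (Finset.filter_subset _ _) ?_
  intro u hu hu'
  rw [mem_filter, not_and] at hu'
  rw [Nm_zero cs (fun h => hu' hu (h ▸ hv)), zero_mul]

theorem ns_parts {S : Finset (ℕ × ℕ)} (hS : S ⊆ Ws cs) :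
    NS (Nm cs) S ↔ ∀ c < cs.length, NS (Nm cs) (pt S c) := by
  constructor
  · intro h c _ x hx v hv
    have hv' := mem_filter.1 hv
    have key := h (fun u => if u.1 = c then x u else 0) (by
      intro w hw
      have e : ∑ u ∈ S, Nm cs w u * (if u.1 = c then x u else 0) =
          ∑ u ∈ pt S c, Nm cs w u * x u := by
        unfold pt
        rw [Finset.sum_filter]
        apply Finset.sum_congr rfl
        intro u _
        split_ifs
        · rfl
        · rw [mul_zero]
      rw [e]
      by_cases hwc : w.1 = c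
      · exact hx w (mem_filter.2 ⟨hw, hwc⟩)
      · apply Finset.sum_eq_zero
        intro u hu
        rw [Nm_zero cs (fun h1 => hwc (h1.trans (mem_filter.1 hu).2)), zero_mul]) v hv'.1
    rwa [if_pos hv'.2] at key
  · intro h x hx v hv
    have hc := (mem_Ws.1 (hS hv)).1
    refine h v.1 hc x ?_ v (mem_filter.2 ⟨hv, rfl⟩)
    intro w hw
    have hw' := mem_filter.1 hw
    rw [sum_pt cs hw'.2]
    exact hx w hw'.1

theorem sum_parts {S : Finset (ℕ × ℕ)} (hS : S ⊆ Ws cs) (f : ℕ × ℕ → ZMod 2) :
    ∑ u ∈ S, f u = ∑ c ∈ range cs.length, ∑ u ∈ pt S c, f u := by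
  unfold pt
  rw [Finset.sum_fiberwise_of_maps_to]
  intro u hu
  rw [mem_range]
  exact (mem_Ws.1 (hS hu)).1

theorem cast_even (n : ℕ) : (n : ZMod 2) = 0 ↔ Even n := by
  rw [ZMod.natCast_eq_zero_iff, even_iff_two_dvd]

end LinAux

open LinAux in
/-- B2 -/
theorem s_lin : S_lin := by
  classical
  intro cs S hS
  refine ⟨?_, ?_⟩
  · rw [ok_false, ns_parts cs hS]
    constructor
    · intro h c hc
      rw [ok_false]
      exact h c hc
    · intro h c hc
      rw [← ok_false]
      exact h c hc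
  · intro h
    rw [ok_false] at h
    have hp := (ns_parts cs hS).1 h
    obtain ⟨y, hy⟩ := exists_dual' cs h
    have hyc : ∀ c, ∀ v ∈ pt S c, ∑ u ∈ pt S c, Nm cs v u * y u = bd cs v := by
      intro c v hv
      have hv' := mem_filter.1 hv
      rw [sum_pt cs hv'.2]
      exact hy v hv'.1
    rw [ok_true_iff cs h hy, sum_parts cs hS]
    have h1 : ∀ c ∈ range cs.length, ∑ u ∈ pt S c, bd cs u * y u =
        if okA cs (pt S c) false ∧ ¬ okA cs (pt S c) true then 1 else 0 := by
      intro c hc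
      have h2 := hp c (mem_range.1 hc)
      have h3 := ok_true_iff cs h2 (hyc c)
      by_cases h4 : okA cs (pt S c) true
      · rw [if_neg (fun h5 => h5.2 h4), h3.1 h4]
      · rw [if_pos ⟨(ok_false cs _).2 h2, h4⟩]
        exact f2_ne_zero.1 (fun h5 => h4 (h3.2 h5))
    rw [Finset.sum_congr rfl h1, Finset.sum_boole, cast_even]
    have h2 : EE cs S = ((range cs.length).filter
        (fun c => okA cs (pt S c) false ∧ ¬ okA cs (pt S c) true)).card := by
      unfold EE
      congr
    rw [h2]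

end Pool.Agent.NH88.SR
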