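import Pool.Agent.NH88.SR.AsmA

/-!
# Nonsingularity for the word of `cs` and `m`
-/

namespace Pool.Agent.NH88.SR

open Finset Pool.Agent.TH700

theorem none_mem_st {S : Finset (ℕ × ℕ)} {x : Bool} : none ∈ st S x ↔ x = true := by
  unfold st
  cases x <;> simp

theorem some_mem_st {S : Finset (ℕ × ℕ)} {x : Bool} {v : ℕ × ℕ} : some v ∈ st S x ↔ v ∈ S := by
  unfold st
  cases x <;> simp

theorem s_ns (h1 : S_cross) (h2 : S_word) : S_ns := by
  intro cs m hd h0 Q hQ
  obtain ⟨hlet, -, hXX, hXc, hcc, hcd⟩ := h2 cs m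
  set w := word cs m with hw
  set C := cycW w hd h0 with hC
  set f : ℕ → Option (ℕ × ℕ) := fun e => vx (w.getD e (0, 0)) with hf
  obtain ⟨c1, c2⟩ := h1 w hd h0
  have hVlt : ∀ e ∈ C.V, e < w.length := by
    intro e he
    have := (Cyc.mem_V.1 he).1
    have := List.length_pos_iff.2 h0
    omega
  have hVmem : ∀ e ∈ C.V, IsLt cs m (w.getD e (0, 0)) := by
    intro e he
    rw [← hlet, List.getD_eq_getElem _ _ (hVlt e he)]
    exact List.getElem_mem _
  have hinj : ∀ u ∈ C.V, ∀ v ∈ C.V, w.getD u (0, 0) = w.getD v (0, 0) → u = v := by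
    intro u hu v hv huv
    by_contra hne
    exact (c1 u hu v hv hne).1 huv
  have hT := ns_twin C.D.M (M0 cs) f Q (by
    intro u hu v hv huv
    have hne : u ≠ v := by rintro rfl; exact huv rfl
    obtain ⟨d1, d2⟩ := c1 u (hQ hu) v (hQ hv) hne
    rw [d2]
    simp only [hf] at huv ⊢
    have lu := hVmem u (hQ hu)
    have lv := hVmem v (hQ hv)
    generalize w.getD u (0, 0) = x at *
    generalize w.getD v (0, 0) = y at *
    obtain ⟨x1, x2⟩ := x
    obtain ⟨y1, y2⟩ := y
    rcases lu with ⟨lu1, lu2⟩ | ⟨c, hc, lu1, lu2⟩ <;> rcases lv with ⟨lv1, lv2⟩ | ⟨d, hd', lv1, lv2⟩ <;>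
      simp only at lu1 lu2 lv1 lv2 <;> subst lu1 <;> subst lv1
    · simp [vx] at huv
    · rw [(hXc x2 d y2 lu2 hd' lv2).1]
      simp [vx, M0]
    · rw [(hXc y2 c x2 lv2 hc lu2).2]
      simp [vx, M0]
    · by_cases hcd' : c = d
      · subst hcd'
        have hij : x2 ≠ y2 := by rintro rfl; exact d1 rfl
        rw [hcc c x2 y2 hc lu2 lv2 hij]
        simp only [vx, M0, Nat.add_eq_zero_iff, one_ne_zero, and_false, if_false,
          Nat.add_sub_cancel, decide_eq_true_eq, true_and]
        have : (x2 = y2 + 1 ∨ y2 = x2 + 1 ∨ x2 = 0 ∧ y2 = 0) ↔ (x2 = y2 + 1 ∨ y2 = x2 + 1) := by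
          omega
        simp only [this]
      · rw [hcd c d x2 y2 hc hd' hcd' lu2 lv2]
        simp [vx, M0, hcd']) (by
    intro u hu
    have lu := hVmem u (hQ hu)
    have e1 : C.D.M u u = if ori (w.getD u (0, 0)) then 1 else 0 := by
      unfold CD.M
      rw [if_pos rfl]
      rfl
    rw [e1]
    simp only [hf]
    generalize w.getD u (0, 0) = x at *
    obtain ⟨x1, x2⟩ := x
    rcases lu with ⟨lu1, lu2⟩ | ⟨c, hc, lu1, lu2⟩ <;> simp only at lu1 lu2 <;> subst lu1
    · simp [vx, M0, ori]
    · have : (x2 = x2 + 1 ∨ x2 = x2 + 1 ∨ x2 = 0 ∧ x2 = 0) ↔ x2 = 0 := by omega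
      simp only [vx, M0, ori, Nat.add_eq_zero_iff, one_ne_zero, and_false, if_false, decide_false,
        Bool.false_or, decide_eq_true_eq, true_and, this]) (by
    intro u hu v hv hne huv
    obtain ⟨d1, d2⟩ := c1 u (hQ hu) v (hQ hv) hne
    rw [d2]
    simp only [hf] at huv ⊢
    have lu := hVmem u (hQ hu)
    have lv := hVmem v (hQ hv)
    generalize w.getD u (0, 0) = x at *
    generalize w.getD v (0, 0) = y at *
    cases hx : vx x with
    | none =>
      have hx' := vx_none.1 hx
      have hy' := vx_none.1 (huv ▸ hx : vx y = none)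
      obtain ⟨x1, x2⟩ := x
      obtain ⟨y1, y2⟩ := y
      simp only at hx' hy'
      subst hx' hy'
      have hxy : x2 ≠ y2 := by rintro rfl; exact d1 rfl
      rcases lu with ⟨_, lu2⟩ | ⟨c, hc, lu1, lu2⟩
      · rcases lv with ⟨_, lv2⟩ | ⟨c, hc, lv1, lv2⟩
        · rw [hXX x2 y2 lu2 lv2 hxy]
          simp only [Bool.false_eq_true, if_false, M0]
          decide
        · simp at lv1
      · simp at lu1
    | some z =>
      exfalso
      apply d1
      rw [vx_some.1 hx, vx_some.1 (huv ▸ hx : vx y = some z)])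
  rw [hT]
  have hset : ((Q.image f).filter (fun c => (Q.filter (fun u => f u = c)).card % 2 = 1)) =
      st (sS f Q) (par (jj f Q)) := by
    ext c
    rw [Finset.mem_filter, Finset.mem_image]
    cases c with
    | none =>
      rw [none_mem_st]
      unfold par jj
      rw [decide_eq_true_eq]
      constructor
      · exact fun h => h.2
      · intro h
        refine ⟨?_, h⟩
        have : (Q.filter (fun u => f u = none)).Nonempty := by
          rw [← Finset.card_pos]; omega
        obtain ⟨e, he⟩ := this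
        exact ⟨e, (Finset.mem_filter.1 he).1, (Finset.mem_filter.1 he).2⟩
    | some v =>
      rw [some_mem_st, mem_sS]
      constructor
      · exact fun h => h.1
      · rintro ⟨e, he, hev⟩
        refine ⟨⟨e, he, hev⟩, ?_⟩
        have : Q.filter (fun u => f u = some v) = {e} := by
          ext u
          rw [Finset.mem_filter, Finset.mem_singleton]
          constructor
          · rintro ⟨hu, hu'⟩
            exact hinj u (hQ hu) e (hQ he) ((vx_some.1 hu').trans (vx_some.1 hev).symm)
          · rintro rfl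
            exact ⟨he, hev⟩
        rw [this, Finset.card_singleton]
  rw [hset]
  rfl

end Pool.Agent.NH88.SR
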