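import Pool.Agent.NH88.SR.Stm1

/-!
# The signed permutation of a word in which every letter occurs twice
-/

namespace Pool.Agent.NH88.SR

open Finset Pool.Agent.TH700

/-- A list whose extension satisfies the invariant is a signed permutation. -/
theorem isSignedPerm_of_inv {n : ℕ} {C : Cyc n} {Q : Finset ℕ} {l : List ℤ} (hl : l.length = n)
    (hI : Cyc.Inv C Q (TH700.ext l)) : IsSignedPerm l := by
  subst hl
  unfold IsSignedPerm
  have hget : ∀ k (hk : k < l.length), l[k] = TH700.ext l (k + 1) := by
    intro k hk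
    unfold TH700.ext
    rw [if_neg (by omega), if_pos (by omega), Nat.add_sub_cancel, List.getD_eq_getElem _ _ hk]
  have hlen : (l.map Int.natAbs).length = l.length := by
    rw [List.length_map]
  have hnd : (l.map Int.natAbs).Nodup := by
    rw [List.nodup_iff_injective_get]
    intro a b hab
    have ha : (a : ℕ) < l.length := lt_of_lt_of_eq a.2 hlen
    have hb : (b : ℕ) < l.length := lt_of_lt_of_eq b.2 hlen
    simp only [List.get_eq_getElem, List.getElem_map] at hab
    rw [hget, hget] at hab
    have := hI.inj _ (by omega) _ (by omega) hab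
    exact Fin.ext (by omega)
  have hmem : ∀ x ∈ l.map Int.natAbs, 1 ≤ x ∧ x ≤ l.length := by
    intro x hx
    obtain ⟨k, hk, rfl⟩ := List.mem_iff_getElem.1 hx
    have hk' := hk
    rw [hlen] at hk
    rw [List.getElem_map, hget]
    have h1 := hI.bd (k + 1) (by omega)
    have h2 : (TH700.ext l (k + 1)).natAbs ≠ 0 := by
      intro h3
      have := hI.inj (k + 1) (by omega) 0 (by omega) (by
        rw [h3, hI.z]; simp)
      omega
    have h4 : (TH700.ext l (k + 1)).natAbs ≠ l.length + 1 := by
      intro h3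
      have := hI.inj (k + 1) (by omega) (l.length + 1) (by omega) (by
        rw [h3, hI.e]; omega)
      omega
    omega
  refine (List.perm_ext_iff_of_nodup hnd (List.nodup_range' ..)).2 ?_
  have hsub : (l.map Int.natAbs).toFinset ⊆ (List.range' 1 l.length).toFinset := by
    intro x hx
    rw [List.mem_toFinset] at hx ⊢
    have := hmem x hx
    rw [List.mem_range'_1]; omega
  have heq := Finset.eq_of_subset_of_card_le hsub (by
    rw [List.toFinset_card_of_nodup hnd, hlen]
    refine (List.toFinset_card_le _).trans ?_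
    simp)
  intro x
  rw [← List.mem_toFinset, heq, List.mem_toFinset]

/-- Abstract walk: the absolute values are different until the end is reached. -/
theorem walk_inj {n : ℕ} {β : ℤ → ℤ} {L : ℕ → ℤ} (h0 : L 0 = 0)
    (hβ : ∀ x, idx x ≤ n → idx (β x) ≤ n ∧ β (β x) = x ∧ β x ≠ x)
    (hs : ∀ p, idx (L p) ≤ n → L (p + 1) = -β (L p)) {r : ℕ} (hr : ∀ q < r, idx (L q) ≤ n) :
    ∀ p ≤ r, ∀ q < p, (L p).natAbs ≠ (L q).natAbs := by
  intro p
  induction p using Nat.strong_induction_on with
  | _ p ih =>
    intro hp q hq heq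
    obtain ⟨p', rfl⟩ : ∃ p', p = p' + 1 := ⟨p - 1, by omega⟩
    have hp1 := hr p' (by omega)
    have hLp := hs p' hp1
    obtain ⟨b1, b2, b3⟩ := hβ _ hp1
    -- `β (L p') = - L p`
    have hb : β (L p') = -L (p' + 1) := by rw [hLp]; ring
    rcases Int.natAbs_eq_natAbs_iff.1 heq with h1 | h1
    · -- `L p = L q`
      by_cases hq0 : q = 0
      · subst hq0
        rw [h0] at h1
        rw [h1] at hb
        have h2 : β 0 = L p' := by
          have := b2
          rw [hb] at this
          simpa using this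
        have hi0 : idx (0 : ℤ) ≤ n := by simp [idx]
        have h3 : L 1 = -L p' := by
          have := hs 0 (by rw [h0]; exact hi0)
          rw [h0, h2] at this
          simpa using this
        by_cases hp0 : p' = 0
        · subst hp0
          exact (hβ 0 hi0).2.2 (by rw [h2, h0])
        · by_cases hp11 : p' = 1
          · subst hp11
            have h4 : L 1 = 0 := by omega
            exact ih 1 (by omega) (by omega) 0 (by omega) (by rw [h4, h0])
          · exact ih p' (by omega) (by omega) 1 (by omega) (by rw [h3, Int.natAbs_neg])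
      · obtain ⟨q', rfl⟩ : ∃ q', q = q' + 1 := ⟨q - 1, by omega⟩
        have hq1 := hr q' (by omega)
        have h2 : β (L q') = -L (q' + 1) := by rw [hs q' hq1]; ring
        have h3 : L p' = L q' := by
          rw [← b2, ← (hβ _ hq1).2.1, hb, h2, h1]
        exact ih p' (by omega) (by omega) q' (by omega) (by rw [h3])
    · -- `L p = - L q`
      have hq1 := hr q (by omega)
      have h2 : β (L p') = L q := by rw [hb, h1]; ring
      have h3 : L p' = -L (q + 1) := by
        rw [← b2, h2, hs q hq1]; ring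
      by_cases hqp : q = p'
      · subst hqp
        exact b3 h2
      · by_cases hqp1 : q + 1 = p'
        · rw [hqp1] at h3
          have h4 : L p' = 0 := by omega
          exact ih p' (by omega) (by omega) 0 (by omega) (by rw [h4, h0])
        · exact ih p' (by omega) (by omega) (q + 1) (by omega) (by rw [h3, Int.natAbs_neg])

/-- The walk along the word. -/
def Lw (w : List Lt) (p : ℕ) : ℤ := (List.range p).foldl (fun x _ => nxw w x) 0

theorem Lw_succ (w : List Lt) (p : ℕ) : Lw w (p + 1) = nxw w (Lw w p) := by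
  unfold Lw
  rw [List.range_succ, List.foldl_append]
  rfl

theorem lab_mem {w : List Lt} (h : Dbl w) (h0 : w ≠ []) {e : ℕ} (he : e ≤ w.length - 1) :
    (cycW w h h0).lab e ∈ (cycW w h h0).V := by
  have hl : 0 < w.length := List.length_pos_iff.2 h0
  obtain ⟨h1, h2, _, _⟩ := opp_spec h (e := e) (by omega)
  rw [Cyc.mem_V]
  have hinv := (cycW w h h0).inv e he
  have hle := (cycW w h h0).le e he
  have h2' : (cycW w h h0).χ e ≠ e := h2
  unfold Cyc.lab
  rcases lt_or_gt_of_ne h2' with h3 | h3
  · rw [min_eq_right h3.le, hinv]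
    exact ⟨hle, h3⟩
  · rw [min_eq_left h3.le]
    exact ⟨he, h3⟩

theorem nxw_eq {w : List Lt} (h : Dbl w) (h0 : w ≠ []) {x : ℤ} (hx : idx x ≤ w.length - 1) :
    nxw w x = -(cycW w h h0).bet (cycW w h h0).V x := by
  have key : ∀ e ≤ w.length - 1, bRw w e = (cycW w h h0).bR (cycW w h h0).V e := by
    intro e he
    unfold bRw Cyc.bR
    rw [if_pos (lab_mem h h0 he)]
    rfl
  unfold nxw Cyc.bet
  unfold idx at hx
  split_ifs with h1
  · rw [if_pos h1] at hx
    rw [key _ hx]
  · rw [if_neg h1] at hx
    rw [key _ hx]; ring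

theorem s_perm : S_perm := by
  intro w h h0 hNS
  set C := cycW w h h0 with hC
  obtain ⟨n, hn⟩ : ∃ n, n = w.length - 1 := ⟨_, rfl⟩
  have hl : 0 < w.length := List.length_pos_iff.2 h0
  -- the involution
  have hβ : ∀ x, idx x ≤ n → idx (C.bet C.V x) ≤ n ∧ C.bet C.V (C.bet C.V x) = x ∧
      C.bet C.V x ≠ x := by
    intro x hx
    rw [hn] at hx ⊢
    refine ⟨Cyc.idx_bet_le hx, Cyc.bet_bet hx, ?_⟩
    intro h1
    have h2 := Cyc.idx_bet (C := C) C.V x
    rw [h1, if_pos (lab_mem h h0 hx)] at h2
    exact Cyc.chi_ne (Finset.Subset.refl _) (lab_mem h h0 hx) h2.symm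
  have hs : ∀ p, idx (Lw w p) ≤ n → Lw w (p + 1) = -C.bet C.V (Lw w p) := by
    intro p hp
    rw [Lw_succ]
    exact nxw_eq h h0 (by rw [← hn]; exact hp)
  have hz : Lw w 0 = 0 := rfl
  -- points
  have hpt : ∀ x : ℤ, idx x ≤ n ↔ -(n : ℤ) - 1 ≤ x ∧ x ≤ n := by
    intro x
    unfold idx
    split_ifs <;> omega
  have hstep : ∀ p, idx (Lw w p) ≤ n → Lw w (p + 1) ≠ n + 1 →
      -(n : ℤ) ≤ Lw w (p + 1) ∧ Lw w (p + 1) ≤ n := by
    intro p hp hne
    have h1 := (hpt _).1 (hβ _ hp).1
    rw [hs p hp] at hne ⊢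
    omega
  have hpts : ∀ r, (∀ q ≤ r, Lw w q ≠ n + 1) → -(n : ℤ) ≤ Lw w r ∧ Lw w r ≤ n := by
    intro r
    induction r with
    | zero => intro _; rw [hz]; omega
    | succ r ih =>
      intro hr
      have h1 := ih fun q hq => hr q (by omega)
      exact hstep r ((hpt _).2 (by omega)) (hr (r + 1) (le_refl _))
  have hex : ∃ r ≤ n + 1, Lw w r = n + 1 := by
    by_contra hcon
    push Not at hcon
    have h1 : ∀ q ≤ n + 1, -(n : ℤ) ≤ Lw w q ∧ Lw w q ≤ n := fun q hq =>
      hpts q fun q' hq' => hcon q' (by omega)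
    have h2 := walk_inj (n := n) (β := C.bet C.V) (L := Lw w) hz hβ hs (r := n + 1)
      (fun q hq => (hpt _).2 (by have := h1 q (by omega); omega))
    obtain ⟨p, hp, q, hq, hpq, heq⟩ := Finset.exists_ne_map_eq_of_card_lt_of_maps_to
      (s := Finset.range (n + 2)) (t := Finset.range (n + 1)) (f := fun q => (Lw w q).natAbs)
      (by simp) (by
        intro q hq
        have := h1 q (by have := Finset.mem_range.1 (Finset.mem_coe.1 hq); omega)
        rw [Finset.mem_coe, Finset.mem_range]
        show (Lw w q).natAbs < n + 1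
        omega)
    rw [Finset.mem_range] at hp hq
    rcases lt_or_gt_of_ne hpq with h3 | h3
    · exact h2 q (by omega) p h3 heq.symm
    · exact h2 p (by omega) q h3 heq
  classical
  obtain ⟨r, ⟨hr1, hr2⟩, hr3⟩ : ∃ r, (r ≤ n + 1 ∧ Lw w r = n + 1) ∧
      ∀ q < r, ¬ (q ≤ n + 1 ∧ Lw w q = n + 1) :=
    ⟨Nat.find hex, Nat.find_spec hex, fun q hq => Nat.find_min hex hq⟩
  have hne : ∀ q < r, Lw w q ≠ n + 1 := fun q hq h1 => hr3 q hq ⟨by omega, h1⟩
  have hin : ∀ q < r, -(n : ℤ) ≤ Lw w q ∧ Lw w q ≤ n := fun q hq =>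
    hpts q fun q' hq' => hne q' (by omega)
  have hidx : ∀ q < r, idx (Lw w q) ≤ n := fun q hq =>
    (hpt _).2 (by have := hin q hq; omega)
  have hwalk := walk_inj (n := n) (β := C.bet C.V) (L := Lw w) hz hβ hs (r := r) hidx
  -- the visited strands
  let g : ℕ → ZMod 2 := fun t => if ∃ q ≤ r, (Lw w q).natAbs = t then 1 else 0
  have hone : ∀ x, idx x ≤ n → (∃ q ≤ r, (Lw w q).natAbs = x.natAbs) →
      ∃ q ≤ r, (Lw w q).natAbs = (C.bet C.V x).natAbs := by
    rintro x hx ⟨q, hq, hqx⟩
    have hxp := (hpt _).1 hx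
    have hcase : x = Lw w q ∨ (x = -Lw w q ∧ q ≠ 0) := by
      rcases Int.natAbs_eq_natAbs_iff.1 hqx with h1 | h1
      · left; exact h1.symm
      · by_cases hq0 : q = 0
        · left
          subst hq0
          rw [hz] at h1 ⊢
          omega
        · right; exact ⟨by omega, hq0⟩
    rcases hcase with h1 | ⟨h1, hq0⟩
    · by_cases hqr : q = r
      · subst hqr
        rw [h1, hr2] at hxp
        omega
      · refine ⟨q + 1, by omega, ?_⟩
        rw [h1, hs q (hidx q (by omega)), Int.natAbs_neg]
    · obtain ⟨q', rfl⟩ : ∃ q', q = q' + 1 := ⟨q - 1, by omega⟩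
      refine ⟨q', by omega, ?_⟩
      have h2 := hidx q' (by omega)
      rw [h1, hs q' h2, neg_neg, (hβ _ h2).2.1]
  have hg : ∀ x, idx x ≤ n → g x.natAbs = g (C.bet C.V x).natAbs := by
    intro x hx
    simp only [g]
    by_cases h1 : ∃ q ≤ r, (Lw w q).natAbs = x.natAbs
    · rw [if_pos h1, if_pos (hone x hx h1)]
    · rw [if_neg h1, if_neg]
      intro h2
      apply h1
      have := hone _ (hβ x hx).1 h2
      rwa [(hβ x hx).2.1] at this
  have hsys : C.D.Sys (n + 1) C.V g := by
    subst hn
    exact Cyc.sys_of_bet (Finset.Subset.refl _) hg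
  have hconst : ∀ t ≤ n + 1, g t = g 0 := by
    subst hn
    exact (CD.ns_iff_sys (Cyc.okQ (Finset.Subset.refl _)) (Cyc.q_lt (Finset.Subset.refl _))).1
      hNS g hsys
  have hg0 : g 0 = 1 := if_pos ⟨0, by omega, by rw [hz]; rfl⟩
  have hall : ∀ t ≤ n + 1, ∃ q ≤ r, (Lw w q).natAbs = t := by
    intro t ht
    by_contra h1
    have h2 := hconst t ht
    rw [hg0] at h2
    simp only [g] at h2
    rw [if_neg h1] at h2
    exact zero_ne_one h2
  have hrn : r = n + 1 := by
    by_contra hrn
    have h1 : (Finset.range (n + 2)) ⊆ (Finset.range (r + 1)).image (fun q => (Lw w q).natAbs) := by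
      intro t ht
      rw [Finset.mem_range] at ht
      obtain ⟨q, hq, hqt⟩ := hall t (by omega)
      exact Finset.mem_image.2 ⟨q, Finset.mem_range.2 (by omega), hqt⟩
    have h2 := Finset.card_le_card h1
    have h3 := (Finset.card_image_le (s := Finset.range (r + 1)) (f := fun q => (Lw w q).natAbs))
    rw [Finset.card_range] at h2 h3
    omega
  subst hrn
  -- the extension
  have hlen : (permW w).length = n := by simp [permW, hn]
  have hext : ∀ p ≤ n + 1, TH700.ext (permW w) p = Lw w p := by
    intro p hp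
    unfold TH700.ext
    rw [hlen]
    by_cases hp0 : p = 0
    · rw [if_pos hp0, hp0]; rfl
    · rw [if_neg hp0]
      by_cases hp1 : p ≤ n
      · rw [if_pos hp1, List.getD_eq_getElem _ _ (by rw [hlen]; omega)]
        unfold permW
        rw [List.getElem_map, List.getElem_range, Nat.sub_add_cancel (by omega)]
        rfl
      · rw [if_neg hp1]
        have : p = n + 1 := by omega
        rw [this, hr2]
  have hI : Cyc.Inv C C.V (TH700.ext (permW w)) := by
    subst hn
    refine ⟨?_, ?_, ?_, ?_, ?_⟩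
    · rw [hext _ (by omega)]; exact hz
    · rw [hext _ (le_refl _), hr2]
    · intro p hp q hq hpq
      rw [hext p hp, hext q hq] at hpq
      by_contra hne'
      rcases lt_or_gt_of_ne hne' with h3 | h3
      · exact hwalk q hq p h3 hpq.symm
      · exact hwalk p hp q h3 hpq
    · intro p hp
      rw [hext p hp]
      by_cases hp1 : p = w.length - 1 + 1
      · rw [hp1, hr2]; omega
      · have := hin p (by omega)
        omega
    · intro p hp
      rw [hext p (by omega), hext (p + 1) (by omega), hs p (hidx p (by omega))]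
      ring
  exact ⟨isSignedPerm_of_inv (by rw [hlen, hn]) hI, hI⟩

end Pool.Agent.NH88.SR
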