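import Pool.Agent.NH88.SR.Stm1

/-!
# Prefixes of a path (B3)
-/

namespace Pool.Agent.NH88.SR

open Finset Pool.Agent.TH700

theorem pre_sum_false (S : Finset (ℕ × ℕ)) (f : Option (ℕ × ℕ) → ZMod 2) :
    ∑ u ∈ st S false, f u = ∑ v ∈ S, f (some v) := by
  simp only [st, Bool.false_eq_true, if_false]
  rw [sum_image]
  intro a _ b _ h
  exact Option.some_injective _ h

theorem pre_sum_true (S : Finset (ℕ × ℕ)) (f : Option (ℕ × ℕ) → ZMod 2) :
    ∑ u ∈ st S true, f u = f none + ∑ v ∈ S, f (some v) := by
  simp only [st, if_true]
  rw [sum_insert (by simp), sum_image]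
  intro a _ b _ h
  exact Option.some_injective _ h

theorem pre_sum_range (c k : ℕ) (f : ℕ × ℕ → ZMod 2) :
    ∑ v ∈ (range k).image (fun i => (c, i)), f v = ∑ i ∈ range k, f (c, i) := by
  rw [sum_image]
  intro a _ b _ h
  simpa using h

/-- One row of the matrix of a path. -/
theorem pre_row (k j : ℕ) (hj : j < k) (y : ℕ → ZMod 2) :
    ∑ i ∈ range k, (if j = i + 1 ∨ i = j + 1 ∨ (j = 0 ∧ i = 0) then (1 : ZMod 2) else 0) * y i =
      (if j + 1 < k then y (j + 1) else 0) + (if j = 0 then y 0 else y (j - 1)) := by
  have h1 : ∀ i ∈ range k,
      (if j = i + 1 ∨ i = j + 1 ∨ (j = 0 ∧ i = 0) then (1 : ZMod 2) else 0) * y i =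
      (if i = j + 1 then y i else 0) + (if i = j - 1 then y i else 0) := by
    intro i _
    rcases Nat.eq_zero_or_pos j with h0 | h0
    · subst h0
      by_cases h2 : i = 0
      · subst h2; simp
      · by_cases h3 : i = 1
        · subst h3; simp
        · simp [h2, h3]
    · by_cases h2 : i = j + 1
      · subst h2
        simp [show ¬ (j + 1 = j - 1) by omega]
      · by_cases h3 : i = j - 1
        · subst h3
          have e1 : j = j - 1 + 1 := by omega
          have e2 : ¬ (j - 1 = j + 1) := by omega
          rw [if_pos (Or.inl e1), if_neg e2, if_pos rfl]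
          simp
        · have e1 : ¬ (j = i + 1 ∨ i = j + 1 ∨ (j = 0 ∧ i = 0)) := by omega
          rw [if_neg e1, if_neg h2, if_neg h3]
          simp
  rw [sum_congr rfl h1, sum_add_distrib, sum_ite_eq' (range k) (j + 1),
    sum_ite_eq' (range k) (j - 1)]
  have h2 : j - 1 ∈ range k := mem_range.2 (by omega)
  rw [if_pos h2]
  simp only [mem_range]
  by_cases h0 : j = 0
  · subst h0; simp
  · rw [if_neg h0]

/-- The kernel of the matrix of a path is trivial. -/
theorem pre_ker (k : ℕ) (y : ℕ → ZMod 2)
    (h : ∀ j < k, (if j + 1 < k then y (j + 1) else 0) + (if j = 0 then y 0 else y (j - 1)) = 0) :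
    ∀ j < k, y j = 0 := by
  have h1 : ∀ n, ∀ j ≤ n, j < k → y j = y 0 := by
    intro n
    induction n with
    | zero =>
      intro j hj _
      have : j = 0 := by omega
      rw [this]
    | succ n ih =>
      intro j hj hjk
      by_cases h2 : j ≤ n
      · exact ih j h2 hjk
      · have h3 : j = n + 1 := by omega
        subst h3
        have h4 := h n (by omega)
        rw [if_pos hjk] at h4
        rw [f2_add_eq_zero] at h4
        rw [h4]
        split_ifs with h5
        · rfl
        · exact ih (n - 1) (by omega) (by omega)
  intro j hj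
  have h2 := h (k - 1) (by omega)
  rw [if_neg (by omega), zero_add] at h2
  have h3 : y 0 = 0 := by
    split_ifs at h2 with h5
    · exact h2
    · rw [← h2]
      exact (h1 k (k - 1 - 1) (by omega) (by omega)).symm
  rw [h1 k j (by omega) hj, h3]

theorem pre_row_false (cs : List (ℕ × ℕ)) (c k j : ℕ) (hj : j < k)
    (x : Option (ℕ × ℕ) → ZMod 2) :
    ∑ v ∈ (range k).image (fun i => (c, i)), M0 cs (some (c, j)) (some v) * x (some v) =
      (if j + 1 < k then x (some (c, j + 1)) else 0) +
        (if j = 0 then x (some (c, 0)) else x (some (c, j - 1))) := by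
  rw [pre_sum_range c k (fun v => M0 cs (some (c, j)) (some v) * x (some v))]
  rw [← pre_row k j hj (fun i => x (some (c, i)))]
  refine sum_congr rfl fun i _ => ?_
  simp only [M0, true_and]

/-- The kernel vector of a long path with the class `X`. -/
def preVec (a : ℕ) (u : Option (ℕ × ℕ)) : ZMod 2 := match u with
  | none => 1
  | some v => if v.2 ≤ a then 1 else 0

/-- **B3.** -/
theorem s_pre : S_pre := by
  intro cs c hc
  refine ⟨fun k hk => ⟨?_, ?_, ?_⟩, ?_⟩
  · -- the path is nonsingular
    intro x hx v hv
    have h1 : ∀ j < k, x (some (c, j)) = 0 := by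
      refine pre_ker k (fun j => x (some (c, j))) fun j hj => ?_
      have h2 := hx (some (c, j)) (by
        simp only [st, Bool.false_eq_true, if_false, mem_image, mem_range]
        exact ⟨(c, j), ⟨j, hj, rfl⟩, rfl⟩)
      rw [pre_sum_false, pre_row_false cs c k j hj] at h2
      exact h2
    simp only [st, Bool.false_eq_true, if_false, mem_image, mem_range] at hv
    obtain ⟨_, ⟨j, hj, rfl⟩, rfl⟩ := hv
    exact h1 j hj
  · -- not okA true for `a < k`
    intro hok
    by_contra hka
    push Not at hka
    have h1 := hok (preVec (aa cs c)) ?_ none (by simp [st])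
    · simp [preVec] at h1
    · intro v hv
      simp only [st, if_true, mem_insert, mem_image, mem_range] at hv
      rcases hv with rfl | ⟨_, ⟨j, hj, rfl⟩, rfl⟩
      · rw [pre_sum_true,
          pre_sum_range c k (fun v => M0 cs none (some v) * preVec (aa cs c) (some v))]
        have h2 : ∀ i ∈ range k, M0 cs none (some (c, i)) *
            preVec (aa cs c) (some (c, i)) = if i = aa cs c then 1 else 0 := by
          intro i _
          simp only [M0, preVec]
          by_cases h3 : i = aa cs c
          · simp [h3]
          · by_cases h4 : i = aa cs c + 1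
            · simp [h4]
            · simp [h3, h4]
        rw [sum_congr rfl h2, sum_ite_eq' (range k), if_pos (mem_range.2 hka)]
        simp only [M0, preVec]
        decide
      · rw [pre_sum_true, pre_row_false cs c k j hj]
        simp only [M0, preVec]
        -- the row of `j`
        rcases Nat.lt_trichotomy j (aa cs c) with h3 | h3 | h3
        · rw [if_neg (by omega), if_pos (show j + 1 < k by omega),
            if_pos (show j + 1 ≤ aa cs c by omega)]
          split_ifs with h4 h5 h5
          · decide
          · exact absurd (Nat.zero_le _) h5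
          · decide
          · omega
        · rw [if_pos (Or.inl h3), if_neg (show ¬ (j + 1 ≤ aa cs c) by omega)]
          have e1 : (if j + 1 < k then (0 : ZMod 2) else 0) = 0 := by split_ifs <;> rfl
          rw [e1]
          split_ifs with h4 h5 h5
          · decide
          · exact absurd (Nat.zero_le _) h5
          · decide
          · omega
        · have e1 : ¬ (j + 1 ≤ aa cs c) := by omega
          rw [if_neg e1]
          have e2 : (if j + 1 < k then (0 : ZMod 2) else 0) = 0 := by split_ifs <;> rfl
          rw [e2, if_neg (show ¬ (j = 0) by omega)]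
          by_cases h4 : j = aa cs c + 1
          · rw [if_pos (Or.inr h4), if_pos (show j - 1 ≤ aa cs c by omega)]
            decide
          · rw [if_neg (by omega), if_neg (show ¬ (j - 1 ≤ aa cs c) by omega)]
            simp
  · -- okA true for `k ≤ a`
    intro hka x hx
    have hrow : ∀ i < k, M0 cs none (some (c, i)) = 0 := by
      intro i hi
      simp only [M0]
      rw [if_neg (by omega)]
    have hcol : ∀ i < k, M0 cs (some (c, i)) none = 0 := by
      intro i hi
      simp only [M0]
      rw [if_neg (by omega)]
    have h0 : x none = 0 := by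
      have h2 := hx none (by simp [st])
      rw [pre_sum_true, pre_sum_range c k (fun v => M0 cs none (some v) * _)] at h2
      rw [sum_eq_zero (fun i hi => by rw [hrow i (mem_range.1 hi), zero_mul]), add_zero] at h2
      simpa [M0] using h2
    have h1 : ∀ j < k, x (some (c, j)) = 0 := by
      refine pre_ker k (fun j => x (some (c, j))) fun j hj => ?_
      have h2 := hx (some (c, j)) (by
        simp only [st, if_true, mem_insert, mem_image, mem_range]
        exact Or.inr ⟨(c, j), ⟨j, hj, rfl⟩, rfl⟩)
      rw [pre_sum_true, pre_row_false cs c k j hj, hcol j hj, zero_mul, zero_add] at h2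
      exact h2
    intro v hv
    simp only [st, if_true, mem_insert, mem_image, mem_range] at hv
    rcases hv with rfl | ⟨_, ⟨j, hj, rfl⟩, rfl⟩
    · exact h0
    · exact h1 j hj
  · -- the last part
    intro k j hk hj hkj hok
    by_contra hne
    have hlt : k < j := by omega
    have h1 := hok (fun u => if u = some (c, j) then 1 else 0) ?_ (some (c, j)) (by simp [st])
    · simp at h1
    · intro v hv
      have h2 : ∀ u ∈ st (insert (c, j) ((range k).image (fun i => (c, i)))) false,
          M0 cs v u * (if u = some (c, j) then (1 : ZMod 2) else 0) = 0 := by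
        intro u _
        by_cases h3 : u = some (c, j)
        · rw [h3, if_pos rfl, mul_one]
          simp only [st, Bool.false_eq_true, if_false, mem_image, mem_insert, mem_range] at hv
          obtain ⟨w, hw, rfl⟩ := hv
          rcases hw with rfl | ⟨i, hi, rfl⟩
          · simp only [M0]
            rw [if_neg (by omega)]
          · simp only [M0]
            rw [if_neg (by omega)]
        · rw [if_neg h3, mul_zero]
      exact sum_eq_zero h2

end Pool.Agent.NH88.SR
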