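import Pool.Agent.NH88.SR.Stm1

set_option autoImplicit false

namespace Pool.Agent.NH88.SR

open Finset

namespace PrAux

theorem bigP (P : ℕ) (hP : 390625 ≤ P) :
    (P : ℝ) / 2 * Real.log 2 ≤ Chebyshev.theta (P : ℝ) := by
  have h1 := Chebyshev.theta_ge P
  set r : ℝ := Real.sqrt (Real.sqrt P) with hr
  have hP0 : (0 : ℝ) ≤ P := Nat.cast_nonneg _
  have hPR : (390625 : ℝ) ≤ P := by exact_mod_cast hP
  have hr2 : r ^ 2 = Real.sqrt P := Real.sq_sqrt (Real.sqrt_nonneg _)
  have hr4 : r ^ 4 = P := by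
    have : r ^ 4 = (r ^ 2) ^ 2 := by ring
    rw [this, hr2, Real.sq_sqrt hP0]
  have hr25 : 25 ≤ r := by
    rw [hr]
    apply Real.le_sqrt_of_sq_le
    apply Real.le_sqrt_of_sq_le
    norm_num
    exact hP
  have hr0 : 0 < r := by linarith
  have hlog : Real.log P = 4 * Real.log r := by
    rw [← hr4, Real.log_pow]; norm_num
  have hlr : Real.log r ≤ r := (Real.log_le_sub_one_of_pos hr0).trans (by linarith)
  have hl2 : (0.69 : ℝ) < Real.log 2 := by
    have := Real.log_two_gt_d9; linarith
  have hl2' : Real.log 2 < 1 := by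
    have := Real.log_two_lt_d9; linarith
  have hlP1 : Real.log ((P : ℝ) + 1) ≤ 1 + 4 * r := by
    calc Real.log ((P : ℝ) + 1) ≤ Real.log (2 * P) := Real.log_le_log (by linarith) (by linarith)
      _ = Real.log 2 + Real.log P := Real.log_mul (by norm_num) (by linarith)
      _ ≤ 1 + 4 * r := by rw [hlog]; linarith
  have hs : 2 * Real.sqrt P * Real.log P ≤ 8 * r ^ 3 := by
    rw [← hr2, hlog]
    have : 0 ≤ r ^ 2 := sq_nonneg r
    nlinarith [mul_le_mul_of_nonneg_left hlr this]
  have h3 : 1 + 4 * r + 8 * r ^ 3 ≤ (P : ℝ) / 2 * Real.log 2 := by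
    have h4 : (0.345 : ℝ) * r ^ 4 ≤ (P : ℝ) / 2 * Real.log 2 := by
      rw [hr4]; nlinarith
    have h5 : 25 * r ^ 3 ≤ r ^ 4 := by
      have : 0 ≤ r ^ 3 := by positivity
      nlinarith
    have h6 : 625 * r ≤ r ^ 3 := by nlinarith
    nlinarith
  linarith

theorem prod_split (s P : ℕ) (hs : s ≤ P) :
    primorial P = primorial s *
      ((List.range (P + 1)).filter (fun p => decide (s < p ∧ p.Prime))).prod := by
  have h1 : ((List.range (P + 1)).filter (fun p => decide (s < p ∧ p.Prime))).prod =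
      ∏ p ∈ (Finset.range (P + 1)).filter (fun p => s < p ∧ p.Prime), p := by
    have h2 := List.prod_toFinset (fun p : ℕ => p)
      ((List.nodup_range (n := P + 1)).filter (fun p => decide (s < p ∧ p.Prime)))
    rw [List.map_id'] at h2
    rw [← h2]
    apply Finset.prod_congr _ (fun _ _ => rfl)
    ext p
    simp
  rw [h1]
  unfold primorial
  rw [← Finset.prod_union]
  · apply Finset.prod_congr _ (fun _ _ => rfl)
    ext p
    simp only [Finset.mem_filter, Finset.mem_range, Finset.mem_union]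
    constructor
    · rintro ⟨h3, h4⟩
      by_cases h5 : s < p
      · exact Or.inr ⟨h3, h5, h4⟩
      · exact Or.inl ⟨by omega, h4⟩
    · rintro (⟨h3, h4⟩ | ⟨h3, h4, h5⟩)
      · exact ⟨by omega, h4⟩
      · exact ⟨h3, h5⟩
  · rw [Finset.disjoint_left]
    intro p hp hp'
    simp only [Finset.mem_filter, Finset.mem_range] at hp hp'
    omega

theorem main (s B : ℕ) :
    2 ^ B < ((List.range (400000 * (s + B + 1))).filter
      (fun p => decide (s < p ∧ p.Prime))).prod := by
  obtain ⟨P, hP⟩ : ∃ P, 400000 * (s + B + 1) = P + 1 := ⟨400000 * (s + B + 1) - 1, by omega⟩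
  rw [hP]
  have h1 := prod_split s P (by omega)
  have h2 := bigP P (by omega)
  have h3 : Chebyshev.theta (P : ℝ) = Real.log (primorial P) := by
    rw [Chebyshev.theta_eq_log_primorial, Nat.floor_natCast]
  have h4 := primorial_le_four_pow s
  set Q := ((List.range (P + 1)).filter (fun p => decide (s < p ∧ p.Prime))).prod with hQ
  by_contra hcon
  push Not at hcon
  have h5 : primorial P ≤ 2 ^ (2 * s + B) := by
    rw [h1, pow_add, pow_mul]
    exact Nat.mul_le_mul (by norm_num; exact h4) hcon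
  have h6 : Real.log (primorial P) ≤ ((2 * s + B : ℕ) : ℝ) * Real.log 2 := by
    rw [← Real.log_pow]
    apply Real.log_le_log
    · exact_mod_cast primorial_pos P
    · exact_mod_cast h5
  rw [h3] at h2
  have hl2 : 0 < Real.log 2 := Real.log_pos (by norm_num)
  have h7 : (P : ℝ) / 2 ≤ ((2 * s + B : ℕ) : ℝ) := by
    have := h2.trans h6
    exact le_of_mul_le_mul_right this hl2
  have h8 : (P : ℝ) ≤ 2 * ((2 * s + B : ℕ) : ℝ) := by linarith
  have h9 : P ≤ 2 * (2 * s + B) := by exact_mod_cast h8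
  omega

theorem mod_step (x M p : ℕ) : x % (M * p) = x % M + M * (x / M % p) := Nat.mod_mul

end PrAux

namespace PrAux

theorem head_eq (T : ℕ → ℕ → Bool) (x M p : ℕ) (hp : p.Prime) (hM : M.Coprime p)
    (hT : ∀ y, T p y = true ↔ y % p = x % p) :
    ((List.range p).filter (fun y => T p (x % M + M * y))).headD 0 = x / M % p := by
  set l := (List.range p).filter (fun y => T p (x % M + M * y)) with hl
  have hmem : ∀ y, y ∈ l ↔ y < p ∧ (x % M + M * y) % p = x % p := by
    intro y
    rw [hl, List.mem_filter, List.mem_range, hT]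
  have h0 : x / M % p ∈ l := by
    rw [hmem]
    refine ⟨Nat.mod_lt _ hp.pos, ?_⟩
    rw [← mod_step]
    exact Nat.mod_mod_of_dvd x (Dvd.intro_left M rfl)
  have huniq : ∀ y ∈ l, y = x / M % p := by
    intro y hy
    have h1 := (hmem y).1 hy
    have h2 := (hmem _).1 h0
    have h3 : (x % M + M * y) ≡ (x % M + M * (x / M % p)) [MOD p] := h1.2.trans h2.2.symm
    have h4 : M * y ≡ M * (x / M % p) [MOD p] := Nat.ModEq.add_left_cancel' _ h3
    have h5 : y ≡ x / M % p [MOD p] := Nat.ModEq.cancel_left_of_coprime (by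
      rw [Nat.gcd_comm]; exact hM) h4
    have h6 : y % p = (x / M % p) % p := h5
    rwa [Nat.mod_eq_of_lt h1.1, Nat.mod_eq_of_lt h2.1] at h6
  cases hc : l with
  | nil => rw [hc] at h0; simp at h0
  | cons y t =>
    simp only [List.headD_cons]
    exact huniq y (by rw [hc]; simp)

theorem fold_eq (T : ℕ → ℕ → Bool) (x : ℕ) : ∀ (ps : List ℕ) (M : ℕ), ps.Nodup →
    (∀ p ∈ ps, p.Prime) → (∀ p ∈ ps, M.Coprime p) →
    (∀ p ∈ ps, ∀ y, T p y = true ↔ y % p = x % p) →
    (ps.foldl (crtStep T) (x % M, M)).1 = x % (M * ps.prod) := by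
  intro ps
  induction ps with
  | nil => intro M _ _ _ _; simp
  | cons p ps ih =>
    intro M hnd hpr hco hT
    have h1 : crtStep T (x % M, M) p = (x % (M * p), M * p) := by
      unfold crtStep
      simp only
      rw [head_eq T x M p (hpr p (by simp)) (hco p (by simp)) (hT p (by simp)), mod_step]
    rw [List.foldl_cons, h1, List.prod_cons, ← mul_assoc]
    rw [List.nodup_cons] at hnd
    refine ih (M * p) hnd.2 (fun q hq => hpr q (by simp [hq])) (fun q hq => ?_)
      (fun q hq => hT q (by simp [hq]))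
    refine Nat.Coprime.mul_left (hco q (by simp [hq])) ?_
    rw [Nat.coprime_primes (hpr p (by simp)) (hpr q (by simp [hq]))]
    rintro rfl
    exact hnd.1 hq

end PrAux

/-- D1 -/
theorem s_primes : S_primes := ⟨400000, PrAux.main⟩

/-- D2 -/
theorem s_crt : S_crt := by
  intro T ps x hnd hpr hx hT
  unfold crt
  have h := PrAux.fold_eq T x ps 1 hnd hpr (fun p _ => Nat.coprime_one_left p) hT
  rw [Nat.mod_one, one_mul, Nat.mod_eq_of_lt hx] at h
  exact h

end Pool.Agent.NH88.SR
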