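import Pool.Agent.NH88.SR.PermPoly

/-!
# The queries are computable in polynomial time (`S_qpoly`)
-/

namespace Pool.Agent.NH88.SR

open Pool.Agent.H549R2.Convex Pool.Agent.H549R2.PM Pool.Agent.NPC Pool.Agent.NPC.Cnt
  Pool.Agent.NPC.H549Convex Pool.Agent.NPC.H549PM

theorem s_qpoly : S_qpoly := by
  intro c
  -- the prime is bounded
  have hp : UPoly (fun q : LLB × ℕ => min q.2 (bd c q.1)) :=
    upoly_min (NPC.Poly.snd NPC.Poly.id) (bd_upoly c (NPC.Poly.fst NPC.Poly.id))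
  have hD : UPoly (fun q : LLB × ℕ => DD (cmps (min q.2 (bd c q.1)) q.1)) :=
    DD_upoly hp (NPC.Poly.fst NPC.Poly.id)
  have hk : UPoly (fun r : (LLB × ℕ) × ℕ =>
      2 * min r.2 (DD (cmps (min r.1.2 (bd c r.1.1)) r.1.1))) :=
    UPoly.mul (UPoly.const 2) (upoly_min (NPC.Poly.snd NPC.Poly.id) (hD.comp (NPC.Poly.fst NPC.Poly.id)))
  have h1 : Poly (fun r : (LLB × ℕ) × ℕ => perm (cmps (min r.1.2 (bd c r.1.1)) r.1.1)
      (2 * min r.2 (DD (cmps (min r.1.2 (bd c r.1.1)) r.1.1)))) :=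
    perm_cmps_poly (hp.comp (NPC.Poly.fst NPC.Poly.id)) (NPC.Poly.fst (NPC.Poly.fst NPC.Poly.id)) hk
  have h2 : Poly (fun q : LLB × ℕ =>
      (List.range (DD (cmps (min q.2 (bd c q.1)) q.1) + 1)).map
        (fun k => perm (cmps (min q.2 (bd c q.1)) q.1)
          (2 * min k (DD (cmps (min q.2 (bd c q.1)) q.1))))) :=
    NPC.Poly.map (F := fun (q : LLB × ℕ) k => perm (cmps (min q.2 (bd c q.1)) q.1)
      (2 * min k (DD (cmps (min q.2 (bd c q.1)) q.1))))
      (UPoly.add hD (UPoly.const 1)).range h1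
  refine (NPC.Poly.flatMap (l := fun A => primesA c A) (F := fun A p =>
    (List.range (DD (cmps (min p (bd c A)) A) + 1)).map
        (fun k => perm (cmps (min p (bd c A)) A)
          (2 * min k (DD (cmps (min p (bd c A)) A))))) (primesA_poly c NPC.Poly.id) h2).congr
    fun A => ?_
  unfold qsA
  refine List.flatMap_congr fun p hp' => ?_
  rw [min_eq_left (mem_primesA hp').1.le]
  refine List.map_congr_left fun k hk' => ?_
  rw [List.mem_range] at hk'
  rw [min_eq_left (by omega)]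

end Pool.Agent.NH88.SR
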