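import Pool.Agent.NH88.SR.Stm2

/-!
# From 0-1 permanents to the number of satisfying assignments
-/

namespace Pool.Agent.NH88.SR

open Finset Pool.Agent.TH700 Pool.Agent.H549R2.Convex Pool.Agent.H549R2.PM Pool.Agent.NPC
  Pool.Agent.NPC.Cnt Pool.Agent.NPC.H549PM Pool.Agent.NPC.H549Convex

theorem kF_pos (φ : CNF ℕ) : 0 < kF φ := by
  rw [kF, nK, nq]
  positivity

theorem rF_pos (φ : CNF ℕ) : 0 < rF φ := by
  rw [rF]
  have := kF_pos φ
  omega

/-- The matrices of a formula are good. -/
theorem MF_good (φ : CNF ℕ) (t : ℕ) (ht : t ≤ qF φ) : Good (MF φ t) := by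
  have hlen : (MF φ t).length = rF φ := MF_length φ t ht
  have hr := rF_pos φ
  refine ⟨?_, MF_square φ t ht, ?_⟩
  · intro h
    rw [h, List.length_nil] at hlen
    omega
  · intro i hi
    have hV : (colV (vsL φ).length φ.length).length = 3 * qF φ := colV_length _ _
    have hk := kF_pos φ
    have hrow : (MF φ t).getD i [] =
        ((colV (vsL φ).length φ.length).map (fun x => decide (x ∈
          (rowsT (tri (vsL φ).length φ.length (stF φ)) (qF φ) t (3 * qF φ)).getD i []))) ++
        (List.range (kF φ)).map (fun _ => true) := by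
      have h1 : i < (rowsT (tri (vsL φ).length φ.length (stF φ)) (qF φ) t (3 * qF φ)).length := by
        have h2 : (MF φ t).length =
            (rowsT (tri (vsL φ).length φ.length (stF φ)) (qF φ) t (3 * qF φ)).length := by
          rw [MF, MT, matL, List.length_map]
          rfl
        omega
      rw [List.getD_eq_getElem _ _ hi, List.getD_eq_getElem _ _ h1]
      simp only [MF, MT, matL, List.getElem_map]
      rfl
    have hent : ent (MF φ t) i (3 * qF φ) = true := by
      rw [ent, hrow, List.getD_append_right _ _ _ _ (by rw [List.length_map, hV]),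
        List.length_map, hV, Nat.sub_self, List.getD_eq_getElem _ _ (by simpa using hk),
        List.getElem_map]
    rw [rdeg]
    apply List.length_pos_of_mem (a := 3 * qF φ)
    rw [List.mem_filter, List.mem_range, hlen]
    exact ⟨by rw [rF]; omega, hent⟩

/-- looking up answers -/
theorem look_zip (Q : List (List ℤ)) (g : List ℤ → ℕ) (l : List ℤ) (hl : l ∈ Q) :
    look (Q.zip (Q.map g)) l = g l := by
  induction Q with
  | nil => simp at hl
  | cons a Q ih =>
    have h1 : (a :: Q).zip ((a :: Q).map g) = (a, g a) :: Q.zip (Q.map g) := by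
      rw [List.map_cons, List.zip_cons_cons]
    rw [h1, look]
    by_cases hal : a = l
    · rw [List.filter_cons, if_pos (by simp [hal]), List.map_cons, List.headD_cons, hal]
    · rw [List.filter_cons, if_neg (by simp [hal])]
      rcases List.mem_cons.1 hl with h | h
      · exact absurd h.symm hal
      · exact ih h

section

variable (qs : LLB → List (List ℤ)) (val : LLB × List (List ℤ × ℕ) → ℕ)

/-- the queries for a formula -/
def qR (φ : CNF ℕ) : List (List ℤ) :=
  (List.range (qF φ + 1)).flatMap (fun t => qs (MF φ (tF (φ, t))))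

/-- the final computation -/
def pR (p : CNF ℕ × List ℕ) : ℕ :=
  alt (qF p.1) (fun t => val (MF p.1 (tF (p.1, t)), (qR qs p.1).zip p.2) /
    (kF p.1).factorial) / (2 ^ qF p.1 * (qF p.1).factorial)

theorem MFt_poly : Poly (fun p : CNF ℕ × ℕ => MF p.1 (tF (p.1, p.2))) :=
  MF_poly.comp (f := fun p : CNF ℕ × ℕ => (p.1, p.2)) (Poly.pair (Poly.fst Poly.id)
    (Poly.snd Poly.id))

theorem qR_poly (hq : Poly qs) : Poly (qR qs) :=
  Poly.flatMap (F := fun (φ : CNF ℕ) t => qs (MF φ (tF (φ, t))))
    ((UPoly.add qF_upoly (UPoly.const 1)).range)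
    (hq.comp (f := fun p : CNF ℕ × ℕ => MF p.1 (tF (p.1, p.2))) MFt_poly)

theorem pR_poly (hq : Poly qs) (hv : Poly val) : Poly (pR qs val) := by
  have hqF : UPoly (fun p : CNF ℕ × List ℕ => qF p.1) := qF_upoly.comp (Poly.fst Poly.id)
  have hz : Poly (fun z : (CNF ℕ × List ℕ) × ℕ => (qR qs z.1.1).zip z.1.2) :=
    Poly.zip ((qR_poly qs hq).comp (Poly.fst (Poly.fst Poly.id))) (Poly.snd (Poly.fst Poly.id))
  have hM : Poly (fun z : (CNF ℕ × List ℕ) × ℕ => MF z.1.1 (tF (z.1.1, z.2))) :=
    MFt_poly.comp (f := fun z : (CNF ℕ × List ℕ) × ℕ => (z.1.1, z.2))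
      (Poly.pair (Poly.fst (Poly.fst Poly.id)) (Poly.snd Poly.id))
  have h1 : Poly (fun z : (CNF ℕ × List ℕ) × ℕ =>
      val (MF z.1.1 (tF (z.1.1, z.2)), (qR qs z.1.1).zip z.1.2) / (kF z.1.1).factorial) :=
    Poly.div (hv.comp (f := fun z : (CNF ℕ × List ℕ) × ℕ =>
      (MF z.1.1 (tF (z.1.1, z.2)), (qR qs z.1.1).zip z.1.2)) (Poly.pair hM hz))
      (upoly_fact (kF_upoly.comp (Poly.fst (Poly.fst Poly.id))))
  exact Poly.div (alt_poly (g := fun (p : CNF ℕ × List ℕ) t =>
    val (MF p.1 (tF (p.1, t)), (qR qs p.1).zip p.2) / (kF p.1).factorial) hqF h1)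
    (Poly.mul (upoly_pow2 hqF) (upoly_fact hqF))

theorem pR_correct (g : List ℤ → ℕ)
    (h : ∀ A : LLB, Good A → ∀ as : List (List ℤ × ℕ), (∀ l ∈ qs A, look as l = g l) →
      val (A, as) = F A) (φ : CNF ℕ) : pR qs val (φ, (qR qs φ).map g) = satCount φ := by
  have htF : ∀ t ≤ qF φ, tF (φ, t) = t := fun t ht => Nat.min_eq_left ht
  have h1 : alt (qF φ) (fun t => val (MF φ (tF (φ, t)), (qR qs φ).zip ((qR qs φ).map g)) /
      (kF φ).factorial) = 2 ^ qF φ * (qF φ).factorial * satCount φ := by
    rw [alt_congr _ _ (fun t => F (MF φ t) / (kF φ).factorial)]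
    · apply alt_eq
      have h2 := sat_eq φ
      push_cast
      push_cast at h2
      exact h2
    · intro t ht
      rw [htF t ht, h _ (MF_good φ t ht)]
      intro l hl
      apply look_zip
      rw [qR, List.mem_flatMap]
      exact ⟨t, List.mem_range.2 (by omega), by rw [htF t ht]; exact hl⟩
  rw [pR]
  simp only
  rw [h1, Nat.mul_div_cancel_left _ (by positivity)]

end

theorem s_red : S_red := by
  intro g qs val hq hv h ⟨r, hr⟩
  exact sharpPHard_of_satCount (qR qs) (pR qs val) (qR_poly qs hq) (pR_poly qs val hq hv)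
    (fun φ => (pR_correct qs val g h φ).symm) r hr

end Pool.Agent.NH88.SR
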