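import Pool.Agent.NH88.SR.Stm1

/-!
# Generating functions (part B1)
-/

namespace Pool.Agent.NH88.SR.Typ

open Finset Polynomial

/-- The power series `F` has type `(d, L)`. -/
def Ty (F : PowerSeries ℤ) (d : ℕ) (L : ℤ) : Prop :=
  ∃ Q : ℤ[X], Q.degree < d ∧ Q.eval 1 = L ∧
    (1 - PowerSeries.X) ^ d * F = (Q : PowerSeries ℤ)

theorem Ty.zero (d : ℕ) : Ty 0 d 0 := ⟨0, by simp, by simp, by simp⟩

theorem Ty.add {F G : PowerSeries ℤ} {d : ℕ} {L M : ℤ} (hF : Ty F d L) (hG : Ty G d M) :
    Ty (F + G) d (L + M) := by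
  obtain ⟨Q, h1, h2, h3⟩ := hF
  obtain ⟨R, g1, g2, g3⟩ := hG
  refine ⟨Q + R, lt_of_le_of_lt (degree_add_le _ _) (max_lt h1 g1), by simp [h2, g2], ?_⟩
  rw [mul_add, h3, g3]
  simp

theorem Ty.sum {ι : Type*} (s : Finset ι) (F : ι → PowerSeries ℤ) (L : ι → ℤ) (d : ℕ)
    (h : ∀ i ∈ s, Ty (F i) d (L i)) : Ty (∑ i ∈ s, F i) d (∑ i ∈ s, L i) := by
  classical
  induction s using Finset.induction_on with
  | empty => simpa using Ty.zero d
  | insert a s ha ih =>
    rw [Finset.sum_insert ha, Finset.sum_insert ha]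
    exact (h a (by simp)).add (ih fun i hi => h i (by simp [hi]))

theorem deg_pow (e : ℕ) : ((1 - X : ℤ[X]) ^ e).degree ≤ (e : WithBot ℕ) := by
  have h1 : (1 - X : ℤ[X]).degree ≤ 1 := by
    refine (degree_sub_le _ _).trans ?_
    simp
  have h2 := degree_pow_le_of_le e h1
  simpa using h2

theorem coe_one_sub (e : ℕ) :
    (((1 - X : ℤ[X]) ^ e : ℤ[X]) : PowerSeries ℤ) = (1 - PowerSeries.X) ^ e := by
  simp

theorem Ty.up {F : PowerSeries ℤ} {d d' : ℕ} {L : ℤ} (hF : Ty F d L) (h : d ≤ d') :
    Ty F d' (if d = d' then L else 0) := by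
  obtain ⟨Q, h1, h2, h3⟩ := hF
  obtain ⟨e, rfl⟩ := Nat.exists_eq_add_of_le h
  refine ⟨(1 - X) ^ e * Q, ?_, ?_, ?_⟩
  · rcases eq_or_ne Q 0 with rfl | hQ
    · simp
    · have hp : ((1 - X : ℤ[X]) ^ e) ≠ 0 := by
        apply pow_ne_zero
        intro h0
        have := congrArg (fun p => p.eval 0) h0
        simp at this
      have e1 : ((1 - X : ℤ[X]) ^ e * Q).natDegree < d + e := by
        have a1 : ((1 - X : ℤ[X]) ^ e).natDegree ≤ e := natDegree_le_of_degree_le (deg_pow e)
        have a2 : Q.natDegree < d := (natDegree_lt_iff_degree_lt hQ).2 h1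
        have a3 := natDegree_mul_le (p := (1 - X : ℤ[X]) ^ e) (q := Q)
        omega
      exact (natDegree_lt_iff_degree_lt (mul_ne_zero hp hQ)).1 e1
  · rw [eval_mul, eval_pow]
    simp only [eval_sub, eval_one, eval_X, sub_self, h2]
    rcases Nat.eq_zero_or_pos e with rfl | he
    · simp
    · rw [zero_pow he.ne', zero_mul, if_neg (by omega)]
  · rw [Polynomial.coe_mul, coe_one_sub, ← h3, pow_add]
    ring

/-- The step with both parities. -/
theorem Ty.step {F A A' : PowerSeries ℤ} {d : ℕ} {L L' : ℤ} (hA : Ty A d L) (hA' : Ty A' d L')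
    (h : (1 - PowerSeries.X) * F = A + PowerSeries.X * A') : Ty F (d + 1) (L + L') := by
  obtain ⟨Q, h1, h2, h3⟩ := hA
  obtain ⟨R, g1, g2, g3⟩ := hA'
  refine ⟨Q + X * R, ?_, by simp [h2, g2], ?_⟩
  · refine lt_of_le_of_lt (degree_add_le _ _) (max_lt (h1.trans ?_) ?_)
    · exact_mod_cast Nat.lt_succ_self d
    · rcases eq_or_ne R 0 with rfl | hR
      · simp only [mul_zero, degree_zero]
        exact WithBot.bot_lt_coe _
      · rw [mul_comm, degree_mul_X]
        have := (natDegree_lt_iff_degree_lt hR).2 g1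
        rw [degree_eq_natDegree hR]
        exact_mod_cast Nat.succ_lt_succ this
  · rw [pow_succ, mul_assoc, h, mul_add, h3]
    rw [show (1 - PowerSeries.X) ^ d * (PowerSeries.X * A') =
      PowerSeries.X * ((1 - PowerSeries.X) ^ d * A') by ring, g3]
    simp

theorem Ty.step' {F A A' : PowerSeries ℤ} {d : ℕ} {L L' : ℤ} (hA : Ty A d L) (hA' : Ty A' d L')
    (h : (1 - PowerSeries.X) * F = A + A') : Ty F (d + 1) (L + L') := by
  obtain ⟨Q, h1, h2, h3⟩ := hA.add hA'
  refine ⟨Q, h1.trans (by exact_mod_cast Nat.lt_succ_self d), h2, ?_⟩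
  rw [pow_succ, mul_assoc, h, h3]

/-- The coefficient of a power of `1 - X`. -/
theorem coeff_one_sub_pow (D i : ℕ) :
    PowerSeries.coeff i ((1 - PowerSeries.X : PowerSeries ℤ) ^ D) = (-1) ^ i * (D.choose i : ℤ) := by
  have h0 : ((1 - X : ℤ[X]) ^ D).coeff i = (-1) ^ i * (D.choose i : ℤ) := by
    have h1 : (1 - X : ℤ[X]) ^ D = C ((-1) ^ D) * (X + C (-1)) ^ D := by
      rw [C_pow, ← mul_pow]
      congr 1
      simp only [C_neg, C_1]
      ring
    rw [h1, coeff_C_mul, coeff_X_add_C_pow]
    rcases le_or_gt i D with h | h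
    · obtain ⟨e, rfl⟩ := Nat.exists_eq_add_of_le h
      rw [show i + e - i = e by omega, pow_add, ← mul_assoc, mul_assoc ((-1 : ℤ) ^ i),
        ← pow_add, ← two_mul, pow_mul]
      simp
    · rw [Nat.choose_eq_zero_of_lt h]
      simp
  rw [← coe_one_sub, coeff_coe, h0]

/-- The end: finite differences. -/
theorem fdiff_of_Ty {f : ℕ → ℕ} {D : ℕ} {L : ℤ}
    (h : Ty (PowerSeries.mk fun r => ((f r : ℕ) : ℤ)) (D + 1) L) : fdiff D f = L := by
  obtain ⟨Q, h1, h2, h3⟩ := h
  have hmk : (1 - PowerSeries.X : PowerSeries ℤ) * PowerSeries.mk 1 = 1 := by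
    rw [mul_comm]
    exact PowerSeries.mk_one_mul_one_sub_eq_one ℤ
  have e1 : (1 - PowerSeries.X : PowerSeries ℤ) ^ D * (PowerSeries.mk fun r => ((f r : ℕ) : ℤ)) =
      (Q : PowerSeries ℤ) * PowerSeries.mk 1 := by
    rw [← h3]
    rw [show (1 - PowerSeries.X : PowerSeries ℤ) ^ (D + 1) *
      (PowerSeries.mk fun r => ((f r : ℕ) : ℤ)) * PowerSeries.mk 1 =
      (1 - PowerSeries.X : PowerSeries ℤ) ^ D * (PowerSeries.mk fun r => ((f r : ℕ) : ℤ)) *
      ((1 - PowerSeries.X : PowerSeries ℤ) * PowerSeries.mk 1) by ring, hmk, mul_one]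
  have e2 := congrArg (PowerSeries.coeff D) e1
  rw [PowerSeries.coeff_mul, PowerSeries.coeff_mul,
    Finset.Nat.sum_antidiagonal_eq_sum_range_succ_mk,
    Finset.Nat.sum_antidiagonal_eq_sum_range_succ_mk] at e2
  simp only [PowerSeries.coeff_mk, coeff_one_sub_pow, coeff_coe, Pi.one_apply, mul_one] at e2
  rw [fdiff, ← h2]
  refine e2.trans ?_
  rw [eval_eq_sum_range' (n := D + 1)]
  · simp
  · rcases eq_or_ne Q 0 with rfl | hQ
    · simp
    · exact (natDegree_lt_iff_degree_lt hQ).2 h1

/-! ### The series of a state -/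

section

variable (ok : Finset (ℕ × ℕ) → Bool → Prop)

/-- the power series of the state `(S, x)` -/
noncomputable def P (S : Finset (ℕ × ℕ)) (x : Bool) : PowerSeries ℤ :=
  PowerSeries.mk fun r =>
    ((u ok (S.card + (2 * r + x.toNat)) S (2 * r + x.toNat) : ℕ) : ℤ)

open Classical in
/-- the sum of the power series of the next states -/
noncomputable def A (S : Finset (ℕ × ℕ)) (x : Bool) : PowerSeries ℤ :=
  ∑ v ∈ S, if ok (S.erase v) x then P ok (S.erase v) x else 0

theorem par_toNat (r : ℕ) (x : Bool) : par (2 * r + x.toNat) = x := by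
  cases x
  · simp [par]
  · simp only [par, Bool.toNat_true, decide_eq_true_eq]
    omega

open Classical in
theorem u_rec (S : Finset (ℕ × ℕ)) (hS : S.Nonempty) (j : ℕ) : u ok (S.card + j) S j =
    (∑ v ∈ S, if ok (S.erase v) (par j) then u ok ((S.erase v).card + j) (S.erase v) j else 0) +
    (if 1 ≤ j ∧ ok S (par (j - 1)) then u ok (S.card + (j - 1)) S (j - 1) else 0) := by
  have h1 : 0 < S.card := hS.card_pos
  obtain ⟨n, hn⟩ := Nat.exists_eq_succ_of_ne_zero h1.ne'
  rw [show S.card + j = (n + j) + 1 by omega, u]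
  congr 1
  · refine Finset.sum_congr rfl fun v hv => ?_
    rw [card_erase_of_mem hv, hn, Nat.succ_sub_one]
  · by_cases hj : 1 ≤ j
    · rw [show n + j = S.card + (j - 1) by omega]
    · rw [if_neg (by tauto), if_neg (by tauto)]

open Classical in
theorem coeff_A (S : Finset (ℕ × ℕ)) (x : Bool) (r : ℕ) :
    PowerSeries.coeff r (A ok S x) =
    (((∑ v ∈ S, if ok (S.erase v) (par (2 * r + x.toNat)) then
      u ok ((S.erase v).card + (2 * r + x.toNat)) (S.erase v) (2 * r + x.toNat) else 0 : ℕ)) : ℤ) := by
  rw [A, map_sum, Nat.cast_sum]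
  refine Finset.sum_congr rfl fun v _ => ?_
  rw [par_toNat]
  split_ifs
  · rw [P, PowerSeries.coeff_mk]
  · simp

theorem P_false (S : Finset (ℕ × ℕ)) (hS : S.Nonempty) (h : ok S true) :
    P ok S false = A ok S false + PowerSeries.X * P ok S true := by
  ext r
  rw [map_add, coeff_A, P, PowerSeries.coeff_mk, u_rec ok S hS, Nat.cast_add]
  congr 1
  rcases r with _ | r
  · simp
  · rw [PowerSeries.coeff_succ_X_mul, P, PowerSeries.coeff_mk, if_pos]
    · rw [show 2 * (r + 1) + Bool.toNat false - 1 = 2 * r + Bool.toNat true by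
        simp only [Bool.toNat_false, Bool.toNat_true]; omega]
    · rw [show 2 * (r + 1) + Bool.toNat false - 1 = 2 * r + Bool.toNat true by
        simp only [Bool.toNat_false, Bool.toNat_true]; omega, par_toNat]
      exact ⟨by omega, h⟩

theorem P_true (S : Finset (ℕ × ℕ)) (hS : S.Nonempty) (h : ok S false) :
    P ok S true = A ok S true + P ok S false := by
  ext r
  rw [map_add, coeff_A, P, PowerSeries.coeff_mk, u_rec ok S hS, Nat.cast_add]
  congr 1
  rw [P, PowerSeries.coeff_mk, if_pos]
  · rw [show 2 * r + Bool.toNat true - 1 = 2 * r + Bool.toNat false by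
        simp only [Bool.toNat_false, Bool.toNat_true]; omega]
  · rw [show 2 * r + Bool.toNat true - 1 = 2 * r + Bool.toNat false by
        simp only [Bool.toNat_false, Bool.toNat_true]; omega, par_toNat]
    exact ⟨by simp, h⟩

theorem P_one (S : Finset (ℕ × ℕ)) (hS : S.Nonempty) (x : Bool) (h : ¬ ok S (!x)) :
    P ok S x = A ok S x := by
  ext r
  rw [coeff_A, P, PowerSeries.coeff_mk, u_rec ok S hS, if_neg, add_zero]
  rintro ⟨h1, h2⟩
  apply h
  cases x
  · rcases r with _ | r
    · simp at h1
    · rw [show 2 * (r + 1) + Bool.toNat false - 1 = 2 * r + Bool.toNat true by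
        simp only [Bool.toNat_false, Bool.toNat_true]; omega, par_toNat] at h2
      exact h2
  · rw [show 2 * r + Bool.toNat true - 1 = 2 * r + Bool.toNat false by
        simp only [Bool.toNat_false, Bool.toNat_true]; omega, par_toNat] at h2
    exact h2

theorem u_empty (h0 : ok ∅ false) (h1 : ok ∅ true) (j : ℕ) : u ok j ∅ j = 1 := by
  have h : ∀ x, ok ∅ x := fun x => by cases x <;> assumption
  induction j with
  | zero => rfl
  | succ j ih =>
    rw [u]
    simp [h, ih]

theorem Ty_empty (h0 : ok ∅ false) (h1 : ok ∅ true) (x : Bool) : Ty (P ok ∅ x) 1 1 := by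
  refine ⟨1, ?_, by simp, ?_⟩
  · rw [degree_one]
    norm_num
  · have : P ok ∅ x = PowerSeries.mk 1 := by
      ext r
      rw [P, PowerSeries.coeff_mk, PowerSeries.coeff_mk]
      simp only [card_empty, zero_add, u_empty ok h0 h1]
      simp
    rw [this, pow_one, mul_comm, PowerSeries.mk_one_mul_one_sub_eq_one ℤ]
    simp

variable (B : Finset (ℕ × ℕ) → ℕ)

theorem main (h0 : ok ∅ false) (h1 : ok ∅ true) (hB : B ∅ = 1)
    (hb : ∀ S, S.Nonempty → ok S false → ok S true → ∀ v ∈ S, ∀ x, ok (S.erase v) x →
      B (S.erase v) + 1 ≤ B S)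
    (ho : ∀ S x, ok S x → ¬ ok S (!x) → ∀ v ∈ S, ok (S.erase v) x → B (S.erase v) ≤ B S) :
    ∀ n S, S.card = n → ∀ x, ok S x → Ty (P ok S x) (B S) (Lf ok B S.card S x : ℕ) := by
  classical
  intro n
  induction n with
  | zero =>
    intro S hS x hx
    rw [card_eq_zero] at hS
    subst hS
    rw [hB, card_empty, Lf]
    simpa using Ty_empty ok h0 h1 x
  | succ n ih =>
    intro S hS x hx
    have hne : S.Nonempty := by
      rw [← card_pos]
      omega
    by_cases hboth : ok S false ∧ ok S true
    · -- both parities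
      have key : ∀ y, ∀ d, B S = d + 1 → Ty (A ok S y) d (∑ v ∈ S,
          (if ok (S.erase v) y ∧ B (S.erase v) + 1 = B S then
            ((Lf ok B n (S.erase v) y : ℕ) : ℤ) else 0)) := by
        intro y d hd
        rw [A]
        refine Ty.sum _ _ _ _ fun v hv => ?_
        by_cases hy : ok (S.erase v) y
        · rw [if_pos hy]
          have hc : (S.erase v).card = n := by
            rw [card_erase_of_mem hv, hS, Nat.succ_sub_one]
          have g := ih (S.erase v) hc y hy
          have g1 := hb S hne hboth.1 hboth.2 v hv y hy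
          have g2 := g.up (d' := d) (by omega)
          rw [hc] at g2
          by_cases he : B (S.erase v) = d
          · rw [if_pos he] at g2
            rw [if_pos ⟨hy, by omega⟩]
            exact g2
          · rw [if_neg he] at g2
            rw [if_neg (by omega)]
            exact g2
        · rw [if_neg hy, if_neg (by tauto)]
          exact Ty.zero d
      rw [hS, Lf, if_pos hboth]
      rcases Nat.eq_zero_or_pos (B S) with hz | hpos
      · -- no next state
        have hno : ∀ v ∈ S, ∀ y, ¬ ok (S.erase v) y := by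
          intro v hv y hy
          have := hb S hne hboth.1 hboth.2 v hv y hy
          omega
        have hA : ∀ y, A ok S y = 0 := by
          intro y
          rw [A]
          exact Finset.sum_eq_zero fun v hv => if_neg (hno v hv y)
        have hX : (1 - PowerSeries.X : PowerSeries ℤ) ≠ 0 := by
          intro h
          have := congrArg (PowerSeries.coeff 0) h
          simp at this
        have e0 : P ok S false = 0 := by
          have e1 := P_false ok S hne hboth.2
          have e2 := P_true ok S hne hboth.1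
          rw [hA] at e1 e2
          have e3 : (1 - PowerSeries.X : PowerSeries ℤ) * P ok S false = 0 := by
            rw [zero_add] at e2
            rw [e2, zero_add] at e1
            rw [sub_mul, one_mul, ← e1, sub_self]
          exact (mul_eq_zero.1 e3).resolve_left hX
        have e1 : P ok S true = 0 := by
          rw [P_true ok S hne hboth.1, hA, e0, add_zero]
        have e2 : P ok S x = 0 := by cases x <;> assumption
        rw [e2, Finset.sum_eq_zero]
        · simpa using Ty.zero (B S)
        · intro v hv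
          rw [if_neg (fun h => hno v hv _ h.1), if_neg (fun h => hno v hv _ h.1), add_zero]
      · obtain ⟨d, hd⟩ := Nat.exists_eq_succ_of_ne_zero hpos.ne'
        have k0 := key false d hd
        have k1 := key true d hd
        have e1 := P_false ok S hne hboth.2
        have e2 := P_true ok S hne hboth.1
        have hsum : ((∑ v ∈ S, ((if ok (S.erase v) false ∧ B (S.erase v) + 1 = B S then
            Lf ok B n (S.erase v) false else 0) +
            (if ok (S.erase v) true ∧ B (S.erase v) + 1 = B S then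
            Lf ok B n (S.erase v) true else 0)) : ℕ) : ℤ) =
            (∑ v ∈ S, (if ok (S.erase v) false ∧ B (S.erase v) + 1 = B S then
              ((Lf ok B n (S.erase v) false : ℕ) : ℤ) else 0)) +
            (∑ v ∈ S, (if ok (S.erase v) true ∧ B (S.erase v) + 1 = B S then
              ((Lf ok B n (S.erase v) true : ℕ) : ℤ) else 0)) := by
          rw [← Finset.sum_add_distrib]
          push_cast
          rfl
        rw [hsum]
        rw [show B S = d + 1 from hd] at k0 k1 ⊢
        cases x
        · refine Ty.step k0 k1 ?_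
          rw [sub_mul, one_mul]
          nth_rewrite 1 [e1]
          rw [e2]
          ring
        · refine Ty.step' k0 k1 ?_
          rw [sub_mul, one_mul]
          nth_rewrite 1 [e2]
          rw [e1]
          ring
    · have hx' : ¬ ok S (!x) := by
        cases x
        · exact fun h => hboth ⟨hx, h⟩
        · exact fun h => hboth ⟨h, hx⟩
      rw [P_one ok S hne x hx', A, hS, Lf, if_neg hboth, Nat.cast_sum]
      refine Ty.sum _ _ _ _ fun v hv => ?_
      by_cases hy : ok (S.erase v) x
      · rw [if_pos hy]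
        have hc : (S.erase v).card = n := by
          rw [card_erase_of_mem hv, hS, Nat.succ_sub_one]
        have g := ih (S.erase v) hc x hy
        have g2 := g.up (ho S x hx hx' v hv hy)
        rw [hc] at g2
        by_cases he : B (S.erase v) = B S
        · rw [if_pos he] at g2
          rw [if_pos ⟨hy, he⟩]
          exact g2
        · rw [if_neg he] at g2
          rw [if_neg (by tauto)]
          exact_mod_cast g2
      · rw [if_neg hy, if_neg (by tauto)]
        exact_mod_cast Ty.zero (B S)

end

end Pool.Agent.NH88.SR.Typ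

namespace Pool.Agent.NH88.SR

theorem s_type : S_type := by
  intro ok B h0 h1 hB hb ho W D hW hD
  have h := Typ.main ok B h0 h1 hB hb ho W.card W rfl false hW
  rw [hD] at h
  refine Typ.fdiff_of_Ty ?_
  simpa [Typ.P] using h

end Pool.Agent.NH88.SR
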