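import Pool.Agent.NH88.SR.Stm1

/-!
# A bound for the number of optimal sorting sequences (helper68)
-/

namespace Pool.Agent.NH88.SR

open Finset Pool.Agent.TH700

/-- A reversal permutes the absolute values. -/
theorem natAbs_perm68 {l : List ℤ} {r : ℕ × ℕ} (h : Legal l.length r) :
    ((reversal l r).map Int.natAbs).Perm (l.map Int.natAbs) := by
  obtain ⟨h1, h2, h3⟩ := h
  unfold reversal
  have e1 : l.map Int.natAbs = (l.take (r.1 - 1)).map Int.natAbs ++
      ((l.take r.2).drop (r.1 - 1)).map Int.natAbs ++ (l.drop r.2).map Int.natAbs := by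
    rw [← List.map_append, ← List.map_append]
    congr 1
    have h4 : l.take (r.1 - 1) ++ (l.take r.2).drop (r.1 - 1) = l.take r.2 := by
      have h5 : l.take (r.1 - 1) = (l.take r.2).take (r.1 - 1) := by
        rw [List.take_take]
        congr 1
        omega
      rw [h5, List.take_append_drop]
    rw [h4, List.take_append_drop]
  rw [e1, List.map_append, List.map_append]
  refine List.Perm.append_right _ (List.Perm.append_left _ ?_)
  rw [List.map_map]
  have e2 : (Int.natAbs ∘ fun x : ℤ => -x) = Int.natAbs := by
    funext x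
    exact Int.natAbs_neg x
  rw [e2]
  exact ((List.reverse_perm _).map _)

theorem foldl_length68 (rs : List (ℕ × ℕ)) : ∀ l : List ℤ, (∀ r ∈ rs, Legal l.length r) →
    (rs.foldl reversal l).length = l.length := by
  induction rs with
  | nil => intro l _; rfl
  | cons r rs ih =>
    intro l h
    have h1 := reversal_length (h r (List.mem_cons_self ..))
    rw [List.foldl_cons, ih, h1]
    intro r' hr'
    rw [h1]
    exact h r' (List.mem_cons_of_mem _ hr')

theorem foldl_perm68 (rs : List (ℕ × ℕ)) : ∀ l : List ℤ, (∀ r ∈ rs, Legal l.length r) →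
    ((rs.foldl reversal l).map Int.natAbs).Perm (l.map Int.natAbs) := by
  induction rs with
  | nil => intro l _; exact List.Perm.refl _
  | cons r rs ih =>
    intro l h
    have h0 := h r (List.mem_cons_self ..)
    have h1 := reversal_length h0
    rw [List.foldl_cons]
    refine (ih _ ?_).trans (natAbs_perm68 h0)
    intro r' hr'
    rw [h1]
    exact h r' (List.mem_cons_of_mem _ hr')

/-- Selection sort. -/
theorem sel68 {l : List ℤ} (hl : IsSignedPerm l) (k : ℕ) (hk : k ≤ l.length) :
    ∃ rs : List (ℕ × ℕ), (∀ r ∈ rs, Legal l.length r) ∧ rs.length ≤ 2 * k ∧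
      ∀ p, 1 ≤ p → p ≤ k → ext (rs.foldl reversal l) p = p := by
  induction k with
  | zero => exact ⟨[], by simp, by simp, fun p h1 h2 => by omega⟩
  | succ k ih =>
    obtain ⟨rs, h1, h2, h3⟩ := ih (by omega)
    obtain ⟨l', hl'⟩ : ∃ l', l' = rs.foldl reversal l := ⟨_, rfl⟩
    have hlen : l'.length = l.length := by rw [hl']; exact foldl_length68 rs l h1
    rw [← hl'] at h3
    have hmem : k + 1 ∈ l'.map Int.natAbs := by
      have hp : (l'.map Int.natAbs).Perm (List.range' 1 l.length) := by
        rw [hl']
        exact (foldl_perm68 rs l h1).trans hl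
      rw [hp.mem_iff, List.mem_range'_1]
      omega
    obtain ⟨x, hx, hxk⟩ := List.mem_map.1 hmem
    obtain ⟨q, hq, hqx⟩ := List.getElem_of_mem hx
    have hext : ext l' (q + 1) = x := by
      unfold TH700.ext
      rw [if_neg (by omega), if_pos (by omega), Nat.add_sub_cancel, List.getD_eq_getElem _ _ hq,
        hqx]
    have hqk : k ≤ q := by
      by_contra hcon
      have h4 := h3 (q + 1) (by omega) (by omega)
      rw [hext] at h4
      rw [h4] at hxk
      push_cast at hxk
      omega
    -- the first reversal
    have hL1 : Legal l'.length (k + 1, q + 1) := ⟨by simp, by simp; omega, by simp; omega⟩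
    obtain ⟨l1, hl1⟩ : ∃ l1, l1 = reversal l' (k + 1, q + 1) := ⟨_, rfl⟩
    have hlen1 : l1.length = l.length := by rw [hl1, reversal_length hL1, hlen]
    have hext1 : ∀ p, 1 ≤ p → p ≤ k → ext l1 p = p := by
      intro p hp1 hp2
      rw [hl1, ext_reversal hL1]
      unfold Cyc.revF
      simp only
      rw [if_neg (by omega)]
      exact h3 p hp1 hp2
    have hext2 : ext l1 (k + 1) = -x := by
      rw [hl1, ext_reversal hL1]
      unfold Cyc.revF
      simp only
      rw [if_pos (by omega)]
      have e : k + 1 + (q + 1) - (k + 1) = q + 1 := by omega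
      rw [e, hext]
    have hfold1 : (rs ++ [(k + 1, q + 1)]).foldl reversal l = l1 := by
      rw [List.foldl_append, ← hl']
      simp only [List.foldl_cons, List.foldl_nil]
      exact hl1.symm
    have hleg1 : ∀ r ∈ rs ++ [(k + 1, q + 1)], Legal l.length r := by
      intro r hr
      rw [List.mem_append, List.mem_singleton] at hr
      rcases hr with hr | hr
      · exact h1 r hr
      · rw [hr, ← hlen]; exact hL1
    rcases Int.natAbs_eq x with hx' | hx'
    · -- a second reversal
      have hL2 : Legal l1.length (k + 1, k + 1) := ⟨by simp, by simp, by simp; omega⟩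
      refine ⟨(rs ++ [(k + 1, q + 1)]) ++ [(k + 1, k + 1)], ?_, ?_, ?_⟩
      · intro r hr
        rw [List.mem_append, List.mem_singleton] at hr
        rcases hr with hr | hr
        · exact hleg1 r hr
        · rw [hr, ← hlen1]; exact hL2
      · simp only [List.length_append, List.length_singleton]
        omega
      · intro p hp1 hp2
        rw [List.foldl_append, hfold1]
        simp only [List.foldl_cons, List.foldl_nil]
        rw [ext_reversal hL2]
        unfold Cyc.revF
        simp only
        by_cases hp : p = k + 1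
        · subst hp
          rw [if_pos (by omega), Nat.add_sub_cancel, hext2, hx', hxk]
          simp
        · rw [if_neg (by omega)]
          exact hext1 p hp1 (by omega)
    · refine ⟨rs ++ [(k + 1, q + 1)], hleg1, ?_, ?_⟩
      · simp only [List.length_append, List.length_singleton]
        omega
      · intro p hp1 hp2
        rw [hfold1]
        by_cases hp : p = k + 1
        · subst hp
          rw [hext2, hx', hxk]
          simp
        · exact hext1 p hp1 (by omega)

theorem isSignedPerm_idPerm68 (n : ℕ) : IsSignedPerm (idPerm n) := by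
  unfold IsSignedPerm idPerm
  rw [List.map_map, List.length_map, List.length_range]
  have h : (List.range n).map (Int.natAbs ∘ fun i : ℕ => (i : ℤ) + 1) = List.range' 1 n := by
    rw [List.range'_eq_map_range]
    refine List.map_congr_left fun i _ => ?_
    simp only [Function.comp]
    omega
  rw [h]

theorem revDist_le68 {l : List ℤ} (h : ∃ rs, Sorts l rs) : revDist l ≤ 2 * l.length := by
  obtain ⟨rs, hrs, hrs'⟩ := h
  have hl : IsSignedPerm l := by
    have h1 := foldl_perm68 rs l hrs
    rw [hrs'] at h1
    have h2 := isSignedPerm_idPerm68 l.length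
    unfold IsSignedPerm at h2 ⊢
    rw [idPerm_length] at h2
    exact h1.symm.trans h2
  obtain ⟨ss, h1, h2, h3⟩ := sel68 hl l.length le_rfl
  refine (Nat.sInf_le ⟨ss, ⟨h1, ?_⟩, rfl⟩ : revDist l ≤ ss.length).trans h2
  have hlen := foldl_length68 ss l h1
  refine eq_of_ext (by rw [hlen, idPerm_length]) fun p hp1 hp2 => ?_
  rw [hlen] at hp2
  rw [h3 p hp1 hp2, ext_idPerm _ _ (by omega)]

theorem s_ub : S_ub := by
  classical
  intro l
  by_cases hs : ∃ rs, Sorts l rs
  · obtain ⟨n, hn⟩ : ∃ n, n = l.length := ⟨_, rfl⟩
    obtain ⟨d, hd⟩ : ∃ d, d = revDist l := ⟨_, rfl⟩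
    have hd2 : d ≤ 2 * n := by rw [hd, hn]; exact revDist_le68 hs
    have hsub : Opt l ⊆ (fun f : Fin d → Fin (n + 1) × Fin (n + 1) =>
        List.ofFn fun i => (((f i).1 : ℕ), ((f i).2 : ℕ))) '' Set.univ := by
      rintro rs ⟨⟨h1, _⟩, h2⟩
      rw [← hd] at h2
      subst h2
      refine ⟨fun i => (⟨(rs.get i).1, ?_⟩, ⟨(rs.get i).2, ?_⟩), Set.mem_univ _, ?_⟩
      · have := h1 (rs.get i) (List.get_mem _ _)
        obtain ⟨h3, h4, h5⟩ := this
        omega
      · have := h1 (rs.get i) (List.get_mem _ _)
        obtain ⟨h3, h4, h5⟩ := this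
        omega
      · exact List.ofFn_get rs
    unfold numOpt
    rw [← hn]
    calc (Opt l).ncard ≤ _ := Set.ncard_le_ncard hsub ((Set.finite_univ).image _)
      _ ≤ (Set.univ : Set (Fin d → Fin (n + 1) × Fin (n + 1))).ncard :=
          Set.ncard_image_le Set.finite_univ
      _ = ((n + 1) * (n + 1)) ^ d := by
          rw [Set.ncard_univ, Nat.card_eq_fintype_card, Fintype.card_fun, Fintype.card_prod,
            Fintype.card_fin, Fintype.card_fin]
      _ ≤ ((n + 1) * (n + 1)) ^ (2 * n) := Nat.pow_le_pow_right (by positivity) hd2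
      _ = (n + 1) ^ (4 * n) := by
          rw [← pow_two, ← pow_mul]
          congr 1
          ring
  · have h0 : Opt l = ∅ := by
      rw [Set.eq_empty_iff_forall_notMem]
      rintro rs ⟨h1, _⟩
      exact hs ⟨rs, h1⟩
    unfold numOpt
    rw [h0, Set.ncard_empty]
    exact Nat.zero_le _

end Pool.Agent.NH88.SR
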