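import Pool.Agent.NH88.SR.PermPoly

/-!
# The final computation takes polynomial time (`S_vpoly`)
-/

namespace Pool.Agent.NH88.SR

open Pool.Agent.H549R2.Convex Pool.Agent.H549R2.PM Pool.Agent.NPC Pool.Agent.NPC.Cnt
  Pool.Agent.NPC.H549Convex Pool.Agent.NPC.H549PM

section

variable {α : Type} [TEnc α]

theorem th_poly {p q : α → ℕ} (hp : Poly p) (hq : UPoly q) :
    Poly (fun a => th (p a) (q a)) := by
  have h1 : Poly (fun x : α × ℕ => decide (x.2 % p x.1 ≠ 0)) :=
    NPC.Poly.decide_not (p := fun x : α × ℕ => x.2 % p x.1 = 0)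
      (NPC.Poly.decide_eq (NPC.Poly.mod (NPC.Poly.snd NPC.Poly.id)
        (hp.comp (NPC.Poly.fst NPC.Poly.id))) (NPC.Poly.const 0))
  exact poly_prod (NPC.Poly.filter (l := fun a => List.range (2 * q a))
    (p := fun a m => decide (m % p a ≠ 0)) (UPoly.mul (UPoly.const 2) hq).range h1)

theorem headD_poly {l : α → List ℕ} (hl : Poly l) : Poly (fun a => (l a).headD 0) := by
  refine (NPC.Poly.head?_getD hl 0).congr fun a => ?_
  cases l a <;> rfl

theorem look_poly {as : α → List (List ℤ × ℕ)} {l : α → List ℤ} (has : Poly as) (hl : Poly l) :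
    Poly (fun a => look (as a) (l a)) := by
  have h1 : Poly (fun a => (as a).filter (fun x => decide (x.1 = l a))) :=
    NPC.Poly.filter (p := fun a (x : List ℤ × ℕ) => decide (x.1 = l a)) has
      (NPC.Poly.decide_eq (NPC.Poly.fst (NPC.Poly.snd NPC.Poly.id))
        (hl.comp (NPC.Poly.fst NPC.Poly.id)))
  exact headD_poly (NPC.Poly.map (F := fun _ (x : List ℤ × ℕ) => x.2) h1
    (NPC.Poly.snd (NPC.Poly.snd NPC.Poly.id)))

theorem facs_poly {p : α → ℕ} {A : α → LLB} (hp : UPoly p) (hA : Poly A) :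
    Poly (fun a => facs (cmps (p a) (A a))) := by
  have hN := NB_upoly hp hA
  have hx : Poly (fun q : α × (ℕ × ℕ) => q.2.1) := NPC.Poly.fst (NPC.Poly.snd NPC.Poly.id)
  have hy : Poly (fun q : α × (ℕ × ℕ) => q.2.2) := NPC.Poly.snd (NPC.Poly.snd NPC.Poly.id)
  have hN' : UPoly (fun q : α × (ℕ × ℕ) => NB (p q.1) (A q.1)) :=
    hN.comp (NPC.Poly.fst NPC.Poly.id)
  have h1 : Poly (fun q : α × (ℕ × ℕ) => (min q.2.1 (NB (p q.1) (A q.1))).factorial *
      (min q.2.2 (NB (p q.1) (A q.1))).factorial) :=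
    NPC.Poly.mul (upoly_fact (upoly_min hx hN')) (upoly_fact (upoly_min hy hN'))
  refine (poly_prod (NPC.Poly.map (F := fun a (x : ℕ × ℕ) =>
    (min x.1 (NB (p a) (A a))).factorial * (min x.2 (NB (p a) (A a))).factorial)
    (cmps_poly hp.toPoly hA) h1)).congr fun a => ?_
  unfold facs
  congr 1
  refine List.map_congr_left fun x hx => ?_
  have h2 := cmps_le x hx
  rw [min_eq_left h2.1, min_eq_left h2.2]

theorem rfac_poly {A : α → LLB} (hA : Poly A) : Poly (fun a => rfac (A a)) :=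
  poly_prod (NPC.Poly.map (F := fun a i => (rdeg (A a) i - 1).factorial)
    (NPC.Poly.range_length hA)
    (upoly_fact (rdeg1_upoly (hA.comp (NPC.Poly.fst NPC.Poly.id)) (NPC.Poly.snd NPC.Poly.id))))

theorem pow4_upoly {p : α → ℕ} (hp : UPoly p) : UPoly (fun a => p a ^ 4) := by
  have h2 : UPoly (fun a => p a ^ 2) := by simpa [pow_two] using UPoly.mul hp hp
  have h3 : UPoly (fun a => p a ^ 3) := by
    have := UPoly.mul h2 hp
    simpa [pow_succ] using this
  have := UPoly.mul h3 hp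
  simpa [pow_succ] using this

theorem HzF_poly {p : α → ℕ} {A : α → LLB} {as : α → List (List ℤ × ℕ)} (hp : UPoly p)
    (hA : Poly A) (has : Poly as) : Poly (fun a => HzF (A a) (as a) (p a)) := by
  have hD := DD_upoly hp hA
  have hf1 : Poly (fun q : α × ℕ => q.1) := NPC.Poly.fst NPC.Poly.id
  have hsub : UPoly (fun q : α × ℕ => 2 * (DD (cmps (p q.1) (A q.1)) - q.2)) :=
    UPoly.mul (UPoly.const 2) (UPoly.of_le (NPC.Poly.sub (hD.toPoly.comp hf1)
      (NPC.Poly.snd NPC.Poly.id)) (hD.comp hf1) (fun q => Nat.sub_le _ _))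
  have hg : Poly (fun q : α × ℕ => look (as q.1) (perm (cmps (p q.1) (A q.1))
      (2 * (DD (cmps (p q.1) (A q.1)) - q.2))) /
        (2 * (DD (cmps (p q.1) (A q.1)) - q.2)).factorial) :=
    NPC.Poly.div (look_poly (has.comp hf1) (perm_cmps_poly (hp.comp hf1) (hA.comp hf1) hsub))
      (upoly_fact hsub)
  have halt := alt_poly (q := fun a => DD (cmps (p a) (A a)))
    (g := fun a t => look (as a) (perm (cmps (p a) (A a)) (2 * (DD (cmps (p a) (A a)) - t))) /
      (2 * (DD (cmps (p a) (A a)) - t)).factorial) hD hg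
  have h4 := pow4_upoly hp
  have hne : UPoly (fun a => (edg (A a)).length) := UPoly.length (edg_poly.comp hA)
  have h5 : Poly (fun a => (th (p a) (p a ^ 4) * p a ^ 4) ^ (edg (A a)).length) :=
    NPC.Poly.npow (NPC.Poly.mul (th_poly hp.toPoly h4) h4.toPoly) hne
  exact NPC.Poly.div (NPC.Poly.mul halt (NPC.Poly.mul (facs_poly hp hA) h5))
    (NPC.Poly.mul (upoly_pow2 hD) (upoly_fact hD))

/-- the test for the residue -/
def Tx (x : LLB × List (List ℤ × ℕ)) (p y : ℕ) : Bool :=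
  decide (th p (p ^ 4) ^ (edg x.1).length * y % p = HzF x.1 x.2 p % p)

theorem Tx_poly {x : α → LLB × List (List ℤ × ℕ)} {p y : α → ℕ} (hx : Poly x) (hp : UPoly p)
    (hy : Poly y) : Poly (fun a => Tx (x a) (p a) (y a)) := by
  have hA : Poly (fun a => (x a).1) := NPC.Poly.fst hx
  have hne : UPoly (fun a => (edg (x a).1).length) := UPoly.length (edg_poly.comp hA)
  exact NPC.Poly.decide_eq (NPC.Poly.mod (NPC.Poly.mul (NPC.Poly.npow
    (th_poly hp.toPoly (pow4_upoly hp)) hne) hy) hp.toPoly)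
    (NPC.Poly.mod (HzF_poly hp hA (NPC.Poly.snd hx)) hp.toPoly)

end

theorem headD_range_le (T : ℕ → Bool) (p : ℕ) (hp : 0 < p) :
    ((List.range p).filter T).headD 0 + 1 ≤ p := by
  generalize hl : (List.range p).filter T = l
  cases l with
  | nil =>
    show 0 + 1 ≤ p
    omega
  | cons y l =>
    have h1 : y ∈ (List.range p).filter T := by
      rw [hl]
      exact List.mem_cons_self ..
    have h2 := List.mem_range.1 (List.mem_filter.1 h1).1
    show y + 1 ≤ p
    omega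

theorem crt_inv (T : ℕ → ℕ → Bool) (B : ℕ) : ∀ (l : List ℕ) (s : ℕ × ℕ),
    (∀ p ∈ l, 0 < p ∧ p ≤ B) → s.1 < s.2 →
    (l.foldl (crtStep T) s).1 < (l.foldl (crtStep T) s).2 ∧
      (l.foldl (crtStep T) s).2 ≤ s.2 * B ^ l.length
  | [], s, _, hs => by simpa using hs
  | p :: l, s, hl, hs => by
    rw [List.foldl_cons]
    obtain ⟨hp0, hpB⟩ := hl p (List.mem_cons_self ..)
    have h1 : (crtStep T s p).1 < (crtStep T s p).2 := by
      have h2 := headD_range_le (fun y => T p (s.1 + s.2 * y)) p hp0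
      have h3 : s.2 * (((List.range p).filter (fun y => T p (s.1 + s.2 * y))).headD 0 + 1) ≤
          s.2 * p := Nat.mul_le_mul_left _ h2
      rw [mul_add, mul_one] at h3
      show s.1 + s.2 * ((List.range p).filter (fun y => T p (s.1 + s.2 * y))).headD 0 < s.2 * p
      omega
    obtain ⟨h4, h5⟩ := crt_inv T B l (crtStep T s p)
      (fun q hq => hl q (List.mem_cons_of_mem _ hq)) h1
    refine ⟨h4, h5.trans ?_⟩
    have h6 : (crtStep T s p).2 = s.2 * p := rfl
    rw [h6, List.length_cons, pow_succ', ← mul_assoc]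
    exact Nat.mul_le_mul_right _ (Nat.mul_le_mul_left _ hpB)

theorem s_vpoly : S_vpoly := by
  intro c
  have hx1 : Poly (fun x : LLB × List (List ℤ × ℕ) => x.1) := NPC.Poly.fst NPC.Poly.id
  have hps : Poly (fun x : LLB × List (List ℤ × ℕ) => primesA c x.1) := primesA_poly c hx1
  have hbd : UPoly (fun x : LLB × List (List ℤ × ℕ) => bd c x.1) := bd_upoly c hx1
  obtain ⟨r, hr⟩ := NPC.Poly.sz_le hbd
  -- the step
  have hF : Poly (fun q : (LLB × List (List ℤ × ℕ)) × (ℕ × ℕ) × ℕ =>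
      crtStep (Tx q.1) q.2.1 (min q.2.2 (bd c q.1.1))) := by
    have hx : Poly (fun q : (LLB × List (List ℤ × ℕ)) × (ℕ × ℕ) × ℕ => q.1) :=
      NPC.Poly.fst NPC.Poly.id
    have hs : Poly (fun q : (LLB × List (List ℤ × ℕ)) × (ℕ × ℕ) × ℕ => q.2.1) :=
      NPC.Poly.fst (NPC.Poly.snd NPC.Poly.id)
    have hp : UPoly (fun q : (LLB × List (List ℤ × ℕ)) × (ℕ × ℕ) × ℕ =>
        min q.2.2 (bd c q.1.1)) :=
      upoly_min (NPC.Poly.snd (NPC.Poly.snd NPC.Poly.id)) (hbd.comp hx)
    have h1 : Poly (fun q : ((LLB × List (List ℤ × ℕ)) × (ℕ × ℕ) × ℕ) × ℕ =>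
        Tx q.1.1 (min q.1.2.2 (bd c q.1.1.1)) (q.1.2.1.1 + q.1.2.1.2 * q.2)) := by
      have hf : Poly (fun q : ((LLB × List (List ℤ × ℕ)) × (ℕ × ℕ) × ℕ) × ℕ => q.1) :=
        NPC.Poly.fst NPC.Poly.id
      exact Tx_poly (hx.comp hf) (hp.comp hf) (NPC.Poly.add (NPC.Poly.fst (hs.comp hf))
        (NPC.Poly.mul (NPC.Poly.snd (hs.comp hf)) (NPC.Poly.snd NPC.Poly.id)))
    have h2 := headD_poly (NPC.Poly.filter
      (l := fun q : (LLB × List (List ℤ × ℕ)) × (ℕ × ℕ) × ℕ =>
        List.range (min q.2.2 (bd c q.1.1)))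
      (p := fun q y => Tx q.1 (min q.2.2 (bd c q.1.1)) (q.2.1.1 + q.2.1.2 * y)) hp.range h1)
    exact NPC.Poly.pair (NPC.Poly.add (NPC.Poly.fst hs) (NPC.Poly.mul (NPC.Poly.snd hs) h2))
      (NPC.Poly.mul (NPC.Poly.snd hs) hp.toPoly)
  have hcong : ∀ (x : LLB × List (List ℤ × ℕ)) (l : List ℕ), (∀ p ∈ l, p ∈ primesA c x.1) →
      ∀ s : ℕ × ℕ, l.foldl (fun s p => crtStep (Tx x) s (min p (bd c x.1))) s =
        l.foldl (crtStep (Tx x)) s := by
    intro x l hl s
    refine List.foldl_ext _ _ _ fun s p hp => ?_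
    rw [min_eq_left (mem_primesA (hl p hp)).1.le]
  have hfold : Poly (fun x : LLB × List (List ℤ × ℕ) =>
      (primesA c x.1).foldl (fun s p => crtStep (Tx x) s (min p (bd c x.1))) (0, 1)) := by
    refine NPC.Poly.foldl (l := fun x : LLB × List (List ℤ × ℕ) => primesA c x.1)
      (s := fun _ => ((0, 1) : ℕ × ℕ))
      (F := fun x s p => crtStep (Tx x) s (min p (bd c x.1))) hps (NPC.Poly.const (0, 1)) hF
      (Polynomial.C 8 * (r * r) + Polynomial.C 20) ?_
    intro x k hk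
    have hmem : ∀ p ∈ (primesA c x.1).take k, p ∈ primesA c x.1 :=
      fun p hp => List.mem_of_mem_take hp
    rw [hcong x _ hmem]
    obtain ⟨h1, h2⟩ := crt_inv (Tx x) (bd c x.1) ((primesA c x.1).take k) (0, 1)
      (fun p hp => ⟨(mem_primesA (hmem p hp)).2.pos, (mem_primesA (hmem p hp)).1.le⟩)
      (by norm_num)
    set s := ((primesA c x.1).take k).foldl (crtStep (Tx x)) (0, 1) with hs
    have hlen : ((primesA c x.1).take k).length ≤ bd c x.1 := by
      refine (List.length_take_le' _ _).trans ?_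
      unfold primesA
      refine (List.length_filter_le _ _).trans ?_
      rw [List.length_range]
      exact le_rfl
    have h3 : s.2 ≤ bd c x.1 ^ ((primesA c x.1).take k).length := by simpa using h2
    have h4 : s.2.size ≤ bd c x.1 * bd c x.1 + 1 := by
      refine (Nat.size_le_size h3).trans ((size_pow_le _ _).trans ?_)
      exact Nat.add_le_add_right (Nat.mul_le_mul hlen (NPC.Poly.size_le_self _)) 1
    have h5 : s.1.size ≤ s.2.size := Nat.size_le_size h1.le
    have h6 := sz_nat_le s.1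
    have h7 := sz_nat_le s.2
    have h8 : sz s = sz s.1 + sz s.2 + 1 := sz_pair s.1 s.2
    have h9 : bd c x.1 ≤ r.eval (sz x) := by
      have h10 : sz (List.replicate (bd c x.1) ()) ≤ r.eval (sz x) := hr x
      have h11 := length_lt_sz (List.replicate (bd c x.1) ())
      rw [List.length_replicate] at h11
      omega
    have h12 : bd c x.1 * bd c x.1 ≤ r.eval (sz x) * r.eval (sz x) := Nat.mul_le_mul h9 h9
    show sz s ≤ _
    simp only [Polynomial.eval_add, Polynomial.eval_mul, Polynomial.eval_C]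
    omega
  refine (NPC.Poly.div (NPC.Poly.fst hfold) (rfac_poly hx1)).congr fun x => ?_
  rw [hcong x _ (fun p hp => hp)]
  rfl

end Pool.Agent.NH88.SR
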