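import Pool.Agent.NH88.SR.Stm2

/-!
# The value computed from the answers is the permanent
-/

namespace Pool.Agent.NH88.SR

open Finset Pool.Agent.TH700 Pool.Agent.H549R2.Convex Pool.Agent.H549R2.PM Pool.Agent.NPC
  Pool.Agent.NPC.Cnt Pool.Agent.NPC.H549PM

theorem th_coprime {p : ℕ} (hp : p.Prime) (q : ℕ) : (th p q).Coprime p := by
  rw [Nat.coprime_comm, hp.coprime_iff_not_dvd]
  intro h
  rw [th, Prime.dvd_prod_iff hp.prime] at h
  obtain ⟨m, hm, hpm⟩ := h
  have := (List.mem_filter.1 hm).2
  simp only [ne_eq, decide_not, Bool.not_eq_eq_eq_not, Bool.not_true, decide_eq_false_iff_not] at this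
  exact this (Nat.mod_eq_zero_of_dvd hpm)

theorem perm_le (n : ℕ) (P : Fin n → Fin n → Prop) [∀ i j, Decidable (P i j)] :
    (Matrix.of fun i j : Fin n => if P i j then (1 : ℕ) else 0).permanent ≤ 2 ^ (n ^ 2) := by
  have h1 : (Matrix.of fun i j : Fin n => if P i j then (1 : ℕ) else 0).permanent ≤ n.factorial := by
    rw [Matrix.permanent]
    refine (Finset.sum_le_sum (g := fun _ => 1) fun σ _ => ?_).trans ?_
    · refine Finset.prod_le_one (fun _ _ => Nat.zero_le _) fun i _ => ?_
      rw [Matrix.of_apply]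
      split_ifs <;> omega
    · rw [Finset.sum_const, smul_eq_mul, mul_one, Finset.card_univ, Fintype.card_perm,
        Fintype.card_fin]
  have h2 : n.factorial ≤ n ^ n := Nat.factorial_le_pow n
  have h3 : n ^ n ≤ (2 ^ n) ^ n := Nat.pow_le_pow_left Nat.lt_two_pow_self.le n
  rw [← pow_mul, ← pow_two] at h3
  omega

theorem s_val (hA : Stm_A) (hC : Stm_C) (h1 : S_primes) (h2 : S_crt) (h3 : S_abs) : S_val := by
  obtain ⟨c, hc⟩ := h1
  refine ⟨c, fun A hG as has => ?_⟩
  obtain ⟨hcl, hperm⟩ := h3 A hG
  set ne := (edg A).length with hne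
  set X := F A * rfac A with hX
  have hN : 1 ≤ A.length := List.length_pos_iff.2 hG.1
  have hne1 : 1 ≤ ne := by
    rw [← hcl, cols, List.length_append, List.length_map, List.length_range]
    omega
  have hXle : X ≤ 2 ^ (ne ^ 2) := by
    rw [← hperm]
    exact perm_le ne (fun i j => inc ((edg A).getD i (0, 0)) ((cols A).getD j (0, 0)) = true)
  have hXlt : X < (primesA c A).prod := lt_of_le_of_lt hXle (hc (2 * A.length) (ne ^ 2))
  have hnd : (primesA c A).Nodup := List.nodup_range.filter _
  have hpr : ∀ p ∈ primesA c A, 2 * A.length < p ∧ p.Prime := by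
    intro p hp
    have := (List.mem_filter.1 hp).2
    simpa using this
  have key : crt (fun p y => decide (th p (p ^ 4) ^ ne * y % p = HzF A as p % p))
      (primesA c A) = X := by
    refine h2 _ _ _ hnd (fun p hp => (hpr p hp).2) hXlt ?_
    intro p hp y
    obtain ⟨hp1, hp2⟩ := hpr p hp
    obtain ⟨Hz, e1, e2⟩ := hC A p hG hp2 hp1
    set cs := cmps p A with hcs
    set D := DD cs with hD
    have hlen : cs.length = 2 * ne := by
      rw [hcs, cmps, List.length_append, List.length_map, List.length_map, hcl]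
      omega
    have hcne : cs ≠ [] := by
      intro h
      rw [h, List.length_nil] at hlen
      omega
    have hU : ∀ k ≤ D, look as (perm cs (2 * k)) / (2 * k).factorial = U cs (2 * k) := by
      intro k hk
      have hmem : perm cs (2 * k) ∈ qsA c A := by
        rw [qsA, List.mem_flatMap]
        refine ⟨p, hp, ?_⟩
        rw [List.mem_map]
        exact ⟨k, List.mem_range.2 (Nat.lt_succ_of_le hk), rfl⟩
      rw [has _ hmem, (hA cs (2 * k) hcne (by rw [hlen]; exact even_two_mul ne)
        (even_two_mul k)).2]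
      exact Nat.mul_div_cancel_left _ (Nat.factorial_pos _)
    have hPpos : 0 < facs cs * (th p (p ^ 4) * p ^ 4) ^ ne := by
      have t1 : 0 < th p (p ^ 4) := by
        rcases Nat.eq_zero_or_pos (th p (p ^ 4)) with h | h
        · have := th_coprime hp2 (p ^ 4)
          rw [h, Nat.coprime_zero_left] at this
          exact absurd this hp2.ne_one
        · exact h
      have t2 : 0 < facs cs := by
        rw [facs]
        refine List.prod_pos ?_
        intro a ha
        rw [List.mem_map] at ha
        obtain ⟨x, _, rfl⟩ := ha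
        exact Nat.mul_pos (Nat.factorial_pos _) (Nat.factorial_pos _)
      have t3 : 0 < p ^ 4 := Nat.pow_pos hp2.pos
      positivity
    have hfd : 0 ≤ fdiff D (fun r => U cs (2 * r)) := by
      by_contra hneg
      push Not at hneg
      have : fdiff D (fun r => U cs (2 * r)) *
          ((facs cs * (th p (p ^ 4) * p ^ 4) ^ ne : ℕ) : ℤ) < 0 :=
        mul_neg_of_neg_of_pos hneg (by exact_mod_cast hPpos)
      rw [e1] at this
      exact absurd this (not_lt.2 (Int.natCast_nonneg _))
    have halt : alt D (fun t => look as (perm cs (2 * (D - t))) / (2 * (D - t)).factorial) =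
        (fdiff D (fun r => U cs (2 * r))).toNat := by
      rw [alt_congr D _ (fun t => U cs (2 * (D - t))) (fun t _ => hU (D - t) (Nat.sub_le _ _))]
      refine alt_eq D _ _ ?_
      rw [Int.toNat_of_nonneg hfd]
      rfl
    have hHz : HzF A as p = Hz := by
      have e3 : (fdiff D (fun r => U cs (2 * r))).toNat *
          (facs cs * (th p (p ^ 4) * p ^ 4) ^ ne) = 2 ^ D * D.factorial * Hz := by
        have : (((fdiff D (fun r => U cs (2 * r))).toNat *
            (facs cs * (th p (p ^ 4) * p ^ 4) ^ ne) : ℕ) : ℤ) =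
            ((2 ^ D * D.factorial * Hz : ℕ) : ℤ) := by
          rw [← e1, Nat.cast_mul, Int.toNat_of_nonneg hfd]
        exact_mod_cast this
      unfold HzF
      rw [← hcs, ← hD, halt, ← hne, e3]
      exact Nat.mul_div_cancel_left _ (by positivity)
    have e4 : Hz ≡ th p (p ^ 4) ^ ne * X [MOD p] := (ZMod.natCast_eq_natCast_iff _ _ _).1 e2
    have hco : (th p (p ^ 4) ^ ne).Coprime p := Nat.Coprime.pow_left _ (th_coprime hp2 _)
    rw [hHz, decide_eq_true_eq]
    constructor
    · intro h
      have h' : th p (p ^ 4) ^ ne * y ≡ th p (p ^ 4) ^ ne * X [MOD p] := Nat.ModEq.trans h e4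
      exact Nat.ModEq.cancel_left_of_coprime (by rw [Nat.coprime_comm] at hco; exact hco) h'
    · intro h
      have h' : th p (p ^ 4) ^ ne * y ≡ th p (p ^ 4) ^ ne * X [MOD p] := Nat.ModEq.mul_left _ h
      exact Nat.ModEq.trans h' e4.symm
  have hr : 0 < rfac A := by
    rw [rfac]
    refine List.prod_pos ?_
    intro a ha
    rw [List.mem_map] at ha
    obtain ⟨x, _, rfl⟩ := ha
    exact Nat.factorial_pos _
  unfold valA
  simp only
  rw [← hne, key, hX, Nat.mul_div_cancel _ hr]

end Pool.Agent.NH88.SR
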