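import Pool.Agent.NH88.SR.PotAux

/-!
# Only the prefixes contribute to the leading coefficients
-/

namespace Pool.Agent.NH88.SR

open Finset Pool.Agent.TH700

namespace Vec

open PotAux

/-- prefix sets -/
def IsPre (cs : List (ℕ × ℕ)) (S : Finset (ℕ × ℕ)) : Prop :=
  ∃ k : ℕ → ℕ, (∀ c < cs.length, k c ≤ Kc cs c) ∧ S = pre cs k

theorem isPre_empty (cs : List (ℕ × ℕ)) : IsPre cs ∅ := by
  refine ⟨fun _ => 0, fun c _ => Nat.zero_le _, ?_⟩
  symm
  rw [eq_empty_iff_forall_notMem]
  intro v hv
  rw [mem_pre] at hv
  omega

/-- A regular set with one more element than a prefix set is a prefix set. -/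
theorem isPre_of_erase (hl : S_lin) (hp : S_pre) {cs : List (ℕ × ℕ)} {S : Finset (ℕ × ℕ)}
    {v : ℕ × ℕ} (hv : v ∈ S) (hS : S ⊆ Ws cs) (h0 : okA cs S false)
    (h : IsPre cs (S.erase v)) : IsPre cs S := by
  obtain ⟨k, hk, he⟩ := h
  obtain ⟨c, j⟩ := v
  have hcj := mem_Ws.1 (hS hv)
  simp only at hcj
  obtain ⟨hc, hj⟩ := hcj
  have hkj : k c ≤ j := by
    by_contra hlt
    push Not at hlt
    have : (c, j) ∈ pre cs k := mem_pre.2 ⟨hc, hlt⟩
    rw [← he] at this
    exact (mem_erase.1 this).1 rfl
  have hSi : S = insert (c, j) (pre cs k) := by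
    rw [← he, insert_erase hv]
  have hpt : pt S c = insert (c, j) ((range (k c)).image (fun i => (c, i))) := by
    rw [← pt_pre (k := k) hc, hSi]
    unfold pt
    rw [filter_insert, if_pos rfl]
  have h1 := (hl cs S hS).1.1 h0 c hc
  rw [hpt] at h1
  have h2 := (hp cs c hc).2 (k c) j (hk c hc) hj hkj h1
  subst h2
  refine ⟨Function.update k c (k c + 1), ?_, ?_⟩
  · intro d hd
    by_cases e : d = c
    · subst e
      rw [Function.update_self]
      omega
    · rw [Function.update_of_ne e]
      exact hk d hd
  · rw [hSi]
    ext ⟨d, i⟩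
    rw [mem_insert, mem_pre, mem_pre]
    by_cases e : d = c
    · subst e
      rw [Function.update_self]
      simp only [Prod.mk.injEq, true_and]
      omega
    · rw [Function.update_of_ne e]
      simp only [Prod.mk.injEq, e, false_and, false_or]

/-- the predicate of admissible subsets -/
def okk (cs : List (ℕ × ℕ)) (S : Finset (ℕ × ℕ)) (x : Bool) : Prop := S ⊆ Ws cs ∧ okA cs S x

theorem Bp_lt {cs : List (ℕ × ℕ)} (hl : S_lin) {S : Finset (ℕ × ℕ)} (hS : S ⊆ Ws cs)
    {v : ℕ × ℕ} (hv : v ∈ S) (h0 : okA cs S false) (h1 : okA cs S true)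
    (hr : ¬ okA cs (S.erase v) false) : Bp cs (S.erase v) + 1 ≠ Bp cs S := by
  have he := ((hl cs S hS).2 h0).1 h1
  rw [Nat.even_iff] at he
  have e1 := EE_erase cs S v
  have e2 := EE_le cs S
  have e4 := card_erase_of_mem hv
  have e5 := card_pos.2 ⟨v, hv⟩
  have e6 := EE_lt' hl ((erase_subset v S).trans hS) hr
  unfold Bp
  rw [if_pos h0, if_neg hr]
  omega

theorem Lf_zero (hl : S_lin) (hp : S_pre) (cs : List (ℕ × ℕ)) : ∀ (r : ℕ) (S : Finset (ℕ × ℕ))
    (x : Bool), S.card = r → S ⊆ Ws cs → okA cs S false → ¬ IsPre cs S → okA cs S x →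
    Lf (okk cs) (Bp cs) r S x = 0 := by
  classical
  intro r
  induction r with
  | zero =>
    intro S x hc _ _ hn _
    rw [card_eq_zero] at hc
    subst hc
    exact absurd (isPre_empty cs) hn
  | succ r ih =>
    intro S x hc hS h0 hn hx
    have hsub : ∀ v ∈ S, S.erase v ⊆ Ws cs := fun v _ => (erase_subset _ _).trans hS
    have hcard : ∀ v ∈ S, (S.erase v).card = r := fun v hv => by
      rw [card_erase_of_mem hv, hc]; rfl
    have hnp : ∀ v ∈ S, ¬ IsPre cs (S.erase v) := fun v hv h =>
      hn (isPre_of_erase hl hp hv hS h0 h)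
    simp only [Lf]
    split_ifs with hb
    · refine sum_eq_zero fun v hv => ?_
      have t1 : (if okk cs (S.erase v) false ∧ Bp cs (S.erase v) + 1 = Bp cs S then
          Lf (okk cs) (Bp cs) r (S.erase v) false else 0) = 0 := by
        split_ifs with h
        · exact ih _ _ (hcard v hv) (hsub v hv) h.1.2 (hnp v hv) h.1.2
        · rfl
      have t2 : (if okk cs (S.erase v) true ∧ Bp cs (S.erase v) + 1 = Bp cs S then
          Lf (okk cs) (Bp cs) r (S.erase v) true else 0) = 0 := by
        split_ifs with h
        · by_cases hr : okA cs (S.erase v) false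
          · exact ih _ _ (hcard v hv) (hsub v hv) hr (hnp v hv) h.1.2
          · exact absurd h.2 (Bp_lt hl hS hv h0 hb.2.2 hr)
        · rfl
      rw [t1, t2, add_zero]
    · have hx' : x = false := by
        cases x with
        | false => rfl
        | true => exact absurd ⟨⟨hS, h0⟩, ⟨hS, hx⟩⟩ hb
      subst hx'
      refine sum_eq_zero fun v hv => ?_
      split_ifs with h
      · exact ih _ _ (hcard v hv) (hsub v hv) h.1.2 (hnp v hv) h.1.2
      · rfl

theorem sum_pre {cs : List (ℕ × ℕ)} {k : ℕ → ℕ} (f : ℕ × ℕ → ℕ) :
    ∑ v ∈ pre cs k, f v = ∑ c ∈ range cs.length, ∑ i ∈ range (k c), f (c, i) := by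
  unfold pre
  rw [sum_biUnion]
  · refine sum_congr rfl fun c _ => ?_
    rw [sum_image]
    intro i _ j _ h
    simpa using h
  · intro c _ d _ hcd
    rw [Function.onFun, disjoint_left]
    intro x hx hy
    simp only [mem_image, mem_range] at hx hy
    obtain ⟨i, _, rfl⟩ := hx
    obtain ⟨j, _, h⟩ := hy
    simp only [Prod.mk.injEq] at h
    exact hcd h.1.symm

theorem card_pre (cs : List (ℕ × ℕ)) (k : ℕ → ℕ) :
    (pre cs k).card = ∑ c ∈ range cs.length, k c := by
  rw [card_eq_sum_ones, sum_pre]
  simp

theorem erase_top {cs : List (ℕ × ℕ)} {k : ℕ → ℕ} {c : ℕ} (h0 : k c ≠ 0) :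
    (pre cs k).erase (c, k c - 1) = pre cs (dec k c) := by
  ext ⟨d, i⟩
  rw [mem_erase, mem_pre, mem_pre]
  unfold dec
  by_cases e : d = c
  · subst e
    rw [Function.update_self]
    simp only [ne_eq, Prod.mk.injEq, true_and]
    omega
  · rw [Function.update_of_ne e]
    simp only [ne_eq, Prod.mk.injEq, e, false_and, not_false_eq_true, true_and]

theorem not_isPre_erase {cs : List (ℕ × ℕ)} {k : ℕ → ℕ} {c i : ℕ} (hc : c < cs.length)
    (hi : i + 1 < k c) : ¬ IsPre cs ((pre cs k).erase (c, i)) := by
  rintro ⟨k', _, he⟩
  have h1 : (c, k c - 1) ∈ (pre cs k).erase (c, i) := by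
    rw [mem_erase, mem_pre]
    refine ⟨?_, hc, by simp only; omega⟩
    intro h
    simp only [Prod.mk.injEq, true_and] at h
    omega
  rw [he, mem_pre] at h1
  have h2 : (c, i) ∈ pre cs k' := by
    rw [mem_pre]
    refine ⟨hc, ?_⟩
    have := h1.2
    simp only at this ⊢
    omega
  rw [← he] at h2
  exact (mem_erase.1 h2).1 rfl

theorem Ek_dec {cs : List (ℕ × ℕ)} {k : ℕ → ℕ} {c : ℕ} (hc : c < cs.length) (h0 : k c ≠ 0) :
    Ek cs k = Ek cs (dec k c) + (if k c = aa cs c + 1 then 1 else 0) := by
  have hcr : c ∈ range cs.length := mem_range.2 hc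
  have hd : ∀ d, d ≠ c → dec k c d = k d := fun d hd => by
    unfold dec; rw [Function.update_of_ne hd]
  have hc' : dec k c c = k c - 1 := by
    unfold dec; rw [Function.update_self]
  unfold Ek
  rw [card_filter, card_filter, ← add_sum_erase _ _ hcr, ← add_sum_erase _ _ hcr]
  have e1 : ∑ d ∈ (range cs.length).erase c, (if aa cs d < k d then 1 else 0) =
      ∑ d ∈ (range cs.length).erase c, (if aa cs d < dec k c d then 1 else 0) := by
    refine sum_congr rfl fun d hd' => ?_
    rw [hd d (mem_erase.1 hd').1]
  rw [e1, hc']
  split_ifs <;> omega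

end Vec

open PotAux Vec in
theorem s_vec : S_lin → S_pre → S_vec := by
  intro hl hp cs _
  classical
  have main : ∀ (r : ℕ) (k : ℕ → ℕ) (x : Bool), (∀ c < cs.length, k c ≤ Kc cs c) →
      ∑ c ∈ range cs.length, k c = r → okA cs (pre cs k) x →
      Lf (okk cs) (Bp cs) r (pre cs k) x = Lv cs r k := by
    intro r
    induction r with
    | zero => intro k x _ _ _; rfl
    | succ r ih =>
      intro k x hk hsum hx
      have hS := pre_subset hk
      have h0 := okA_pre hl hp hk
      have hE : EE cs (pre cs k) = Ek cs k := EE_pre hp hk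
      have hcardS : (pre cs k).card = r + 1 := by rw [card_pre, hsum]
      have hle := EE_le cs (pre cs k)
      -- the decreased functions
      have hkd : ∀ c < cs.length, ∀ d < cs.length, dec k c d ≤ Kc cs d := by
        intro c _ d hd
        unfold dec
        by_cases e : d = c
        · subst e
          rw [Function.update_self]
          have := hk d hd
          omega
        · rw [Function.update_of_ne e]
          exact hk d hd
      have hsd : ∀ c < cs.length, k c ≠ 0 → ∑ d ∈ range cs.length, dec k c d = r := by
        intro c hc hc0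
        have hcr : c ∈ range cs.length := mem_range.2 hc
        rw [← add_sum_erase _ _ hcr] at hsum ⊢
        have e1 : ∑ d ∈ (range cs.length).erase c, dec k c d =
            ∑ d ∈ (range cs.length).erase c, k d := by
          refine sum_congr rfl fun d hd' => ?_
          unfold dec
          rw [Function.update_of_ne (mem_erase.1 hd').1]
        rw [e1]
        unfold dec
        rw [Function.update_self]
        omega
      have hBd : ∀ c < cs.length, k c ≠ 0 →
          Bp cs (pre cs (dec k c)) = r + 1 - (Ek cs (dec k c) + 1) / 2 := by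
        intro c hc hc0
        unfold Bp
        rw [if_pos (okA_pre hl hp (hkd c hc)), card_pre, hsd c hc hc0, EE_pre hp (hkd c hc)]
      have hBS : Bp cs (pre cs k) = r + 2 - (Ek cs k + 1) / 2 := by
        unfold Bp
        rw [if_pos h0, hcardS, hE]
      rw [hE, hcardS] at hle
      -- values of the terms for the elements which are not on the top
      have hnt : ∀ c < cs.length, ∀ i, i + 1 < k c →
          okk cs ((pre cs k).erase (c, i)) false →
          ∀ y, okA cs ((pre cs k).erase (c, i)) y →
          Lf (okk cs) (Bp cs) r ((pre cs k).erase (c, i)) y = 0 := by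
        intro c hc i hi hok y hy
        have hmem : (c, i) ∈ pre cs k := mem_pre.2 ⟨hc, by simp only; omega⟩
        refine Lf_zero hl hp cs r _ y ?_ hok.1 hok.2 (not_isPre_erase hc hi) hy
        rw [card_erase_of_mem hmem, hcardS]
        rfl
      simp only [Lf, Lv]
      by_cases hb : okk cs (pre cs k) false ∧ okk cs (pre cs k) true
      · -- both parities are admissible
        rw [if_pos hb]
        have hev : Ek cs k % 2 = 0 := by
          rw [← hE, ← Nat.even_iff]
          exact ((hl cs _ hS).2 h0).1 hb.2.2
        rw [sum_pre]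
        refine sum_congr rfl fun c hc => ?_
        have hc' := mem_range.1 hc
        by_cases hk0 : k c = 0
        · rw [hk0]
          simp
        rw [if_neg hk0]
        rw [sum_eq_single (k c - 1)]
        · rw [erase_top hk0]
          have hEd := Ek_dec hc' hk0
          have okd := okA_pre hl hp (hkd c hc')
          have hsub := pre_subset (hkd c hc')
          have hB : Bp cs (pre cs (dec k c)) + 1 = Bp cs (pre cs k) := by
            rw [hBd c hc' hk0, hBS]
            split_ifs at hEd <;> omega
          rw [if_pos ⟨⟨hsub, okd⟩, hB⟩, ih _ _ (hkd c hc') (hsd c hc' hk0) okd]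
          have hiff := (hl cs _ hsub).2 okd
          rw [EE_pre hp (hkd c hc'), Nat.even_iff] at hiff
          by_cases hb' : k c = aa cs c + 1
          · rw [if_pos hb'] at hEd
            have hn2 : ¬ (okk cs (pre cs (dec k c)) true ∧
                Bp cs (pre cs (dec k c)) + 1 = Bp cs (pre cs k)) := by
              rintro ⟨⟨_, h2⟩, _⟩
              have := hiff.1 h2
              omega
            rw [if_pos hb', if_neg hn2, add_zero]
          · rw [if_neg hb'] at hEd
            have h2 : okA cs (pre cs (dec k c)) true := hiff.2 (by omega)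
            rw [if_neg hb', if_pos hev, if_pos ⟨⟨hsub, h2⟩, hB⟩,
              ih _ _ (hkd c hc') (hsd c hc' hk0) h2]
            ring
        · intro i hi hne
          have hi' := mem_range.1 hi
          have hit : i + 1 < k c := by omega
          have hmem : (c, i) ∈ pre cs k := mem_pre.2 ⟨hc', by simp only; omega⟩
          have t1 : (if okk cs ((pre cs k).erase (c, i)) false ∧
              Bp cs ((pre cs k).erase (c, i)) + 1 = Bp cs (pre cs k) then
              Lf (okk cs) (Bp cs) r ((pre cs k).erase (c, i)) false else 0) = 0 := by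
            split_ifs with h
            · exact hnt c hc' i hit h.1 _ h.1.2
            · rfl
          have t2 : (if okk cs ((pre cs k).erase (c, i)) true ∧
              Bp cs ((pre cs k).erase (c, i)) + 1 = Bp cs (pre cs k) then
              Lf (okk cs) (Bp cs) r ((pre cs k).erase (c, i)) true else 0) = 0 := by
            split_ifs with h
            · by_cases hr : okA cs ((pre cs k).erase (c, i)) false
              · exact hnt c hc' i hit ⟨h.1.1, hr⟩ _ h.1.2
              · exact absurd h.2 (Bp_lt hl hS hmem h0 hb.2.2 hr)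
            · rfl
          rw [t1, t2, add_zero]
        · intro h
          exact absurd (mem_range.2 (by omega)) h
      · -- only the even parity is admissible
        rw [if_neg hb]
        have hnt1 : ¬ okA cs (pre cs k) true := fun h => hb ⟨⟨hS, h0⟩, ⟨hS, h⟩⟩
        have hx' : x = false := by
          cases x with
          | false => rfl
          | true => exact absurd hx hnt1
        subst hx'
        have hev : ¬ Ek cs k % 2 = 0 := by
          rw [← hE, ← Nat.even_iff]
          exact fun h => hnt1 (((hl cs _ hS).2 h0).2 h)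
        rw [sum_pre]
        refine sum_congr rfl fun c hc => ?_
        have hc' := mem_range.1 hc
        by_cases hk0 : k c = 0
        · rw [hk0]
          simp
        rw [if_neg hk0]
        rw [sum_eq_single (k c - 1)]
        · rw [erase_top hk0]
          have hEd := Ek_dec hc' hk0
          have okd := okA_pre hl hp (hkd c hc')
          have hsub := pre_subset (hkd c hc')
          by_cases hb' : k c = aa cs c + 1
          · rw [if_pos hb'] at hEd
            have hB : Bp cs (pre cs (dec k c)) = Bp cs (pre cs k) := by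
              rw [hBd c hc' hk0, hBS]
              omega
            rw [if_pos hb', if_pos ⟨⟨hsub, okd⟩, hB⟩, ih _ _ (hkd c hc') (hsd c hc' hk0) okd]
          · rw [if_neg hb'] at hEd
            rw [if_neg hb', if_neg hev, if_neg]
            rintro ⟨_, hB⟩
            rw [hBd c hc' hk0, hBS] at hB
            omega
        · intro i hi hne
          have hi' := mem_range.1 hi
          have hit : i + 1 < k c := by omega
          split_ifs with h
          · exact hnt c hc' i hit h.1 _ h.1.2
          · rfl
        · intro h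
          exact absurd (mem_range.2 (by omega)) h
  have hW : okA cs (pre cs (Kc cs)) false := okA_pre hl hp fun c _ => le_rfl
  have := main _ (Kc cs) false (fun c _ => le_rfl) rfl hW
  rw [← this, Ws_eq_pre, card_pre]
  rfl

end Pool.Agent.NH88.SR
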