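import Pool.Agent.NH88.SR.Stm1

/-!
# The letters and the crossings of the explicit word
-/

set_option autoImplicit false

namespace Pool.Agent.NH88.SR

namespace SW

/-! ### the word of a path -/

/-- The word `0 1 0 2 1 3 2 ... k (k - 1)`. -/
def Qw (k : ℕ) : List ℕ := 0 :: (List.range k).flatMap (fun i => [i + 1, i])

theorem Qw_zero : Qw 0 = [0] := rfl

theorem Qw_succ (k : ℕ) : Qw (k + 1) = Qw k ++ [k + 1, k] := by
  simp [Qw, List.range_succ]

theorem lw_eq (a b : ℕ) : lw a b = Qw a ++ (if b = 0 then [] else [a + 1]) := by
  simp [lw, Qw]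

theorem Qw_add (a b : ℕ) :
    Qw a ++ [a + 1, a] ++ (List.range b).flatMap (fun i => [a + i + 2, a + i + 1]) =
      Qw (a + b + 1) := by
  induction b with
  | zero => simp [Qw_succ]
  | succ b ih =>
    rw [List.range_succ, List.flatMap_append, ← List.append_assoc, ih]
    have h1 : a + (b + 1) + 1 = (a + b + 1) + 1 := by ring
    rw [h1, Qw_succ (a + b + 1)]
    simp

theorem path_eq (a b : ℕ) : lw a b ++ rw' a b = Qw (a + b) ++ [a + b] := by
  rcases b with _ | b
  · simp [lw_eq, rw']
  · have h1 := Qw_add a b
    have h2 : a + (b + 1) = a + b + 1 := by ring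
    rw [h2, ← h1, lw_eq, rw', if_neg (Nat.succ_ne_zero b), if_neg (Nat.succ_ne_zero b)]
    simp [h2]

/-- The filter of the word by two letters. -/
theorem Qw_filter {i j : ℕ} (hij : i < j) (k : ℕ) :
    (Qw k).filter (fun x => decide (x = i) || decide (x = j)) =
      if k < i then [] else if k = i then [i] else if k < j then [i, i] else if k = j then
        (if j = i + 1 then [i, j, i] else [i, i, j]) else
        (if j = i + 1 then [i, j, i, j] else [i, i, j, j]) := by
  induction k with
  | zero =>
    rw [Qw_zero]
    rcases Nat.eq_zero_or_pos i with h | h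
    · subst h
      simp
    · have h1 : (0 : ℕ) ≠ i := by omega
      have h2 : (0 : ℕ) ≠ j := by omega
      rw [if_pos h]
      simp [h1, h2]
  | succ k ih =>
    rw [Qw_succ, List.filter_append, ih]
    rcases lt_trichotomy (k + 1) i with h | h | h
    · have h1 : k < i := by omega
      rw [if_pos h1, if_pos h]
      simp only [List.filter_cons, List.filter_nil]
      have e1 : ¬ (k + 1 = i) := by omega
      have e2 : ¬ (k + 1 = j) := by omega
      have e3 : ¬ (k = i) := by omega
      have e4 : ¬ (k = j) := by omega
      simp [e1, e2, e3, e4]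
    · have h1 : k < i := by omega
      rw [if_pos h1, if_neg (by omega), if_pos h]
      simp only [List.filter_cons, List.filter_nil]
      have e3 : ¬ (k = i) := by omega
      have e4 : ¬ (k = j) := by omega
      simp [h, e3, e4]
    · have h1 : ¬ (k < i) := by omega
      rw [if_neg h1, if_neg (show ¬ (k + 1 < i) by omega), if_neg (show ¬ (k + 1 = i) by omega)]
      simp only [List.filter_cons, List.filter_nil]
      have e1 : ¬ (k + 1 = i) := by omega
      rcases eq_or_ne k i with h2 | h2
      · subst h2
        rw [if_pos rfl]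
        rcases lt_trichotomy (k + 1) j with h3 | h3 | h3
        · rw [if_pos h3]
          have e2 : ¬ (k + 1 = j) := by omega
          simp [e2]
        · subst h3
          simp
        · omega
      · rw [if_neg h2]
        rcases lt_trichotomy (k + 1) j with h3 | h3 | h3
        · rw [if_pos (show k < j by omega), if_pos h3]
          have e2 : ¬ (k + 1 = j) := by omega
          have e4 : ¬ (k = j) := by omega
          simp [e1, e2, h2, e4]
        · rw [if_pos (show k < j by omega), if_neg (show ¬ (k + 1 < j) by omega), if_pos h3,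
            if_neg (show ¬ (j = i + 1) by omega)]
          have e4 : ¬ (k = j) := by omega
          simp [h3, h2, e4]
        · rw [if_neg (show ¬ (k < j) by omega), if_neg (show ¬ (k + 1 < j) by omega),
            if_neg (show ¬ (k + 1 = j) by omega)]
          have e2 : ¬ (k + 1 = j) := by omega
          rcases eq_or_ne k j with h4 | h4
          · subst h4
            rw [if_pos rfl]
            by_cases h5 : k = i + 1
            · rw [if_pos h5, if_pos h5]
              simp [e1, h2]
            · rw [if_neg h5, if_neg h5]
              simp [e1, h2]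
          · rw [if_neg h4]
            simp [e1, e2, h2, h4]

theorem path_filter {i j : ℕ} (hij : i < j) {a b : ℕ} (hj : j < a + b + 1) :
    (lw a b ++ rw' a b).filter (fun x => decide (x = i) || decide (x = j)) =
      if j = i + 1 then [i, j, i, j] else [i, i, j, j] := by
  rw [path_eq, List.filter_append, Qw_filter hij, if_neg (by omega), if_neg (by omega),
    if_neg (by omega)]
  rcases eq_or_ne (a + b) j with h | h
  · rw [if_pos h]
    simp only [List.filter_cons, List.filter_nil]
    split_ifs <;> simp_all
  · rw [if_neg h]
    have h2 : ¬ (a + b = i) := by omega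
    simp [h, h2]

/-- The filter of the word by one letter. -/
theorem Qw_filter1 (i k : ℕ) : (Qw k).filter (fun x => decide (x = i)) =
    if k < i then [] else if k = i then [i] else [i, i] := by
  induction k with
  | zero =>
    rw [Qw_zero]
    rcases Nat.eq_zero_or_pos i with h | h
    · subst h
      simp
    · have h1 : (0 : ℕ) ≠ i := by omega
      rw [if_pos h]
      simp [h1]
  | succ k ih =>
    rw [Qw_succ, List.filter_append, ih]
    rcases lt_trichotomy (k + 1) i with h | h | h
    · have h1 : k < i := by omega
      rw [if_pos h1, if_pos h]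
      have e1 : ¬ (k + 1 = i) := by omega
      have e3 : ¬ (k = i) := by omega
      simp [e1, e3]
    · have h1 : k < i := by omega
      rw [if_pos h1, if_neg (by omega), if_pos h]
      have e3 : ¬ (k = i) := by omega
      simp [h, e3]
    · have h1 : ¬ (k < i) := by omega
      rw [if_neg h1, if_neg (show ¬ (k + 1 < i) by omega), if_neg (show ¬ (k + 1 = i) by omega)]
      have e1 : ¬ (k + 1 = i) := by omega
      rcases eq_or_ne k i with h2 | h2
      · subst h2
        simp
      · simp [e1, h2]

/-- The number of the letters `i` in the left part. -/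
def sn (a b i : ℕ) : ℕ := if i < a then 2 else if i = a then 1 else if i = a + 1 ∧ b ≠ 0 then 1
  else 0

theorem sn_le (a b i : ℕ) : sn a b i ≤ 2 := by
  unfold sn
  split_ifs <;> omega

theorem sn_one {a b i : ℕ} (hi : i < a + b + 1) : sn a b i = 1 ↔ i = a ∨ i = a + 1 := by
  unfold sn
  split_ifs with h1 h2 h3
  · simp; omega
  · simp [h2]
  · simp [h3.1]
  · simp
    omega

theorem lw_filter1 (a b i : ℕ) : (lw a b).filter (fun x => decide (x = i)) =
    List.replicate (sn a b i) i := by
  rw [lw_eq, List.filter_append, Qw_filter1]
  unfold sn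
  rcases lt_trichotomy i a with h | h | h
  · have h1 : ¬ (a + 1 = i) := by omega
    have h2 : ¬ (a < i) := by omega
    have h3 : ¬ (a = i) := by omega
    by_cases hb : b = 0 <;> simp [h, h1, h2, h3, hb, List.replicate]
  · subst h
    by_cases hb : b = 0 <;> simp [hb]
  · have h2 : ¬ (i < a) := by omega
    have h3 : ¬ (i = a) := by omega
    by_cases hb : b = 0
    · simp [h, h2, h3, hb]
    · by_cases h1 : i = a + 1
      · subst h1
        simp [hb]
      · have h4 : ¬ (a + 1 = i) := fun h => h1 h.symm
        simp [h, h1, h2, h3, h4, hb]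

theorem path_filter1 (a b i : ℕ) : (lw a b ++ rw' a b).filter (fun x => decide (x = i)) =
    List.replicate (if i < a + b + 1 then 2 else 0) i := by
  rw [path_eq, List.filter_append, Qw_filter1]
  rcases lt_trichotomy i (a + b) with h | h | h
  · rw [if_neg (by omega), if_neg (by omega), if_pos (by omega)]
    have h1 : ¬ (a + b = i) := by omega
    simp [h1, List.replicate]
  · rw [if_neg (by omega), if_pos h.symm, if_pos (by omega)]
    simp [h, List.replicate]
  · rw [if_pos h, if_neg (by omega)]
    have h1 : ¬ (a + b = i) := by omega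
    simp [h1]

theorem rw_filter1 (a b i : ℕ) : (rw' a b).filter (fun x => decide (x = i)) =
    List.replicate (if i < a + b + 1 then 2 - sn a b i else 0) i := by
  have h1 := path_filter1 a b i
  rw [List.filter_append, lw_filter1] at h1
  have h2 : (rw' a b).filter (fun x => decide (x = i)) =
      List.replicate ((rw' a b).filter (fun x => decide (x = i))).length i := by
    rw [List.eq_replicate_iff]
    refine ⟨rfl, fun x hx => ?_⟩
    simpa using (List.mem_filter.1 hx).2
  rw [h2]
  congr 1
  have h3 := congrArg List.length h1
  rw [List.length_append, List.length_replicate, List.length_replicate] at h3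
  split_ifs with h4
  · rw [if_pos h4] at h3
    omega
  · rw [if_neg h4] at h3
    omega

theorem rw_filter2 {cs : List (ℕ × ℕ)} {c j : ℕ} (hj : j < Kc cs c) :
    (rw' (aa cs c) (bb cs c)).filter (fun x => decide (x = j)) =
      List.replicate (2 - sn (aa cs c) (bb cs c) j) j := by
  unfold Kc at hj
  rw [rw_filter1, if_pos hj]

/-! ### concatenations -/

theorem fm_one {α : Type*} (g : ℕ → List α) (c n : ℕ) (h : ∀ d, d ≠ c → g d = []) :
    (List.range n).flatMap g = if c < n then g c else [] := by
  induction n with
  | zero => simp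
  | succ n ih =>
    rw [List.range_succ, List.flatMap_append, ih]
    rcases lt_trichotomy c n with h1 | h1 | h1
    · rw [if_pos h1, if_pos (by omega)]
      simp [h n (by omega)]
    · subst h1
      simp
    · rw [if_neg (by omega), if_neg (by omega)]
      simp [h n (by omega)]

theorem fm_one_rev {α : Type*} (g : ℕ → List α) (c n : ℕ) (h : ∀ d, d ≠ c → g d = []) :
    (List.range n).reverse.flatMap g = if c < n then g c else [] := by
  induction n with
  | zero => simp
  | succ n ih =>
    rw [List.range_succ, List.reverse_append, List.flatMap_append, ih]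
    rcases lt_trichotomy c n with h1 | h1 | h1
    · rw [if_pos h1, if_pos (by omega)]
      simp [h n (by omega)]
    · subst h1
      simp
    · rw [if_neg (by omega), if_neg (by omega)]
      simp [h n (by omega)]

theorem fm_two {α : Type*} (g : ℕ → List α) {c d : ℕ} (hcd : c < d) (n : ℕ)
    (h : ∀ e, e ≠ c → e ≠ d → g e = []) :
    (List.range n).flatMap g = (if c < n then g c else []) ++ (if d < n then g d else []) := by
  induction n with
  | zero => simp
  | succ n ih =>
    rw [List.range_succ, List.flatMap_append, ih]
    rcases lt_trichotomy c n with h1 | h1 | h1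
    · rw [if_pos h1, if_pos (show c < n + 1 by omega)]
      rcases lt_trichotomy d n with h2 | h2 | h2
      · rw [if_pos h2, if_pos (show d < n + 1 by omega)]
        simp [h n (by omega) (by omega)]
      · subst h2
        simp
      · rw [if_neg (show ¬ d < n by omega), if_neg (show ¬ d < n + 1 by omega)]
        simp [h n (by omega) (by omega)]
    · subst h1
      rw [if_neg (show ¬ d < c by omega), if_neg (show ¬ d < c + 1 by omega)]
      simp
    · rw [if_neg (show ¬ c < n by omega), if_neg (show ¬ c < n + 1 by omega),
        if_neg (show ¬ d < n by omega), if_neg (show ¬ d < n + 1 by omega)]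
      simp [h n (by omega) (by omega)]

theorem fm_two_rev {α : Type*} (g : ℕ → List α) {c d : ℕ} (hcd : c < d) (n : ℕ)
    (h : ∀ e, e ≠ c → e ≠ d → g e = []) :
    (List.range n).reverse.flatMap g =
      (if d < n then g d else []) ++ (if c < n then g c else []) := by
  induction n with
  | zero => simp
  | succ n ih =>
    rw [List.range_succ, List.reverse_append, List.flatMap_append, ih]
    rcases lt_trichotomy c n with h1 | h1 | h1
    · rw [if_pos h1, if_pos (show c < n + 1 by omega)]
      rcases lt_trichotomy d n with h2 | h2 | h2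
      · rw [if_pos h2, if_pos (show d < n + 1 by omega)]
        simp [h n (by omega) (by omega)]
      · subst h2
        simp
      · rw [if_neg (show ¬ d < n by omega), if_neg (show ¬ d < n + 1 by omega)]
        simp [h n (by omega) (by omega)]
    · subst h1
      rw [if_neg (show ¬ d < c by omega), if_neg (show ¬ d < c + 1 by omega)]
      simp
    · rw [if_neg (show ¬ c < n by omega), if_neg (show ¬ c < n + 1 by omega),
        if_neg (show ¬ d < n by omega), if_neg (show ¬ d < n + 1 by omega)]
      simp [h n (by omega) (by omega)]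

/-- The filter of the whole word. -/
theorem word_filter (cs : List (ℕ × ℕ)) (m : ℕ) (P : Lt → Bool) :
    (word cs m).filter P =
      (List.range cs.length).flatMap (fun c => ((lw (aa cs c) (bb cs c)).filter
        (fun i => P (c + 1, i))).map (fun i => (c + 1, i))) ++
      (((List.range m).filter (fun i => P (0, i))).map (fun i => (0, i)) ++
      ((List.range cs.length).reverse.flatMap (fun c => ((rw' (aa cs c) (bb cs c)).filter
        (fun i => P (c + 1, i))).map (fun i => (c + 1, i))) ++
      ((List.range m).reverse.filter (fun i => P (0, i))).map (fun i => (0, i)))) := by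
  unfold word
  simp only [List.filter_append, List.filter_flatMap, List.filter_map]
  rfl

theorem range_filter1 (m i : ℕ) : (List.range m).filter (fun x => decide (x = i)) =
    if i < m then [i] else [] := by
  induction m with
  | zero => simp
  | succ m ih =>
    rw [List.range_succ, List.filter_append, ih]
    rcases lt_trichotomy i m with h | h | h
    · rw [if_pos h, if_pos (by omega)]
      have : ¬ (m = i) := by omega
      simp [this]
    · subst h
      simp
    · rw [if_neg (by omega), if_neg (by omega)]
      have : ¬ (m = i) := by omega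
      simp [this]

theorem range_filter2 {i j : ℕ} (hij : i < j) (m : ℕ) :
    (List.range m).filter (fun x => decide (x = i) || decide (x = j)) =
      (if i < m then [i] else []) ++ (if j < m then [j] else []) := by
  induction m with
  | zero => simp
  | succ m ih =>
    rw [List.range_succ, List.filter_append, ih]
    rcases lt_trichotomy i m with h | h | h
    · rw [if_pos h, if_pos (show i < m + 1 by omega)]
      have h1 : ¬ (m = i) := by omega
      rcases lt_trichotomy j m with h2 | h2 | h2
      · rw [if_pos h2, if_pos (show j < m + 1 by omega)]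
        have h3 : ¬ (m = j) := by omega
        simp [h1, h3]
      · subst h2
        simp
      · rw [if_neg (show ¬ j < m by omega), if_neg (show ¬ j < m + 1 by omega)]
        have h3 : ¬ (m = j) := by omega
        simp [h1, h3]
    · subst h
      rw [if_neg (show ¬ j < i by omega), if_neg (show ¬ j < i + 1 by omega)]
      simp
    · rw [if_neg (show ¬ i < m by omega), if_neg (show ¬ i < m + 1 by omega),
        if_neg (show ¬ j < m by omega), if_neg (show ¬ j < m + 1 by omega)]
      have h1 : ¬ (m = i) := by omega
      have h2 : ¬ (m = j) := by omega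
      simp [h1, h2]

theorem filter_reverse' {α : Type*} (l : List α) (P : α → Bool) :
    l.reverse.filter P = (l.filter P).reverse := List.filter_reverse

/-! ### the crossings -/

theorem crs_symm (w : List Lt) (x y : Lt) : crs w x y = crs w y x := by
  unfold crs
  have h1 : (fun z : Lt => decide (z = x) || decide (z = y)) =
      fun z : Lt => decide (z = y) || decide (z = x) := by
    funext z
    exact Bool.or_comm _ _
  rw [h1, Bool.or_comm]

section main

variable (cs : List (ℕ × ℕ)) (m : ℕ)

theorem filt_X {i : ℕ} (hi : i < m) :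
    (word cs m).filter (fun z => decide (z = ((0, i) : Lt))) = [(0, i), (0, i)] := by
  rw [word_filter]
  have h1 : (List.range cs.length).flatMap (fun c => ((lw (aa cs c) (bb cs c)).filter
        (fun k => decide (((c + 1, k) : Lt) = (0, i)))).map (fun k => ((c + 1, k) : Lt))) = [] := by
    rw [List.flatMap_eq_nil_iff]
    intro c _
    simp
  have h2 : (List.range cs.length).reverse.flatMap (fun c => ((rw' (aa cs c) (bb cs c)).filter
        (fun k => decide (((c + 1, k) : Lt) = (0, i)))).map (fun k => ((c + 1, k) : Lt))) = [] := by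
    rw [List.flatMap_eq_nil_iff]
    intro c _
    simp
  have h3 : (fun k : ℕ => decide (((0, k) : Lt) = (0, i))) = fun k => decide (k = i) := by
    funext k
    simp
  rw [h1, h2, h3, filter_reverse', range_filter1, if_pos hi]
  rfl

theorem filt_path {c j : ℕ} (hc : c < cs.length) (hj : j < Kc cs c) :
    (word cs m).filter (fun z => decide (z = ((c + 1, j) : Lt))) =
      List.replicate 2 ((c + 1, j) : Lt) := by
  rw [word_filter]
  have h3 : (fun k : ℕ => decide (((0, k) : Lt) = (c + 1, j))) = fun _ => false := by
    funext k
    simp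
  have h4 : ∀ d, d ≠ c → ∀ l : List ℕ, (l.filter
      (fun k => decide (((d + 1, k) : Lt) = (c + 1, j)))).map (fun k => ((d + 1, k) : Lt)) = [] := by
    intro d hd l
    simp [hd]
  have h5 : (fun k : ℕ => decide (((c + 1, k) : Lt) = (c + 1, j))) = fun k => decide (k = j) := by
    funext k
    simp
  rw [fm_one _ c _ fun d hd => h4 d hd _, fm_one_rev _ c _ fun d hd => h4 d hd _, if_pos hc,
    if_pos hc, h3, h5, lw_filter1, rw_filter2 hj]
  have h6 := sn_le (aa cs c) (bb cs c) j
  simp only [List.filter_false, List.map_nil, List.nil_append, List.append_nil, List.map_replicate]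
  rw [← List.replicate_add]
  congr 1
  omega

theorem filt_none {x : Lt} (hx : ¬ IsLt cs m x) :
    (word cs m).filter (fun z => decide (z = x)) = [] := by
  obtain ⟨x1, x2⟩ := x
  rw [word_filter]
  unfold IsLt at hx
  push Not at hx
  obtain ⟨hx1, hx2⟩ := hx
  dsimp only at hx1 hx2
  rcases x1 with _ | c
  · have h1 : ∀ c, ∀ l : List ℕ, (l.filter
      (fun k => decide (((c + 1, k) : Lt) = (0, x2)))).map (fun k => ((c + 1, k) : Lt)) = [] := by
      intro c l
      simp
    have h2 : ∀ l : List ℕ, l.flatMap (fun c => ((lw (aa cs c) (bb cs c)).filter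
        (fun k => decide (((c + 1, k) : Lt) = (0, x2)))).map (fun k => ((c + 1, k) : Lt))) = [] := by
      intro l
      rw [List.flatMap_eq_nil_iff]
      exact fun c _ => h1 c _
    have h2' : ∀ l : List ℕ, l.flatMap (fun c => ((rw' (aa cs c) (bb cs c)).filter
        (fun k => decide (((c + 1, k) : Lt) = (0, x2)))).map (fun k => ((c + 1, k) : Lt))) = [] := by
      intro l
      rw [List.flatMap_eq_nil_iff]
      exact fun c _ => h1 c _
    have h3 : (fun k : ℕ => decide (((0, k) : Lt) = (0, x2))) = fun k => decide (k = x2) := by
      funext k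
      simp
    have h4 : ¬ x2 < m := not_lt.2 (hx1 rfl)
    rw [h2, h2', h3, filter_reverse', range_filter1, if_neg h4]
    rfl
  · have h3 : (fun k : ℕ => decide (((0, k) : Lt) = (c + 1, x2))) = fun _ => false := by
      funext k
      simp
    have h4 : ∀ d, d ≠ c → ∀ l : List ℕ, (l.filter
        (fun k => decide (((d + 1, k) : Lt) = (c + 1, x2)))).map (fun k => ((d + 1, k) : Lt)) =
          [] := by
      intro d hd l
      simp [hd]
    have h5 : (fun k : ℕ => decide (((c + 1, k) : Lt) = (c + 1, x2))) =
        fun k => decide (k = x2) := by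
      funext k
      simp
    rw [fm_one _ c _ fun d hd => h4 d hd _, fm_one_rev _ c _ fun d hd => h4 d hd _]
    by_cases hc : c < cs.length
    · have h6 := hx2 c hc rfl
      have h7 := path_filter1 (aa cs c) (bb cs c) x2
      rw [if_neg (show ¬ x2 < aa cs c + bb cs c + 1 by unfold Kc at h6; omega),
        List.filter_append] at h7
      obtain ⟨h8, h9⟩ := List.append_eq_nil_iff.1 h7
      rw [if_pos hc, if_pos hc, h3, h5, h8, h9]
      simp
    · rw [if_neg hc, if_neg hc, h3]
      simp

theorem count_word (x : Lt) : (word cs m).count x =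
    ((word cs m).filter (fun z => decide (z = x))).length := by
  rw [List.count_eq_countP, List.countP_eq_length_filter]
  congr 1
  refine List.filter_congr fun z _ => ?_
  rw [Bool.eq_iff_iff]
  simp

theorem crs_XX {i j : ℕ} (hij : i < j) (hj : j < m) : crs (word cs m) (0, i) (0, j) = false := by
  unfold crs
  rw [word_filter]
  have h1 : ∀ c, ∀ l : List ℕ, (l.filter
      (fun k => decide (((c + 1, k) : Lt) = (0, i)) || decide (((c + 1, k) : Lt) = (0, j)))).map
        (fun k => ((c + 1, k) : Lt)) = [] := by
    intro c l
    simp
  have h2 : ∀ l : List ℕ, l.flatMap (fun c => ((lw (aa cs c) (bb cs c)).filter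
      (fun k => decide (((c + 1, k) : Lt) = (0, i)) || decide (((c + 1, k) : Lt) = (0, j)))).map
        (fun k => ((c + 1, k) : Lt))) = [] := by
    intro l
    rw [List.flatMap_eq_nil_iff]
    exact fun c _ => h1 c _
  have h2' : ∀ l : List ℕ, l.flatMap (fun c => ((rw' (aa cs c) (bb cs c)).filter
      (fun k => decide (((c + 1, k) : Lt) = (0, i)) || decide (((c + 1, k) : Lt) = (0, j)))).map
        (fun k => ((c + 1, k) : Lt))) = [] := by
    intro l
    rw [List.flatMap_eq_nil_iff]
    exact fun c _ => h1 c _
  have h3 : (fun k : ℕ => decide (((0, k) : Lt) = (0, i)) || decide (((0, k) : Lt) = (0, j))) =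
      fun k => decide (k = i) || decide (k = j) := by
    funext k
    simp
  rw [h2, h2', h3, filter_reverse', range_filter2 hij, if_pos (by omega), if_pos hj]
  have h4 : i ≠ j := by omega
  simp [h4, h4.symm]

theorem crs_Xp {i c j : ℕ} (hi : i < m) (hc : c < cs.length) (hj : j < Kc cs c) :
    crs (word cs m) (0, i) (c + 1, j) = decide (j = aa cs c ∨ j = aa cs c + 1) := by
  unfold crs
  rw [word_filter]
  have h3 : (fun k : ℕ => decide (((0, k) : Lt) = (0, i)) || decide (((0, k) : Lt) = (c + 1, j))) =
      fun k => decide (k = i) := by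
    funext k
    simp
  have h4 : ∀ d, d ≠ c → ∀ l : List ℕ, (l.filter
      (fun k => decide (((d + 1, k) : Lt) = (0, i)) || decide (((d + 1, k) : Lt) = (c + 1, j)))).map
        (fun k => ((d + 1, k) : Lt)) = [] := by
    intro d hd l
    simp [hd]
  have h5 : (fun k : ℕ => decide (((c + 1, k) : Lt) = (0, i)) ||
      decide (((c + 1, k) : Lt) = (c + 1, j))) = fun k => decide (k = j) := by
    funext k
    simp
  rw [fm_one _ c _ fun d hd => h4 d hd _, fm_one_rev _ c _ fun d hd => h4 d hd _, if_pos hc,
    if_pos hc, h3, h5, lw_filter1, rw_filter2 hj, filter_reverse', range_filter1,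
    if_pos hi]
  have h6 := sn_le (aa cs c) (bb cs c) j
  have h7 := sn_one (i := j) (a := aa cs c) (b := bb cs c) hj
  obtain ⟨s, hs⟩ : ∃ s, s = sn (aa cs c) (bb cs c) j := ⟨_, rfl⟩
  rw [← hs] at h6 h7 ⊢
  rw [Bool.eq_iff_iff, decide_eq_true_iff, ← h7]
  have h8 : s = 0 ∨ s = 1 ∨ s = 2 := by omega
  rcases h8 with h8 | h8 | h8
  · rw [h8]
    simp [List.replicate]
  · rw [h8]
    simp [List.replicate]
  · rw [h8]
    simp [List.replicate]

theorem crs_pp {c i j : ℕ} (hc : c < cs.length) (hij : i < j) (hj : j < Kc cs c) :
    crs (word cs m) (c + 1, i) (c + 1, j) = decide (j = i + 1) := by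
  unfold crs
  rw [word_filter]
  have h3 : (fun k : ℕ => decide (((0, k) : Lt) = (c + 1, i)) ||
      decide (((0, k) : Lt) = (c + 1, j))) = fun _ => false := by
    funext k
    simp
  have h4 : ∀ d, d ≠ c → ∀ l : List ℕ, (l.filter
      (fun k => decide (((d + 1, k) : Lt) = (c + 1, i)) ||
        decide (((d + 1, k) : Lt) = (c + 1, j)))).map (fun k => ((d + 1, k) : Lt)) = [] := by
    intro d hd l
    simp [hd]
  have h5 : (fun k : ℕ => decide (((c + 1, k) : Lt) = (c + 1, i)) ||
      decide (((c + 1, k) : Lt) = (c + 1, j))) = fun k => decide (k = i) || decide (k = j) := by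
    funext k
    simp
  rw [fm_one _ c _ fun d hd => h4 d hd _, fm_one_rev _ c _ fun d hd => h4 d hd _, if_pos hc,
    if_pos hc, h3, h5]
  simp only [List.filter_false, List.map_nil, List.nil_append, List.append_nil]
  rw [← List.map_append, ← List.filter_append, path_filter hij hj]
  have h6 : i ≠ j := by omega
  by_cases h7 : j = i + 1
  · rw [if_pos h7, decide_eq_true h7]
    simp
  · rw [if_neg h7, decide_eq_false h7]
    simp [h6, h6.symm]

theorem crs_dd {c d i j : ℕ} (hc : c < cs.length) (hd : d < cs.length) (hcd : c < d)
    (hi : i < Kc cs c) (hj : j < Kc cs d) :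
    crs (word cs m) (c + 1, i) (d + 1, j) = false := by
  unfold crs
  rw [word_filter]
  have h3 : (fun k : ℕ => decide (((0, k) : Lt) = (c + 1, i)) ||
      decide (((0, k) : Lt) = (d + 1, j))) = fun _ => false := by
    funext k
    simp
  have h4 : ∀ e, e ≠ c → e ≠ d → ∀ l : List ℕ, (l.filter
      (fun k => decide (((e + 1, k) : Lt) = (c + 1, i)) ||
        decide (((e + 1, k) : Lt) = (d + 1, j)))).map (fun k => ((e + 1, k) : Lt)) = [] := by
    intro e he he' l
    simp [he, he']
  have h5 : (fun k : ℕ => decide (((c + 1, k) : Lt) = (c + 1, i)) ||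
      decide (((c + 1, k) : Lt) = (d + 1, j))) = fun k => decide (k = i) := by
    funext k
    have : ¬ c = d := by omega
    simp [this]
  have h6 : (fun k : ℕ => decide (((d + 1, k) : Lt) = (c + 1, i)) ||
      decide (((d + 1, k) : Lt) = (d + 1, j))) = fun k => decide (k = j) := by
    funext k
    have : ¬ d = c := by omega
    simp [this]
  rw [fm_two _ hcd _ fun e he he' => h4 e he he' _,
    fm_two_rev _ hcd _ fun e he he' => h4 e he he' _, if_pos hc, if_pos hd, if_pos hc, if_pos hd,
    h3, h5, h6, lw_filter1, lw_filter1, rw_filter2 hj, rw_filter2 hi]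
  have s1 := sn_le (aa cs c) (bb cs c) i
  have s2 := sn_le (aa cs d) (bb cs d) j
  obtain ⟨s, hs⟩ : ∃ s, s = sn (aa cs c) (bb cs c) i := ⟨_, rfl⟩
  obtain ⟨t, ht⟩ : ∃ t, t = sn (aa cs d) (bb cs d) j := ⟨_, rfl⟩
  rw [← hs, ← ht]
  rw [← hs] at s1
  rw [← ht] at s2
  have h7 : ¬ c = d := by omega
  have h7' : ¬ d = c := by omega
  have h8 : s = 0 ∨ s = 1 ∨ s = 2 := by omega
  have h9 : t = 0 ∨ t = 1 ∨ t = 2 := by omega
  rcases h8 with h8 | h8 | h8 <;> rcases h9 with h9 | h9 | h9 <;> rw [h8, h9] <;>
    simp [List.replicate, h7, h7']

end main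

end SW

open SW in
/-- **A3.** The word of `cs` and `m`. -/
theorem s_word : S_word := by
  intro cs m
  have hcount : ∀ x, IsLt cs m x → (word cs m).count x = 2 := by
    rintro ⟨x1, x2⟩ hx
    rw [count_word]
    rcases hx with ⟨h1, h2⟩ | ⟨c, hc, h1, h2⟩
    · dsimp only at h1 h2
      subst h1
      rw [filt_X cs m h2]
      rfl
    · dsimp only at h1 h2
      subst h1
      rw [filt_path cs m hc h2]
      rfl
  have hmem : ∀ x, x ∈ word cs m ↔ IsLt cs m x := by
    intro x
    constructor
    · intro hx
      by_contra hcon
      have h1 := filt_none cs m hcon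
      rw [List.filter_eq_nil_iff] at h1
      exact h1 x hx (by simp)
    · intro hx
      have h1 := hcount x hx
      exact List.count_pos_iff.1 (by omega)
  refine ⟨hmem, fun x hx => hcount x ((hmem x).1 hx), ?_, ?_, ?_, ?_⟩
  · intro i j hi hj hij
    rcases lt_or_gt_of_ne hij with h | h
    · exact crs_XX cs m h hj
    · rw [crs_symm]
      exact crs_XX cs m h hi
  · intro i c j hi hc hj
    refine ⟨crs_Xp cs m hi hc hj, ?_⟩
    rw [crs_symm]
    exact crs_Xp cs m hi hc hj
  · intro c i j hc hi hj hij
    rcases lt_or_gt_of_ne hij with h | h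
    · rw [crs_pp cs m hc h hj]
      congr 1
      rw [eq_iff_iff]
      omega
    · rw [crs_symm, crs_pp cs m hc h hi]
      congr 1
      rw [eq_iff_iff]
      omega
  · intro c d i j hc hd hcd hi hj
    rcases lt_or_gt_of_ne hcd with h | h
    · exact crs_dd cs m hc hd h hi hj
    · rw [crs_symm]
      exact crs_dd cs m hd hc h hj hi

end Pool.Agent.NH88.SR
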