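import Pool.Agent.NH88.SR.Stm1

/-!
# Side C: Wt
-/

set_option autoImplicit false

namespace Pool.Agent.NH88.SR

open Finset

namespace WT

/-- the integer weights -/
def ww (T q : ℕ) : ℕ → ℕ → ℤ
  | 0, A => ((T * q / (A + 1) : ℕ) : ℤ)
  | B + 1, A => ww T q B A - ww T q B (A + 1)

theorem th_coprime {p : ℕ} (hp : p.Prime) (q : ℕ) : (th p q).Coprime p := by
  unfold th
  generalize hl : (List.range (2 * q)).filter (fun m => decide (m % p ≠ 0)) = l
  have h : ∀ m ∈ l, m.Coprime p := by
    intro m hm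
    rw [← hl, List.mem_filter] at hm
    have h1 : m % p ≠ 0 := by simpa using hm.2
    exact ((Nat.Prime.coprime_iff_not_dvd hp).mpr
      (fun h => h1 (Nat.mod_eq_zero_of_dvd h))).symm
  clear hl
  induction l with
  | nil => simp
  | cons a l ih =>
    rw [List.prod_cons]
    exact Nat.Coprime.mul_left (h a (by simp)) (ih (fun m hm => h m (by simp [hm])))

theorem dvd_th {p : ℕ} (q m : ℕ) (h1 : m < 2 * q) (h2 : ¬ p ∣ m) : m ∣ th p q := by
  unfold th
  apply List.dvd_prod
  rw [List.mem_filter]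
  refine ⟨List.mem_range.mpr h1, ?_⟩
  simp only [ne_eq, decide_not, Bool.not_eq_eq_eq_not, Bool.not_true, decide_eq_false_iff_not]
  exact fun h => h2 (Nat.dvd_of_mod_eq_zero h)

theorem key {p L : ℕ} (hp : p.Prime) (_hL : 1 ≤ L) (m : ℕ) (h1 : 1 ≤ m)
    (h2 : m < 2 * p ^ L) :
    ∃ k, m * k = th p (p ^ L) * p ^ L ∧
      ((k : ℕ) : ZMod p) = if m = p ^ L then ((th p (p ^ L) : ℕ) : ZMod p) else 0 := by
  obtain ⟨v, m', hm', rfl⟩ := Nat.exists_eq_pow_mul_and_not_dvd (n := m) (by omega) p hp.ne_one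
  have hm0 : 0 < m' := Nat.pos_of_ne_zero (fun h => hm' (by simp [h]))
  have hpv : 0 < p ^ v := pow_pos hp.pos _
  have h3 : p ^ v < p ^ (L + 1) := by
    calc p ^ v ≤ p ^ v * m' := Nat.le_mul_of_pos_right _ hm0
      _ < 2 * p ^ L := h2
      _ ≤ p * p ^ L := Nat.mul_le_mul_right _ hp.two_le
      _ = p ^ (L + 1) := by ring
  have hv : v ≤ L := by
    have := (Nat.pow_lt_pow_iff_right hp.one_lt).mp h3
    omega
  obtain ⟨t, ht⟩ := dvd_th (p := p) (p ^ L) m'
    (lt_of_le_of_lt (Nat.le_mul_of_pos_left _ hpv) h2) hm'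
  refine ⟨p ^ (L - v) * t, ?_, ?_⟩
  · rw [ht]
    have h4 : p ^ L = p ^ v * p ^ (L - v) := by rw [← pow_add]; congr 1; omega
    rw [h4]
    ring
  · split_ifs with h
    · have h5 : m' ∣ p ^ L := ⟨p ^ v, by rw [← h]; ring⟩
      have h6 : m' = 1 := by
        have h7 : Nat.Coprime m' (p ^ L) :=
          Nat.Coprime.pow_right _ ((Nat.Prime.coprime_iff_not_dvd hp).mpr hm').symm
        exact Nat.eq_one_of_dvd_one (by
          have := Nat.dvd_gcd (dvd_refl m') h5
          rwa [h7] at this)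
      subst h6
      have h8 : v = L := by
        rw [mul_one] at h
        exact Nat.pow_right_injective hp.two_le h
      subst h8
      rw [Nat.sub_self, pow_zero, one_mul, ht, one_mul]
    · have h5 : v ≠ L := by
        rintro rfl
        have h6 : m' < 2 := by
          by_contra h7
          push Not at h7
          have := Nat.mul_le_mul_left (p ^ v) h7
          omega
        apply h
        have h7 : m' = 1 := by omega
        rw [h7, mul_one]
      have h6 : p ∣ p ^ (L - v) * t := Dvd.dvd.mul_right (dvd_pow_self _ (by omega)) _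
      exact (ZMod.natCast_eq_zero_iff _ _).mpr h6

theorem beta_zero (A : ℕ) : beta A 0 = 1 / ((A : ℚ) + 1) := by
  unfold beta
  rw [Nat.factorial_zero, add_zero, Nat.factorial_succ]
  have h1 : (A.factorial : ℚ) ≠ 0 := by exact_mod_cast A.factorial_ne_zero
  have h2 : ((A : ℚ) + 1) ≠ 0 := by positivity
  push_cast
  field_simp

theorem beta_succ (A B : ℕ) : beta A (B + 1) = beta A B - beta (A + 1) B := by
  unfold beta
  have e1 : A + (B + 1) + 1 = (A + B + 1) + 1 := by ring
  have e2 : A + 1 + B + 1 = (A + B + 1) + 1 := by ring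
  rw [e1, e2, Nat.factorial_succ (A + B + 1), Nat.factorial_succ A, Nat.factorial_succ B]
  have h1 : ((A + B + 1).factorial : ℚ) ≠ 0 := by
    exact_mod_cast (A + B + 1).factorial_ne_zero
  have h2 : ((A : ℚ) + B + 1 + 1) ≠ 0 := by positivity
  push_cast
  field_simp
  ring

theorem main {p L : ℕ} (hp : p.Prime) (hL : 1 ≤ L) (B : ℕ) : ∀ A, A + B + 1 < 2 * p ^ L →
    (ww (th p (p ^ L)) (p ^ L) B A : ℚ) = (th p (p ^ L) : ℚ) * (p : ℚ) ^ L * beta A B ∧
    ((ww (th p (p ^ L)) (p ^ L) B A : ℤ) : ZMod p) = (th p (p ^ L) : ZMod p) *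
      (if A < p ^ L then (-1) ^ (p ^ L - 1 - A) * (B.choose (p ^ L - 1 - A) : ZMod p) else 0) := by
  induction B with
  | zero =>
    intro A hA
    obtain ⟨k, hk1, hk2⟩ := key hp hL (A + 1) (by omega) (by omega)
    have h1 : th p (p ^ L) * p ^ L / (A + 1) = k := by
      rw [← hk1]
      exact Nat.mul_div_cancel_left _ (by omega)
    have h2 : ww (th p (p ^ L)) (p ^ L) 0 A = (k : ℤ) := by
      rw [ww, h1]
    rw [h2]
    constructor
    · rw [beta_zero]
      have h3 : ((A + 1 : ℕ) : ℚ) * (k : ℚ) = (th p (p ^ L) : ℚ) * (p : ℚ) ^ L := by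
        exact_mod_cast hk1
      rw [← h3]
      have h4 : ((A : ℚ) + 1) ≠ 0 := by positivity
      push_cast
      field_simp
    · rw [Int.cast_natCast, hk2]
      split_ifs with h3 h4 h4
      · have h5 : p ^ L - 1 - A = 0 := by omega
        rw [h5]
        simp
      · omega
      · have h5 : 0 < p ^ L - 1 - A := by omega
        rw [Nat.choose_eq_zero_of_lt h5]
        simp
      · simp
  | succ B ih =>
    intro A hA
    obtain ⟨h1, h2⟩ := ih A (by omega)
    obtain ⟨h3, h4⟩ := ih (A + 1) (by omega)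
    constructor
    · rw [ww]
      push_cast
      rw [h1, h3, beta_succ]
      ring
    · rw [ww, Int.cast_sub, h2, h4]
      by_cases hA1 : A + 1 < p ^ L
      · rw [if_pos (show A < p ^ L by omega), if_pos hA1, if_pos (show A < p ^ L by omega)]
        obtain ⟨c, hc⟩ : ∃ c, p ^ L - 1 - A = c + 1 := ⟨p ^ L - 1 - A - 1, by omega⟩
        have hc' : p ^ L - 1 - (A + 1) = c := by omega
        rw [hc, hc', Nat.choose_succ_succ]
        push_cast
        ring
      · by_cases hA2 : A < p ^ L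
        · rw [if_pos hA2, if_neg hA1, if_pos hA2]
          have h5 : p ^ L - 1 - A = 0 := by omega
          rw [h5]
          simp
        · rw [if_neg hA2, if_neg hA1, if_neg hA2]
          simp

end WT

theorem s_wt : S_wt := by
  intro p L hp hL
  exact ⟨WT.th_coprime hp _, fun A B => WT.ww (th p (p ^ L)) (p ^ L) B A,
    fun A B h => WT.main hp hL B A h⟩

end Pool.Agent.NH88.SR
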