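import Pool.Agent.NH88.SR.Abs
import Pool.Agent.NH88.SR.AsmA
import Pool.Agent.NH88.SR.AsmB
import Pool.Agent.NH88.SR.AsmC
import Pool.Agent.NH88.SR.AsmD
import Pool.Agent.NH88.SR.Chn
import Pool.Agent.NH88.SR.Cross
import Pool.Agent.NH88.SR.Cu
import Pool.Agent.NH88.SR.Dig
import Pool.Agent.NH88.SR.Haf
import Pool.Agent.NH88.SR.Hp
import Pool.Agent.NH88.SR.Lead
import Pool.Agent.NH88.SR.Lin
import Pool.Agent.NH88.SR.Ns
import Pool.Agent.NH88.SR.Perm
import Pool.Agent.NH88.SR.Pos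
import Pool.Agent.NH88.SR.Pre
import Pool.Agent.NH88.SR.Primes
import Pool.Agent.NH88.SR.QPoly
import Pool.Agent.NH88.SR.Red
import Pool.Agent.NH88.SR.Typ
import Pool.Agent.NH88.SR.Ub
import Pool.Agent.NH88.SR.VPoly
import Pool.Agent.NH88.SR.Val
import Pool.Agent.NH88.SR.Vec
import Pool.Agent.NH88.SR.Word
import Pool.Agent.NH88.SR.Wt

/-!
# Counting optimal reversal sequences is #P-hard: the assembly
-/

namespace Pool.Agent.NH88.SR

open Finset Pool.Agent.TH700 Pool.Agent.H549R2.Convex Pool.Agent.H549R2.PM Pool.Agent.NPC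
  Pool.Agent.NPC.Cnt Pool.Agent.NPC.H549PM

theorem h_A : Stm_A := s_A s_perm s_cross s_word (s_ns s_cross s_word) s_chn s_cu
  (s_pos s_lin s_pre)

theorem h_B : Stm_B := s_B (s_lead s_type s_lin s_pre) (s_vec s_lin s_pre) s_haf

theorem h_C : Stm_C := s_C h_B s_wt s_hp s_hs s_dig s_abs

theorem h_val : S_val := s_val h_A h_C s_primes s_crt s_abs

/-- Counting optimal sorting sequences of reversals is #P-hard. -/
theorem main : SharpPHard (strFn numOpt) := s_main h_val s_qpoly s_vpoly s_red s_ub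

end Pool.Agent.NH88.SR

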