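import Pool.Agent.NH88.SR.Defs1
import Pool.Agent.TH700.Poly2
import Pool.Agent.H527R2.SharpP

/-!
# Sorting sequences are recognised in polynomial time
-/

namespace Pool.Agent.NH88.SR

open Pool.Agent.TH700 Pool.Agent.NPC Pool.Agent.NPC.Cnt

/-- One step: apply the reversal if it is legal, otherwise fail. -/
def stp (s : List ℤ × Bool) (r : ℕ × ℕ) : List ℤ × Bool :=
  if 1 ≤ r.1 ∧ (r.1 ≤ r.2 ∧ r.2 ≤ s.1.length) then (reversal s.1 r, s.2) else (s.1, false)

/-- Is `rs` a sorting sequence of `l`? -/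
def sortsB (l : List ℤ) (rs : List (ℕ × ℕ)) : Bool :=
  (rs.foldl stp (l, true)).2 && decide ((rs.foldl stp (l, true)).1 = idPerm l.length)

theorem foldl_stp : ∀ (rs : List (ℕ × ℕ)) (l : List ℤ) (b : Bool),
    ((rs.foldl stp (l, b)).2 = true ↔ b = true ∧ ∀ r ∈ rs, Legal l.length r) ∧
    ((∀ r ∈ rs, Legal l.length r) → (rs.foldl stp (l, b)).1 = rs.foldl reversal l)
  | [], l, b => by simp
  | r :: rs, l, b => by
    rw [List.foldl_cons]
    by_cases hr : Legal l.length r
    · have e : stp (l, b) r = (reversal l r, b) := if_pos ⟨hr.1, hr.2.1, hr.2.2⟩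
      obtain ⟨h1, h2⟩ := foldl_stp rs (reversal l r) b
      rw [reversal_length hr] at h1 h2
      rw [e]
      constructor
      · rw [h1]
        constructor
        · rintro ⟨h3, h4⟩
          refine ⟨h3, fun r' hr' => ?_⟩
          rcases List.mem_cons.1 hr' with rfl | hr'
          · exact hr
          · exact h4 r' hr'
        · rintro ⟨h3, h4⟩
          exact ⟨h3, fun r' hr' => h4 r' (List.mem_cons_of_mem _ hr')⟩
      · intro h3
        rw [List.foldl_cons]
        exact h2 fun r' hr' => h3 r' (List.mem_cons_of_mem _ hr')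
    · have e : stp (l, b) r = (l, false) := if_neg fun h => hr ⟨h.1, h.2.1, h.2.2⟩
      obtain ⟨h1, h2⟩ := foldl_stp rs l false
      rw [e]
      constructor
      · rw [h1]
        constructor
        · rintro ⟨h3, _⟩
          exact absurd h3 (by simp)
        · rintro ⟨_, h4⟩
          exact absurd (h4 r (List.mem_cons_self ..)) hr
      · intro h3
        exact absurd (h3 r (List.mem_cons_self ..)) hr

theorem sortsB_iff (l : List ℤ) (rs : List (ℕ × ℕ)) : sortsB l rs = true ↔ Sorts l rs := by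
  obtain ⟨h1, h2⟩ := foldl_stp rs l true
  unfold sortsB Sorts
  rw [Bool.and_eq_true, h1, decide_eq_true_eq]
  constructor
  · rintro ⟨⟨_, h3⟩, h4⟩
    rw [h2 h3] at h4
    exact ⟨h3, h4⟩
  · rintro ⟨h3, h4⟩
    rw [h2 h3]
    exact ⟨⟨rfl, h3⟩, h4⟩

theorem stp_inv : ∀ (rs : List (ℕ × ℕ)) (s : List ℤ × Bool),
    (rs.foldl stp s).1.length = s.1.length ∧
      ∀ x ∈ (rs.foldl stp s).1, ∃ y ∈ s.1, x.natAbs = y.natAbs
  | [], s => ⟨rfl, fun x hx => ⟨x, hx, rfl⟩⟩
  | r :: rs, s => by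
    rw [List.foldl_cons]
    obtain ⟨h1, h2⟩ := stp_inv rs (stp s r)
    have h3 : (stp s r).1.length = s.1.length ∧
        ∀ x ∈ (stp s r).1, ∃ y ∈ s.1, x.natAbs = y.natAbs := by
      unfold stp
      split_ifs with hc
      · exact ⟨reversal_length ⟨hc.1, hc.2.1, hc.2.2⟩, fun x hx => mem_reversal hx⟩
      · exact ⟨rfl, fun x hx => ⟨x, hx, rfl⟩⟩
    refine ⟨h1.trans h3.1, fun x hx => ?_⟩
    obtain ⟨y, hy, e1⟩ := h2 x hx
    obtain ⟨z, hz, e2⟩ := h3.2 y hy
    exact ⟨z, hz, e1.trans e2⟩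

theorem sz_stp_le (rs : List (ℕ × ℕ)) (s : List ℤ × Bool) :
    sz (rs.foldl stp s) ≤ sz s * (sz s + 6) + 5 := by
  obtain ⟨h1, h2⟩ := stp_inv rs s
  have h3 : sz (rs.foldl stp s).1 ≤ s.1.length * (sz s + 5) + 1 := by
    rw [← h1]
    refine sz_le_length_mul _ (sz s + 4) fun x hx => ?_
    obtain ⟨y, hy, e⟩ := h2 x hx
    have e1 : sz x = sz (decide (x < 0)) + sz x.natAbs + 1 := sz_pair _ _
    have e2 : sz y = sz (decide (y < 0)) + sz y.natAbs + 1 := sz_pair _ _
    have e3 := sz_bool_le (decide (x < 0))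
    have e4 : sz y < sz s.1 := sz_le_of_mem hy
    have e5 : sz s = sz s.1 + sz s.2 + 1 := sz_pair s.1 s.2
    rw [e] at e1
    omega
  have h4 : sz (rs.foldl stp s) = sz (rs.foldl stp s).1 +
    sz (rs.foldl stp s).2 + 1 := sz_pair _ _
  have h5 := sz_bool_le (rs.foldl stp s).2
  have h6 : s.1.length ≤ sz s := by
    have := length_lt_sz s.1
    have e5 : sz s = sz s.1 + sz s.2 + 1 := sz_pair s.1 s.2
    omega
  have h7 : s.1.length * (sz s + 5) ≤ sz s * (sz s + 5) := Nat.mul_le_mul_right _ h6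
  have h8 : sz s * (sz s + 6) = sz s * (sz s + 5) + sz s := by ring
  have h9 := sz_pos s
  omega

section

variable {α : Type} [TEnc α]

theorem stp_poly {s : α → List ℤ × Bool} {r : α → ℕ × ℕ}
    (hs : Poly s) (hr : Poly r) : Poly (fun a => stp (s a) (r a)) := by
  have h1 : Poly (fun a => reversal (s a).1 (r a)) := reversal_poly (NPC.Poly.fst hs) hr
  exact NPC.Poly.ite (p := fun a => 1 ≤ (r a).1 ∧ ((r a).1 ≤ (r a).2 ∧ (r a).2 ≤ (s a).1.length))
    (NPC.Poly.decide_and (p := fun a => 1 ≤ (r a).1)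
      (q := fun a => (r a).1 ≤ (r a).2 ∧ (r a).2 ≤ (s a).1.length)
      (NPC.Poly.decide_le (NPC.Poly.const 1) (NPC.Poly.fst hr))
      (NPC.Poly.decide_and (p := fun a => (r a).1 ≤ (r a).2)
        (q := fun a => (r a).2 ≤ (s a).1.length)
        (NPC.Poly.decide_le (NPC.Poly.fst hr) (NPC.Poly.snd hr))
        (NPC.Poly.decide_le (NPC.Poly.snd hr) (NPC.Poly.length (NPC.Poly.fst hs)))))
    (NPC.Poly.pair h1 (NPC.Poly.snd hs)) (NPC.Poly.pair (NPC.Poly.fst hs) (NPC.Poly.const false))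

theorem idPerm_poly {l : α → List ℤ} (hl : Poly l) : Poly (fun a => idPerm (l a).length) := by
  have h1 : UPoly (fun a => (l a).length) := UPoly.length hl
  exact NPC.Poly.map (l := fun a => List.range (l a).length) (F := fun _ (i : ℕ) => (i : ℤ) + 1)
    h1.range (NPC.Poly.iadd (NPC.Poly.natCast (NPC.Poly.snd NPC.Poly.id)) (NPC.Poly.const 1))

theorem sortsB_poly {l : α → List ℤ} {rs : α → List (ℕ × ℕ)}
    (hl : Poly l) (hrs : Poly rs) : Poly (fun a => sortsB (l a) (rs a)) := by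
  have hs : Poly (fun a => (l a, true)) := NPC.Poly.pair hl (NPC.Poly.const true)
  obtain ⟨q, hq⟩ := hs.sz_le
  have hf : Poly (fun a => (rs a).foldl stp (l a, true)) :=
    NPC.Poly.foldl (l := rs) (s := fun a => (l a, true))
    (F := fun _ s r => stp s r) hrs hs
    (stp_poly (NPC.Poly.fst (NPC.Poly.snd NPC.Poly.id))
      (NPC.Poly.snd (NPC.Poly.snd NPC.Poly.id))) (q * (q + 6) + 5) (by
      intro a k _
      refine (sz_stp_le _ _).trans ?_
      have := hq a
      simp only [Polynomial.eval_add, Polynomial.eval_mul, Polynomial.eval_ofNat]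
      have h2 : sz (l a, true) * (sz (l a, true) + 6) ≤
          q.eval (sz a) * (q.eval (sz a) + 6) := Nat.mul_le_mul this (by omega)
      omega)
  exact NPC.Poly.and (NPC.Poly.snd hf)
    (NPC.Poly.decide_eq (NPC.Poly.fst hf) (idPerm_poly hl))

end

end Pool.Agent.NH88.SR
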