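import Pool.Agent.NH88.SR.AsmA2
import Pool.Agent.NH88.SR.Chn
import Pool.Agent.NH88.SR.Ub
import Pool.Agent.NH88.SR.SortPoly
import Pool.Agent.NPC.Dec
import Pool.Agent.NH88.SR.AsmD
import Pool.Agent.NH88.SR.VPoly

/-!
# Upper bounds: `FP^#P`, and `#P` for permutations whose distance is half the number of breakpoints
-/

namespace Pool.Agent.NH88.SR

open Pool.Agent.TH700 Pool.Agent.NPC Pool.Agent.NPC.Cnt

instance instTDecInt : Cnt.TDec ℤ :=
  ⟨fun t => (NPC.TDec.dec t : Option ℤ), NPC.TDec.poly_dec, fun t a =>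
    ⟨fun h => NPC.TDec.toT_dec t a h, fun h => by rw [← h]; exact NPC.TDec.dec_toT a⟩⟩

/-- The number of breakpoints: the positions in `0, l, n + 1` (`n` the length of `l`) whose entry
`x` is not followed by `x + 1`. -/
def brk (l : List ℤ) : ℕ :=
  ((List.range (l.length + 1)).filter (fun p => decide (ext l (p + 1) ≠ ext l p + 1))).length

theorem brk_eq (l : List ℤ) : brk l = Cyc.bp l.length (ext l) := by
  unfold brk Cyc.bp
  have h : (Finset.range (l.length + 1)).filter (fun p => ext l (p + 1) ≠ ext l p + 1) =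
      ((List.range (l.length + 1)).filter
        (fun p => decide (ext l (p + 1) ≠ ext l p + 1))).toFinset := by
    ext x
    simp
  rw [h, List.toFinset_card_of_nodup (List.nodup_range.filter _)]

/-- Every sorting sequence has at least `brk l / 2` steps. -/
theorem brk_le {l : List ℤ} {rs : List (ℕ × ℕ)} (h : Sorts l rs) : brk l ≤ 2 * rs.length := by
  rw [brk_eq]
  exact bp_of_mem l.length rs l rfl h

open Classical in
/-- The number of optimal sorting sequences, for the permutations whose reversal distance is half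
the number of their breakpoints; other inputs have the value `0`. -/
noncomputable def numTight (l : List ℤ) : ℕ := if 2 * revDist l = brk l then numOpt l else 0

theorem revDist_spec {l : List ℤ} {rs : List (ℕ × ℕ)} (h : Sorts l rs) :
    ∃ rs', Sorts l rs' ∧ rs'.length = revDist l := by
  have := Nat.sInf_mem (s := {k | ∃ rs, Sorts l rs ∧ rs.length = k}) ⟨_, rs, h, rfl⟩
  exact this

theorem revDist_le_length {l : List ℤ} {rs : List (ℕ × ℕ)} (h : Sorts l rs) :
    revDist l ≤ rs.length := Nat.sInf_le ⟨rs, h, rfl⟩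

/-- The relation for the restricted problem. -/
def RT (l : List ℤ) (rs : List (ℕ × ℕ)) : Bool := sortsB l rs && decide (2 * rs.length = brk l)

theorem RT_iff (l : List ℤ) (rs : List (ℕ × ℕ)) :
    RT l rs = true ↔ Sorts l rs ∧ 2 * rs.length = brk l := by
  unfold RT
  rw [Bool.and_eq_true, sortsB_iff, decide_eq_true_eq]

theorem numTight_eq (l : List ℤ) : numTight l = Nat.card {rs // RT l rs = true} := by
  classical
  have h1 : Nat.card {rs // RT l rs = true} =
      ({rs | Sorts l rs ∧ 2 * rs.length = brk l} : Set _).ncard := by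
    rw [← Nat.card_coe_set_eq]
    exact Nat.card_congr (Equiv.subtypeEquivRight fun rs => RT_iff l rs)
  rw [h1]
  unfold numTight
  split_ifs with h
  · unfold numOpt Opt
    congr 1
    ext rs
    simp only [Set.mem_setOf_eq]
    constructor
    · rintro ⟨h2, h3⟩
      exact ⟨h2, by rw [h3]; exact h⟩
    · rintro ⟨h2, h3⟩
      exact ⟨h2, by omega⟩
  · symm
    rw [Set.ncard_eq_zero (by
      refine Set.Finite.subset ((Set.finite_empty : (∅ : Set (List (ℕ × ℕ))).Finite)) ?_
      rintro rs ⟨h2, h3⟩
      exfalso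
      obtain ⟨rs', h4, h5⟩ := revDist_spec h2
      have h6 := brk_le h4
      have h7 := revDist_le_length h2
      omega)]
    rw [Set.eq_empty_iff_forall_notMem]
    rintro rs ⟨h2, h3⟩
    obtain ⟨rs', h4, h5⟩ := revDist_spec h2
    have h6 := brk_le h4
    have h7 := revDist_le_length h2
    omega

section

variable {α : Type} [TEnc α]

theorem ext_poly {l : α → List ℤ} {p : α → ℕ} (hl : Poly l) (hp : Poly p) :
    Poly (fun a => ext (l a) (p a)) := by
  refine NPC.Poly.ite (p := fun a => p a = 0) (NPC.Poly.decide_eq hp (NPC.Poly.const 0))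
    (NPC.Poly.const 0) (NPC.Poly.ite (p := fun a => p a ≤ (l a).length)
      (NPC.Poly.decide_le hp (NPC.Poly.length hl))
      (NPC.Poly.getD hl (NPC.Poly.sub hp (NPC.Poly.const 1)) (NPC.Poly.const 0))
      (NPC.Poly.iadd (NPC.Poly.natCast (NPC.Poly.length hl)) (NPC.Poly.const 1)))

theorem brk_poly {l : α → List ℤ} (hl : Poly l) : Poly (fun a => brk (l a)) := by
  have h1 : UPoly (fun a => (l a).length + 1) := UPoly.add (UPoly.length hl) (UPoly.const 1)
  have hl1 : Poly (fun x : α × ℕ => l x.1) := hl.comp (NPC.Poly.fst NPC.Poly.id)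
  have hp1 : Poly (fun x : α × ℕ => x.2) := NPC.Poly.snd NPC.Poly.id
  exact NPC.Poly.length (NPC.Poly.filter
    (p := fun (a : α) p => decide (ext (l a) (p + 1) ≠ ext (l a) p + 1)) h1.range
    (NPC.Poly.decide_not (p := fun x : α × ℕ => ext (l x.1) (x.2 + 1) = ext (l x.1) x.2 + 1)
      (NPC.Poly.decide_eq (ext_poly hl1 (NPC.Poly.succ hp1))
        (NPC.Poly.iadd (ext_poly hl1 hp1) (NPC.Poly.const 1)))))

end

/-- A bound for the size of legal sequences. -/
theorem sz_legal {n k : ℕ} {rs : List (ℕ × ℕ)} (h : ∀ r ∈ rs, Legal n r) (hk : rs.length ≤ k) :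
    sz rs ≤ k * (8 * n + 5) + 1 := by
  refine (sz_le_length_mul rs (8 * n + 4) fun r hr => ?_).trans ?_
  · obtain ⟨h1, h2, h3⟩ := h r hr
    have e1 : sz r = sz r.1 + sz r.2 + 1 := sz_pair r.1 r.2
    have e2 := sz_nat_le r.1
    have e3 := sz_nat_le r.2
    have e4 := NPC.Poly.size_le_self r.1
    have e5 := NPC.Poly.size_le_self r.2
    omega
  · have : rs.length * (8 * n + 4 + 1) ≤ k * (8 * n + 5) := Nat.mul_le_mul_right _ hk
    omega

/-- The restricted problem is in `#P`. -/
theorem sharpP_tight : SharpP (strFn numTight) := by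
  have h := sharpP_typed (α := List ℤ) (γ := List (ℕ × ℕ)) RT (by
    refine NPC.Poly.and (sortsB_poly (NPC.Poly.fst NPC.Poly.id) (NPC.Poly.snd NPC.Poly.id)) ?_
    exact NPC.Poly.decide_eq (NPC.Poly.mul (NPC.Poly.const 2)
      (NPC.Poly.length (NPC.Poly.snd NPC.Poly.id))) (brk_poly (NPC.Poly.fst NPC.Poly.id)))
    (Polynomial.X * (Polynomial.C 8 * Polynomial.X + Polynomial.C 5) + Polynomial.C 1) (by
    intro l rs hR
    obtain ⟨h1, h2⟩ := (RT_iff l rs).1 hR
    have h3 : brk l ≤ l.length + 1 := by
      unfold brk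
      refine (List.length_filter_le _ _).trans ?_
      simp
    have h4 := length_lt_sz l
    refine (sz_legal (k := sz l) h1.1 (by omega)).trans ?_
    simp only [Polynomial.eval_add, Polynomial.eval_mul, Polynomial.eval_X, Polynomial.eval_C]
    have : sz l * (8 * l.length + 5) ≤ sz l * (8 * sz l + 5) :=
      Nat.mul_le_mul_left _ (by omega)
    omega)
  have e : (fun l : List ℤ => Nat.card {rs // RT l rs = true}) = numTight := by
    funext l
    exact (numTight_eq l).symm
  rw [e] at h
  exact h

/-! ### The class `FP^#P` -/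

/-- The relation for sorting sequences of given length. -/
def RK (x : List ℤ × ℕ) (rs : List (ℕ × ℕ)) : Bool :=
  sortsB x.1 rs && (decide (rs.length = x.2) && decide (x.2 ≤ 2 * x.1.length))

/-- The number of sorting sequences of given length. -/
noncomputable def numK (x : List ℤ × ℕ) : ℕ := Nat.card {rs // RK x rs = true}

theorem sharpP_numK : SharpP (strFn numK) := by
  refine sharpP_typed (α := List ℤ × ℕ) (γ := List (ℕ × ℕ)) RK ?_
    (Polynomial.C 2 * Polynomial.X * (Polynomial.C 8 * Polynomial.X + Polynomial.C 5) +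
      Polynomial.C 1) ?_
  · have h1 : Poly (fun x : (List ℤ × ℕ) × List (ℕ × ℕ) => x.1.1) :=
      NPC.Poly.fst (NPC.Poly.fst NPC.Poly.id)
    have h2 : Poly (fun x : (List ℤ × ℕ) × List (ℕ × ℕ) => x.1.2) :=
      NPC.Poly.snd (NPC.Poly.fst NPC.Poly.id)
    have h3 : Poly (fun x : (List ℤ × ℕ) × List (ℕ × ℕ) => x.2) := NPC.Poly.snd NPC.Poly.id
    exact NPC.Poly.and (sortsB_poly h1 h3) (NPC.Poly.and
      (NPC.Poly.decide_eq (NPC.Poly.length h3) h2)
      (NPC.Poly.decide_le h2 (NPC.Poly.mul (NPC.Poly.const 2) (NPC.Poly.length h1))))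
  · rintro ⟨l, k⟩ rs hR
    unfold RK at hR
    simp only [Bool.and_eq_true, decide_eq_true_eq] at hR
    obtain ⟨h1, h2, h3⟩ := hR
    rw [sortsB_iff] at h1
    have h4 := length_lt_sz l
    have h5 : sz (l, k) = sz l + sz k + 1 := sz_pair l k
    refine (sz_legal (k := 2 * sz (l, k)) h1.1 (by omega)).trans ?_
    simp only [Polynomial.eval_add, Polynomial.eval_mul, Polynomial.eval_X, Polynomial.eval_C]
    have : 2 * sz (l, k) * (8 * l.length + 5) ≤ 2 * sz (l, k) * (8 * sz (l, k) + 5) :=
      Nat.mul_le_mul_left _ (by omega)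
    omega

theorem numK_eq (l : List ℤ) (k : ℕ) (hk : k ≤ 2 * l.length) :
    numK (l, k) = ({rs | Sorts l rs ∧ rs.length = k} : Set (List (ℕ × ℕ))).ncard := by
  unfold numK
  rw [← Nat.card_coe_set_eq]
  refine Nat.card_congr (Equiv.subtypeEquivRight fun rs => ?_)
  unfold RK
  simp only [Bool.and_eq_true, decide_eq_true_eq, sortsB_iff, Set.mem_setOf_eq]
  exact ⟨fun h => ⟨h.1, h.2.1⟩, fun h => ⟨h.1, h.2, hk⟩⟩

theorem finite_len (l : List ℤ) (k : ℕ) :
    ({rs | Sorts l rs ∧ rs.length = k} : Set (List (ℕ × ℕ))).Finite := by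
  have h := mem_seqs (fun _ => False) l.length k l rfl
  refine Set.Finite.subset (Finset.finite_toSet (seqs (fun _ => False) l.length k l)) ?_
  rintro rs ⟨h1, h2⟩
  rw [Finset.mem_coe, h]
  exact ⟨h1, h2, fun _ _ _ => not_false⟩

theorem first_nonzero (l : List ℤ) :
    ((((List.range (2 * l.length + 1)).map (fun k => numK (l, k))).filter
      (fun x => decide (x ≠ 0))).headD 0) = numOpt l := by
  by_cases hs : ∃ rs, Sorts l rs
  · obtain ⟨rs, hrs⟩ := hs
    obtain ⟨rs', h1, h2⟩ := revDist_spec hrs
    have h3 := revDist_le68 ⟨rs, hrs⟩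
    have hlow : ∀ k < revDist l, numK (l, k) = 0 := by
      intro k hk
      rw [numK_eq l k (by omega), Set.ncard_eq_zero (finite_len l k),
        Set.eq_empty_iff_forall_notMem]
      rintro rs'' ⟨h4, h5⟩
      have := revDist_le_length h4
      omega
    have hd : numK (l, revDist l) = numOpt l := numK_eq l _ h3
    have hpos : numK (l, revDist l) ≠ 0 := by
      rw [hd]
      unfold numOpt
      exact ((Set.ncard_pos (finite_len l (revDist l))).2 ⟨rs', h1, h2⟩).ne'
    have hsplit : List.range (2 * l.length + 1) = List.range (revDist l) ++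
        (revDist l :: (List.range (2 * l.length - revDist l)).map (fun i => revDist l + 1 + i)) := by
      have e1 : 2 * l.length + 1 = revDist l + (1 + (2 * l.length - revDist l)) := by omega
      rw [e1, List.range_add, List.range_add]
      simp only [List.range_one, List.map_cons, List.map_nil, List.map_append, List.map_map,
        Nat.add_zero, List.cons_append, List.nil_append]
      congr 2
      refine List.map_congr_left fun a _ => ?_
      simp only [Function.comp]
      omega
    rw [hsplit, List.map_append, List.filter_append, List.map_cons, List.filter_cons,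
      if_pos (by simpa using hpos)]
    have e2 : (((List.range (revDist l)).map (fun k => numK (l, k))).filter
        (fun x => decide (x ≠ 0))) = [] := by
      rw [List.filter_eq_nil_iff]
      intro x hx
      rw [List.mem_map] at hx
      obtain ⟨k, hk, rfl⟩ := hx
      rw [hlow k (List.mem_range.1 hk)]
      simp
    rw [e2, List.nil_append, List.headD_cons, hd]
  · have h0 : ∀ k, ({rs | Sorts l rs ∧ rs.length = k} : Set (List (ℕ × ℕ))) = ∅ := by
      intro k
      rw [Set.eq_empty_iff_forall_notMem]
      rintro rs ⟨h, _⟩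
      exact hs ⟨rs, h⟩
    have e1 : (((List.range (2 * l.length + 1)).map (fun k => numK (l, k))).filter
        (fun x => decide (x ≠ 0))) = [] := by
      rw [List.filter_eq_nil_iff]
      intro x hx
      rw [List.mem_map] at hx
      obtain ⟨k, hk, rfl⟩ := hx
      rw [numK_eq l k (by have := List.mem_range.1 hk; omega), h0]
      simp
    rw [e1, List.headD_nil]
    unfold numOpt Opt
    rw [h0]
    simp

theorem numK_le (l : List ℤ) (k : ℕ) : numK (l, k) ≤ (l.length + 1) ^ (4 * l.length) := by
  classical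
  obtain ⟨n, hn⟩ : ∃ n, n = l.length := ⟨_, rfl⟩
  by_cases hk : k ≤ 2 * l.length
  · rw [numK_eq l k hk]
    have hsub : ({rs | Sorts l rs ∧ rs.length = k} : Set (List (ℕ × ℕ))) ⊆
        (fun f : Fin k → Fin (n + 1) × Fin (n + 1) =>
        List.ofFn fun i => (((f i).1 : ℕ), ((f i).2 : ℕ))) '' Set.univ := by
      rintro rs ⟨⟨h1, _⟩, h2⟩
      subst h2
      refine ⟨fun i => (⟨(rs.get i).1, ?_⟩, ⟨(rs.get i).2, ?_⟩), Set.mem_univ _, ?_⟩
      · have := h1 (rs.get i) (List.get_mem _ _)
        obtain ⟨h3, h4, h5⟩ := this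
        omega
      · have := h1 (rs.get i) (List.get_mem _ _)
        obtain ⟨h3, h4, h5⟩ := this
        omega
      · exact List.ofFn_get rs
    rw [← hn] at hk ⊢
    calc ({rs | Sorts l rs ∧ rs.length = k} : Set (List (ℕ × ℕ))).ncard ≤ _ :=
          Set.ncard_le_ncard hsub ((Set.finite_univ).image _)
      _ ≤ (Set.univ : Set (Fin k → Fin (n + 1) × Fin (n + 1))).ncard :=
          Set.ncard_image_le Set.finite_univ
      _ = ((n + 1) * (n + 1)) ^ k := by
          rw [Set.ncard_univ, Nat.card_eq_fintype_card, Fintype.card_fun, Fintype.card_prod,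
            Fintype.card_fin, Fintype.card_fin]
      _ ≤ ((n + 1) * (n + 1)) ^ (2 * n) := Nat.pow_le_pow_right (by positivity) hk
      _ = (n + 1) ^ (4 * n) := by
          rw [← pow_two, ← pow_mul]
          congr 1
          ring
  · have : numK (l, k) = 0 := by
      unfold numK
      rw [Nat.card_eq_zero]
      left
      refine ⟨fun x => ?_⟩
      have h := x.2
      unfold RK at h
      simp only [Bool.and_eq_true, decide_eq_true_eq] at h
      exact hk h.2.2
    rw [this]
    exact Nat.zero_le _

theorem numK_size (x : List ℤ × ℕ) : (numK x).size ≤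
    (Polynomial.C 4 * Polynomial.X * (Polynomial.X + Polynomial.C 1) +
      Polynomial.C 1 : Polynomial ℕ).eval (sz x) := by
  obtain ⟨l, k⟩ := x
  have h1 := Nat.size_le_size (numK_le l k)
  have h2 := size_pow_le' (l.length + 1) (4 * l.length)
  have h3 : (l.length + 1).size ≤ l.length + 1 := Nat.size_le.2 Nat.lt_two_pow_self
  have h4 := length_lt_sz l
  have h5 : sz (l, k) = sz l + sz k + 1 := sz_pair l k
  simp only [Polynomial.eval_add, Polynomial.eval_mul, Polynomial.eval_X, Polynomial.eval_C]
  have h6 : 4 * l.length * (l.length + 1).size ≤ 4 * sz (l, k) * (sz (l, k) + 1) :=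
    Nat.mul_le_mul (by omega) (by omega)
  omega

theorem qK_poly : Poly (fun l : List ℤ => (List.range (2 * l.length + 1)).map
    (fun k => (l, k))) :=
  NPC.Poly.map (F := fun (l : List ℤ) (k : ℕ) => (l, k))
    (UPoly.add (UPoly.mul (UPoly.const 2) (UPoly.length NPC.Poly.id)) (UPoly.const 1)).range
    NPC.Poly.id

theorem turing_numOpt : TuringReduces (strFn numOpt) (strFn numK) := by
  have h1 : Poly (fun x : List Bool => match (decode x : Option (List ℤ)) with
      | none => [] | some l => (List.range (2 * l.length + 1)).map (fun k => (l, k))) := by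
    refine (NPC.Poly.optCases (o := fun x : List Bool => (decode x : Option (List ℤ)))
      (g := fun _ => []) (h := fun _ (l : List ℤ) =>
        (List.range (2 * l.length + 1)).map (fun k => (l, k))) poly_decode (NPC.Poly.const _)
      (qK_poly.comp (NPC.Poly.snd NPC.Poly.id))).congr fun x => ?_
    cases (decode x : Option (List ℤ)) <;> rfl
  have h2 : Poly (fun p : List Bool × List ℕ => (p.2.filter
      (fun x => decide (x ≠ 0))).headD 0) := by
    refine headD_poly (NPC.Poly.filter
      (p := fun (_ : List Bool × List ℕ) (x : ℕ) => decide (x ≠ 0))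
      (NPC.Poly.snd NPC.Poly.id) ?_)
    exact NPC.Poly.decide_not (p := fun x : (List Bool × List ℕ) × ℕ => x.2 = 0)
      (NPC.Poly.decide_eq (NPC.Poly.snd NPC.Poly.id) (NPC.Poly.const 0))
  refine turingReduces_of_list _ _ h1 h2 (fun x => ?_) _ numK_size
  simp only
  cases hx : (decode x : Option (List ℤ)) with
  | none =>
    have hno : ¬ ∃ A : List ℤ, bits A = x := by
      rintro ⟨A, hA⟩
      have := decode_eq_some.2 hA
      rw [hx] at this
      exact absurd this (by simp)
    rw [strFn_of_not _ hno]
    simp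
  | some l =>
    have hA : bits l = x := decode_eq_some.1 hx
    rw [← hA, strFn_bits]
    simp only
    rw [List.map_map]
    exact (first_nonzero l).symm

theorem inFPSharpP : InFPSharpP (strFn numOpt) := ⟨_, sharpP_numK, turing_numOpt⟩

end Pool.Agent.NH88.SR
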