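import Pool.Agent.NH88.SR.Stm2
import Pool.Agent.H687R2.IntPoly

/-!
# The signed permutation of a list of pairs is computable in polynomial time
-/

namespace Pool.Agent.NH88.SR

open Pool.Agent.H549R2.Convex Pool.Agent.H549R2.PM Pool.Agent.NPC Pool.Agent.NPC.Cnt
  Pool.Agent.NPC.H549Convex Pool.Agent.NPC.H549PM

section

variable {α : Type} [TEnc α]

/-! ### The permutation of a word -/

theorem ori_poly {x : α → Lt} (hx : Poly x) : Poly (fun a => ori (x a)) :=
  NPC.Poly.or (NPC.Poly.decide_eq (NPC.Poly.fst hx) (NPC.Poly.const 0))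
    (NPC.Poly.decide_eq (NPC.Poly.snd hx) (NPC.Poly.const 0))

theorem opp_poly {w : α → List Lt} {e : α → ℕ} (hw : Poly w) (he : Poly e) :
    Poly (fun a => opp (w a) (e a)) := by
  have h1 : Poly (fun q : α × ℕ => decide (q.2 ≠ e q.1) &&
      decide ((w q.1).getD q.2 (0, 0) = (w q.1).getD (e q.1) (0, 0))) := by
    have hw' : Poly (fun q : α × ℕ => w q.1) := hw.comp (NPC.Poly.fst NPC.Poly.id)
    have he' : Poly (fun q : α × ℕ => e q.1) := he.comp (NPC.Poly.fst NPC.Poly.id)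
    have h2 : Poly (fun q : α × ℕ => q.2) := NPC.Poly.snd NPC.Poly.id
    exact NPC.Poly.and (NPC.Poly.decide_not (p := fun q : α × ℕ => q.2 = e q.1) (NPC.Poly.decide_eq h2 he'))
      (NPC.Poly.decide_eq (NPC.Poly.getD hw' h2 (NPC.Poly.const (0, 0)))
        (NPC.Poly.getD hw' he' (NPC.Poly.const (0, 0))))
  have h3 : Poly (fun a => (List.range (w a).length).filter (fun j => decide (j ≠ e a) &&
      decide ((w a).getD j (0, 0) = (w a).getD (e a) (0, 0)))) :=
    NPC.Poly.filter (p := fun a j => decide (j ≠ e a) &&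
      decide ((w a).getD j (0, 0) = (w a).getD (e a) (0, 0))) (NPC.Poly.range_length hw) h1
  refine (NPC.Poly.getD h3 (NPC.Poly.const 0) he).congr fun a => ?_
  unfold opp
  generalize (List.range (w a).length).filter (fun j => decide (j ≠ e a) &&
      decide ((w a).getD j (0, 0) = (w a).getD (e a) (0, 0))) = l
  cases l <;> rfl

theorem bRw_poly {w : α → List Lt} {e : α → ℕ} (hw : Poly w) (he : Poly e) :
    Poly (fun a => bRw (w a) (e a)) := by
  have h1 : Poly (fun a => ((opp (w a) (e a) : ℕ) : ℤ)) := NPC.Poly.natCast (opp_poly hw he)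
  exact NPC.Poly.ite (p := fun a => ori ((w a).getD (e a) (0, 0)) = true)
    (NPC.Poly.decide_bool (ori_poly (NPC.Poly.getD hw he (NPC.Poly.const (0, 0))))) h1
    (NPC.Poly.isub (NPC.Poly.const (-1)) h1)

theorem nxw_poly {w : α → List Lt} {x : α → ℤ} (hw : Poly w) (hx : Poly x) :
    Poly (fun a => nxw (w a) (x a)) := by
  exact NPC.Poly.ite (p := fun a => 0 ≤ x a) (NPC.Poly.ile (NPC.Poly.const 0) hx)
    (NPC.Poly.ineg (bRw_poly hw (NPC.Poly.toNat hx)))
    (NPC.Poly.iadd (NPC.Poly.const 1) (bRw_poly hw (NPC.Poly.toNat (NPC.Poly.isub (NPC.Poly.const (-1)) hx))))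

theorem opp_le (w : List Lt) (e : ℕ) : opp w e ≤ max e w.length := by
  unfold opp
  generalize hl : (List.range w.length).filter (fun j => decide (j ≠ e) &&
      decide (w.getD j (0, 0) = w.getD e (0, 0))) = l
  cases l with
  | nil => exact le_max_left _ _
  | cons j l =>
    have h1 : j ∈ (List.range w.length).filter (fun j => decide (j ≠ e) &&
      decide (w.getD j (0, 0) = w.getD e (0, 0))) := by
      rw [hl]
      exact List.mem_cons_self ..
    have h2 := List.mem_range.1 (List.mem_filter.1 h1).1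
    show j ≤ _
    exact le_trans h2.le (le_max_right _ _)

theorem bRw_le (w : List Lt) (e : ℕ) : (bRw w e).natAbs ≤ max e w.length + 1 := by
  have h := opp_le w e
  unfold bRw
  split_ifs <;> omega

theorem nxw_le (w : List Lt) (x : ℤ) : (nxw w x).natAbs ≤ max x.natAbs w.length + 2 := by
  unfold nxw
  split_ifs with hx
  · have h := bRw_le w x.toNat
    omega
  · have h := bRw_le w (-1 - x).toNat
    omega

theorem fold_le (w : List Lt) : ∀ (l : List ℕ) (x : ℤ),
    (l.foldl (fun x _ => nxw w x) x).natAbs ≤ max x.natAbs w.length + 2 * l.length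
  | [], x => by simp
  | y :: l, x => by
    rw [List.foldl_cons, List.length_cons]
    have h1 := fold_le w l (nxw w x)
    have h2 := nxw_le w x
    omega

theorem permW_poly {w : α → List Lt} (hw : Poly w) : Poly (fun a => permW (w a)) := by
  obtain ⟨r, hr⟩ := hw.sz_le
  have hw1 : Poly (fun q : α × ℕ => w q.1) := hw.comp (NPC.Poly.fst NPC.Poly.id)
  have hmin : UPoly (fun q : α × ℕ => min q.2 (w q.1).length + 1) :=
    UPoly.add (upoly_min (NPC.Poly.snd NPC.Poly.id) (UPoly.length hw1)) (UPoly.const 1)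
  have hF : Poly (fun q : (α × ℕ) × ℤ × ℕ => nxw (w q.1.1) q.2.1) :=
    nxw_poly (hw.comp (NPC.Poly.fst (NPC.Poly.fst NPC.Poly.id))) (NPC.Poly.fst (NPC.Poly.snd NPC.Poly.id))
  have h1 : Poly (fun q : α × ℕ => (List.range (min q.2 (w q.1).length + 1)).foldl
      (fun x _ => nxw (w q.1) x) 0) := by
    refine NPC.Poly.foldl (l := fun q : α × ℕ => List.range (min q.2 (w q.1).length + 1))
      (s := fun _ => (0 : ℤ)) (F := fun q x _ => nxw (w q.1) x) hmin.range (NPC.Poly.const 0) hF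
      (Polynomial.C 12 * r + Polynomial.C 20) ?_
    intro q k hk
    rw [List.length_range] at hk
    have e1 := fold_le (w q.1) ((List.range (min q.2 (w q.1).length + 1)).take k) 0
    rw [List.length_take, List.length_range] at e1
    have e2 := sz_int_le (((List.range (min q.2 (w q.1).length + 1)).take k).foldl
      (fun x _ => nxw (w q.1) x) 0)
    have e3 := NPC.Poly.size_le_self (((List.range (min q.2 (w q.1).length + 1)).take k).foldl
      (fun x _ => nxw (w q.1) x) 0).natAbs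
    have e4 := length_lt_sz (w q.1)
    have e5 := hr q.1
    have e6 : r.eval (sz q.1) ≤ r.eval (sz q) := by
      refine eval_mono r ?_
      have : sz q = sz q.1 + sz q.2 + 1 := sz_pair q.1 q.2
      omega
    simp only [Polynomial.eval_add, Polynomial.eval_mul, Polynomial.eval_C]
    simp only [Int.natAbs_zero] at e1
    omega
  have h2 : UPoly (fun a => (w a).length - 1) :=
    UPoly.of_le (NPC.Poly.sub (NPC.Poly.length hw) (NPC.Poly.const 1)) (UPoly.length hw)
      (fun a => Nat.sub_le _ _)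
  refine (NPC.Poly.map (l := fun a => List.range ((w a).length - 1))
    (F := fun a p => (List.range (min p (w a).length + 1)).foldl (fun x _ => nxw (w a) x) 0)
    h2.range h1).congr fun a => ?_
  unfold permW
  refine List.map_congr_left fun p hp => ?_
  rw [List.mem_range] at hp
  rw [min_eq_left (by omega)]

/-! ### The word of a list of pairs -/

theorem lw_poly {x y : α → ℕ} (hx : UPoly x) (hy : Poly y) :
    Poly (fun a => lw (x a) (y a)) := by
  have h1 : Poly (fun a => (List.range (x a)).flatMap (fun i => [i + 1, i])) :=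
    NPC.Poly.flatMap (F := fun _ i => [i + 1, i]) hx.range
      (NPC.Poly.cons (NPC.Poly.succ (NPC.Poly.snd NPC.Poly.id)) (NPC.Poly.cons (NPC.Poly.snd NPC.Poly.id) (NPC.Poly.const [])))
  exact NPC.Poly.cons (NPC.Poly.const 0) (NPC.Poly.append h1 (NPC.Poly.ite (p := fun a => y a = 0)
    (NPC.Poly.decide_eq hy (NPC.Poly.const 0)) (NPC.Poly.const []) (NPC.Poly.cons (NPC.Poly.succ hx.toPoly)
      (NPC.Poly.const []))))

theorem rw'_poly {x y : α → ℕ} (hx : Poly x) (hy : UPoly y) :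
    Poly (fun a => rw' (x a) (y a)) := by
  have hy1 : UPoly (fun a => y a - 1) :=
    UPoly.of_le (NPC.Poly.sub hy.toPoly (NPC.Poly.const 1)) hy (fun a => Nat.sub_le _ _)
  have h0 : Poly (fun q : α × ℕ => x q.1 + q.2 + 1) :=
    NPC.Poly.succ (NPC.Poly.add (hx.comp (NPC.Poly.fst NPC.Poly.id)) (NPC.Poly.snd NPC.Poly.id))
  have h1 : Poly (fun a => (List.range (y a - 1)).flatMap
      (fun i => [x a + i + 2, x a + i + 1])) :=
    NPC.Poly.flatMap (F := fun a i => [x a + i + 2, x a + i + 1]) hy1.range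
      (NPC.Poly.cons (NPC.Poly.succ h0) (NPC.Poly.cons h0 (NPC.Poly.const [])))
  exact NPC.Poly.cons hx (NPC.Poly.ite (p := fun a => y a = 0) (NPC.Poly.decide_eq hy.toPoly (NPC.Poly.const 0))
    (NPC.Poly.const []) (NPC.Poly.append h1 (NPC.Poly.cons (NPC.Poly.add hx hy.toPoly) (NPC.Poly.const []))))

theorem getD_le {cs : List (ℕ × ℕ)} {N : ℕ} (h : ∀ x ∈ cs, x.1 ≤ N ∧ x.2 ≤ N) (c : ℕ) :
    aa cs c ≤ N ∧ bb cs c ≤ N := by
  unfold aa bb
  rw [List.getD_eq_getElem?_getD]
  cases hc : cs[c]? with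
  | none => simp
  | some x => exact h x (List.mem_of_getElem? hc)

theorem word_poly {cs : α → List (ℕ × ℕ)} {m N : α → ℕ} (hcs : Poly cs) (hm : UPoly m)
    (hN : UPoly N) (hb : ∀ a, ∀ x ∈ cs a, x.1 ≤ N a ∧ x.2 ≤ N a) :
    Poly (fun a => word (cs a) (m a)) := by
  have hx : Poly (fun q : α × ℕ => (cs q.1).getD q.2 (0, 0)) :=
    NPC.Poly.getD (hcs.comp (NPC.Poly.fst NPC.Poly.id)) (NPC.Poly.snd NPC.Poly.id) (NPC.Poly.const (0, 0))
  have ha : UPoly (fun q : α × ℕ => aa (cs q.1) q.2) :=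
    UPoly.of_le (NPC.Poly.fst hx) (hN.comp (NPC.Poly.fst NPC.Poly.id)) fun q => (getD_le (hb q.1) q.2).1
  have hbb : UPoly (fun q : α × ℕ => bb (cs q.1) q.2) :=
    UPoly.of_le (NPC.Poly.snd hx) (hN.comp (NPC.Poly.fst NPC.Poly.id)) fun q => (getD_le (hb q.1) q.2).2
  have hl : Poly (fun q : α × ℕ => (lw (aa (cs q.1) q.2) (bb (cs q.1) q.2)).map
      (fun i => (q.2 + 1, i))) :=
    NPC.Poly.map (F := fun (q : α × ℕ) i => (q.2 + 1, i)) (lw_poly ha hbb.toPoly)
      (NPC.Poly.pair (NPC.Poly.succ (NPC.Poly.snd (NPC.Poly.fst NPC.Poly.id))) (NPC.Poly.snd NPC.Poly.id))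
  have hr : Poly (fun q : α × ℕ => (rw' (aa (cs q.1) q.2) (bb (cs q.1) q.2)).map
      (fun i => (q.2 + 1, i))) :=
    NPC.Poly.map (F := fun (q : α × ℕ) i => (q.2 + 1, i)) (rw'_poly ha.toPoly hbb)
      (NPC.Poly.pair (NPC.Poly.succ (NPC.Poly.snd (NPC.Poly.fst NPC.Poly.id))) (NPC.Poly.snd NPC.Poly.id))
  have h1 := NPC.Poly.flatMap (l := fun a => List.range (cs a).length)
    (F := fun a c => (lw (aa (cs a) c) (bb (cs a) c)).map (fun i => (c + 1, i)))
    (NPC.Poly.range_length hcs) hl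
  have h2 := NPC.Poly.map (l := fun a => List.range (m a)) (F := fun _ i => ((0, i) : ℕ × ℕ))
    hm.range (NPC.Poly.pair (NPC.Poly.const 0) (NPC.Poly.snd NPC.Poly.id))
  have h3 := NPC.Poly.flatMap (l := fun a => (List.range (cs a).length).reverse)
    (F := fun a c => (rw' (aa (cs a) c) (bb (cs a) c)).map (fun i => (c + 1, i)))
    (NPC.Poly.reverse (NPC.Poly.range_length hcs)) hr
  have h4 := NPC.Poly.map (l := fun a => (List.range (m a)).reverse)
    (F := fun _ i => ((0, i) : ℕ × ℕ)) (NPC.Poly.reverse hm.range)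
    (NPC.Poly.pair (NPC.Poly.const 0) (NPC.Poly.snd NPC.Poly.id))
  exact NPC.Poly.append h1 (NPC.Poly.append h2 (NPC.Poly.append h3 h4))

theorem perm_poly {cs : α → List (ℕ × ℕ)} {m N : α → ℕ} (hcs : Poly cs) (hm : UPoly m)
    (hN : UPoly N) (hb : ∀ a, ∀ x ∈ cs a, x.1 ≤ N a ∧ x.2 ≤ N a) :
    Poly (fun a => perm (cs a) (m a)) := permW_poly (word_poly hcs hm hN hb)

/-! ### The pairs -/

theorem ent_poly' {A : α → LLB} {i j : α → ℕ} (hA : Poly A) (hi : Poly i) (hj : Poly j) :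
    Poly (fun a => ent (A a) (i a) (j a)) := ent_poly.comp (NPC.Poly.pair hA (NPC.Poly.pair hi hj))

theorem rdeg_upoly {A : α → LLB} {i : α → ℕ} (hA : Poly A) (hi : Poly i) :
    UPoly (fun a => rdeg (A a) (i a)) :=
  UPoly.length (l := fun a => (List.range (A a).length).filter (fun j => ent (A a) (i a) j))
    (NPC.Poly.filter (p := fun a j => ent (A a) (i a) j) (NPC.Poly.range_length hA)
      (ent_poly' (hA.comp (NPC.Poly.fst NPC.Poly.id)) (hi.comp (NPC.Poly.fst NPC.Poly.id)) (NPC.Poly.snd NPC.Poly.id)))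

theorem rdeg1_upoly {A : α → LLB} {i : α → ℕ} (hA : Poly A) (hi : Poly i) :
    UPoly (fun a => rdeg (A a) (i a) - 1) :=
  UPoly.of_le (NPC.Poly.sub (rdeg_upoly hA hi).toPoly (NPC.Poly.const 1)) (rdeg_upoly hA hi)
    (fun a => Nat.sub_le _ _)

theorem cols_poly {A : α → LLB} (hA : Poly A) : Poly (fun a => cols (A a)) := by
  have h1 := NPC.Poly.map (l := fun a => List.range (A a).length) (F := fun _ j => ((0, j) : ℕ × ℕ))
    (NPC.Poly.range_length hA) (NPC.Poly.pair (NPC.Poly.const 0) (NPC.Poly.snd NPC.Poly.id))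
  have h2 : Poly (fun q : α × ℕ => (List.range (rdeg (A q.1) q.2 - 1)).map
      (fun _ => ((1, q.2) : ℕ × ℕ))) :=
    NPC.Poly.map (F := fun (q : α × ℕ) _ => ((1, q.2) : ℕ × ℕ))
      (rdeg1_upoly (hA.comp (NPC.Poly.fst NPC.Poly.id)) (NPC.Poly.snd NPC.Poly.id)).range
      (NPC.Poly.pair (NPC.Poly.const 1) (NPC.Poly.snd (NPC.Poly.fst NPC.Poly.id)))
  have h3 := NPC.Poly.flatMap (l := fun a => List.range (A a).length)
    (F := fun a i => (List.range (rdeg (A a) i - 1)).map (fun _ => ((1, i) : ℕ × ℕ)))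
    (NPC.Poly.range_length hA) h2
  exact NPC.Poly.append h1 h3

theorem rowN_poly {p : α → ℕ} {e : α → ℕ × ℕ} (hp : Poly p) (he : Poly e) :
    Poly (fun a => rowN (p a) (e a)) := by
  have h1 := NPC.Poly.fst he
  have h2 := NPC.Poly.snd he
  have hp1 : Poly (fun a => p a - 1) := NPC.Poly.sub hp (NPC.Poly.const 1)
  have hp2 : Poly (fun a => p a ^ 2) := NPC.Poly.npow hp (UPoly.const 2)
  have hp3 : Poly (fun a => p a ^ 3) := NPC.Poly.npow hp (UPoly.const 3)
  exact NPC.Poly.add (NPC.Poly.add (NPC.Poly.add h1 (NPC.Poly.mul (NPC.Poly.sub hp1 h1) hp)) (NPC.Poly.mul h2 hp2))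
    (NPC.Poly.mul (NPC.Poly.sub hp1 h2) hp3)

theorem colN_poly {p : α → ℕ} {y : α → ℕ × ℕ} (hp : Poly p) (hy : Poly y) :
    Poly (fun a => colN (p a) (y a)) := by
  have h2 := NPC.Poly.snd hy
  have hp1 : Poly (fun a => p a - 1) := NPC.Poly.sub hp (NPC.Poly.const 1)
  have hp2 : Poly (fun a => p a ^ 2) := NPC.Poly.npow hp (UPoly.const 2)
  have hp3 : Poly (fun a => p a ^ 3) := NPC.Poly.npow hp (UPoly.const 3)
  exact NPC.Poly.ite (p := fun a => (y a).1 = 0) (NPC.Poly.decide_eq (NPC.Poly.fst hy) (NPC.Poly.const 0))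
    (NPC.Poly.add (NPC.Poly.add (NPC.Poly.add hp1 (NPC.Poly.mul hp1 hp)) (NPC.Poly.mul h2 hp2))
      (NPC.Poly.mul (NPC.Poly.sub hp1 h2) hp3))
    (NPC.Poly.add (NPC.Poly.add (NPC.Poly.add h2 (NPC.Poly.mul (NPC.Poly.sub hp1 h2) hp)) (NPC.Poly.mul hp1 hp2))
      (NPC.Poly.mul hp1 hp3))

theorem cmps_poly {p : α → ℕ} {A : α → LLB} (hp : Poly p) (hA : Poly A) :
    Poly (fun a => cmps (p a) (A a)) := by
  have hp' : Poly (fun q : α × (ℕ × ℕ) => p q.1) := hp.comp (NPC.Poly.fst NPC.Poly.id)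
  have h1 : Poly (fun q : α × (ℕ × ℕ) => ((p q.1 ^ 4 - 1 - rowN (p q.1) q.2, 0) : ℕ × ℕ)) :=
    NPC.Poly.pair (NPC.Poly.sub (NPC.Poly.sub (NPC.Poly.npow hp' (UPoly.const 4)) (NPC.Poly.const 1))
      (rowN_poly hp' (NPC.Poly.snd NPC.Poly.id))) (NPC.Poly.const 0)
  have h2 : Poly (fun q : α × (ℕ × ℕ) => ((0, colN (p q.1) q.2) : ℕ × ℕ)) :=
    NPC.Poly.pair (NPC.Poly.const 0) (colN_poly hp' (NPC.Poly.snd NPC.Poly.id))
  have h3 : Poly (fun a => edg (A a)) := edg_poly.comp hA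
  exact NPC.Poly.append (NPC.Poly.map (F := fun a e => ((p a ^ 4 - 1 - rowN (p a) e, 0) : ℕ × ℕ)) h3 h1)
    (NPC.Poly.map (F := fun a y => ((0, colN (p a) y) : ℕ × ℕ)) (cols_poly hA) h2)

/-- a bound for the entries of the pairs -/
def NB (p : ℕ) (A : LLB) : ℕ :=
  p ^ 4 + (p + p * p + A.length * p ^ 2 + p * p ^ 3) + (A.length + p * p + p * p ^ 2 + p * p ^ 3)

theorem NB_upoly {p : α → ℕ} {A : α → LLB} (hp : UPoly p) (hA : Poly A) :
    UPoly (fun a => NB (p a) (A a)) := by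
  have hl : UPoly (fun a => (A a).length) := UPoly.length hA
  have h2 : UPoly (fun a => p a ^ 2) := by simpa [pow_two] using UPoly.mul hp hp
  have h3 : UPoly (fun a => p a ^ 3) := by
    have := UPoly.mul h2 hp
    simpa [pow_succ] using this
  have h4 : UPoly (fun a => p a ^ 4) := by
    have := UPoly.mul h3 hp
    simpa [pow_succ] using this
  exact UPoly.add (UPoly.add h4 (UPoly.add (UPoly.add (UPoly.add hp (UPoly.mul hp hp))
    (UPoly.mul hl h2)) (UPoly.mul hp h3))) (UPoly.add (UPoly.add (UPoly.add hl (UPoly.mul hp hp))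
    (UPoly.mul hp h2)) (UPoly.mul hp h3))

theorem mem_cols {A : LLB} {y : ℕ × ℕ} (hy : y ∈ cols A) : y.2 < A.length := by
  unfold cols at hy
  rw [List.mem_append] at hy
  rcases hy with hy | hy
  · obtain ⟨j, hj, rfl⟩ := List.mem_map.1 hy
    exact List.mem_range.1 hj
  · obtain ⟨i, hi, hy⟩ := List.mem_flatMap.1 hy
    obtain ⟨j, hj, rfl⟩ := List.mem_map.1 hy
    exact List.mem_range.1 hi

theorem colN_le {p : ℕ} {A : LLB} {y : ℕ × ℕ} (hy : y.2 < A.length) : colN p y ≤ NB p A := by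
  have h1 : (p - 1) * p ≤ p * p := Nat.mul_le_mul_right _ (Nat.sub_le _ _)
  have h2 : y.2 * p ^ 2 ≤ A.length * p ^ 2 := Nat.mul_le_mul_right _ hy.le
  have h3 : (p - 1 - y.2) * p ^ 3 ≤ p * p ^ 3 := Nat.mul_le_mul_right _ (by omega)
  have h4 : (p - 1 - y.2) * p ≤ p * p := Nat.mul_le_mul_right _ (by omega)
  have h5 : (p - 1) * p ^ 2 ≤ p * p ^ 2 := Nat.mul_le_mul_right _ (Nat.sub_le _ _)
  have h6 : (p - 1) * p ^ 3 ≤ p * p ^ 3 := Nat.mul_le_mul_right _ (Nat.sub_le _ _)
  unfold colN NB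
  split_ifs <;> omega

theorem cmps_le {p : ℕ} {A : LLB} : ∀ x ∈ cmps p A, x.1 ≤ NB p A ∧ x.2 ≤ NB p A := by
  intro x hx
  unfold cmps at hx
  rw [List.mem_append] at hx
  rcases hx with hx | hx
  · obtain ⟨e, _, rfl⟩ := List.mem_map.1 hx
    refine ⟨?_, Nat.zero_le _⟩
    show p ^ 4 - 1 - rowN p e ≤ NB p A
    unfold NB
    omega
  · obtain ⟨y, hy, rfl⟩ := List.mem_map.1 hx
    exact ⟨Nat.zero_le _, colN_le (mem_cols hy)⟩

theorem perm_cmps_poly {p m : α → ℕ} {A : α → LLB} (hp : UPoly p) (hA : Poly A)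
    (hm : UPoly m) : Poly (fun a => perm (cmps (p a) (A a)) (m a)) :=
  perm_poly (cmps_poly hp.toPoly hA) hm (NB_upoly hp hA) (fun _ => cmps_le)

theorem DD_upoly {p : α → ℕ} {A : α → LLB} (hp : UPoly p) (hA : Poly A) :
    UPoly (fun a => DD (cmps (p a) (A a))) := by
  have hc := cmps_poly hp.toPoly hA
  have h1 : Poly (fun a => ((cmps (p a) (A a)).map (fun x => x.1 + x.2 + 1)).sum) :=
    NPC.Poly.sum (NPC.Poly.map (F := fun _ (x : ℕ × ℕ) => x.1 + x.2 + 1) hc
      (NPC.Poly.succ (NPC.Poly.add (NPC.Poly.fst (NPC.Poly.snd NPC.Poly.id)) (NPC.Poly.snd (NPC.Poly.snd NPC.Poly.id)))))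
  have h2 : Poly (fun a => DD (cmps (p a) (A a))) :=
    NPC.Poly.sub h1 (NPC.Poly.div (NPC.Poly.length hc) (NPC.Poly.const 2))
  refine UPoly.of_le h2 (UPoly.mul (UPoly.length hc)
    (UPoly.add (UPoly.mul (UPoly.const 2) (NB_upoly hp hA)) (UPoly.const 1))) fun a => ?_
  have h3 : ∀ l : List (ℕ × ℕ), ∀ N : ℕ, (∀ x ∈ l, x.1 ≤ N ∧ x.2 ≤ N) →
      (l.map (fun x => x.1 + x.2 + 1)).sum ≤ l.length * (2 * N + 1) := by
    intro l N
    induction l with
    | nil => intro _; simp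
    | cons x l ih =>
      intro h
      have h4 := ih fun y hy => h y (List.mem_cons_of_mem _ hy)
      have h5 := h x (List.mem_cons_self ..)
      rw [List.map_cons, List.sum_cons, List.length_cons, add_mul]
      omega
  unfold DD
  exact (Nat.sub_le _ _).trans (h3 _ _ cmps_le)

/-! ### The primes -/

theorem prime_poly {p : α → ℕ} (hp : UPoly p) : Poly (fun a => decide (p a).Prime) := by
  have h1 : Poly (fun q : α × ℕ => decide (q.2 < 2) || decide (¬ p q.1 % q.2 = 0)) :=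
    NPC.Poly.or (NPC.Poly.decide_lt (NPC.Poly.snd NPC.Poly.id) (NPC.Poly.const 2))
      (NPC.Poly.decide_not (p := fun q : α × ℕ => p q.1 % q.2 = 0)
        (NPC.Poly.decide_eq (NPC.Poly.mod (hp.toPoly.comp (NPC.Poly.fst NPC.Poly.id)) (NPC.Poly.snd NPC.Poly.id))
          (NPC.Poly.const 0)))
  have h2 : Poly (fun a => (List.range (p a)).all
      (fun d => decide (d < 2) || decide (¬ p a % d = 0))) :=
    NPC.Poly.all (p := fun a d => decide (d < 2) || decide (¬ p a % d = 0)) hp.range h1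
  refine (NPC.Poly.and (NPC.Poly.decide_le (NPC.Poly.const 2) hp.toPoly) h2).congr fun a => ?_
  rw [Bool.eq_iff_iff, Bool.and_eq_true, decide_eq_true_eq, decide_eq_true_eq,
    Nat.prime_def_lt', List.all_eq_true]
  refine and_congr Iff.rfl ?_
  constructor
  · intro h m hm hmp hd
    have h3 := h m (List.mem_range.2 hmp)
    rw [Bool.or_eq_true, decide_eq_true_eq, decide_eq_true_eq] at h3
    rcases h3 with h3 | h3
    · omega
    · exact h3 (Nat.mod_eq_zero_of_dvd hd)
  · intro h d hd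
    rw [List.mem_range] at hd
    rw [Bool.or_eq_true, decide_eq_true_eq, decide_eq_true_eq]
    by_cases h2 : d < 2
    · exact Or.inl h2
    · exact Or.inr fun h3 => h d (by omega) hd (Nat.dvd_of_mod_eq_zero h3)

/-- the bound for the primes -/
def bd (c : ℕ) (A : LLB) : ℕ := c * (2 * A.length + (edg A).length ^ 2 + 1)

theorem bd_upoly (c : ℕ) {A : α → LLB} (hA : Poly A) : UPoly (fun a => bd c (A a)) := by
  have h1 : UPoly (fun a => (edg (A a)).length) := UPoly.length (edg_poly.comp hA)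
  have h2 : UPoly (fun a => (edg (A a)).length ^ 2) := by simpa [pow_two] using UPoly.mul h1 h1
  exact UPoly.mul (UPoly.const c) (UPoly.add (UPoly.add (UPoly.mul (UPoly.const 2)
    (UPoly.length hA)) h2) (UPoly.const 1))

theorem primesA_poly (c : ℕ) {A : α → LLB} (hA : Poly A) :
    Poly (fun a => primesA c (A a)) := by
  have hb := bd_upoly c hA
  have hm : UPoly (fun q : α × ℕ => min q.2 (bd c (A q.1))) :=
    upoly_min (NPC.Poly.snd NPC.Poly.id) (hb.comp (NPC.Poly.fst NPC.Poly.id))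
  have h1 : Poly (fun q : α × ℕ => decide (2 * (A q.1).length < q.2 ∧
      (min q.2 (bd c (A q.1))).Prime)) :=
    NPC.Poly.decide_and (p := fun q : α × ℕ => 2 * (A q.1).length < q.2)
      (q := fun q : α × ℕ => (min q.2 (bd c (A q.1))).Prime)
      (NPC.Poly.decide_lt (NPC.Poly.mul (NPC.Poly.const 2) (NPC.Poly.length (hA.comp (NPC.Poly.fst NPC.Poly.id))))
        (NPC.Poly.snd NPC.Poly.id)) (prime_poly hm)
  refine (NPC.Poly.filter (l := fun a => List.range (bd c (A a)))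
    (p := fun a p => decide (2 * (A a).length < p ∧ (min p (bd c (A a))).Prime)) hb.range
    h1).congr fun a => ?_
  unfold primesA
  refine List.filter_congr fun p hp => ?_
  rw [List.mem_range] at hp
  rw [min_eq_left hp.le]

theorem mem_primesA {c : ℕ} {A : LLB} {p : ℕ} (hp : p ∈ primesA c A) :
    p < bd c A ∧ p.Prime := by
  unfold primesA at hp
  rw [List.mem_filter, List.mem_range, decide_eq_true_eq] at hp
  exact ⟨hp.1, hp.2.2⟩

end

end Pool.Agent.NH88.SR
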