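import Pool.Agent.NH88.SR.Stm1

/-!
# Positivity (A7)
-/

namespace Pool.Agent.NH88.SR

open Finset Pool.Agent.TH700

theorem pt_pre (cs : List (ℕ × ℕ)) (k : ℕ → ℕ) (c : ℕ) (hc : c < cs.length) :
    pt (pre cs k) c = (range (k c)).image (fun i => (c, i)) := by
  ext v
  simp only [pt, pre, mem_filter, mem_biUnion, mem_range, mem_image]
  constructor
  · rintro ⟨⟨d, hd, i, hi, rfl⟩, h⟩
    simp only at h
    subst h
    exact ⟨i, hi, rfl⟩
  · rintro ⟨i, hi, rfl⟩
    exact ⟨⟨c, hc, i, hi, rfl⟩, rfl⟩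

theorem pre_subset (cs : List (ℕ × ℕ)) (k : ℕ → ℕ) (hk : ∀ c < cs.length, k c ≤ Kc cs c) :
    pre cs k ⊆ Ws cs := by
  intro v hv
  simp only [pre, mem_biUnion, mem_range, mem_image] at hv
  obtain ⟨d, hd, i, hi, rfl⟩ := hv
  rw [mem_Ws]
  exact ⟨hd, lt_of_lt_of_le hi (hk d hd)⟩

theorem mem_pre' {cs : List (ℕ × ℕ)} {k : ℕ → ℕ} {v : ℕ × ℕ} :
    v ∈ pre cs k ↔ v.1 < cs.length ∧ v.2 < k v.1 := by
  simp only [pre, mem_biUnion, mem_range, mem_image]
  constructor
  · rintro ⟨c, hc, i, hi, rfl⟩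
    exact ⟨hc, hi⟩
  · rintro ⟨h1, h2⟩
    exact ⟨v.1, h1, v.2, h2, rfl⟩

theorem okA_pre (hlin : S_lin) (hpre : S_pre) (cs : List (ℕ × ℕ)) (k : ℕ → ℕ)
    (hk : ∀ c < cs.length, k c ≤ Kc cs c) : okA cs (pre cs k) false := by
  rw [(hlin cs (pre cs k) (pre_subset cs k hk)).1]
  intro c hc
  rw [pt_pre cs k c hc]
  exact ((hpre cs c hc).1 (k c) (hk c hc)).1

theorem erase_pre (cs : List (ℕ × ℕ)) (k : ℕ → ℕ) (c : ℕ) (h : 0 < k c) :
    (pre cs k).erase (c, k c - 1) = pre cs (Function.update k c (k c - 1)) := by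
  ext v
  obtain ⟨d, i⟩ := v
  simp only [mem_erase, mem_pre', ne_eq, Prod.mk.injEq]
  by_cases hd : d = c
  · subst hd
    rw [Function.update_self]
    constructor
    · rintro ⟨h1, h2, h3⟩
      refine ⟨h2, ?_⟩
      have : i ≠ k d - 1 := fun h4 => h1 ⟨rfl, h4⟩
      omega
    · rintro ⟨h1, h2⟩
      refine ⟨?_, h1, by omega⟩
      rintro ⟨-, h4⟩
      omega
  · rw [Function.update_of_ne hd]
    constructor
    · rintro ⟨h1, h2, h3⟩
      exact ⟨h2, h3⟩
    · rintro ⟨h2, h3⟩
      exact ⟨fun h4 => hd h4.1, h2, h3⟩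

theorem u_pre_pos (hlin : S_lin) (hpre : S_pre) (cs : List (ℕ × ℕ)) : ∀ (n : ℕ) (k : ℕ → ℕ),
    (∀ c < cs.length, k c ≤ Kc cs c) → (pre cs k).card = n → 0 < u (okA cs) n (pre cs k) 0 := by
  intro n
  induction n with
  | zero => intro k _ _; simp [u]
  | succ n ih =>
    intro k hk hcard
    have hne : (pre cs k).Nonempty := by
      rw [← card_pos, hcard]; exact Nat.succ_pos _
    obtain ⟨v, hv⟩ := hne
    rw [mem_pre'] at hv
    obtain ⟨hv1, hv2⟩ := hv
    set c := v.1 with hc
    have hkc : 0 < k c := by omega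
    have hmem : (c, k c - 1) ∈ pre cs k := by
      rw [mem_pre']
      exact ⟨hv1, by simp only; omega⟩
    have hk' : ∀ d < cs.length, Function.update k c (k c - 1) d ≤ Kc cs d := by
      intro d hd
      by_cases h : d = c
      · rw [h, Function.update_self]
        have := hk c hv1
        omega
      · rw [Function.update_of_ne h]
        exact hk d hd
    have hcard' : (pre cs (Function.update k c (k c - 1))).card = n := by
      rw [← erase_pre cs k c hkc, card_erase_of_mem hmem, hcard]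
      rfl
    have h1 := ih _ hk' hcard'
    have h2 := okA_pre hlin hpre cs _ hk'
    rw [← erase_pre cs k c hkc] at h1 h2
    simp only [u]
    refine Nat.add_pos_left ?_ _
    classical
    refine lt_of_lt_of_le ?_ (single_le_sum (f := fun v => if okA cs ((pre cs k).erase v) (par 0)
      then u (okA cs) n ((pre cs k).erase v) 0 else 0) (fun _ _ => Nat.zero_le _) hmem)
    rw [if_pos (by simpa [par] using h2)]
    exact h1

theorem Ws_eq_pre (cs : List (ℕ × ℕ)) : Ws cs = pre cs (Kc cs) := rfl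

/-- **A7.** -/
theorem s_pos : S_lin → S_pre → S_pos := by
  intro hlin hpre cs m hcs _
  have hW0 : okA cs (Ws cs) false := by
    rw [Ws_eq_pre]
    exact okA_pre hlin hpre cs (Kc cs) (fun c _ => le_rfl)
  have hEE : EE cs (Ws cs) = cs.length := by
    classical
    unfold EE
    have h1 : ((range cs.length).filter (fun c => okA cs (pt (Ws cs) c) false ∧
        ¬ okA cs (pt (Ws cs) c) true)) = range cs.length := by
      rw [filter_eq_self]
      intro c hc
      have hc' := mem_range.1 hc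
      rw [Ws_eq_pre, pt_pre cs (Kc cs) c hc']
      have h2 := (hpre cs c hc').1 (Kc cs c) le_rfl
      refine ⟨h2.1, fun h3 => ?_⟩
      have h4 := h2.2.1 h3
      simp only [Kc] at h4
      omega
    convert congrArg Finset.card h1 using 1
    rw [card_range]
  have hW1 : okA cs (Ws cs) true := by
    rw [(hlin cs (Ws cs) (Subset.refl _)).2 hW0, hEE]
    exact hcs
  have hW : ∀ b, okA cs (Ws cs) b := by
    intro b
    cases b
    · exact hW0
    · exact hW1
  refine ⟨hW0, ?_⟩
  have key : ∀ j : ℕ, 0 < u (okA cs) ((Ws cs).card + j) (Ws cs) j := by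
    intro j
    induction j with
    | zero =>
      rw [add_zero]
      rw [Ws_eq_pre]
      exact u_pre_pos hlin hpre cs _ (Kc cs) (fun c _ => le_rfl) rfl
    | succ j ih =>
      rw [← add_assoc]
      simp only [u]
      refine Nat.add_pos_right _ ?_
      rw [if_pos ⟨by omega, hW _⟩]
      simpa using ih
  exact key m

end Pool.Agent.NH88.SR
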