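import Pool.Agent.NH88.SR.Stm1

/-!
# Elementary facts about the number `EE` of critical parts
-/

namespace Pool.Agent.NH88.SR.PotAux

open Finset Pool.Agent.TH700 Pool.Agent.NH88.SR

theorem pt_erase_ne {S : Finset (ℕ × ℕ)} {v : ℕ × ℕ} {d : ℕ} (h : d ≠ v.1) :
    pt (S.erase v) d = pt S d := by
  ext x
  simp only [pt, mem_filter, mem_erase]
  constructor
  · rintro ⟨⟨_, h1⟩, h2⟩
    exact ⟨h1, h2⟩
  · rintro ⟨h1, h2⟩
    refine ⟨⟨?_, h1⟩, h2⟩
    rintro rfl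
    exact h h2.symm

theorem pt_mono {S T : Finset (ℕ × ℕ)} (h : S ⊆ T) (c : ℕ) : pt S c ⊆ pt T c :=
  filter_subset_filter _ h

theorem okA_empty_false (cs : List (ℕ × ℕ)) : okA cs ∅ false := by
  unfold okA st
  simpa using ns_empty (M0 cs)

theorem okA_empty_true (cs : List (ℕ × ℕ)) : okA cs ∅ true := by
  unfold okA st
  intro x hx v hv
  simp only [if_true, image_empty, insert_empty_eq, mem_singleton, forall_eq,
    sum_singleton] at hx hv
  subst hv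
  simpa [M0] using hx

open Classical in
/-- the set counted by `EE` -/
noncomputable def FF (cs : List (ℕ × ℕ)) (S : Finset (ℕ × ℕ)) : Finset ℕ :=
  (range cs.length).filter (fun c => okA cs (pt S c) false ∧ ¬ okA cs (pt S c) true)

theorem EE_eq (cs : List (ℕ × ℕ)) (S : Finset (ℕ × ℕ)) : EE cs S = (FF cs S).card := rfl

theorem mem_FF {cs : List (ℕ × ℕ)} {S : Finset (ℕ × ℕ)} {c : ℕ} :
    c ∈ FF cs S ↔ c < cs.length ∧ okA cs (pt S c) false ∧ ¬ okA cs (pt S c) true := by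
  classical
  simp only [FF, mem_filter, mem_range]

theorem FF_sub (cs : List (ℕ × ℕ)) (S : Finset (ℕ × ℕ)) (v : ℕ × ℕ) :
    FF cs S ⊆ insert v.1 (FF cs (S.erase v)) := by
  intro c hc
  rw [mem_insert]
  by_cases h : c = v.1
  · exact Or.inl h
  · right
    rw [mem_FF] at hc ⊢
    rwa [pt_erase_ne h]

theorem EE_erase (cs : List (ℕ × ℕ)) (S : Finset (ℕ × ℕ)) (v : ℕ × ℕ) :
    EE cs S ≤ EE cs (S.erase v) + 1 := by
  rw [EE_eq, EE_eq]
  exact (card_le_card (FF_sub cs S v)).trans (card_insert_le _ _)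

theorem EE_erase' {cs : List (ℕ × ℕ)} {S : Finset (ℕ × ℕ)} {v : ℕ × ℕ}
    (h : ¬ okA cs (pt S v.1) false) : EE cs S ≤ EE cs (S.erase v) := by
  rw [EE_eq, EE_eq]
  refine card_le_card fun c hc => ?_
  have hc' := hc
  rw [mem_FF] at hc'
  by_cases e : c = v.1
  · subst e
    exact absurd hc'.2.1 h
  · rw [mem_FF, pt_erase_ne e]
    exact hc'

theorem nonempty_of_mem_FF {cs : List (ℕ × ℕ)} {S : Finset (ℕ × ℕ)} {c : ℕ} (h : c ∈ FF cs S) :
    c ∈ S.image Prod.fst := by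
  rw [mem_FF] at h
  have : (pt S c).Nonempty := by
    rw [nonempty_iff_ne_empty]
    intro e
    rw [e] at h
    exact h.2.2 (okA_empty_true cs)
  obtain ⟨x, hx⟩ := this
  simp only [pt, mem_filter] at hx
  exact mem_image.2 ⟨x, hx.1, hx.2⟩

theorem EE_le (cs : List (ℕ × ℕ)) (S : Finset (ℕ × ℕ)) : EE cs S ≤ S.card := by
  rw [EE_eq]
  exact (card_le_card fun c hc => nonempty_of_mem_FF hc).trans card_image_le

theorem EE_lt {cs : List (ℕ × ℕ)} {S : Finset (ℕ × ℕ)} {c : ℕ}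
    (h : ¬ okA cs (pt S c) false) : EE cs S + 1 ≤ S.card := by
  rw [EE_eq]
  have h1 : c ∉ FF cs S := by
    rw [mem_FF]
    rintro ⟨_, h2, _⟩
    exact h h2
  have h2 : (pt S c).Nonempty := by
    rw [nonempty_iff_ne_empty]
    intro e
    rw [e] at h
    exact h (okA_empty_false cs)
  rw [← card_insert_of_notMem h1]
  refine le_trans (card_le_card ?_) (card_image_le (s := S) (f := Prod.fst))
  intro d hd
  rcases mem_insert.1 hd with rfl | hd
  · obtain ⟨x, hx⟩ := h2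
    simp only [pt, mem_filter] at hx
    exact mem_image.2 ⟨x, hx.1, hx.2⟩
  · exact nonempty_of_mem_FF hd

theorem exists_sing (hl : S_lin) {cs : List (ℕ × ℕ)} {S : Finset (ℕ × ℕ)} (hS : S ⊆ Ws cs)
    (h : ¬ okA cs S false) : ∃ c < cs.length, ¬ okA cs (pt S c) false := by
  by_contra hc
  push Not at hc
  exact h ((hl cs S hS).1.2 hc)

theorem EE_lt' (hl : S_lin) {cs : List (ℕ × ℕ)} {S : Finset (ℕ × ℕ)} (hS : S ⊆ Ws cs)
    (h : ¬ okA cs S false) : EE cs S + 1 ≤ S.card := by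
  obtain ⟨c, _, h⟩ := exists_sing hl hS h
  exact EE_lt h

/-- prefixes -/
theorem pt_pre {cs : List (ℕ × ℕ)} {k : ℕ → ℕ} {c : ℕ} (hc : c < cs.length) :
    pt (pre cs k) c = (range (k c)).image (fun i => (c, i)) := by
  ext ⟨d, i⟩
  simp only [pt, pre, mem_filter, mem_biUnion, mem_range, mem_image, Prod.mk.injEq]
  constructor
  · rintro ⟨⟨e, he, j, hj, rfl, rfl⟩, rfl⟩
    exact ⟨j, hj, rfl, rfl⟩
  · rintro ⟨j, hj, rfl, rfl⟩
    exact ⟨⟨c, hc, j, hj, rfl, rfl⟩, rfl⟩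

theorem Ws_eq_pre (cs : List (ℕ × ℕ)) : Ws cs = pre cs (Kc cs) := rfl

theorem pre_subset {cs : List (ℕ × ℕ)} {k : ℕ → ℕ} (hk : ∀ c < cs.length, k c ≤ Kc cs c) :
    pre cs k ⊆ Ws cs := by
  intro v hv
  simp only [pre, mem_biUnion, mem_range, mem_image] at hv
  obtain ⟨c, hc, i, hi, rfl⟩ := hv
  exact mem_Ws.2 ⟨hc, lt_of_lt_of_le hi (hk c hc)⟩

theorem mem_pre {cs : List (ℕ × ℕ)} {k : ℕ → ℕ} {v : ℕ × ℕ} :
    v ∈ pre cs k ↔ v.1 < cs.length ∧ v.2 < k v.1 := by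
  simp only [pre, mem_biUnion, mem_range, mem_image]
  constructor
  · rintro ⟨c, hc, i, hi, rfl⟩
    exact ⟨hc, hi⟩
  · rintro ⟨h1, h2⟩
    exact ⟨v.1, h1, v.2, h2, rfl⟩

theorem okA_pre (hl : S_lin) (hp : S_pre) {cs : List (ℕ × ℕ)} {k : ℕ → ℕ}
    (hk : ∀ c < cs.length, k c ≤ Kc cs c) : okA cs (pre cs k) false := by
  rw [(hl cs _ (pre_subset hk)).1]
  intro c hc
  rw [pt_pre hc]
  exact ((hp cs c hc).1 _ (hk c hc)).1

theorem EE_pre (hp : S_pre) {cs : List (ℕ × ℕ)} {k : ℕ → ℕ}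
    (hk : ∀ c < cs.length, k c ≤ Kc cs c) : EE cs (pre cs k) = Ek cs k := by
  classical
  rw [EE_eq, Ek]
  congr 1
  ext c
  rw [mem_FF, mem_filter, mem_range]
  constructor
  · rintro ⟨hc, h1, h2⟩
    rw [pt_pre hc, ((hp cs c hc).1 _ (hk c hc)).2] at h2
    exact ⟨hc, by omega⟩
  · rintro ⟨hc, h1⟩
    refine ⟨hc, ?_, ?_⟩
    · rw [pt_pre hc]
      exact ((hp cs c hc).1 _ (hk c hc)).1
    · rw [pt_pre hc, ((hp cs c hc).1 _ (hk c hc)).2]
      omega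

theorem Ek_Kc (cs : List (ℕ × ℕ)) : Ek cs (Kc cs) = cs.length := by
  unfold Ek
  rw [filter_true_of_mem, card_range]
  intro c _
  unfold Kc
  omega

end Pool.Agent.NH88.SR.PotAux
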