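import Pool.Agent.NH88.SR.WCyc

/-!
# Statements of the parts of the proof (permutations, words, leading coefficients, hafnians)
-/

namespace Pool.Agent.NH88.SR

open Finset Pool.Agent.TH700

/-! ## Side A: from permutations to words -/

/-- A1: the signed permutation of a word. -/
def S_perm : Prop := ∀ (w : List Lt) (h : Dbl w) (h0 : w ≠ []),
  NS (cycW w h h0).D.M (cycW w h h0).V →
    IsSignedPerm (permW w) ∧ Cyc.Inv (cycW w h h0) (cycW w h h0).V (ext (permW w))

/-- A2: the overlap matrix of a word. -/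
def S_cross : Prop := ∀ (w : List Lt) (h : Dbl w) (h0 : w ≠ []),
  (∀ u ∈ (cycW w h h0).V, ∀ v ∈ (cycW w h h0).V, u ≠ v →
    w.getD u (0, 0) ≠ w.getD v (0, 0) ∧
    (cycW w h h0).D.M u v = if crs w (w.getD u (0, 0)) (w.getD v (0, 0)) then 1 else 0) ∧
  (∀ x ∈ w, ∃ u ∈ (cycW w h h0).V, w.getD u (0, 0) = x)

/-- the letters of the word of `cs` and `m` -/
def IsLt (cs : List (ℕ × ℕ)) (m : ℕ) (x : Lt) : Prop :=
  (x.1 = 0 ∧ x.2 < m) ∨ ∃ c < cs.length, x.1 = c + 1 ∧ x.2 < Kc cs c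

/-- A3: the word of `cs` and `m`. -/
def S_word : Prop := ∀ (cs : List (ℕ × ℕ)) (m : ℕ),
  (∀ x, x ∈ word cs m ↔ IsLt cs m x) ∧ Dbl (word cs m) ∧
  (∀ i j, i < m → j < m → i ≠ j → crs (word cs m) (0, i) (0, j) = false) ∧
  (∀ i c j, i < m → c < cs.length → j < Kc cs c →
    crs (word cs m) (0, i) (c + 1, j) = decide (j = aa cs c ∨ j = aa cs c + 1) ∧
    crs (word cs m) (c + 1, j) (0, i) = decide (j = aa cs c ∨ j = aa cs c + 1)) ∧
  (∀ c i j, c < cs.length → i < Kc cs c → j < Kc cs c → i ≠ j →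
    crs (word cs m) (c + 1, i) (c + 1, j) = decide (i = j + 1 ∨ j = i + 1)) ∧
  (∀ c d i j, c < cs.length → d < cs.length → c ≠ d → i < Kc cs c → j < Kc cs d →
    crs (word cs m) (c + 1, i) (d + 1, j) = false)

/-- the vertex of a letter -/
def vx (x : Lt) : Option (ℕ × ℕ) := if x.1 = 0 then none else some (x.1 - 1, x.2)

/-- the set of the proper vertices in the image -/
def sS {ι α : Type*} [DecidableEq α] (f : ι → Option α) (Q : Finset ι) : Finset α :=
  Finset.eraseNone (Q.image f)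

/-- the number of elements mapped to `none` -/
def jj {ι α : Type*} [DecidableEq α] (f : ι → Option α) (Q : Finset ι) : ℕ :=
  (Q.filter (fun e => f e = none)).card

/-- A4: nonsingularity for the word of `cs` and `m`. -/
def S_ns : Prop := ∀ (cs : List (ℕ × ℕ)) (m : ℕ) (h : Dbl (word cs m)) (h0 : word cs m ≠ []),
  ∀ Q ⊆ (cycW (word cs m) h h0).V,
    (NS (cycW (word cs m) h h0).D.M Q ↔
      okA cs (sS (fun e => vx ((word cs m).getD e (0, 0))) Q)
        (par (jj (fun e => vx ((word cs m).getD e (0, 0))) Q)))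

/-- A5: the number of optimal sorting sequences. -/
def S_chn : Prop := ∀ (n : ℕ) (C : Cyc n) (l : List ℤ), l.length = n →
  Cyc.Inv C C.V (ext l) → 0 < chn C.D.M C.V.card C.V → numOpt l = chn C.D.M C.V.card C.V

/-- A6: unlabelled words. -/
def S_cu : Prop := ∀ (M : ℕ → ℕ → ZMod 2) (V : Finset ℕ) (f : ℕ → Option (ℕ × ℕ))
  (ok : Finset (ℕ × ℕ) → Bool → Prop),
  (∀ u ∈ V, ∀ v ∈ V, f u = f v → f u ≠ none → u = v) →
  (∀ Q ⊆ V, NS M Q ↔ ok (sS f Q) (par (jj f Q))) →
  ∀ Q ⊆ V, chn M Q.card Q = (jj f Q).factorial * u ok Q.card (sS f Q) (jj f Q)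

/-- A7: positivity. -/
def S_pos : Prop := ∀ (cs : List (ℕ × ℕ)) (m : ℕ), Even cs.length → Even m →
  okA cs (Ws cs) false ∧ 0 < U cs m

/-- Result of side A. -/
def Stm_A : Prop := ∀ (cs : List (ℕ × ℕ)) (m : ℕ), cs ≠ [] → Even cs.length → Even m →
  IsSignedPerm (perm cs m) ∧ numOpt (perm cs m) = m.factorial * U cs m

/-! ## Side B: leading coefficients -/

/-- B1: generating functions. -/
def S_type : Prop := ∀ (ok : Finset (ℕ × ℕ) → Bool → Prop) (B : Finset (ℕ × ℕ) → ℕ),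
  ok ∅ false → ok ∅ true → B ∅ = 1 →
  (∀ S, S.Nonempty → ok S false → ok S true → ∀ v ∈ S, ∀ x, ok (S.erase v) x →
    B (S.erase v) + 1 ≤ B S) →
  (∀ S x, ok S x → ¬ ok S (!x) → ∀ v ∈ S, ok (S.erase v) x → B (S.erase v) ≤ B S) →
  ∀ W D, ok W false → B W = D + 1 →
    fdiff D (fun r => u ok (W.card + 2 * r) W (2 * r)) = (Lf ok B W.card W false : ℤ)

/-- the part of `S` in the path number `c` -/
def pt (S : Finset (ℕ × ℕ)) (c : ℕ) : Finset (ℕ × ℕ) := S.filter (fun v => v.1 = c)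

/-- The number of the paths whose part of `S` is nonsingular, but singular after adding `X`. -/
noncomputable def EE (cs : List (ℕ × ℕ)) (S : Finset (ℕ × ℕ)) : ℕ := by
  classical
  exact ((range cs.length).filter (fun c => okA cs (pt S c) false ∧ ¬ okA cs (pt S c) true)).card

/-- the set of the vertices before `k` -/
def pre (cs : List (ℕ × ℕ)) (k : ℕ → ℕ) : Finset (ℕ × ℕ) :=
  (range cs.length).biUnion (fun c => (range (k c)).image (fun i => (c, i)))

/-- B2: linear algebra. -/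
def S_lin : Prop := ∀ (cs : List (ℕ × ℕ)) (S : Finset (ℕ × ℕ)), S ⊆ Ws cs →
  (okA cs S false ↔ ∀ c < cs.length, okA cs (pt S c) false) ∧
  (okA cs S false → (okA cs S true ↔ Even (EE cs S)))

/-- B3: prefixes of a path. -/
def S_pre : Prop := ∀ (cs : List (ℕ × ℕ)) (c : ℕ), c < cs.length →
  (∀ k ≤ Kc cs c, okA cs ((range k).image (fun i => (c, i))) false ∧
    (okA cs ((range k).image (fun i => (c, i))) true ↔ k ≤ aa cs c)) ∧
  (∀ k j, k ≤ Kc cs c → j < Kc cs c → k ≤ j →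
    okA cs (insert (c, j) ((range k).image (fun i => (c, i)))) false → j = k)

open Classical in
/-- The bound for the orders of the poles. -/
noncomputable def Bp (cs : List (ℕ × ℕ)) (S : Finset (ℕ × ℕ)) : ℕ :=
  if okA cs S false then S.card + 1 - (EE cs S + 1) / 2 else S.card - (EE cs S + 1) / 2

/-- B4: finite differences of `U`. -/
def S_lead : Prop := ∀ (cs : List (ℕ × ℕ)), Even cs.length →
  fdiff ((Ws cs).card - cs.length / 2) (fun r => U cs (2 * r)) =
    (Lf (fun S x => S ⊆ Ws cs ∧ okA cs S x) (Bp cs) (Ws cs).card (Ws cs) false : ℤ)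

/-- the number of the paths with more than `a` vertices -/
def Ek (cs : List (ℕ × ℕ)) (k : ℕ → ℕ) : ℕ :=
  ((range cs.length).filter (fun c => aa cs c < k c)).card

/-- The leading coefficients of the prefixes. -/
def Lv (cs : List (ℕ × ℕ)) : ℕ → (ℕ → ℕ) → ℕ
  | 0, _ => 1
  | r + 1, k => ∑ c ∈ range cs.length, if k c = 0 then 0 else
      if k c = aa cs c + 1 then Lv cs r (dec k c) else
      if Ek cs k % 2 = 0 then 2 * Lv cs r (dec k c) else 0

/-- B5: only prefixes contribute. -/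
def S_vec : Prop := ∀ (cs : List (ℕ × ℕ)), Even cs.length →
  Lf (fun S x => S ⊆ Ws cs ∧ okA cs S x) (Bp cs) (Ws cs).card (Ws cs) false =
    Lv cs (∑ c ∈ range cs.length, Kc cs c) (Kc cs)

/-- B6: the closed formula. -/
def S_haf : Prop := ∀ (cs : List (ℕ × ℕ)), Even cs.length →
  (Lv cs (∑ c ∈ range cs.length, Kc cs c) (Kc cs) : ℚ) *
    ∏ c ∈ range cs.length, ((aa cs c).factorial * (bb cs c).factorial : ℚ) =
  2 ^ ((∑ c ∈ range cs.length, Kc cs c) - cs.length / 2) *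
    (((∑ c ∈ range cs.length, Kc cs c) - cs.length / 2).factorial : ℚ) *
    haf (wt cs) (cs.length / 2) (range cs.length)

/-- Result of side B. -/
def Stm_B : Prop := ∀ (cs : List (ℕ × ℕ)), Even cs.length →
  (fdiff ((Ws cs).card - cs.length / 2) (fun r => U cs (2 * r)) : ℚ) *
    ∏ c ∈ range cs.length, ((aa cs c).factorial * (bb cs c).factorial : ℚ) =
  2 ^ ((Ws cs).card - cs.length / 2) * (((Ws cs).card - cs.length / 2).factorial : ℚ) *
    haf (wt cs) (cs.length / 2) (range cs.length)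

/-! ## Side C: number theory -/

/-- the product of the numbers below `2 q` which are not divisible by `p` -/
def th (p q : ℕ) : ℕ := (((List.range (2 * q)).filter (fun m => decide (m % p ≠ 0)))).prod

/-- C1: the weights modulo `p`. -/
def S_wt : Prop := ∀ p L : ℕ, p.Prime → 1 ≤ L → (th p (p ^ L)).Coprime p ∧
  ∃ w : ℕ → ℕ → ℤ, ∀ A B, A + B + 1 < 2 * p ^ L →
    (w A B : ℚ) = (th p (p ^ L) : ℚ) * (p : ℚ) ^ L * beta A B ∧
    ((w A B : ℤ) : ZMod p) = (th p (p ^ L) : ZMod p) *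
      (if A < p ^ L then (-1) ^ (p ^ L - 1 - A) * (B.choose (p ^ L - 1 - A) : ZMod p) else 0)

/-- C2: hafnians and permanents. -/
def S_hp : Prop := ∀ (R : Type) [CommRing R] (w : ℕ → ℕ → R) (N : ℕ),
  (∀ i < N, ∀ j < N, i ≠ j → w i j = 0) →
  haf w N (range (2 * N)) = (Matrix.of fun i j : Fin N => w i (N + j)).permanent

/-- C3: hafnians, simple properties. -/
def S_hs : Prop := ∀ (R S : Type) [CommRing R] [CommRing S] (f : R →+* S) (w w' : ℕ → ℕ → R)
  (t : R) (r : ℕ) (E : Finset ℕ),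
  haf (fun c d => f (w c d)) r E = f (haf w r E) ∧
  haf (fun c d => t * w c d) r E = t ^ r * haf w r E ∧
  ((∀ c ∈ E, ∀ d ∈ E, c ≠ d → w c d = w' c d) → haf w r E = haf w' r E)

/-- the number of a row -/
def rowN (p : ℕ) (e : ℕ × ℕ) : ℕ :=
  e.1 + (p - 1 - e.1) * p + e.2 * p ^ 2 + (p - 1 - e.2) * p ^ 3

/-- the number of a column: `(0, j)` stands for the column `j`, and `(1, i)` for an additional
column for the row `i` -/
def colN (p : ℕ) (y : ℕ × ℕ) : ℕ :=
  if y.1 = 0 then (p - 1) + (p - 1) * p + y.2 * p ^ 2 + (p - 1 - y.2) * p ^ 3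
  else y.2 + (p - 1 - y.2) * p + (p - 1) * p ^ 2 + (p - 1) * p ^ 3

/-- the incidence of the edge `e` and the column `y` -/
def inc (e y : ℕ × ℕ) : Bool := if y.1 = 0 then decide (e.2 = y.2) else decide (e.1 = y.2)

/-- C4: binomial coefficients modulo `p`. -/
def S_dig : Prop := ∀ p N : ℕ, p.Prime → 2 * N < p → 1 ≤ N →
  (∀ e y : ℕ × ℕ, e.1 < N → e.2 < N → y.2 < N →
    (((colN p y).choose (rowN p e) : ℕ) : ZMod p) = if inc e y then 1 else 0) ∧
  (∀ e : ℕ × ℕ, e.1 < N → e.2 < N → rowN p e < p ^ 4 ∧ Even (rowN p e)) ∧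
  (∀ y : ℕ × ℕ, y.2 < N → colN p y < p ^ 4) ∧
  (∀ e e' : ℕ × ℕ, e.1 < N → e.2 < N → e'.1 < N → e'.2 < N →
    rowN p e + rowN p e' ≠ p ^ 4 - 1)

/-! ## Side D -/

/-- D1: many primes. -/
def S_primes : Prop := ∃ c : ℕ, ∀ s B : ℕ,
  2 ^ B < ((List.range (c * (s + B + 1))).filter (fun p => decide (s < p ∧ p.Prime))).prod

/-- one step of the reconstruction -/
def crtStep (T : ℕ → ℕ → Bool) (s : ℕ × ℕ) (p : ℕ) : ℕ × ℕ :=
  (s.1 + s.2 * ((List.range p).filter (fun y => T p (s.1 + s.2 * y))).headD 0, s.2 * p)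

/-- The reconstruction of a number from its residues. -/
def crt (T : ℕ → ℕ → Bool) (ps : List ℕ) : ℕ := (ps.foldl (crtStep T) (0, 1)).1

/-- D2: the reconstruction is correct. -/
def S_crt : Prop := ∀ (T : ℕ → ℕ → Bool) (ps : List ℕ) (x : ℕ), ps.Nodup →
  (∀ p ∈ ps, p.Prime) → x < ps.prod →
  (∀ p ∈ ps, ∀ y, T p y = true ↔ y % p = x % p) → crt T ps = x

/-- D3: a bound for the number of optimal sorting sequences. -/
def S_ub : Prop := ∀ l : List ℤ, numOpt l ≤ (l.length + 1) ^ (4 * l.length)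

end Pool.Agent.NH88.SR
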