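import Pool.Agent.NH88.SR.Stm1
import Pool.Agent.H549R2.PM10

/-!
# Statements of the parts of the proof (permanents, queries, polynomial time)
-/

namespace Pool.Agent.NH88.SR

open Finset Pool.Agent.TH700 Pool.Agent.H549R2.Convex Pool.Agent.H549R2.PM Pool.Agent.NPC
  Pool.Agent.NPC.Cnt Pool.Agent.NPC.H549PM

/-- matrices -/
abbrev LLB := List (List Bool)

/-- the number of ones in the row `i` -/
def rdeg (A : LLB) (i : ℕ) : ℕ := ((List.range A.length).filter (fun j => ent A i j)).length

/-- The columns of the extended matrix: `(0, j)` for the columns of `A`, and `rdeg A i - 1` copies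
of `(1, i)` for every row `i`. -/
def cols (A : LLB) : List (ℕ × ℕ) := (List.range A.length).map (fun j => (0, j)) ++
  (List.range A.length).flatMap (fun i => (List.range (rdeg A i - 1)).map (fun _ => (1, i)))

/-- square matrices with a one in every row -/
def Good (A : LLB) : Prop := A ≠ [] ∧ (∀ r ∈ A, r.length = A.length) ∧
  ∀ i < A.length, 1 ≤ rdeg A i

/-- the factor -/
def rfac (A : LLB) : ℕ := ((List.range A.length).map (fun i => (rdeg A i - 1).factorial)).prod

/-- C5: the extended matrix. -/
def S_abs : Prop := ∀ A : LLB, Good A → (cols A).length = (edg A).length ∧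
  (Matrix.of fun i j : Fin (edg A).length =>
    if inc ((edg A).getD i (0, 0)) ((cols A).getD j (0, 0)) then (1 : ℕ) else 0).permanent =
  F A * rfac A

/-- the pairs for the matrix `A` and the prime `p` -/
def cmps (p : ℕ) (A : LLB) : List (ℕ × ℕ) :=
  (edg A).map (fun e => (p ^ 4 - 1 - rowN p e, 0)) ++ (cols A).map (fun y => (0, colN p y))

/-- the degree -/
def DD (cs : List (ℕ × ℕ)) : ℕ := (cs.map (fun x => x.1 + x.2 + 1)).sum - cs.length / 2

/-- the product of the factorials -/
def facs (cs : List (ℕ × ℕ)) : ℕ := (cs.map (fun x => x.1.factorial * x.2.factorial)).prod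

/-- Result of side C. -/
def Stm_C : Prop := ∀ (A : LLB) (p : ℕ), Good A → p.Prime → 2 * A.length < p →
  ∃ Hz : ℕ, fdiff (DD (cmps p A)) (fun r => U (cmps p A) (2 * r)) *
      ((facs (cmps p A) * (th p (p ^ 4) * p ^ 4) ^ (edg A).length : ℕ) : ℤ) =
      ((2 ^ DD (cmps p A) * (DD (cmps p A)).factorial * Hz : ℕ) : ℤ) ∧
    ((Hz : ℕ) : ZMod p) = ((th p (p ^ 4) ^ (edg A).length * (F A * rfac A) : ℕ) : ZMod p)

/-- the answer to a query -/
def look (as : List (List ℤ × ℕ)) (l : List ℤ) : ℕ :=
  ((as.filter (fun x => decide (x.1 = l))).map Prod.snd).headD 0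

/-- the primes -/
def primesA (c : ℕ) (A : LLB) : List ℕ :=
  (List.range (c * (2 * A.length + (edg A).length ^ 2 + 1))).filter
    (fun p => decide (2 * A.length < p ∧ p.Prime))

/-- the queries for a matrix -/
def qsA (c : ℕ) (A : LLB) : List (List ℤ) := (primesA c A).flatMap (fun p =>
  (List.range (DD (cmps p A) + 1)).map (fun k => perm (cmps p A) (2 * k)))

/-- the hafnian of a matrix from the answers -/
def HzF (A : LLB) (as : List (List ℤ × ℕ)) (p : ℕ) : ℕ :=
  alt (DD (cmps p A)) (fun t => look as (perm (cmps p A) (2 * (DD (cmps p A) - t))) /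
    (2 * (DD (cmps p A) - t)).factorial) * (facs (cmps p A) *
      (th p (p ^ 4) * p ^ 4) ^ (edg A).length) / (2 ^ DD (cmps p A) * (DD (cmps p A)).factorial)

/-- the permanent of a matrix from the answers -/
def valA (c : ℕ) (x : LLB × List (List ℤ × ℕ)) : ℕ :=
  crt (fun p y => decide (th p (p ^ 4) ^ (edg x.1).length * y % p = HzF x.1 x.2 p % p))
    (primesA c x.1) / rfac x.1

/-- D4: the value is correct. -/
def S_val : Prop := ∃ c : ℕ, ∀ A : LLB, Good A → ∀ as : List (List ℤ × ℕ),
  (∀ l ∈ qsA c A, look as l = numOpt l) → valA c (A, as) = F A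

/-- D5: the queries are computable in polynomial time. -/
def S_qpoly : Prop := ∀ c : ℕ, Poly (qsA c)

/-- D6: the final computation takes polynomial time. -/
def S_vpoly : Prop := ∀ c : ℕ, Poly (valA c)

/-- D7: from permanents to the number of satisfying assignments. -/
def S_red : Prop := ∀ (g : List ℤ → ℕ) (qs : LLB → List (List ℤ))
  (val : LLB × List (List ℤ × ℕ) → ℕ), Poly qs → Poly val →
  (∀ A : LLB, Good A → ∀ as : List (List ℤ × ℕ), (∀ l ∈ qs A, look as l = g l) →
    val (A, as) = F A) →
  (∃ r : Polynomial ℕ, ∀ l, (g l).size ≤ r.eval (sz l)) → SharpPHard (strFn g)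

/-- The final theorem. -/
def S_main : Prop := SharpPHard (strFn numOpt)

end Pool.Agent.NH88.SR
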