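import Pool.Agent.NH88.SR.Main
import Pool.Agent.NH88.SR.Mem

/-!
# The queries have distance half the number of breakpoints
-/

namespace Pool.Agent.NH88.SR

open Finset Pool.Agent.TH700 Pool.Agent.H549R2.Convex Pool.Agent.H549R2.PM Pool.Agent.NPC
  Pool.Agent.NPC.Cnt Pool.Agent.NPC.H549PM

theorem dist_eq {n : ℕ} {C : Cyc n} {l : List ℤ} (hlen : l.length = n)
    (hI : Cyc.Inv C C.V (ext l)) (hpos : 0 < chn C.D.M C.V.card C.V) :
    revDist l = C.V.card ∧ ∃ rs, Sorts l rs ∧ rs.length = C.V.card := by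
  classical
  let cls : ℕ → Fin (n + 1) := fun v => Fin.ofNat (n + 1) v
  have hVle : ∀ v ∈ C.V, v ≤ n := fun v hv => (Cyc.mem_V.1 hv).1
  have hcls : ∀ v ≤ n, (cls v).val = v := by
    intro v hv
    simp only [cls, Fin.ofNat]
    exact Nat.mod_eq_of_lt (by omega)
  have hclsinj : ∀ u ≤ n, ∀ v ≤ n, cls u = cls v → u = v := by
    intro u hu v hv h
    rw [← hcls u hu, ← hcls v hv, h]
  let ok : (Fin (n + 1) → ℕ) → Prop := fun k =>
    NS C.D.M (C.V.filter (fun v => k (cls v) = 1))
  have hfil : ∀ Q ⊆ C.V, C.V.filter (fun v => kv cls Q (cls v) = 1) = Q := by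
    intro Q hQ
    ext v
    rw [Finset.mem_filter]
    have hk : ∀ v ∈ C.V, Q.filter (fun u => cls u = cls v) = if v ∈ Q then {v} else ∅ := by
      intro v hv
      ext u
      rw [Finset.mem_filter]
      by_cases hvQ : v ∈ Q
      · rw [if_pos hvQ, Finset.mem_singleton]
        constructor
        · rintro ⟨h1, h2⟩
          exact hclsinj u (hVle u (hQ h1)) v (hVle v hv) h2
        · rintro rfl
          exact ⟨hvQ, rfl⟩
      · rw [if_neg hvQ]
        constructor
        · rintro ⟨h1, h2⟩
          have := hclsinj u (hVle u (hQ h1)) v (hVle v hv) h2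
          rw [this] at h1
          exact absurd h1 hvQ
        · intro h
          simp at h
    constructor
    · rintro ⟨h1, h2⟩
      unfold kv at h2
      rw [hk v h1] at h2
      by_contra hvQ
      rw [if_neg hvQ] at h2
      simp at h2
    · intro h
      refine ⟨hQ h, ?_⟩
      unfold kv
      rw [hk v (hQ h), if_pos h, Finset.card_singleton]
  have hok : ∀ Q ⊆ C.V, ok (kv cls Q) ↔ NS C.D.M Q := by
    intro Q hQ
    simp only [ok]
    rw [hfil Q hQ]
  have hcount := card_seqs C cls ok (fun _ => False)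
    (fun Q hQ h => (hok Q hQ).1 h)
    (fun Q hQ l' _ hI' => ⟨fun _ => not_false, fun _ => (hok Q hQ).2 (hI'.ns hQ)⟩)
    C.V.card C.V l (Finset.Subset.refl _) rfl hlen hI
  rw [cnt_chn C.D.M C.V cls ok hok _ _ (Finset.Subset.refl _)] at hcount
  set T := C.V.card with hT
  have hge : ∀ rs, Sorts l rs → T ≤ rs.length := fun rs hrs =>
    length_ge (Finset.Subset.refl _) hlen hI hrs
  have hne : (seqs (fun _ => False) n T l).Nonempty := by
    rw [← Finset.card_pos, hcount]; exact hpos
  obtain ⟨rs0, hrs0⟩ := hne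
  have hrs0' := (mem_seqs _ _ _ _ hlen _).1 hrs0
  have hdist : revDist l = T := by
    unfold revDist
    apply le_antisymm
    · exact Nat.sInf_le ⟨rs0, hrs0'.1, hrs0'.2.1⟩
    · obtain ⟨rs, h1, h2⟩ := Nat.sInf_mem (s := {k | ∃ rs, Sorts l rs ∧ rs.length = k})
        ⟨T, rs0, hrs0'.1, hrs0'.2.1⟩
      rw [← h2]; exact hge rs h1
  exact ⟨hdist, rs0, hrs0'.1, hrs0'.2.1⟩

theorem tight_perm (cs : List (ℕ × ℕ)) (m : ℕ) (hcs : cs ≠ []) (hev : Even cs.length)
    (hm : Even m) : 2 * revDist (perm cs m) = brk (perm cs m) := by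
  obtain ⟨n, C, hlen, hI, hpos⟩ := s_core s_perm s_cross s_word (s_ns s_cross s_word) s_cu
    (s_pos s_lin s_pre) cs m hcs hev hm
  obtain ⟨h1, rs, h2, h3⟩ := dist_eq hlen hI hpos
  have h4 := brk_le h2
  have h5 := hI.bp_ge (Finset.Subset.refl _)
  rw [h1]
  rw [brk_eq, hlen] at h4 ⊢
  omega

theorem tight_queries (c : ℕ) (A : LLB) (hG : Good A) : ∀ l ∈ qsA c A, numTight l = numOpt l := by
  intro l hl
  rw [qsA, List.mem_flatMap] at hl
  obtain ⟨p, hp, hl⟩ := hl
  rw [List.mem_map] at hl
  obtain ⟨k, hk, rfl⟩ := hl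
  obtain ⟨hcl, hperm⟩ := s_abs A hG
  have hN : 1 ≤ A.length := List.length_pos_iff.2 hG.1
  have hne1 : 1 ≤ (edg A).length := by
    rw [← hcl, cols, List.length_append, List.length_map, List.length_range]
    omega
  have hlen : (cmps p A).length = 2 * (edg A).length := by
    rw [cmps, List.length_append, List.length_map, List.length_map, hcl]
    omega
  have hcne : cmps p A ≠ [] := by
    intro h
    rw [h, List.length_nil] at hlen
    omega
  unfold numTight
  rw [if_pos (tight_perm _ _ hcne (by rw [hlen]; exact even_two_mul _) (even_two_mul k))]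

theorem numTight_le (l : List ℤ) : numTight l ≤ numOpt l := by
  unfold numTight
  split_ifs
  · exact le_rfl
  · exact Nat.zero_le _

/-- The restricted problem is #P-hard. -/
theorem hard_tight : SharpPHard (strFn numTight) := by
  obtain ⟨c, hc⟩ := h_val
  refine s_red numTight (qsA c) (valA c) (s_qpoly c) (s_vpoly c) ?_ ⟨_, fun l =>
    (Nat.size_le_size (numTight_le l)).trans (numOpt_size s_ub l)⟩
  intro A hG as has
  exact hc A hG as fun l hl => (has l hl).trans (tight_queries c A hG l hl)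

end Pool.Agent.NH88.SR
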