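import Pool.Agent.NH88.SR.Defs1

/-!
# The cycle structure of a word in which every letter occurs twice
-/

namespace Pool.Agent.NH88.SR

open Finset Pool.Agent.TH700

theorem map_getD_range (w : List Lt) : (List.range w.length).map (fun j => w.getD j (0, 0)) = w := by
  apply List.ext_getElem
  · simp
  · intro i h1 h2
    rw [List.getElem_map, List.getElem_range, List.getD_eq_getElem _ _ h2]

theorem count_eq_filter (w : List Lt) (x : Lt) :
    w.count x = ((List.range w.length).filter (fun j => decide (w.getD j (0, 0) = x))).length := by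
  conv_lhs => rw [← map_getD_range w]
  rw [List.count_eq_countP, List.countP_map, List.countP_eq_length_filter]
  congr 1
  refine List.filter_congr fun j _ => ?_
  rw [Bool.eq_iff_iff]
  simp

theorem opp_spec {w : List Lt} (h : Dbl w) {e : ℕ} (he : e < w.length) :
    opp w e < w.length ∧ opp w e ≠ e ∧ w.getD (opp w e) (0, 0) = w.getD e (0, 0) ∧
      ∀ j < w.length, j ≠ e → w.getD j (0, 0) = w.getD e (0, 0) → j = opp w e := by
  set x := w.getD e (0, 0) with hx
  have hxw : x ∈ w := by
    rw [hx, List.getD_eq_getElem _ _ he]
    exact List.getElem_mem he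
  have h2 := h x hxw
  rw [count_eq_filter] at h2
  set L := (List.range w.length).filter (fun j => decide (w.getD j (0, 0) = x)) with hL
  have hnd : L.Nodup := List.nodup_range.filter _
  have heL : e ∈ L := by
    rw [hL, List.mem_filter]
    exact ⟨List.mem_range.2 he, by simp [hx]⟩
  have h3 : (List.range w.length).filter (fun j => decide (j ≠ e) &&
      decide (w.getD j (0, 0) = w.getD e (0, 0))) = L.filter (fun j => decide (j ≠ e)) := by
    rw [hL, List.filter_filter]
  have h4 : L.filter (fun j => decide (j ≠ e)) = L.erase e := by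
    rw [List.Nodup.erase_eq_filter hnd]
    congr 1
    funext j
    by_cases hj : j = e <;> simp [hj]
  have h5 : (L.erase e).length = 1 := by
    rw [List.length_erase_of_mem heL, h2]
  obtain ⟨j, hj⟩ := List.length_eq_one_iff.1 h5
  have h6 : opp w e = j := by
    unfold opp
    rw [h3, h4, hj]
    rfl
  have h7 : j ∈ L.erase e := by rw [hj]; simp
  have h8 := (List.Nodup.mem_erase_iff hnd).1 h7
  have h9 := List.mem_filter.1 h8.2
  rw [h6]
  refine ⟨List.mem_range.1 h9.1, h8.1, by simpa using h9.2, ?_⟩
  intro i hi hie hi2
  have : i ∈ L.erase e := by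
    rw [List.Nodup.mem_erase_iff hnd, hL, List.mem_filter]
    exact ⟨hie, List.mem_range.2 hi, by simpa using hi2⟩
  rw [hj] at this
  simpa using this

/-- The cycle structure of a word in which every letter occurs twice. -/
def cycW (w : List Lt) (h : Dbl w) (h0 : w ≠ []) : Cyc (w.length - 1) where
  χ := opp w
  o := fun e => ori (w.getD e (0, 0))
  le := fun e he => by
    have hl : 0 < w.length := List.length_pos_iff.2 h0
    have := (opp_spec h (e := e) (by omega)).1
    omega
  inv := fun e he => by
    have hl : 0 < w.length := List.length_pos_iff.2 h0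
    obtain ⟨h1, h2, h3, h4⟩ := opp_spec h (e := e) (by omega)
    obtain ⟨_, _, _, h8⟩ := opp_spec h h1
    exact (h8 e (by omega) (Ne.symm h2) h3.symm).symm
  oχ := fun e he => by
    have hl : 0 < w.length := List.length_pos_iff.2 h0
    rw [(opp_spec h (e := e) (by omega)).2.2.1]

end Pool.Agent.NH88.SR
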